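import Mathlib

-- merged part: Pool.Agent.Work.MP_8c604c_gt.B.Cb
section
/-!
Reparametrisation functions for the contraction of loops (copied from the complex case).
-/

open Set Filter Topology
open scoped ContDiff

noncomputable section
namespace Pool.Agent.Work.MP_8c604c_gt.B

open Real

theorem cb_per {h : ℝ → ℝ} (hs : ContDiff ℝ ∞ h) (h0 : ∀ t ≤ (0 : ℝ), h t = h 0)
    (h1 : ∀ t ≥ (1 : ℝ), h t = h 1) : ∃ H : ℝ → ℝ, ContDiff ℝ ∞ H ∧
      (∀ t, H (t + 1) = H t + (h 1 - h 0)) ∧ ∀ t ∈ Icc (0 : ℝ) 1, H t = h t := by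
  refine ⟨fun t => h (t - ⌊t⌋) + (h 1 - h 0) * ⌊t⌋, contDiff_iff_contDiffAt.2 fun a => ?_,
    fun t => ?_, fun t ht => ?_⟩
  · have hc : ContDiff ℝ ∞ fun t => h (t - ⌊a⌋) + h (t - ⌊a⌋ + 1) - h 1 + (h 1 - h 0) * ⌊a⌋ := by
      fun_prop
    refine hc.contDiffAt.congr_of_eventuallyEq ?_
    filter_upwards [Ioo_mem_nhds (a := (⌊a⌋ : ℝ) - 1) (b := ⌊a⌋ + 1)
      (by linarith [Int.floor_le a]) (Int.lt_floor_add_one a)] with t ht
    rcases le_or_gt (⌊a⌋ : ℝ) t with h2 | h2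
    · have h3 : ⌊t⌋ = ⌊a⌋ := Int.floor_eq_iff.2 ⟨h2, ht.2⟩
      rw [h3, h1 (t - ⌊a⌋ + 1) (by linarith)]
      ring
    · have h3 : ⌊t⌋ = ⌊a⌋ - 1 :=
        Int.floor_eq_iff.2 ⟨by push_cast; linarith [ht.1], by push_cast; linarith⟩
      rw [h3, h0 (t - ⌊a⌋) (by linarith)]
      push_cast
      rw [show t - ((⌊a⌋ : ℝ) - 1) = t - ⌊a⌋ + 1 by ring]
      ring
  · simp only [Int.floor_add_one]
    push_cast
    rw [show t + 1 - ((⌊t⌋ : ℝ) + 1) = t - ⌊t⌋ by ring]
    ring
  · rcases ht.2.eq_or_lt with rfl | h2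
    · simp
    · have h3 : ⌊t⌋ = 0 := Int.floor_eq_iff.2 ⟨by simpa using ht.1, by simpa using h2⟩
      simp [h3]

/-- The two functions that describe the deformation of a loop. -/
structure CbF (A b : ℝ → ℝ → ℝ) : Prop where
  sA : ContDiff ℝ ∞ fun y : ℝ × ℝ => A y.1 y.2
  sb : ContDiff ℝ ∞ fun y : ℝ × ℝ => b y.1 y.2
  pA : ∀ ρ t, A ρ (t + π) = A ρ t
  pb : ∀ ρ t, b ρ (t + π) = b ρ t + π
  zero : ∀ t, A 0 t = 1 ∧ b 0 t = t
  one : ∀ t ∈ Icc 0 π, A 1 t = 0 ∨ b 1 t = 0 ∨ b 1 t = π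
  len : ∀ ρ, ∃ m ∈ Icc 0 π, ∃ β ∈ Icc 0 π, ∃ α : ℝ → ℝ, Monotone α ∧ (∀ t, α t ∈ Icc 0 1) ∧
    (∀ t ∈ Icc 0 m, (b ρ t = 0 ∧ (β = 0 ∨ α t = 0)) ∨ (A ρ t = α t ∧ (α t = 0 ∨ b ρ t = β))) ∧
    (∀ t ∈ Icc m π, A ρ t = 1 ∧ b ρ t ∈ Icc β π) ∧ MonotoneOn (b ρ) (Icc m π)

theorem cb_funs : ∃ A b, CbF A b := by
  have hS : ContDiff ℝ ∞ smoothTransition := smoothTransition.contDiff
  have z0 : ∀ {x : ℝ}, x ≤ 0 → smoothTransition x = 0 := smoothTransition.zero_of_nonpos
  have z1 : ∀ {x : ℝ}, 1 ≤ x → smoothTransition x = 1 := smoothTransition.one_of_one_le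
  have n0 := smoothTransition.nonneg
  have n1 := smoothTransition.le_one
  have hπ := pi_pos
  obtain ⟨P, sP, pP, eP⟩ := cb_per (h := fun t => smoothTransition (2 * t - 1)) (by fun_prop)
    (fun t ht => by rw [z0 (by linarith), z0 (by norm_num)])
    (fun t ht => by rw [z1 (by linarith), z1 (by norm_num)])
  obtain ⟨Q, sQ, pQ, eQ⟩ := cb_per (h := fun t => smoothTransition (8 * t - 1)) (by fun_prop)
    (fun t ht => by rw [z0 (by linarith), z0 (by norm_num)])
    (fun t ht => by rw [z1 (by linarith), z1 (by norm_num)])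
  obtain ⟨R, sR, pR, eR⟩ := cb_per
    (h := fun t => 1 - smoothTransition (8 * t) + smoothTransition (4 * t - 1)) (by fun_prop)
    (fun t ht => by rw [z0 (by linarith), z0 (by linarith), z0 (by norm_num), z0 (by norm_num)])
    (fun t ht => by rw [z1 (by linarith), z1 (by linarith), z1 (by norm_num), z1 (by norm_num)])
  rw [z1 (by norm_num), z0 (by norm_num), sub_zero] at pP pQ
  rw [z1 (by norm_num), z1 (by norm_num), z0 (by norm_num), z0 (by norm_num)] at pR
  have hd : ∀ t, (t + π) / π = t / π + 1 := fun t => by rw [add_div, div_self hπ.ne']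
  have hm : ∀ t ∈ Icc 0 π, t / π ∈ Icc (0 : ℝ) 1 := fun t ht =>
    ⟨div_nonneg ht.1 hπ.le, (div_le_one hπ).2 ht.2⟩
  have mo : ∀ s t : ℝ, s ≤ t →
      smoothTransition (2 * (s / π) - 1) ≤ smoothTransition (2 * (t / π) - 1) := fun s t h =>
    smoothTransition.monotone (by linarith [div_le_div_of_nonneg_right h hπ.le])
  refine ⟨fun ρ t => 1 - smoothTransition (3 * ρ - 1) * (1 - R (t / π)),
    fun ρ t => t + smoothTransition (3 * ρ) * (π * P (t / π) - t) +
      smoothTransition (3 * ρ - 2) * (π * (Q (t / π) - P (t / π))),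
    by fun_prop, by fun_prop, fun ρ t => by rw [hd, pR]; ring,
    fun ρ t => by rw [hd, pP, pQ]; ring, fun t => ?_, fun t ht => ?_, fun ρ => ?_⟩
  · rw [z0 (by norm_num), z0 (by norm_num), z0 (by norm_num)]
    exact ⟨by ring, by ring⟩
  · rw [z1 (by norm_num), z1 (by norm_num), z1 (by norm_num), eQ _ (hm t ht), eR _ (hm t ht)]
    rcases le_total (t / π) (1 / 8) with h1 | h1
    · rw [z0 (x := 8 * (t / π) - 1) (by linarith)]
      exact Or.inr (Or.inl (by ring))
    rcases le_total (t / π) (1 / 4) with h2 | h2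
    · rw [z1 (x := 8 * (t / π)) (by linarith), z0 (x := 4 * (t / π) - 1) (by linarith)]
      exact Or.inl (by ring)
    · rw [z1 (x := 8 * (t / π) - 1) (by linarith)]
      exact Or.inr (Or.inr (by ring))
  rcases le_total ρ (1 / 3) with h1 | h1
  · simp only [z0 (x := 3 * ρ - 1) (by linarith), z0 (x := 3 * ρ - 2) (by linarith), zero_mul,
      add_zero, sub_zero]
    have a0 := n0 (3 * ρ)
    have a1 := sub_nonneg.2 (n1 (3 * ρ))
    refine ⟨0, ⟨le_rfl, hπ.le⟩, 0, ⟨le_rfl, hπ.le⟩, fun _ => 0, monotone_const,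
      fun _ => ⟨le_rfl, zero_le_one⟩, fun t ht => Or.inl ⟨?_, Or.inl rfl⟩,
      fun t ht => ⟨trivial, ?_⟩, fun s hs t ht h => ?_⟩
    · rw [le_antisymm ht.2 ht.1, eP _ (hm 0 ⟨le_rfl, hπ.le⟩), z0 (x := 2 * (0 / π) - 1) (by simp)]
      ring
    · rw [eP _ (hm t ht)]
      have a2 := mul_nonneg a0 (mul_nonneg hπ.le (n0 (2 * (t / π) - 1)))
      have a3 := mul_nonneg a0 (mul_nonneg hπ.le (sub_nonneg.2 (n1 (2 * (t / π) - 1))))
      exact ⟨by linarith [mul_nonneg a1 ht.1], by linarith [mul_nonneg a1 (sub_nonneg.2 ht.2)]⟩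
    · simp only [eP _ (hm s hs), eP _ (hm t ht)]
      linarith [mul_nonneg a1 (sub_nonneg.2 h),
        mul_nonneg a0 (mul_nonneg hπ.le (sub_nonneg.2 (mo s t h)))]
  · simp only [z1 (x := 3 * ρ) (by linarith), one_mul]
    have a0 := n0 (3 * ρ - 2)
    have a1 := sub_nonneg.2 (n1 (3 * ρ - 2))
    have hh : ∀ t ∈ Icc (π / 2) π, t ∈ Icc 0 π ∧ 1 / 2 ≤ t / π := fun t ht =>
      ⟨⟨(half_pos hπ).le.trans ht.1, ht.2⟩, (le_div_iff₀ hπ).2 (by linarith [ht.1])⟩
    refine ⟨π / 2, ⟨(half_pos hπ).le, half_le_self hπ.le⟩, smoothTransition (3 * ρ - 2) * π,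
      ⟨mul_nonneg a0 hπ.le, by linarith [mul_nonneg a1 hπ.le]⟩,
      fun t => smoothTransition (4 * (t / π) - 1), fun s t h => smoothTransition.monotone
        (by linarith [div_le_div_of_nonneg_right h hπ.le]), fun t => ⟨n0 _, n1 _⟩,
      fun t ht => ?_, fun t ht => ?_, fun s hs t ht h => ?_⟩
    · have h2 := hm t ⟨ht.1, ht.2.trans (half_le_self hπ.le)⟩
      have h3 : t / π ≤ 1 / 2 := (div_le_iff₀ hπ).2 (by linarith [ht.2])
      simp only [eP _ h2, eQ _ h2, eR _ h2, z0 (x := 2 * (t / π) - 1) (by linarith)]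
      rcases le_total (t / π) (1 / 8) with h4 | h4
      · rw [z0 (x := 8 * (t / π) - 1) (by linarith)]
        exact Or.inl ⟨by ring, Or.inr (z0 (by linarith))⟩
      rcases le_total ρ (2 / 3) with h5 | h5
      · rw [z0 (x := 3 * ρ - 2) (by linarith)]
        exact Or.inl ⟨by ring, Or.inl (by ring)⟩
      rw [z1 (x := 3 * ρ - 1) (by linarith), z1 (x := 8 * (t / π)) (by linarith)]
      refine Or.inr ⟨by ring, ?_⟩
      rcases le_total (t / π) (1 / 4) with h6 | h6
      · exact Or.inl (z0 (by linarith))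
      · rw [z1 (x := 8 * (t / π) - 1) (by linarith)]
        exact Or.inr (by ring)
    · obtain ⟨h2, h3⟩ := hh t ht
      rw [eP _ (hm t h2), eQ _ (hm t h2), eR _ (hm t h2), z1 (x := 8 * (t / π)) (by linarith),
        z1 (x := 4 * (t / π) - 1) (by linarith), z1 (x := 8 * (t / π) - 1) (by linarith)]
      have a2 := mul_nonneg a1 (mul_nonneg hπ.le (n0 (2 * (t / π) - 1)))
      have a3 := mul_nonneg a1 (mul_nonneg hπ.le (sub_nonneg.2 (n1 (2 * (t / π) - 1))))
      exact ⟨by ring, by linarith, by linarith⟩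
    · obtain ⟨h2, h3⟩ := hh t ht
      obtain ⟨h4, h5⟩ := hh s hs
      simp only [eP _ (hm t h2), eQ _ (hm t h2), eP _ (hm s h4), eQ _ (hm s h4),
        z1 (x := 8 * (t / π) - 1) (by linarith), z1 (x := 8 * (s / π) - 1) (by linarith)]
      linarith [mul_nonneg a1 (mul_nonneg hπ.le (sub_nonneg.2 (mo s t h)))]

theorem cb_arg {z w : ℂ} (hz : z ≠ 0) {r t : ℝ} (hr : 0 < r)
    (h : w = r * (Complex.exp (2 * t * Complex.I) * z)) :
    ∃ k : ℤ, w.arg / 2 = z.arg / 2 + t + k * π := by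
  rw [h, Complex.arg_real_mul _ hr]
  have h1 : ‖Complex.exp (2 * t * Complex.I) * z‖ = ‖z‖ := by
    rw [norm_mul, show (2 * t : ℂ) = ((2 * t : ℝ) : ℂ) by push_cast; ring,
      Complex.norm_exp_ofReal_mul_I, one_mul]
  have h2 := Complex.norm_mul_exp_arg_mul_I (Complex.exp (2 * t * Complex.I) * z)
  rw [h1] at h2
  have h3 : (‖z‖ : ℂ) * Complex.exp (2 * t * Complex.I + z.arg * Complex.I) =
      Complex.exp (2 * t * Complex.I) * z := by
    rw [Complex.exp_add, mul_left_comm, Complex.norm_mul_exp_arg_mul_I]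
  obtain ⟨k, hk⟩ := Complex.exp_eq_exp_iff_exists_int.1
    (mul_left_cancel₀ (Complex.ofReal_ne_zero.2 (norm_ne_zero_iff.2 hz)) (h2.trans h3.symm))
  have h4 := congrArg Complex.im hk
  simp at h4
  exact ⟨k, by linarith⟩

theorem cb_mod (a : ℝ) : ∃ t ∈ Icc 0 π, ∃ k : ℤ, a = t + k * π :=
  ⟨a - ⌊a / π⌋ * π, ⟨Int.sub_floor_div_mul_nonneg a pi_pos,
    (Int.sub_floor_div_mul_lt a pi_pos).le⟩, _, (sub_add_cancel _ _).symm⟩

/-- A smooth local branch of the phase. -/
theorem cb_branch {X : Type} [NormedAddCommGroup X] [NormedSpace ℝ X] {f : X → ℂ} {x : X}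
    (hf : ContDiffAt ℝ ∞ f x) (h0 : f x ≠ 0) :
    ∃ θ : X → ℝ, ContDiffAt ℝ ∞ θ x ∧
      ∀ y, f y ≠ 0 → ∃ k : ℤ, (f y).arg / 2 = θ y + k * π := by
  refine ⟨fun y => (f x).arg / 2 + (Complex.log (f y / f x)).im / 2, ?_, fun y hy => ?_⟩
  · have h1 : ContDiffAt ℝ ∞ Complex.log (f x / f x) := by
      rw [div_self h0]
      exact (analyticAt_clog Complex.one_mem_slitPlane).contDiffAt.restrict_scalars ℝ
    have h2 := h1.comp x (f := fun y => f y / f x) (hf.div_const _)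
    exact contDiffAt_const.add ((Complex.imCLM.contDiff.contDiffAt.comp x h2).div_const _)
  · simp only [Complex.log_im]
    refine cb_arg h0 (norm_pos_iff.2 (div_ne_zero hy h0)) ?_
    rw [← mul_assoc, show (2 * ((f y / f x).arg / 2 : ℝ) : ℂ) = (f y / f x).arg by push_cast; ring,
      Complex.norm_mul_exp_arg_mul_I, div_mul_cancel₀ _ h0]

/-- A continuous local branch of the phase. -/
theorem cb_branch_cont {X : Type} [TopologicalSpace X] {f : X → ℂ} {x : X}
    (hf : ContinuousAt f x) (h0 : f x ≠ 0) :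
    ∃ θ : X → ℝ, ContinuousAt θ x ∧
      ∀ y, f y ≠ 0 → ∃ k : ℤ, (f y).arg / 2 = θ y + k * π := by
  obtain ⟨θ, h1, h2⟩ := cb_branch (f := fun z : ℂ => z) (x := f x) contDiffAt_id h0
  exact ⟨fun y => θ (f y), h1.continuousAt.comp hf, fun y hy => h2 _ hy⟩

end Pool.Agent.Work.MP_8c604c_gt.B
end
end

-- merged part: Pool.Agent.Work.MP_8c604c_gt.B.Ctr
section
/-!
Equivariant contraction of short loops, abstract continuous version.
Model: ../ContractB.lean and ../Contract.lean (the smooth version upstairs); here there is no lifting and no smoothness.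
Plan. W rho theta x = sg (A rho theta) (p (phi (-theta) x)) (p (phi (b rho theta - theta) x)) with (A, b) from cb_funs.
near_of_short: on a short loop all pairs of points are closer than pi/2 (both arcs; shift invariance of the variation, short_flow).
W is jointly continuous, pi-periodic in theta, W 0 theta x = p x, W rho (t + theta) (phi t x) is the loop of cb_loop at phi (-theta) x,
so it is short; for rho = 1 it is constant; if the loop of p at x is constant then W rho theta (phi t x) = p x.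
sweep: H (s, x) = W (smoothTransition s * kappa x) (arg (f x) / 2) x, kappa = smoothTransition (2 |f|^2 / eta^2 - 1);
continuity at (s, x): near f x = 0 it is p, else use cb_branch_cont and periodicity. contract: finite cover by eta_a <= |f_a|, induction,
concatenate with if s <= 1/2 (Continuous.if_le) the homotopies H1 (2 s, x) and H2 (2 s - 1, x).
-/

open Set Filter Topology

noncomputable section
namespace Pool.Agent.Work.MP_8c604c_gt.B

open Real

/-- Minimal geodesics between points closer than `π/2`. The topology of `Y` and the distance of `N` are independent. -/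
structure Comb (Y : Type) [TopologicalSpace Y] (N : Type) [PseudoMetricSpace N] where
  j : Y → N
  sg : ℝ → Y → Y → Y
  cont : ContinuousOn (fun p : ℝ × Y × Y => sg p.1 p.2.1 p.2.2) {p | dist (j p.2.1) (j p.2.2) < π / 2}
  zero : ∀ p q, dist (j p) (j q) < π / 2 → sg 0 p q = p
  one : ∀ p q, dist (j p) (j q) < π / 2 → sg 1 p q = q
  self : ∀ a p, sg a p p = p
  lip : ∀ p q, dist (j p) (j q) < π / 2 → ∀ a b,
    dist (j (sg a p q)) (j (sg b p q)) ≤ |a - b| * dist (j p) (j q)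

/-- A continuous flow of period `π`. -/
structure Flo (X : Type) [TopologicalSpace X] where
  φ : ℝ → X → X
  cont : Continuous fun p : ℝ × X => φ p.1 p.2
  zero : ∀ x, φ 0 x = x
  add : ∀ s t x, φ (s + t) x = φ s (φ t x)
  per : ∀ x, φ π x = x

variable {X Y N : Type} [TopologicalSpace X] [TopologicalSpace Y] [PseudoMetricSpace N]

/-- A loop of period `π` is shorter than `π`. -/
def ShortL (j : Y → N) (c : ℝ → Y) : Prop :=
  eVariationOn (fun t => j (c t)) (Icc 0 π) < ENNReal.ofReal π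

theorem ctr_add (c : ℝ → N) {a b d : ℝ} (hab : a ≤ b) (hbd : b ≤ d) :
    eVariationOn c (Icc a b) + eVariationOn c (Icc b d) = eVariationOn c (Icc a d) := by
  simpa only [univ_inter] using eVariationOn.Icc_add_Icc c (s := univ) hab hbd (mem_univ b)

theorem ctr_shift (c : ℝ → N) (a b s : ℝ) :
    eVariationOn (fun t => c (t + s)) (Icc a b) = eVariationOn c (Icc (a + s) (b + s)) := by
  have h1 := eVariationOn.comp_eq_of_monotoneOn c (t := Icc a b)
    (fun t => t + s) fun x _ y _ k => add_le_add_left k s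
  rw [image_add_const_Icc] at h1
  exact h1

/-- The variation over a period does not depend on the starting time. -/
theorem ShortL.shift {j : Y → N} {c : ℝ → Y} (hp : Function.Periodic c π) (h : ShortL j c) (a : ℝ) :
    ShortL j fun t => c (t + a) := by
  obtain ⟨s, hs, k, rfl⟩ := cb_mod a
  have e : (fun t => c (t + (s + k * π))) = fun t => c (t + s) := by
    funext t
    rw [← add_assoc, hp.int_mul k]
  have e2 := ctr_shift (fun t => j (c t)) 0 s π
  simp only [hp _, zero_add] at e2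
  rw [e, ShortL, ctr_shift (fun t => j (c t)), zero_add,
    ← ctr_add _ hs.2 (le_add_of_nonneg_right hs.1), add_comm π s, ← e2, add_comm,
    ctr_add _ hs.1 hs.2]
  exact h

/-- On a short loop any two points are closer than `π/2`. -/
theorem ShortL.near {j : Y → N} {c : ℝ → Y} (hp : Function.Periodic c π) (h : ShortL j c) (s t : ℝ) :
    dist (j (c s)) (j (c t)) < π / 2 := by
  obtain ⟨r, hr, k, e⟩ := cb_mod (t - s)
  have h1 := eVariationOn.edist_le (fun t => j (c (t + s))) (left_mem_Icc.2 hr.1)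
    (right_mem_Icc.2 hr.1)
  have h2 := eVariationOn.edist_le (fun t => j (c (t + s))) (right_mem_Icc.2 hr.2)
    (left_mem_Icc.2 hr.2)
  have h3 := (add_le_add h1 h2).trans_lt ((ctr_add _ hr.1 hr.2).trans_lt (h.shift hp s))
  rw [zero_add, add_comm π s, hp s, edist_dist, ← ENNReal.ofReal_add dist_nonneg dist_nonneg,
    ENNReal.ofReal_lt_ofReal_iff pi_pos] at h3
  rw [show t = r + s + k * π by linarith, hp.int_mul k]
  linarith

theorem ctr_geo (C : Comb Y N) {p q : Y} (h : dist (C.j p) (C.j q) < π / 2) {α : ℝ → ℝ}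
    (hα : Monotone α) (h01 : ∀ t, α t ∈ Icc (0 : ℝ) 1) (a b : ℝ) :
    eVariationOn (fun t => C.j (C.sg (α t) p q)) (Icc a b) ≤ edist (C.j p) (C.j q) := by
  have h1 : LipschitzOnWith (nndist (C.j p) (C.j q)) (fun s => C.j (C.sg s p q)) univ := by
    refine LipschitzOnWith.of_dist_le_mul fun s _ t _ => ?_
    rw [Real.dist_eq, mul_comm]
    exact C.lip p q h s t
  have h2 := h1.comp_eVariationOn_le (g := α) (s := Icc a b) (mapsTo_univ _ _)
  have h3 := (hα.monotoneOn univ).eVariationOn_eq (mem_univ a) (mem_univ b)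
  rw [univ_inter] at h3
  have h4 : ENNReal.ofReal (α b - α a) ≤ 1 :=
    ENNReal.ofReal_le_one.2 (by linarith [(h01 a).1, (h01 b).2])
  rw [h3] at h2
  rw [edist_nndist]
  exact h2.trans (mul_le_of_le_one_right' h4)

theorem ctr_loop (C : Comb Y N) {A b : ℝ → ℝ → ℝ} (hF : CbF A b) {c : ℝ → Y}
    (hc : ∀ t, dist (C.j (c 0)) (C.j (c t)) < π / 2) (h : ShortL C.j c) (ρ : ℝ) :
    ShortL C.j fun t => C.sg (A ρ t) (c 0) (c (b ρ t)) := by
  obtain ⟨m, hm, β, hβ, α, h1, h2, h3, h4, h5⟩ := hF.len ρ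
  refine lt_of_le_of_lt ?_ h
  rw [← ctr_add _ hm.1 hm.2, ← ctr_add _ hβ.1 hβ.2]
  refine add_le_add ?_ ?_
  · rw [eVariationOn.eq_of_eqOn (f' := fun t => C.j (C.sg (α t) (c 0) (c β))) fun t ht => ?_]
    · exact (ctr_geo C (hc β) h1 h2 0 m).trans
        (eVariationOn.edist_le (fun t => C.j (c t)) ⟨le_rfl, hβ.1⟩ ⟨hβ.1, le_rfl⟩)
    refine congrArg C.j ?_
    rcases h3 t ht with ⟨e1, e2 | e2⟩ | ⟨e1, e2 | e2⟩
    · simp only [e1, e2, C.self]
    · simp only [e1, e2, C.self, C.zero _ _ (hc _)]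
    · simp only [e1, e2, C.zero _ _ (hc _)]
    · simp only [e1, e2]
  · rw [eVariationOn.eq_of_eqOn (f' := fun t => C.j (c (b ρ t))) fun t ht => by
      simp only [(h4 t ht).1, C.one _ _ (hc _)]]
    exact eVariationOn.comp_le_of_monotoneOn (fun t => C.j (c t)) (b ρ) h5
      fun t ht => (h4 t ht).2

/-- The deformed map, for a given phase. -/
def ctrW (C : Comb Y N) (F : Flo X) (p : C(X, Y)) (A b : ℝ → ℝ → ℝ) (ρ θ : ℝ) (x : X) : Y :=
  C.sg (A ρ θ) (p (F.φ (-θ) x)) (p (F.φ (b ρ θ - θ) x))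

section
variable (C : Comb Y N) (F : Flo X) (p : C(X, Y)) {A b : ℝ → ℝ → ℝ}

theorem ctr_per (x : X) : Function.Periodic (fun t => p (F.φ t x)) π := fun t => by
  simp only [F.add, F.per]

theorem ctr_still {x : X} (hs : ∀ t, p (F.φ t x) = p x) (ρ θ t : ℝ) :
    ctrW C F p A b ρ θ (F.φ t x) = p x := by
  simp only [ctrW, ← F.add, hs, C.self]

theorem ctr_psi (ρ θ t : ℝ) (x : X) : ctrW C F p A b ρ (t + θ) (F.φ t x) = C.sg (A ρ (t + θ))
    (p (F.φ 0 (F.φ (-θ) x))) (p (F.φ (b ρ (t + θ)) (F.φ (-θ) x))) := by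
  simp only [ctrW, ← F.add]
  congr 3 <;> ring

variable {C F p} (hp : ∀ x, ShortL C.j fun t => p (F.φ t x)) (hF : CbF A b)
include hF

theorem ctr_int (ρ θ : ℝ) (x : X) (k : ℤ) :
    ctrW C F p A b ρ (θ + k * π) x = ctrW C F p A b ρ θ x := by
  refine Function.Periodic.int_mul (f := fun t => ctrW C F p A b ρ t x) (fun t => ?_) k θ
  have h := ctr_per F p x (-(t + π))
  simp only [neg_add, neg_add_cancel_right] at h
  simp only [ctrW, hF.pA, hF.pb, add_sub_add_right_eq_sub, neg_add, h]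

theorem ctr_period (ρ : ℝ) (x : X) : Function.Periodic
    (fun t => C.sg (A ρ t) (p (F.φ 0 x)) (p (F.φ (b ρ t) x))) π := fun t => by
  simp only [hF.pA, hF.pb, F.add, F.per]

include hp

theorem ctr_zero (θ : ℝ) (x : X) : ctrW C F p A b 0 θ x = p x := by
  rw [ctrW, (hF.zero θ).1, (hF.zero θ).2, C.one _ _ ((hp x).near (ctr_per F p x) _ _), sub_self,
    F.zero]

theorem ctr_short (ρ θ : ℝ) (x : X) :
    ShortL C.j fun t => ctrW C F p A b ρ (t + θ) (F.φ t x) := by
  simp only [ctr_psi]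
  exact (ctr_loop C hF ((hp _).near (ctr_per F p _) 0) (hp _) ρ).shift (ctr_period hF ρ _) θ

theorem ctr_one (θ t : ℝ) (x : X) :
    ctrW C F p A b 1 (t + θ) (F.φ t x) = p (F.φ 0 (F.φ (-θ) x)) := by
  obtain ⟨s, hs, k, e⟩ := cb_mod (t + θ)
  rw [ctr_psi, e]
  refine ((ctr_period hF 1 _).int_mul k s).trans ?_
  rcases hF.one s hs with h | h | h
  · rw [h, C.zero _ _ ((hp _).near (ctr_per F p _) _ _)]
  · rw [h, C.self]
  · rw [h, F.per, F.zero, C.self]

theorem ctr_cont : Continuous fun y : (ℝ × ℝ) × X => ctrW C F p A b y.1.1 y.1.2 y.2 := by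
  have h : ∀ a : (ℝ × ℝ) × X → ℝ, Continuous a → Continuous fun y => p (F.φ (a y) y.2) :=
    fun a ha => p.continuous.comp (F.cont.comp (ha.prodMk continuous_snd))
  exact C.cont.comp_continuous ((hF.sA.continuous.comp continuous_fst).prodMk
    ((h _ continuous_fst.snd.neg).prodMk (h _ ((hF.sb.continuous.comp continuous_fst).sub
      continuous_fst.snd)))) fun y => (hp y.2).near (ctr_per F p _) _ _

end

/-- One sweep. -/
theorem sweep (C : Comb Y N) (F : Flo X) (p : C(X, Y)) (hp : ∀ x, ShortL C.j fun t => p (F.φ t x))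
    (f : C(X, ℂ)) (hf : ∀ t x, f (F.φ t x) = Complex.exp (2 * t * Complex.I) * f x) {η : ℝ}
    (hη : 0 < η) : ∃ H : C(ℝ × X, Y), (∀ s ≤ (0 : ℝ), ∀ x, H (s, x) = p x) ∧
      (∀ s ≥ (1 : ℝ), ∀ x, H (s, x) = H (1, x)) ∧ (∀ s x, ShortL C.j fun t => H (s, F.φ t x)) ∧
      ∀ x, (η ≤ ‖f x‖ ∨ ∀ t, p (F.φ t x) = p x) → ∀ t, H (1, F.φ t x) = H (1, x) := by
  obtain ⟨A, b, hF⟩ := cb_funs
  obtain ⟨κ, hκ⟩ : ∃ κ : X → ℝ, κ = fun x => smoothTransition (2 * ‖f x‖ / η - 1) := ⟨_, rfl⟩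
  have k0 : ∀ x, ‖f x‖ < η / 2 → κ x = 0 := fun x h => by
    rw [hκ]
    refine smoothTransition.zero_of_nonpos (sub_nonpos.2 ((div_le_one hη).2 ?_))
    linarith
  have k1 : ∀ x, η ≤ ‖f x‖ → κ x = 1 := fun x h => by
    rw [hκ]
    refine smoothTransition.one_of_one_le (le_sub_iff_add_le.2 ((le_div_iff₀ hη).2 ?_))
    linarith
  have k2 : ∀ x, f x = 0 → ‖f x‖ < η / 2 := fun x h => by
    rw [h, norm_zero]
    positivity
  have kφ : ∀ t x, κ (F.φ t x) = κ x := fun t x => by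
    simp only [hκ]
    rw [hf t x, norm_mul, show (2 * t : ℂ) = ((2 * t : ℝ) : ℂ) by push_cast; ring,
      Complex.norm_exp_ofReal_mul_I, one_mul]
  have ks : Continuous fun y : ℝ × X => smoothTransition y.1 * κ y.2 := by
    rw [hκ]
    fun_prop
  have hc : Continuous fun y : ℝ × X =>
      ctrW C F p A b (smoothTransition y.1 * κ y.2) ((f y.2).arg / 2) y.2 := by
    refine continuous_iff_continuousAt.2 fun y₀ => ?_
    have hfc : ContinuousAt (fun y : ℝ × X => f y.2) y₀ := by fun_prop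
    by_cases h0 : f y₀.2 = 0
    · refine ContinuousAt.congr (f := fun y => p y.2) (by fun_prop) ?_
      filter_upwards [hfc.norm.eventually (gt_mem_nhds (k2 _ h0))] with y h2
      rw [k0 _ h2, mul_zero, ctr_zero hp hF]
    · obtain ⟨θ, hθ, hk⟩ := cb_branch_cont hfc h0
      refine ContinuousAt.congr ((ctr_cont hp hF).continuousAt.comp
        ((ks.continuousAt.prodMk hθ).prodMk continuousAt_snd)) ?_
      filter_upwards [hfc.eventually_ne h0] with y h2
      obtain ⟨k, hk⟩ := hk _ h2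
      rw [hk, ctr_int hF]
      rfl
  have H7 : ∀ r t x, f x ≠ 0 → ctrW C F p A b r ((f (F.φ t x)).arg / 2) (F.φ t x) =
      ctrW C F p A b r (t + (f x).arg / 2) (F.φ t x) := fun r t x h0 => by
    obtain ⟨k, hk⟩ := cb_arg (w := f (F.φ t x)) (t := t) h0 one_pos (by simp [hf t x])
    rw [hk, add_comm t, ctr_int hF]
  refine ⟨⟨_, hc⟩, fun s hs x => ?_, fun s hs x => ?_, fun s x => ?_, fun x hx => ?_⟩
  · simp only [ContinuousMap.coe_mk, smoothTransition.zero_of_nonpos hs, zero_mul, ctr_zero hp hF]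
  · simp only [ContinuousMap.coe_mk, smoothTransition.one_of_one_le hs, smoothTransition.one]
  · by_cases h0 : f x = 0
    · simp only [ContinuousMap.coe_mk, kφ, k0 _ (k2 _ h0), mul_zero, ctr_zero hp hF]
      exact hp x
    · simp only [ContinuousMap.coe_mk, kφ, H7 _ _ x h0]
      exact ctr_short hp hF _ _ x
  · suffices h : ∃ y, ∀ t, ctrW C F p A b (smoothTransition 1 * κ (F.φ t x))
        ((f (F.φ t x)).arg / 2) (F.φ t x) = y by
      obtain ⟨y, hy⟩ := h
      have h0 := hy 0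
      rw [F.zero] at h0
      exact fun t => (hy t).trans h0.symm
    rcases hx with hx | hx
    · exact ⟨_, fun t => by
        rw [H7 _ t x (norm_pos_iff.1 (hη.trans_le hx)), kφ, k1 x hx, smoothTransition.one, mul_one,
          ctr_one hp hF]⟩
    · exact ⟨_, fun t => ctr_still C F p hx _ _ t⟩

/-- Equivariant contraction of a compact family of short loops. -/
theorem contract [CompactSpace X] (C : Comb Y N) (F : Flo X)
    (hph : ∀ x₀, ∃ f : C(X, ℂ), f x₀ ≠ 0 ∧
      ∀ t x, f (F.φ t x) = Complex.exp (2 * t * Complex.I) * f x)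
    (p : C(X, Y)) (hp : ∀ x, ShortL C.j fun t => p (F.φ t x)) :
    ∃ H : C(ℝ × X, Y), (∀ s ≤ (0 : ℝ), ∀ x, H (s, x) = p x) ∧
      (∀ s ≥ (1 : ℝ), ∀ x, H (s, x) = H (1, x)) ∧ (∀ s x, ShortL C.j fun t => H (s, F.φ t x)) ∧
      ∀ t x, H (1, F.φ t x) = H (1, x) := by
  classical
  choose f h0 hφ using hph
  obtain ⟨T, -, hT⟩ := isCompact_univ.elim_nhds_subcover
    (fun a => {y | ‖f a a‖ / 2 ≤ ‖f a y‖}) fun a _ =>
      (f a).continuous.norm.continuousAt.eventually
        (eventually_ge_nhds (half_lt_self (norm_pos_iff.2 (h0 a))))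
  have key : ∀ S : Finset X, ∃ H : C(ℝ × X, Y), (∀ s ≤ (0 : ℝ), ∀ x, H (s, x) = p x) ∧
      (∀ s ≥ (1 : ℝ), ∀ x, H (s, x) = H (1, x)) ∧ (∀ s x, ShortL C.j fun t => H (s, F.φ t x)) ∧
      ∀ a ∈ S, ∀ x, ‖f a a‖ / 2 ≤ ‖f a x‖ → ∀ t, H (1, F.φ t x) = H (1, x) := fun S => by
    induction S using Finset.induction_on with
    | empty => exact ⟨p.comp ContinuousMap.snd, fun _ _ _ => rfl, fun _ _ _ => rfl,
        fun _ => hp, by simp⟩
    | insert a S _ ih =>
      obtain ⟨H, a1, a2, a3, a4⟩ := ih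
      obtain ⟨K, b1, b2, b3, b4⟩ := sweep C F ⟨fun x => H (1, x), by fun_prop⟩ (a3 1) (f a) (hφ a)
        (half_pos (norm_pos_iff.2 (h0 a)))
      have e : ∀ s : ℝ, 1 ≤ s → ¬s ≤ 1 / 2 := fun s hs => by linarith
      refine ⟨⟨fun y => if y.1 ≤ 1 / 2 then H (2 * y.1, y.2) else K (2 * y.1 - 1, y.2),
        Continuous.if_le (by fun_prop) (by fun_prop) continuous_fst continuous_const
          fun y hy => by rw [hy, b1 _ (by norm_num)]; norm_num⟩,
        fun s hs x => ?_, fun s hs x => ?_, fun s x => ?_, fun c hc x hx t => ?_⟩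
      · exact (if_pos (by linarith)).trans (a1 _ (by linarith) x)
      · simp only [ContinuousMap.coe_mk, if_neg (e s hs), if_neg (e 1 le_rfl)]
        rw [b2 _ (by linarith), b2 (2 * 1 - 1) (by norm_num)]
      · simp only [ContinuousMap.coe_mk]
        split_ifs
        exacts [a3 _ x, b3 _ x]
      · simp only [ContinuousMap.coe_mk, if_neg (e 1 le_rfl), b2 (2 * 1 - 1) (by norm_num)]
        rcases Finset.mem_insert.1 hc with rfl | hc
        exacts [b4 x (Or.inl hx) t, b4 x (Or.inr (a4 c hc x hx)) t]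
  obtain ⟨H, a1, a2, a3, a4⟩ := key T
  refine ⟨H, a1, a2, a3, fun t x => ?_⟩
  obtain ⟨a, ha, h⟩ := mem_iUnion₂.1 (hT (mem_univ x))
  exact a4 a ha x h t

end Pool.Agent.Work.MP_8c604c_gt.B
end
end
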