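import Pool.Agent.Work.MP_8c604c_gt.C.Count
import Pool.Agent.Work.MP_8c604c_gt.O.KS

-- merged part: Pool.Agent.Work.MP_8c604c_gt.B.Link
section
/-!
The geodesics through a pair of cut points start in a linear subspace.
Model: ../CircB.lean (CircB_line, CircB_hasDerivAt_Z, CircB_ker).
Plan. link_ker is CircB_ker. link_iff: B.Leaf on O = {w | (z,w) in OO}, L w = JH (pi/2) (z,w) composed with inr, R w w2 = exists c, Z (pi/2) (z,w2) = c . Z (pi/2) (z,w)
(curve: a curve with derivative a(s) . q(s) stays on a left line: pr (q s) has derivative 0 by dpr_vert, then pr_eq_iff; closed: R iff pr equal).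
If the segment from x.2 to w stays in O use Leaf.seg; otherwise w = c . z - a . x.2 with a > 0 and Z (pi/2) (z, w) = Z (-pi/2) x (psi_neg, Z_eqv), which is on the line of Z (pi/2) x (Z_add_pi).
continuousOn_PK: KS x is the kernel of T x u = JH (pi/2) x (0,u) + nu x.1 u . Z + g x.1 x.2 u . vel (psi (pi/2) x) (the three terms are independent: nu_hor, nu_vel, al_inv), continuousOn_ker_proj.
-/

set_option maxSynthPendingDepth 3

open Set Filter Topology MeasureTheory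
open scoped ContDiff Quaternion

noncomputable section
namespace Pool.Agent.Work.MP_8c604c_gt.H

open T B Real

variable {n : ℕ} {g : Met n}

variable {G : Geo g}

theorem Link_const {W : Type} [NormedAddCommGroup W] [NormedSpace ℝ W] {F : ℝ → W}
    (h : ∀ᶠ s in 𝓝 (0 : ℝ), HasDerivAt F 0 s) : ∀ᶠ s in 𝓝 (0 : ℝ), F s = F 0 := by
  obtain ⟨ε, hε, hb⟩ := Metric.eventually_nhds_iff_ball.1 h
  filter_upwards [Metric.ball_mem_nhds (0 : ℝ) hε] with s hs
  exact Metric.isOpen_ball.is_const_of_deriv_eq_zero (convex_ball _ _).isPreconnected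
    (fun y hy => (hb y hy).differentiableAt.differentiableWithinAt)
    (fun y hy => (hb y hy).deriv) hs (Metric.mem_ball_self hε)

theorem Link_rk {V U : Type} [AddCommGroup V] [Module ℝ V] [FiniteDimensional ℝ V]
    [AddCommGroup U] [Module ℝ U] (W : Submodule ℝ V) (f : V →ₗ[ℝ] U)
    (hf : ∀ y, ∃ w ∈ W, f w = y) : Module.finrank ℝ W =
      Module.finrank ℝ (W ⊓ LinearMap.ker f : Submodule ℝ V) + Module.finrank ℝ U := by
  rw [← (f.domRestrict W).finrank_range_add_finrank_ker, LinearMap.range_eq_top.2 fun y =>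
    (hf y).elim fun w hw => ⟨⟨w, hw.1⟩, hw.2⟩, finrank_top, LinearMap.ker_domRestrict,
    ← Submodule.map_comap_subtype, Submodule.finrank_map_subtype_eq, add_comm]

theorem Link_om_anti (x a b : VV n) : om g x a b = -om g x b a := by
  simp only [om]
  ring

theorem Link_hasDerivAt_Z (G : Geo g) (h : IsMetric g) (t : ℝ) {z : E n} {w : ℝ → E n} {w' : E n}
    {s : ℝ} (hw : HasDerivAt w w' s) (hx : (z, w s) ∈ OO n) :
    HasDerivAt (fun r => G.Z t (z, w r)) (G.JJ t (z, w s) (0, w')) s :=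
  HasFDerivAt.comp_hasDerivAt (l := G.Z t) (f := fun r => (z, w r)) s
    (G.jac_dZ h t hx).hasFDerivAt ((hasDerivAt_const s z).prodMk hw)

theorem Link_gv (h : IsMetric g) {x : VV n} (hx : x.1 ≠ 0) (u : E n) :
    g x.1 (vel g x) u = (spd g x)⁻¹ * g x.1 x.2 u := by
  rw [vel, map_smul, smul_apply, h.hor_left hx, smul_eq_mul]

theorem Link_add (L : VV n →L[ℝ] E n) (u v : E n) : L (0, u + v) = L (0, u) + L (0, v) := by
  rw [← map_add, Prod.mk_add_mk, add_zero]

theorem Link_smul (L : VV n →L[ℝ] E n) (a : ℝ) (u : E n) : L (0, a • u) = a • L (0, u) := by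
  rw [← map_smul, Prod.smul_mk, smul_zero]

theorem Link_Bs (G : Geo g) (h : IsMetric g) (t : ℝ) {x : VV n} (hx : x ∈ OO n) {u : E n}
    (hu : u ∈ Bs x) : G.JH t x (0, u) = 0 := by
  rw [Geo.JH, ContinuousLinearMap.comp_apply, G.JJ_Bs h t hx hu, map_zero]

theorem Link_vel_Bs (x : VV n) : vel g x ∈ Bs x :=
  mem_Bs.2 ⟨-((spd g x)⁻¹ • nu x.1 x.2), (spd g x)⁻¹, by
    rw [vel, hor_def, smul_sub, neg_smul, smul_assoc, neg_add_eq_sub]⟩

theorem Geo.mem_KS_iff {x : VV n} {u : E n} :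
    u ∈ G.KS x ↔ nu x.1 u = 0 ∧ g x.1 x.2 u = 0 ∧ G.JH (π / 2) x (0, u) = 0 := by
  exact and_assoc

theorem Geo.mem_WS {x : VV n} {u : E n} :
    u ∈ G.WS x ↔ nu x.1 u = 0 ∧ G.JH (π / 2) x (0, u) = 0 := by
  rfl

theorem Geo.vel_KS (h : IsMetric g) {x : VV n} (hx : x ∈ OO n) {u : E n} (hu : u ∈ G.KS x) :
    g x.1 (vel g x) u = 0 := by
  rw [Link_gv h hx.1, (Geo.mem_KS_iff.1 hu).2.1, mul_zero]

theorem Geo.mem_WS_iff (h : IsMetric g) {x : VV n} (hx : x ∈ OO n) {u : E n} :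
    u ∈ G.WS x ↔ ∃ t : ℝ, ∃ κ ∈ G.KS x, u = t • vel g x + κ := by
  have hv := Link_Bs G h (π / 2) hx (Link_vel_Bs (g := g) x)
  have hn := h.nu_vel (g := g) hx.1
  constructor
  · rintro ⟨h1, h2⟩
    replace h1 : nu x.1 u = 0 := h1
    replace h2 : G.JH (π / 2) x (0, u) = 0 := h2
    refine ⟨g x.1 (vel g x) u, u + -g x.1 (vel g x) u • vel g x, Geo.mem_KS_iff.2 ⟨?_, ?_, ?_⟩,
      by module⟩
    · rw [nu_add, nu_rsmul, h1, hn, smul_zero, add_zero]
    · refine (mul_eq_zero.1 ((Link_gv h hx.1 _).symm.trans ?_)).resolve_left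
        (inv_pos.2 (h.spd_pos hx)).ne'
      simp [h.vel_unit hx]
    · rw [Link_add, Link_smul, h2, hv, smul_zero, add_zero]
  · rintro ⟨t, κ, hκ, rfl⟩
    obtain ⟨h1, -, h2⟩ := Geo.mem_KS_iff.1 hκ
    refine Geo.mem_WS.2 ⟨?_, ?_⟩
    · rw [nu_add, nu_rsmul, h1, hn, smul_zero, add_zero]
    · rw [Link_add, Link_smul, h2, hv, smul_zero, add_zero]

theorem Geo.finrank_WS (h : IsMetric g) {x : VV n} (hx : x ∈ OO n) :
    Module.finrank ℝ (G.WS x) = G.kk x + 1 := by
  have e : G.WS x ⊓ LinearMap.ker (g x.1 x.2 : E n →ₗ[ℝ] ℝ) = G.KS x := inf_right_comm _ _ _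
  rw [Link_rk (G.WS x) (g x.1 x.2 : E n →ₗ[ℝ] ℝ) fun y => ⟨(y * (spd g x)⁻¹) • vel g x,
    (Geo.mem_WS_iff h hx).2 ⟨_, 0, zero_mem _, (add_zero _).symm⟩, ?_⟩, e, Module.finrank_self,
    Geo.kk]
  rw [map_smul, smul_eq_mul, mul_assoc]
  exact (congrArg _ ((Link_gv h hx.1 _).symm.trans (h.vel_unit hx))).trans (mul_one y)

theorem Geo.finrank_ker (h : IsMetric g) {x : VV n} (hx : x ∈ OO n) :
    Module.finrank ℝ (LinearMap.ker ((G.JH (π / 2) x).comp
      (ContinuousLinearMap.inr ℝ (E n) (E n)) : E n →ₗ[ℝ] E n)) = G.kk x + 5 := by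
  rw [Link_rk _ (nuL x.1 : E n →ₗ[ℝ] ℍ) fun c => ⟨c • x.1,
    Link_Bs G h _ hx (u := c • x.1) (mem_Bs.2 ⟨c, 0, by rw [zero_smul, add_zero]⟩),
    (nu_smul c _ _).trans (by rw [nu_self hx.1, mul_one])⟩, inf_comm, Quaternion.finrank_eq_four]
  exact congrArg (· + 4) (Geo.finrank_WS h hx)

theorem Geo.KS_act_iff (h : IsMetric g) {l : ℍ} {m : ℝ} (c : ℍ) {x : VV n} (hl : l ≠ 0) (hm : 0 < m)
    (hx : x ∈ OO n) (u : E n) : l • u ∈ G.KS (act l m c x) ↔ u ∈ G.KS x := by
  have e : ((0 : E n), l • u) = act l m c (0, m⁻¹ • u) := by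
    simp [act, smul_smul, hm.ne']
  have e1 : nu (act l m c x).1 (l • u) = l * nu x.1 u * l⁻¹ := nu_smul_smul _ _ _
  have e2 : g (act l m c x).1 (act l m c x).2 (l • u) = m * g x.1 x.2 u := by
    rw [act, h.inv _ _ _ _ hl hx.1]
    simp [h.vert c _ _ hx.1]
  have e3 : G.JH (π / 2) (act l m c x) (0, l • u) = l • m⁻¹ • G.JH (π / 2) x (0, u) := by
    rw [← Link_smul, e]
    change hor _ (G.JJ _ _ _) = l • hor _ (G.JJ _ _ _)
    rw [G.JJ_act h _ c hl hm hx, G.Z_eqv h _ l m c x hl hm hx, hor_smul_left hl, hor_smul]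
  simp [Geo.mem_KS_iff, e1, e2, e3, hl, hm.ne']

theorem Geo.KS_vel (h : IsMetric g) {x : VV n} (hx : x ∈ OO n) :
    G.KS (x.1, vel g x) = G.KS x := by
  have e : act 1 (spd g x)⁻¹ (-((spd g x)⁻¹ • nu x.1 x.2)) x = (x.1, vel g x) := by
    simp only [act, one_smul, vel, hor_def, neg_smul, smul_assoc, sub_eq_add_neg, smul_add,
      smul_neg]
  ext u
  rw [← G.KS_act_iff h _ one_ne_zero (inv_pos.2 (h.spd_pos hx)) hx u, e, one_smul]

theorem Geo.PK_act (h : IsMetric g) {l : ℍ} {m : ℝ} (c : ℍ) {x : VV n} (hl : l ≠ 0) (hm : 0 < m)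
    (hx : x ∈ OO n) (u : E n) :
    (G.KS (act l m c x)).starProjection (l • u) = l • (G.KS x).starProjection u := by
  refine Submodule.eq_starProjection_of_mem_of_inner_eq_zero
    ((G.KS_act_iff h c hl hm hx _).2 (Submodule.starProjection_apply_mem _ _)) fun w hw => ?_
  rw [← smul_inv_smul₀ hl w] at hw ⊢
  rw [← smul_sub, inner_csmul, Submodule.starProjection_inner_eq_zero _ _
    ((G.KS_act_iff h c hl hm hx _).1 hw), mul_zero]

theorem Geo.continuousOn_PK (h : IsMetric g) {k : ℕ} (hk : ∀ x ∈ OO n, G.kk x = k) :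
    ContinuousOn (fun x => (G.KS x).starProjection) (OO n) := by
  let T := fun x : VV n => (toEuclidean (E := (ℍ × ℝ) × E n)).toContinuousLinearMap.comp
    (((nuL x.1).prod (g x.1 x.2)).prod
      ((G.JH (π / 2) x).comp (ContinuousLinearMap.inr ℝ (E n) (E n))))
  have e : ∀ x, LinearMap.ker (T x).toLinearMap = G.KS x := fun x => by
    ext u
    simp [T, Geo.mem_KS_iff, nuL_apply, and_assoc]
  have hT : ContinuousOn T (OO n) := continuousOn_clm_apply.2 fun u => by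
    have c1 : ContinuousOn (fun x : VV n => nuL x.1) (OO n) :=
      contDiffOn_nuL.continuousOn.comp continuousOn_fst fun x hx => hx.1
    have c2 : ContinuousOn (fun x : VV n => g x.1) (OO n) :=
      h.smooth.continuousOn.comp continuousOn_fst fun x hx => hx.1
    have c3 : ContinuousOn (fun x : VV n => G.JH (π / 2) x) (OO n) :=
      (G.contDiffOn_JH h).continuousOn.comp (f := fun x : VV n => (π / 2, x)) (by fun_prop)
        fun x hx => hx
    exact (toEuclidean (E := (ℍ × ℝ) × E n)).continuous.comp_continuousOn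
      (((c1.clm_apply continuousOn_const).prodMk ((c2.clm_apply continuousOn_snd).clm_apply
        continuousOn_const)).prodMk (c3.clm_apply continuousOn_const))
  simpa only [e] using continuousOn_ker_proj hT (k := k) fun x hx => by rw [e x]; exact hk x hx

/-- The velocity plus a conjugate direction is not vertical. -/
theorem Geo.add_KS_mem (h : IsMetric g) {x : VV n} (hx : x ∈ OO n) {κ : E n} (hκ : κ ∈ G.KS x) :
    (x.1, vel g x + κ) ∈ OO n := by
  refine ⟨hx.1, fun c e => ?_⟩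
  have := h.vert' c (vel g x) hx.1
  rw [← show vel g x + κ = c • x.1 from e, map_add, h.vel_unit hx, G.vel_KS h hx hκ] at this
  norm_num at this

namespace Bl
variable (B : Bl g G)
include B

theorem link_ker {x : VV n} (hx : x ∈ OO n) {w : E n} (hw : (x.1, w) ∈ OO n) {c : ℍ}
    (e : G.Z (π / 2) (x.1, w) = c • G.Z (π / 2) x) : G.JH (π / 2) x (0, w) = 0 := by
  have h := B.met
  have hx' : G.psi (π / 2) x ∈ OO n := G.psi_mem h _ hx
  have hy : G.Z (π / 2) x ≠ 0 := G.Z_ne h _ hx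
  have hback : G.psi (-(π / 2)) (G.psi (π / 2) x) = x := by
    rw [← G.psi_add h _ _ hx, neg_add_cancel, G.psi_zero h hx]
  have hc : c ≠ 0 := by
    rintro rfl
    exact G.Z_ne h _ hw (by rw [e, zero_smul])
  have key : ∀ u, g (G.Z (π / 2) x) u (G.JJ (π / 2) x (0, w)) = 0 := by
    intro u
    have hd : HasDerivAt (fun τ : ℝ => (G.psi (π / 2) x).2 + τ • u) u 0 := by
      simpa using ((hasDerivAt_id (0 : ℝ)).smul_const u).const_add (G.psi (π / 2) x).2
    have e0 : (G.Z (π / 2) x, (G.psi (π / 2) x).2 + (0 : ℝ) • u) = G.psi (π / 2) x := by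
      rw [zero_smul, add_zero]
      rfl
    have hq := Link_hasDerivAt_Z G h (-(π / 2)) (z := G.Z (π / 2) x) hd (by rw [e0]; exact hx')
    rw [e0] at hq
    have hmem : ∀ᶠ τ in 𝓝 (0 : ℝ), (G.Z (π / 2) x, (G.psi (π / 2) x).2 + τ • u) ∈ OO n := by
      have hcont : ContinuousAt
          (fun τ : ℝ => ((G.Z (π / 2) x, (G.psi (π / 2) x).2 + τ • u) : VV n)) 0 := by fun_prop
      exact hcont.eventually (isOpen_OO.mem_nhds (by beta_reduce; rw [e0]; exact hx'))
    have ho : g x.1 (G.JJ (-(π / 2)) (G.psi (π / 2) x) (0, u)) w = 0 := by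
      refine B.orth (x := (x.1, w)) hw hq ?_ ?_
      · change G.Z (-(π / 2)) _ = x.1
        rw [e0, Geo.Z, hback]
      · filter_upwards [hmem] with τ hτ
        have h1 := B.dd_Z hτ (s := -(π / 2)) (t := 0) (by
          rw [sub_neg_eq_add, zero_add, abs_of_pos (by positivity)])
        have h2 : G.Z 0 (G.Z (π / 2) x, (G.psi (π / 2) x).2 + τ • u) = G.Z (π / 2) x := by
          rw [Geo.Z, G.psi_zero h hτ]
        rw [h2, sub_neg_eq_add, zero_add, abs_of_pos (by positivity)] at h1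
        rw [e, dd_smul_right hc, h1]
    have a1 := G.al_psi h (-(π / 2)) hx' (0, u)
    have a2 := G.om_psi h (-(π / 2)) hx' (fderiv ℝ (G.psi (π / 2)) x (0, w)) (0, u)
    rw [hback] at a1 a2
    rw [G.fderiv_psi_neg h _ hx, om_fibre h hx, Link_om_anti, om_fibre h hx',
      G.fst_fderiv_psi h _ hx, G.fst_fderiv_psi h _ hx'] at a2
    have a3 : g x.1 (vel g x) (G.JJ (-(π / 2)) (G.psi (π / 2) x) (0, u)) = 0 := by
      rw [← G.fst_fderiv_psi h _ hx']
      simpa [al] using a1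
    have a4 : g (G.Z (π / 2) x) (vel g (G.psi (π / 2) x)) (G.JJ (π / 2) x (0, w)) = 0 := by
      rw [G.al_inv h _ hx]
      simp [al]
    rw [h.symm _ _ _ hx.1] at ho
    have a5 : (G.psi (π / 2) x).1 = G.Z (π / 2) x := rfl
    rw [a5, a3, a4, ho] at a2
    have hs := (h.spd_pos hx').ne'
    simpa [hs] using a2
  exact h.hor_eq_zero hy (key _)

theorem link_iff {k : ℕ} (hk : ∀ x ∈ OO n, G.kk x = k) {x : VV n} (hx : x ∈ OO n) {w : E n}
    (hw : (x.1, w) ∈ OO n) :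
    (∃ c : ℍ, G.Z (π / 2) (x.1, w) = c • G.Z (π / 2) x) ↔ G.JH (π / 2) x (0, w) = 0 := by
  refine ⟨fun ⟨c, e⟩ => B.link_ker hx hw e, fun hL => ?_⟩
  have h := B.met
  have hZ : ContinuousOn (fun w => G.Z (π / 2) (x.1, w)) {w | (x.1, w) ∈ OO n} :=
    (G.contDiffOn_Z h).continuousOn.comp (f := fun w : E n => (π / 2, (x.1, w))) (by fun_prop)
      fun w hw => hw
  have hO : IsOpen {w | (x.1, w) ∈ OO n} := isOpen_OO.preimage (by fun_prop)
  have F : Leaf {w | (x.1, w) ∈ OO n}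
      (fun w => (G.JH (π / 2) (x.1, w)).comp (ContinuousLinearMap.inr ℝ (E n) (E n)))
      (fun w w' => ∃ c : ℍ, G.Z (π / 2) (x.1, w') = c • G.Z (π / 2) (x.1, w)) (k + 5) := by
    refine ⟨hO, ((G.contDiffOn_JH h).comp (f := fun w : E n => (π / 2, (x.1, w))) (by fun_prop)
      fun w hw => hw).clm_comp contDiffOn_const,
      fun w hw => by rw [G.finrank_ker h hw, hk _ hw], ?_, ?_,
      fun w _ => ⟨1, (one_smul _ _).symm⟩, fun w hw => ?_,
      fun w hw w' hw' ⟨c, e⟩ => B.link_ker (x := (x.1, w)) hw hw' e, fun w hw w' hw' hc => ?_⟩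
    · rintro w - w' hw' ⟨c, e⟩
      refine ⟨c⁻¹, ((eq_inv_smul_iff₀ ?_).2 e.symm)⟩
      rintro rfl
      exact G.Z_ne h _ hw' (by rw [e, zero_smul])
    · rintro a - b - c - ⟨s, e⟩ ⟨t, e'⟩
      exact ⟨t * s, by rw [e', e, mul_smul]⟩
    · have hd : ∀ᶠ s in 𝓝 (0 : ℝ), HasDerivAt (fun s => pr (G.Z (π / 2) (x.1, w s))) 0 s := by
        filter_upwards [hw] with s ⟨h1, v, h2, h3⟩
        have := (hasFDerivAt_pr (G.Z_ne h (π / 2) h1)).comp_hasDerivAt s
          (Link_hasDerivAt_Z G h (π / 2) h2 h1)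
        exact this.congr_deriv
          ((dpr_eq_zero (G.Z_ne h _ h1) (G.JJ (π / 2) (x.1, w s) (0, v))).2 h3)
      filter_upwards [Link_const hd, hw] with s h1 h2
      obtain ⟨c, -, e⟩ := (pr_eq_iff (G.Z_ne h _ hw.self_of_nhds.1) (G.Z_ne h _ h2.1)).1 h1
      exact ⟨c, e⟩
    · have hz := hor_eq_zero_iff (G.Z_ne h (π / 2) hw)
      have := ((horL (G.Z (π / 2) (x.1, w))).continuous.continuousAt.comp
        (hZ.continuousAt (hO.mem_nhds hw'))).continuousWithinAt.mem_closure (t := {0}) hc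
        fun y hy => (hz _).2 hy.2
      rw [closure_singleton] at this
      exact (hz _).1 this
  by_cases hs : ∀ s ∈ Icc (0 : ℝ) 1, (x.1, x.2 + s • (w + (-1 : ℝ) • x.2)) ∈ OO n
  · have := F.seg (x := x.2) (κ := w + (-1 : ℝ) • x.2) (by
      change G.JH (π / 2) x (0, w + (-1 : ℝ) • x.2) = 0
      rw [Link_add, Link_smul, hL, Link_Bs G h _ hx (u := x.2) (mem_Bs.2 ⟨0, 1, by simp⟩),
        smul_zero, add_zero]) hs
    rwa [show x.2 + (w + (-1 : ℝ) • x.2) = w by module] at this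
  push Not at hs
  obtain ⟨s, ⟨s0, s1⟩, hs⟩ := hs
  obtain ⟨c, e⟩ : ∃ c : ℍ, x.2 + s • (w + (-1 : ℝ) • x.2) = c • x.1 := by
    by_contra! k
    exact hs ⟨hx.1, k⟩
  replace s0 : 0 < s := s0.lt_of_ne fun k => hx.2 c (by simpa [← k] using e)
  replace s1 : s < 1 := s1.lt_of_ne fun k => hw.2 c (by simpa [k] using e)
  have hn : (x.1, -x.2) ∈ OO n :=
    ⟨hx.1, fun a k => hx.2 (-a) (by rw [neg_smul]; exact neg_eq_iff_eq_neg.1 k)⟩
  have e1 : (x.1, w) = act 1 (s⁻¹ * (1 - s)) (s⁻¹ • c) (x.1, -x.2) := by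
    simp only [act, one_smul, smul_assoc, ← e]
    congr 1
    match_scalars <;> field_simp
    ring
  have e2 : G.Z (π / 2) (x.1, -x.2) = G.Z (-(π / 2)) x :=
    (congrArg Prod.fst (G.psi_neg h (π / 2) hx) :)
  have e3 := B.Z_add_pi (-(π / 2)) hx
  rw [show -(π / 2) + π = π / 2 by ring] at e3
  refine ⟨(nu x.1 (G.Z π x))⁻¹, ?_⟩
  rw [e1, G.Z_eqv h _ _ _ _ _ one_ne_zero (mul_pos (inv_pos.2 s0) (sub_pos.2 s1)) hn, one_smul, e2,
    e3, inv_smul_smul₀ (B.hol_ne hx)]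

end Bl

end Pool.Agent.Work.MP_8c604c_gt.H
end
end

-- merged part: Pool.Agent.Work.MP_8c604c_gt.B.Swap
section
/-!
First variation at both end points; the final velocity is a linear function of the initial velocity.
Model: H/Dist.lean (orth).
Plan. orth2: pi/2 <= dd (p tau) (q tau) <= dd (p tau) (Z eps) + (pi/2 - 2 eps) + dd (Z (pi/2 - eps)) (q tau) with tau = k eps; dd_local gives 2 <= |k a - v| + |k b + v2| for all real k;
sqrt (1 + s) <= 1 + s/2 and dist_quad. swap: y = psi (pi/2) x, x tau = psi (-pi/2) (y + tau . (eta, nu . eta)), p tau = (x tau).1 has derivative bkL x eta,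
q tau = c . (y.1 + tau . eta) = c . Z (pi/2) (x tau), dd = pi/2 by dd_Z and dd_smul_right; orth2 at (x.1, w). bkL_act: psi_act, JJ_act, nu_act, nu_psi.
-/

set_option maxSynthPendingDepth 3

open Set Filter Topology MeasureTheory
open scoped ContDiff Quaternion

noncomputable section
namespace Pool.Agent.Work.MP_8c604c_gt.H

open T B Real

variable {n : ℕ} {g : Met n}

variable {G : Geo g}

theorem Swap_psi (G : Geo g) (h : IsMetric g) (t : ℝ) : ContDiffOn ℝ ∞ (G.psi t) (OO n) :=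
  (G.contDiffOn_psi h).comp (f := fun x : VV n => (t, x)) (by fun_prop) fun _ hx => hx

theorem Swap_back (G : Geo g) (h : IsMetric g) (t : ℝ) {x : VV n} (hx : x ∈ OO n) :
    G.psi (-t) (G.psi t x) = x := by
  rw [← G.psi_add h _ _ hx, neg_add_cancel, G.psi_zero h hx]

theorem Swap_sqrt {s : ℝ} (hs : 0 ≤ s) : √s ≤ (1 + s) / 2 := by
  nlinarith [Real.sq_sqrt hs, sq_nonneg (√s - 1)]

theorem Geo.contDiffOn_bkL (h : IsMetric g) : ContDiffOn ℝ ∞ G.bkL (OO n) := by
  refine contDiffOn_clm_apply.2 fun η => ?_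
  have h1 : ContDiffOn ℝ ∞ (fun x => G.JJ (-(π / 2)) (G.psi (π / 2) x)) (OO n) :=
    (G.contDiffOn_JJ h).comp (f := fun x : VV n => (-(π / 2), G.psi (π / 2) x))
      (contDiffOn_const.prodMk (Swap_psi G h _)) fun x hx => G.psi_mem h _ hx
  have h2 : ContDiffOn ℝ ∞ (fun x : VV n => nuL x.1 x.2) (OO n) :=
    (contDiffOn_nuL.comp contDiffOn_fst fun _ hx => hx.1).clm_apply contDiffOn_snd
  exact h1.clm_apply (contDiffOn_const.prodMk (h2.smul contDiffOn_const))

theorem Geo.Swap_act (h : IsMetric g) {l : ℍ} {m : ℝ} (c : ℍ) {x : VV n} (hl : l ≠ 0) (hm : 0 < m)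
    (hx : x ∈ OO n) (η : E n) : G.bkL (act l m c x) (l • η) = l • G.bkL x η := by
  rw [Geo.bkL_apply, Geo.bkL_apply, G.psi_act h _ c hl hm hx,
    ← G.JJ_act h _ c hl hm (G.psi_mem h _ hx), nu_act m c hx.1]
  congr 1
  refine Prod.ext rfl ?_
  simp only [act]
  rw [smul_smul, inv_mul_cancel_right₀ hl, mul_smul, add_smul, smul_assoc]

theorem Geo.vel_bkL (h : IsMetric g) {x : VV n} (hx : x ∈ OO n) (η : E n) :
    g x.1 (vel g x) (G.bkL x η) = g (G.Z (π / 2) x) (vel g (G.psi (π / 2) x)) η := by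
  have h1 := G.al_inv h (-(π / 2)) (G.psi_mem h (π / 2) hx) (η, nu x.1 x.2 • η)
  rw [Geo.Z, Swap_back G h _ hx] at h1
  exact h1

theorem Geo.fld_rho (h : IsMetric g) {ξ : VV n → E n} (hξ : Fld g ξ) : Fld g (G.rho ξ) := by
  refine ⟨?_, fun l m c x hl hm hx => ?_, fun x hx => ?_⟩
  · exact hξ.smooth.sub ((Geo.contDiffOn_bkL h).clm_apply
      (hξ.smooth.comp (Swap_psi G h _) fun x hx => G.psi_mem h _ hx))
  · rw [Geo.rho, Geo.rho, hξ.eqv l m c x hl hm hx, G.psi_act h _ c hl hm hx,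
      hξ.eqv l m c _ hl hm (G.psi_mem h _ hx), Geo.Swap_act h c hl hm hx, smul_sub]
  · rw [Geo.rho, map_sub, hξ.perp x hx, Geo.vel_bkL h hx, zero_sub, neg_eq_zero]
    exact hξ.perp _ (G.psi_mem h _ hx)

namespace Bl
variable (B : Bl g G)
include B

theorem orth2 {x : VV n} (hx : x ∈ OO n) {p q : ℝ → E n} {a b : E n} (hp : HasDerivAt p a 0)
    (hq : HasDerivAt q b 0) (p0 : p 0 = x.1) (q0 : q 0 = G.Z (π / 2) x)
    (hd : ∀ᶠ τ in 𝓝 (0 : ℝ), π / 2 ≤ dd g (p τ) (q τ)) :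
    g (G.Z (π / 2) x) (vel g (G.psi (π / 2) x)) b = g x.1 (vel g x) a := by
  have h := B.met
  have hz := G.Z_ne h (π / 2) hx
  have hpi := Real.pi_pos
  set v := vel g x with hv
  set v₂ := vel g (G.psi (π / 2) x) with hv₂
  have key : ∀ k : ℝ, 2 ≤ √(g x.1 (k • a - v) (k • a - v)) +
      √(g (G.Z (π / 2) x) (-v₂ - k • b) (-v₂ - k • b)) := by
    intro k
    refine le_of_forall_pos_le_add fun η hη => ?_
    have hk : HasDerivAt (fun ε : ℝ => k * ε) k 0 := by simpa using (hasDerivAt_id 0).const_mul k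
    have h1 : HasDerivAt (fun ε : ℝ => p (k * ε)) (k • a) 0 :=
      HasDerivAt.scomp_of_eq 0 hp hk (by simp)
    have h1' : HasDerivAt (fun ε : ℝ => q (k * ε)) (k • b) 0 :=
      HasDerivAt.scomp_of_eq 0 hq hk (by simp)
    have h2 := G.hasDerivAt_Z h 0 hx
    rw [G.psi_zero h hx] at h2
    have h2' : HasDerivAt (fun ε : ℝ => G.Z (π / 2 - ε) x) (-v₂) 0 := by
      have k1 : HasDerivAt (fun ε : ℝ => π / 2 - ε) (-1) 0 := by
        simpa using (hasDerivAt_id (0 : ℝ)).const_sub (π / 2)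
      have k2 := HasDerivAt.scomp_of_eq 0 (G.hasDerivAt_Z h (π / 2) hx) k1 (by simp)
      rw [neg_one_smul] at k2
      exact k2
    have h3 := h.dd_local hx.1 h1 h2 (by simpa using p0) (dist_Z_zero G h hx) (half_pos hη)
    have h3' := h.dd_local hz h2' h1' (by simp) (by simpa using q0) (half_pos hη)
    have h4 : ∀ᶠ ε in 𝓝 (0 : ℝ), p (k * ε) ≠ 0 :=
      h1.continuousAt.eventually_ne (by simpa [p0] using hx.1)
    have h4' : ∀ᶠ ε in 𝓝 (0 : ℝ), q (k * ε) ≠ 0 :=
      h1'.continuousAt.eventually_ne (by simpa [q0] using hz)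
    have ht : Tendsto (fun ε : ℝ => k * ε) (𝓝 0) (𝓝 0) := by
      simpa using hk.continuousAt.tendsto
    have h5 : ∀ᶠ ε in 𝓝[>] (0 : ℝ), ε ∈ Ioo 0 (π / 4) := Ioo_mem_nhdsGT (by linarith)
    obtain ⟨ε, ⟨e3, e3'⟩, e5, ⟨e4, e4'⟩, e6⟩ := ((h3.and h3').and (h5.and
      (((h4.and h4').and (ht.eventually hd)).filter_mono nhdsWithin_le_nhds))).exists
    have e7 := h.dd_triangle e4 (G.Z_ne h ε hx) e4'
    have e7' := h.dd_triangle (G.Z_ne h ε hx) (G.Z_ne h (π / 2 - ε) hx) e4'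
    have e8 := h.dd_Z_le G hx ε (π / 2 - ε)
    rw [abs_of_nonneg (by linarith [e5.2])] at e8
    refine le_of_mul_le_mul_left ?_ e5.1
    linarith
  have u1 : g x.1 v v = 1 := h.vel_unit hx
  have u2 : g (G.Z (π / 2) x) v₂ v₂ = 1 := h.vel_unit (G.psi_mem h _ hx)
  refine (sub_eq_zero.1 (dist_quad (add_nonneg (h.nonneg hx.1 a) (h.nonneg hz b)) fun k => ?_)).symm
  have h1 := key k
  have h2 := Swap_sqrt (h.nonneg hx.1 (k • a - v))
  have h3 := Swap_sqrt (h.nonneg hz (-v₂ - k • b))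
  have h4 : g x.1 (k • a - v) (k • a - v) = k * (k * g x.1 a a) - 2 * (k * g x.1 v a) + 1 := by
    simp only [map_sub, map_smul, sub_apply, smul_apply, smul_eq_mul, u1, h.symm x.1 a v hx.1]
    ring
  have h5 : g (G.Z (π / 2) x) (-v₂ - k • b) (-v₂ - k • b) =
      k * (k * g (G.Z (π / 2) x) b b) + 2 * (k * g (G.Z (π / 2) x) v₂ b) + 1 := by
    simp only [map_sub, map_neg, map_smul, sub_apply, neg_apply, smul_apply, smul_eq_mul, u2,
      h.symm _ b v₂ hz]
    ring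
  linarith

theorem swap {x : VV n} (hx : x ∈ OO n) {w : E n} (hw : (x.1, w) ∈ OO n) {c : ℍ}
    (e : G.Z (π / 2) (x.1, w) = c • G.Z (π / 2) x) (η : E n) :
    g (G.Z (π / 2) (x.1, w)) (vel g (G.psi (π / 2) (x.1, w))) (c • η) =
      g x.1 (vel g (x.1, w)) (G.bkL x η) := by
  have h := B.met
  have hpi := Real.pi_pos
  have hc : c ≠ 0 := by
    rintro rfl
    exact G.Z_ne h _ hw (by rw [e, zero_smul])
  have hy := G.psi_mem h (π / 2) hx
  have hl := jac_line (G.psi (π / 2) x) (η, nu x.1 x.2 • η)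
  have hp := jac_curve (G.jac_dZ h (-(π / 2)) hy) hl (by simp)
  have hq : HasDerivAt (fun s : ℝ => c • (G.Z (π / 2) x + s • η)) (c • η) 0 :=
    (jac_line (G.Z (π / 2) x) η).const_smul c
  refine B.orth2 hw hp hq ?_ ?_ ?_
  · simp only [zero_smul, add_zero]
    rw [Geo.Z, Swap_back G h _ hx]
  · simp only [zero_smul, add_zero]
    exact e.symm
  · have h3 : ∀ᶠ s : ℝ in 𝓝 0, G.psi (π / 2) x + s • (η, nu x.1 x.2 • η) ∈ OO n :=
      hl.continuousAt.eventually (isOpen_OO.mem_nhds (by simpa using hy))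
    filter_upwards [h3] with s hs
    have h4 := B.dist_dd_Z hs (s := -(π / 2)) (t := 0) (by linarith) (by linarith)
    rw [dist_Z_zero G h hs, zero_sub, neg_neg] at h4
    rw [dd_smul_right hc]
    exact h4

/-- The final velocity depends linearly on the initial velocity. -/
theorem exists_swap {x : VV n} (hx : x ∈ OO n) : ∃ D : E n →L[ℝ] AM n, ∀ w, (x.1, w) ∈ OO n →
    (∃ c : ℍ, G.Z (π / 2) (x.1, w) = c • G.Z (π / 2) x) →
    fderiv ℝ pr (G.Z (π / 2) (x.1, w)) (vel g (G.psi (π / 2) (x.1, w))) = D (vel g (x.1, w)) := by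
  have h := B.met
  have hz := G.Z_ne h (π / 2) hx
  obtain ⟨S, hS⟩ := LinearMap.exists_leftInverse_of_injective
    (GG g (G.Z (π / 2) x) : E n →ₗ[ℝ] E n →L[ℝ] ℝ) (by
      refine LinearMap.ker_eq_bot'.2 fun u hu => ?_
      by_contra h0
      have h1 := h.GG_pos hz h0
      have h2 : GG g (G.Z (π / 2) x) u = 0 := hu
      rw [h2] at h1
      exact lt_irrefl _ h1)
  refine ⟨(fderiv ℝ pr (G.Z (π / 2) x)).comp ((LinearMap.toContinuousLinearMap S).comp
    ((g x.1).bilinearComp (ContinuousLinearMap.id ℝ (E n)) (G.bkL x))), ?_⟩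
  rintro w hw ⟨c, e⟩
  have hc : c ≠ 0 := by
    rintro rfl
    exact G.Z_ne h _ hw (by rw [e, zero_smul])
  obtain ⟨u, hu⟩ : ∃ u, vel g (G.psi (π / 2) (x.1, w)) = c • u :=
    ⟨c⁻¹ • _, (smul_inv_smul₀ hc _).symm⟩
  have h1 : nu (G.Z (π / 2) x) u = 0 := by
    have h2 : nu (G.Z (π / 2) (x.1, w)) (vel g (G.psi (π / 2) (x.1, w))) = 0 :=
      h.nu_vel (G.psi_mem h _ hw).1
    rw [e, hu, nu_smul_smul] at h2
    exact (mul_eq_zero.1 ((mul_eq_zero.1 h2).resolve_right (inv_ne_zero hc))).resolve_left hc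
  have h3 : GG g (G.Z (π / 2) x) u =
      (g x.1).bilinearComp (ContinuousLinearMap.id ℝ (E n)) (G.bkL x) (vel g (x.1, w)) := by
    ext η
    have h4 := B.swap hx hw e η
    rw [e, hu, h.inv c _ _ _ hc hz] at h4
    rw [GG_apply, h1, inner_zero_left, add_zero, h4]
    rfl
  rw [e, hu, dpr_smul hc hz, ContinuousLinearMap.comp_apply, ContinuousLinearMap.comp_apply, ← h3]
  congr 1
  exact (congrArg (fun L => L u) hS).symm

end Bl

end Pool.Agent.Work.MP_8c604c_gt.H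
end
end

-- merged part: Pool.Agent.Work.MP_8c604c_gt.B.Piece
section
/-!
Uniform second variation estimate for the metric length of one piece.
Model: ../Push.lean (push_taylor, push_var), ../G4BAux1.lean (g4b_piece), H/NCAux.lean (nc_piece).
Plan. taylor_two (y = 0, s = 1) on the compact set of the points (Z t x, vel (psi t x)), x in K, |t| <= |T|, for L = Lg g on {p | p.1 != 0};
Lg = 1/2 on these points (vel_unit); the first order term integrates by first_var; Var_le_curve and len_le_energy; l is the length integral.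
-/

set_option maxSynthPendingDepth 3

open Set Filter Topology MeasureTheory
open scoped ContDiff Quaternion

noncomputable section
namespace Pool.Agent.Work.MP_8c604c_gt.H

open T B Real

variable {n : ℕ} {g : Met n}

theorem Geo.piece (G : Geo g) (h : IsMetric g) {K : Set (VV n)} (hK : IsCompact K)
    (hKO : K ⊆ OO n) (T : ℝ) : ∃ C d : ℝ, 0 < C ∧ 0 < d ∧ ∀ x ∈ K, ∀ a b : ℝ, -T ≤ a → a ≤ b →
      b ≤ T → ∀ (η η' : ℝ → E n) (M : ℝ), (∀ t ∈ Icc a b, HasDerivAt η (η' t) t) →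
      ContinuousOn η' (Icc a b) → (∀ t ∈ Icc a b, ‖η t‖ ≤ M ∧ ‖η' t‖ ≤ M) → M ≤ d →
      (∀ t ∈ Icc a b, G.Z t x + η t ≠ 0) ∧ ∃ l : ℝ, 0 ≤ l ∧
        Var h (fun t => G.Z t x + η t) a b ≤ ENNReal.ofReal l ∧
        l ≤ (b - a) +
          (g (G.Z b x) (vel g (G.psi b x)) (η b) - g (G.Z a x) (vel g (G.psi a x)) (η a)) +
          1 / 2 * (∫ t in a..b, D2 g (G.Z t x, vel g (G.psi t x)) (η t, η' t) (η t, η' t)) +
          C * M ^ 3 := by
  have hS : IsCompact (Icc (-T) T ×ˢ K) := isCompact_Icc.prod hK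
  have hsub : Icc (-T) T ×ˢ K ⊆ {p : ℝ × VV n | p.2 ∈ OO n} := fun p hp => hKO hp.2
  have hK' := hS.image_of_continuousOn (((G.contDiffOn_Z h).continuousOn.prodMk
    (G.jacA_vel h).continuousOn).mono hsub)
  obtain ⟨C₀, δ₀, hC₀, hδ₀, hT⟩ := taylor_two nc_open h.contDiffOn_Lg hK' (by
    rintro _ ⟨p, hp, rfl⟩
    exact G.Z_ne h p.1 (hsub hp))
  refine ⟨(2 * |T| + 1) * C₀, δ₀, by positivity, hδ₀, ?_⟩
  intro x hxK a b ha hab hb η η' M hη hη' hM hMd
  have hx := hKO hxK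
  have hM0 : 0 ≤ M := (norm_nonneg _).trans (hM a ⟨le_rfl, hab⟩).1
  have hηc : ContinuousOn η (Icc a b) := fun t ht => (hη t ht).continuousAt.continuousWithinAt
  have hξ : ContinuousOn (fun t => ((η t, η' t) : VV n)) (Icc a b) := hηc.prodMk hη'
  have hp := G.nc_cont_p h hx
  have key : ∀ t ∈ Icc a b, G.Z t x + η t ≠ 0 ∧
      Lg g (G.Z t x + η t, vel g (G.psi t x) + η' t) ≤ 1 / 2 +
        fderiv ℝ (Lg g) (G.Z t x, vel g (G.psi t x)) (η t, η' t) +
        1 / 2 * D2 g (G.Z t x, vel g (G.psi t x)) (η t, η' t) (η t, η' t) + C₀ * M ^ 3 := by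
    intro t ht
    have hm : ‖((η t, η' t) : VV n)‖ ≤ M := by
      rw [Prod.norm_def]
      exact max_le (hM t ht).1 (hM t ht).2
    obtain ⟨h2, h3⟩ := hT (G.Z t x, vel g (G.psi t x))
      ⟨(t, x), ⟨⟨ha.trans ht.1, ht.2.trans hb⟩, hxK⟩, rfl⟩ 0 (η t, η' t) 1 zero_le_one
      (by rw [norm_zero, zero_add, one_mul]; exact hm.trans hMd)
    have e1 : ((G.Z t x, vel g (G.psi t x)) : VV n) + 0 + (1 : ℝ) • ((η t, η' t) : VV n) =
        (G.Z t x + η t, vel g (G.psi t x) + η' t) := by simp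
    rw [e1] at h2 h3
    refine ⟨h2, ?_⟩
    have e2 : Lg g ((G.Z t x, vel g (G.psi t x)) + 0) = 1 / 2 := by
      rw [add_zero]
      have := h.vel_unit (G.psi_mem h t hx)
      show 1 / 2 * g (G.psi t x).1 (vel g (G.psi t x)) (vel g (G.psi t x)) = 1 / 2
      rw [this]; norm_num
    rw [e2] at h3
    simp only [map_zero, zero_apply, mul_zero, add_zero, norm_zero, zero_add, one_mul, mul_one,
      one_pow] at h3
    have h4 : C₀ * ‖((η t, η' t) : VV n)‖ ^ 2 * ‖((η t, η' t) : VV n)‖ ≤ C₀ * M ^ 3 := by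
      have : ‖((η t, η' t) : VV n)‖ ^ 3 ≤ M ^ 3 := pow_le_pow_left₀ (norm_nonneg _) hm 3
      calc C₀ * ‖((η t, η' t) : VV n)‖ ^ 2 * ‖((η t, η' t) : VV n)‖
          = C₀ * ‖((η t, η' t) : VV n)‖ ^ 3 := by ring
        _ ≤ C₀ * M ^ 3 := by gcongr
    unfold D2
    linarith
  have h0 : ∀ t ∈ Icc a b, G.Z t x + η t ≠ 0 := fun t ht => (key t ht).1
  refine ⟨h0, ?_⟩
  have hc : ∀ t ∈ Icc a b, HasDerivAt (fun s => G.Z s x + η s) (vel g (G.psi t x) + η' t) t :=
    fun t ht => (G.hasDerivAt_Z h t hx).add (hη t ht)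
  have hcc : ContinuousOn (fun s => G.Z s x + η s) (Icc a b) :=
    (G.nc_cont_Z h hx).continuousOn.add hηc
  have hcc' : ContinuousOn (fun t => vel g (G.psi t x) + η' t) (Icc a b) :=
    (G.nc_cont_vel h hx).continuousOn.add hη'
  refine ⟨_, intervalIntegral.integral_nonneg hab fun t _ => sqrt_nonneg _,
    Var_le_curve h hab hc hcc' h0, ?_⟩
  have i2 := h.len_le_energy (c := fun s => G.Z s x + η s)
    (c' := fun t => vel g (G.psi t x) + η' t) hab hcc hcc' h0
  have c1 : ContinuousOn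
      (fun t => fderiv ℝ (Lg g) (G.Z t x, vel g (G.psi t x)) (η t, η' t)) (Icc a b) :=
    (h.nc_cont_D1.comp_continuous hp (fun t => G.Z_ne h t hx)).continuousOn.clm_apply hξ
  have c2 : ContinuousOn
      (fun t => D2 g (G.Z t x, vel g (G.psi t x)) (η t, η' t) (η t, η' t)) (Icc a b) :=
    ((G.nc_cont_second h hx).continuousOn.clm_apply hξ).clm_apply hξ
  have c3 : ContinuousOn (fun t => Lg g (G.Z t x + η t, vel g (G.psi t x) + η' t)) (Icc a b) :=
    h.contDiffOn_Lg.continuousOn.comp (hcc.prodMk hcc') h0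
  have j1 := c1.intervalIntegrable_of_Icc (μ := volume) hab
  have j2 := (c2.intervalIntegrable_of_Icc (μ := volume) hab).const_mul (1 / 2)
  have j0 : IntervalIntegrable (fun _ : ℝ => (1 / 2 : ℝ)) volume a b := intervalIntegrable_const
  have j3 : IntervalIntegrable (fun _ : ℝ => C₀ * M ^ 3) volume a b := intervalIntegrable_const
  have i3 := intervalIntegral.integral_mono_on hab (c3.intervalIntegrable_of_Icc (μ := volume) hab)
    (((j0.add j1).add j2).add j3) fun t ht => (key t ht).2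
  have i4 : (∫ t in a..b, fderiv ℝ (Lg g) (G.Z t x, vel g (G.psi t x)) (η t, η' t)) =
      g (G.Z b x) (vel g (G.psi b x)) (η b) - g (G.Z a x) (vel g (G.psi a x)) (η a) :=
    intervalIntegral.integral_eq_sub_of_hasDerivAt
      (f := fun s => g (G.Z s x) (vel g (G.psi s x)) (η s))
      (fun t ht => G.first_var h t hx (hη t (by rwa [uIcc_of_le hab] at ht))) j1
  rw [intervalIntegral.integral_add ((j0.add j1).add j2) j3,
    intervalIntegral.integral_add (j0.add j1) j2, intervalIntegral.integral_add j0 j1,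
    intervalIntegral.integral_const_mul, i4, intervalIntegral.integral_const,
    intervalIntegral.integral_const, smul_eq_mul, smul_eq_mul] at i3
  have k1 : b - a ≤ 2 * |T| + 1 := by
    have := le_abs_self T
    linarith
  have k2 : (b - a) * (C₀ * M ^ 3) ≤ (2 * |T| + 1) * (C₀ * M ^ 3) :=
    mul_le_mul_of_nonneg_right k1 (by positivity)
  linarith

end Pool.Agent.Work.MP_8c604c_gt.H
end
end

-- merged part: Pool.Agent.Work.MP_8c604c_gt.B.Dt
section
/-!
Derivatives of the fields along the flow.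
-/

set_option maxSynthPendingDepth 3

open Set Filter Topology MeasureTheory
open scoped ContDiff Quaternion

noncomputable section
namespace Pool.Agent.Work.MP_8c604c_gt.H

open T B Real

variable {n : ℕ} {g : Met n}

variable {G : Geo g}

theorem dt_open : IsOpen {p : ℝ × VV n | p.2 ∈ OO n} := isOpen_OO.preimage continuous_snd

theorem dt_smooth (h : IsMetric g) {F : Type} [NormedAddCommGroup F] [NormedSpace ℝ F]
    {f : VV n → F} (hf : ContDiffOn ℝ ∞ f (OO n)) :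
    ContDiffOn ℝ ∞ (fun q : ℝ × VV n => f (G.psi q.1 q.2)) {p | p.2 ∈ OO n} :=
  hf.comp (G.contDiffOn_psi h) fun p hp => G.psi_mem h p.1 hp

namespace ND
variable {k : ℕ} (D : ND G k)

/-- The time derivative of the fields. -/
def dX (p : ℝ × VV n) : RN D.N →L[ℝ] E n :=
  fderiv ℝ (fun q : ℝ × VV n => D.X (G.psi q.1 q.2)) p (1, 0)

variable (h : IsMetric g)
include h

theorem cont_X : ContinuousOn (fun q : ℝ × VV n => D.X (G.psi q.1 q.2)) {p | p.2 ∈ OO n} :=
  (dt_smooth h D.smooth).continuousOn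

theorem cont_dX : ContinuousOn D.dX {p | p.2 ∈ OO n} :=
  ((dt_smooth h D.smooth).continuousOn_fderiv_of_isOpen dt_open (by simp)).clm_apply
    continuousOn_const

theorem line_X {x : VV n} (hx : x ∈ OO n) : Continuous fun t => D.X (G.psi t x) :=
  (D.cont_X h).comp_continuous (f := fun t : ℝ => (t, x)) (by fun_prop) fun _ => hx

theorem line_dX {x : VV n} (hx : x ∈ OO n) : Continuous fun t => D.dX (t, x) :=
  (D.cont_dX h).comp_continuous (f := fun t : ℝ => (t, x)) (by fun_prop) fun _ => hx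

theorem deriv_X (t : ℝ) {x : VV n} (hx : x ∈ OO n) (a : RN D.N) :
    HasDerivAt (fun s => D.X (G.psi s x) a) (D.dX (t, x) a) t := by
  have h1 : DifferentiableAt ℝ (fun q : ℝ × VV n => D.X (G.psi q.1 q.2)) (t, x) :=
    ((dt_smooth h D.smooth).contDiffAt (dt_open.mem_nhds hx)).differentiableAt (by simp)
  have h2 := jac_fst (F := fun s y => D.X (G.psi s y)) h1
  have h3 := h2.clm_apply (hasDerivAt_const t a)
  rwa [map_zero, add_zero] at h3

theorem dt_eq (t : ℝ) {x : VV n} (hx : x ∈ OO n) (a : RN D.N) :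
    G.dt (fun y => D.X y a) (G.psi t x) = D.dX (t, x) a := by
  have h1 := D.deriv_X h t hx a
  rw [← zero_add t] at h1
  have h2 := h1.comp_add_const
  rw [zero_add] at h2
  rw [Geo.dt, ← h2.deriv]
  congr 1
  funext s
  rw [G.psi_add h _ _ hx]

theorem ix_eq {x : VV n} (hx : x ∈ OO n) (a : RN D.N) :
    G.ix (fun y => D.X y a) (fun y => D.X y a) x = ∫ t in (0 : ℝ)..π,
      D2 g (G.Z t x, vel g (G.psi t x)) (D.X (G.psi t x) a, D.dX (t, x) a)
        (D.X (G.psi t x) a, D.dX (t, x) a) := by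
  simp only [Geo.ix, Geo.q2, D.dt_eq h _ hx]
  rfl

/-- Uniform bounds on compact sets. -/
theorem bound {S : Set (VV n)} (hS : IsCompact S) (hO : S ⊆ OO n) : ∃ M : ℝ, 0 < M ∧
    ∀ x ∈ S, ∀ t ∈ Icc 0 π, ∀ a : RN D.N, ‖a‖ ≤ 1 →
      ‖D.X (G.psi t x) a‖ ≤ M ∧ ‖D.dX (t, x) a‖ ≤ M := by
  have hK : IsCompact (Icc (0 : ℝ) π ×ˢ S) := isCompact_Icc.prod hS
  have hs : Icc (0 : ℝ) π ×ˢ S ⊆ {p : ℝ × VV n | p.2 ∈ OO n} := fun p hp => hO hp.2
  obtain ⟨A, hA⟩ := hK.exists_bound_of_continuousOn ((D.cont_X h).mono hs)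
  obtain ⟨A', hA'⟩ := hK.exists_bound_of_continuousOn ((D.cont_dX h).mono hs)
  refine ⟨max 1 (max A A'), by positivity, fun x hx t ht a ha => ⟨?_, ?_⟩⟩
  · exact ((D.X _).unit_le_opNorm a ha).trans ((hA (t, x) ⟨ht, hx⟩).trans
      (le_max_of_le_right (le_max_left _ _)))
  · exact ((D.dX _).unit_le_opNorm a ha).trans ((hA' (t, x) ⟨ht, hx⟩).trans
      (le_max_of_le_right (le_max_right _ _)))

theorem perp (t : ℝ) {x : VV n} (hx : x ∈ OO n) (a : RN D.N) :
    g (G.Z t x) (vel g (G.psi t x)) (D.X (G.psi t x) a) = 0 :=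
  (D.fld a).perp _ (G.psi_mem h t hx)

theorem push_act (t e : ℝ) {l : ℍ} {m : ℝ} (c : ℍ) {x : VV n} (hl : l ≠ 0) (hm : 0 < m)
    (hx : x ∈ OO n) (a : RN D.N) :
    G.Z t (act l m c x) + e • D.X (G.psi t (act l m c x)) a =
      l • (G.Z t x + e • D.X (G.psi t x) a) := by
  have h1 := (D.fld a).eqv l m c _ hl hm (G.psi_mem h t hx)
  rw [G.Z_eqv h t l m c x hl hm hx, G.psi_act h t c hl hm hx, h1, smul_add, smul_comm l e]

omit h in
theorem push_pi (B : Bl g G) (t e : ℝ) {x : VV n} (hx : x ∈ OO n) (a : RN D.N) :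
    G.Z (t + π) x + e • D.X (G.psi (t + π) x) a =
      nu x.1 (G.Z π x) • (G.Z t x + e • D.X (G.psi t x) a) := by
  obtain ⟨c, hc⟩ := B.psi_add_pi t hx
  have h1 := (D.fld a).eqv _ 1 c _ (B.hol_ne hx) one_pos (G.psi_mem B.met t hx)
  rw [B.Z_add_pi t hx, hc, h1, smul_add, smul_comm _ e]

end ND

end Pool.Agent.Work.MP_8c604c_gt.H
end
end
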