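import Pool.Agent.Work.MP_8c604c_gt.B.G4B

/-!
The homotopy from the push to the broken geodesics.
-/

set_option maxSynthPendingDepth 3

open Set Filter Topology MeasureTheory
open scoped ContDiff Quaternion

noncomputable section
namespace Pool.Agent.Work.MP_8c604c_gt.H

open T B Real

variable {n : ℕ} {g : Met n}

theorem Bl.exists_QD {G : Geo g} (B : Bl g G) {k : ℕ} (hk : ∀ x ∈ OO n, G.kk x = k) (D : ND G k)
    {x : VV n} (hx : x ∈ OO n) : ∃ d : ℝ, 0 < d ∧ ∀ e ∈ Ioc 0 d, Nonempty (QD D x e) := by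
  have h := B.met
  have hp := pi_pos
  have hy := G.psi_mem h (π / 4) hx
  have yK := D.psiK (π / 4) x hx
  have yp : ∀ t, G.psi t (G.psi (π / 4) x) = G.psi (t + π / 4) x := fun t =>
    (G.psi_add h _ _ hx).symm
  have yZ : ∀ t, G.Z t (G.psi (π / 4) x) = G.Z (t + π / 4) x := fun t => congrArg Prod.fst (yp t)
  have y1 : G.Z (π / 4) x = (G.psi (π / 4) x).1 := rfl
  generalize hyd : G.psi (π / 4) x = y at hy yK yp yZ y1
  obtain ⟨d, ε, hd, hε, H⟩ := B.g4_core hk D hy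
  refine ⟨d, hd, fun e he => ?_⟩
  set S : Set (ℝ × RN D.N) := Icc 0 1 ×ˢ {a | D.K x a = a ∧ ‖a‖ ≤ 1} with hS
  obtain ⟨κ, hκ⟩ : ∃ κ : ℝ × RN D.N → E n, κ = fun p => (p.1 * ε) • D.R y p.2 := ⟨_, rfl⟩
  obtain ⟨u, hu⟩ : ∃ u : (ℝ × RN D.N) × ℝ → E n, u = fun p =>
    G.Z p.2 (gx g y (κ p.1)) + ((1 - p.1.1) * e) • D.gE y (κ p.1) p.1.2 p.2 := ⟨_, rfl⟩
  obtain ⟨w, hw⟩ : ∃ w : (ℝ × RN D.N) × ℝ → E n, w = fun p =>
    G.Z p.2 y + ((1 - p.1.1) * e) • D.X (G.psi p.2 y) p.1.2 := ⟨_, rfl⟩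
  have κm : ∀ p, κ p ∈ G.KS y := fun p => hκ ▸ Submodule.smul_mem _ _ (D.memR y hy _)
  have κO : ∀ p, gx g y (κ p) ∈ OO n := fun p => Geo.add_KS_mem h hy (κm p)
  have H' : ∀ p ∈ S, (∀ t ∈ Icc 0 (π / 2), u (p, t) ≠ 0) ∧ (∀ t ∈ Icc (π / 2) π, w (p, t) ≠ 0) ∧
      (p.1 < 1 → ‖p.2‖ = 1 → Var h (fun t => u (p, t)) 0 (π / 2) +
        Var h (fun t => w (p, t)) (π / 2) π < ENNReal.ofReal π) := fun p hp => by
    have k := H ((1 - p.1) * e) ⟨mul_nonneg (sub_nonneg.2 hp.1.2) he.1.le,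
      (mul_le_of_le_one_left he.1.le (by linarith [hp.1.1])).trans he.2⟩ (p.1 * ε)
      ⟨mul_nonneg hp.1.1 hε.le, mul_le_of_le_one_left hε.le hp.1.2⟩ p.2 hp.2.2
    subst hu hw hκ
    exact ⟨k.1, k.2.1, fun h1 h2 => k.2.2 (mul_pos (sub_pos.2 h1) he.1) (yK ▸ hp.2.1) h2⟩
  have j1 : ∀ p, u (p, π / 2) = G.gc y (κ p) • w (p, π / 2) := fun p => by
    simp only [hu, hw, ND.gE, gm_half, (B.gx_link hk hy (κm p)).1, smul_add]
    rw [smul_comm]
  have j0 : ∀ p, w (p, π) = nu y.1 (G.Z π y) • u (p, 0) := fun p => by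
    have k := D.push_pi B 0 ((1 - p.1) * e) hy p.2
    rw [zero_add] at k
    simp only [hu, hw, k, ND.gE, gm_zero, one_smul, dist_Z_zero G h hy, dist_Z_zero G h (κO p)]
    rfl
  obtain ⟨c, hc⟩ : ∃ c : (ℝ × RN D.N) × ℝ → E n, c = fun p => if p.2 ≤ π / 2 then u p else w p :=
    ⟨_, rfl⟩
  have c1 : ∀ p t, t ≤ π / 2 → c (p, t) = u (p, t) := fun p t ht => by rw [hc]; exact if_pos ht
  have c2 : ∀ p t, π / 2 ≤ t → ∃ l : ℍ, l ≠ 0 ∧ c (p, t) = l • w (p, t) := fun p t ht => by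
    rcases ht.eq_or_lt with rfl | ht
    · exact ⟨_, B.gc_ne hk hy (κm p), by rw [c1 p _ le_rfl, j1]⟩
    · exact ⟨1, one_ne_zero, by rw [hc, one_smul]; exact if_neg ht.not_ge⟩
  have c3 : ∀ p t, π / 2 ≤ t → pr (c (p, t)) = pr (w (p, t)) := fun p t ht => by
    obtain ⟨l, hl, k⟩ := c2 p t ht
    rw [k, pr_smul hl]
  have c0 : ∀ p ∈ S, ∀ t ∈ Icc 0 π, c (p, t) ≠ 0 := fun p hp t ht => by
    rcases le_total t (π / 2) with h1 | h1
    · rw [c1 p t h1]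
      exact (H' p hp).1 t ⟨ht.1, h1⟩
    · obtain ⟨l, hl, k⟩ := c2 p t h1
      rw [k]
      exact smul_ne_zero hl ((H' p hp).2.1 t ⟨h1, ht.2⟩)
  have cl : ∀ p, pr (c (p, 0)) = pr (c (p, π)) := fun p => by
    rw [c3 p π (by linarith), j0, pr_smul (B.hol_ne hy), c1 p 0 (by positivity)]
  have cκ : Continuous κ := by rw [hκ]; fun_prop
  have cu : Continuous u := by
    have a1 : Continuous fun p : (ℝ × RN D.N) × ℝ => G.Z p.2 (gx g y (κ p.1)) :=
      (G.contDiffOn_Z h).continuousOn.comp_continuous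
        (f := fun p : (ℝ × RN D.N) × ℝ => (p.2, gx g y (κ p.1))) (by unfold gx; fun_prop)
        fun p => κO p.1
    have a2 : Continuous fun p : (ℝ × RN D.N) × ℝ => D.gE y (κ p.1) p.1.2 p.2 :=
      (D.gE_cont h hy).1.comp_continuous
        (f := fun p : (ℝ × RN D.N) × ℝ => (κ p.1, p.1.2, p.2)) (by fun_prop) fun p => κO p.1
    rw [hu]
    exact a1.fun_add (Continuous.fun_smul (by fun_prop) a2)
  have cw : Continuous w := by
    have a1 := (G.nc_cont_Z h hy).comp (continuous_snd (X := ℝ × RN D.N))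
    have a2 : Continuous fun p : (ℝ × RN D.N) × ℝ => D.X (G.psi p.2 y) p.1.2 :=
      ((D.line_X h hy).comp continuous_snd).clm_apply (by fun_prop)
    rw [hw]
    exact a1.fun_add (Continuous.fun_smul (by fun_prop) a2)
  have hSc : IsClosed S := isClosed_Icc.prod
    ((isClosed_eq (D.K x).continuous continuous_id).inter (isClosed_le continuous_norm continuous_const))
  have cc : ContinuousOn (fun p => pr (c p)) (S ×ˢ Icc 0 π) := by
    rw [← Icc_union_Icc_eq_Icc (by positivity : 0 ≤ π / 2) (by linarith), prod_union]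
    refine ContinuousOn.union_of_isClosed ?_ ?_ (hSc.prod isClosed_Icc) (hSc.prod isClosed_Icc)
    · exact (contDiffOn_pr.continuousOn.comp cu.continuousOn fun p hp =>
        (H' p.1 hp.1).1 p.2 hp.2).congr fun p hp => congrArg pr (c1 p.1 p.2 hp.2.2)
    · exact (contDiffOn_pr.continuousOn.comp cw.continuousOn fun p hp =>
        (H' p.1 hp.1).2.1 p.2 hp.2).congr fun p hp => c3 p.1 p.2 hp.2.1
  obtain ⟨L, cL, hL⟩ : ∃ L : ℝ × RN D.N → LM n, ContinuousOn L S ∧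
      ∀ p ∈ S, ∀ t ∈ Icc 0 π, L p (cs t) = pr (c (p, t)) :=
    ⟨_, continuousOn_mkL cc fun p _ => cl p, fun p hp t ht => mkL_apply
      (cc.comp (f := fun t => (p, t)) (by fun_prop) fun t ht => ⟨hp, ht⟩) (cl p) ht⟩
  have q1 : ∀ p ∈ S, ∀ t ∈ Icc 0 π, sh (cs (-(π / 4))) (L p) (cs (t + π / 4)) = pr (c (p, t)) :=
    fun p hp t ht => by rw [sh_cs, add_neg_cancel_right, hL p hp t ht]
  have q2 : ∀ p ∈ S, ∀ t ∈ Icc (-(π / 4)) (π / 4),
      sh (cs (-(π / 4))) (L p) (cs t) = pr (w (p, t + 3 * π / 4)) := fun p hp t ht => by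
    rw [← cs_add_pi t, show t + π = t + 3 * π / 4 + π / 4 by ring,
      q1 p hp _ ⟨by linarith [ht.1], by linarith [ht.2]⟩, c3 _ _ (by linarith [ht.1])]
  have w1 : ∀ a t, w ((1, a), t) = G.Z t y := fun a t => by simp [hw]
  have u1 : ∀ a t, u ((1, a), t) = G.Z t (gx g y (ε • D.R y a)) := fun a t => by simp [hu, hκ]
  refine ⟨⟨fun p => sh (cs (-(π / 4))) (L p), ?_, fun τ hτ a h1 h2 θ => ?_,
    fun a h1 h2 t ht => ?_, fun τ hτ a h1 h2 θ => ?_, ε, hε.ne', fun a h1 h2 t ht => ⟨?_, ?_⟩⟩⟩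
  · exact continuous_sh.comp_continuousOn (f := fun p => (cs (-(π / 4)), L p))
      (continuousOn_const.prodMk cL)
  · obtain ⟨t, ht, k⟩ := exists_cs (cs (-(π / 4)) * θ)
    have hp : (τ, a) ∈ S := ⟨hτ, h1, h2⟩
    rw [sh_apply, ← k, hL _ hp t ht]
    exact pr_mem (c0 _ hp t ht)
  · have hp : ((0 : ℝ), a) ∈ S := ⟨⟨le_rfl, zero_le_one⟩, h1, h2⟩
    have w0 : ∀ t, w ((0, a), t) = G.Z (t + π / 4) x + e • D.X (G.psi (t + π / 4) x) a :=
      fun t => by simp only [hw, yp, yZ, sub_zero, one_mul]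
    rcases le_total t (π / 4) with h3 | h3
    · rw [q2 _ hp t ⟨by linarith [ht.1], h3⟩, w0, show t + 3 * π / 4 + π / 4 = t + π by ring,
        D.push_pi B t e hx, pr_smul (B.hol_ne hx)]
    · have k := q1 _ hp (t - π / 4) ⟨by linarith, by linarith [ht.2]⟩
      rw [sub_add_cancel] at k
      have k2 := w0 (t - π / 4)
      rw [sub_add_cancel] at k2
      rw [k, ← k2]
      rcases le_total (t - π / 4) (π / 2) with h4 | h4
      · rw [c1 _ _ h4]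
        simp only [hu, hw, hκ, zero_mul, zero_smul, gx_zero_Z h hy, ND.gE, gm_zero' h hy, one_smul]
      · exact c3 _ _ h4
  · have hp : (τ, a) ∈ S := ⟨hτ, h1, h2.le⟩
    rcases hτ.2.eq_or_lt with rfl | h3
    · obtain ⟨t, ht, k⟩ := exists_cs (cs (-(π / 4)) * θ)
      have k1 := q2 _ hp 0 ⟨by linarith, by linarith⟩
      rw [cs_zero, zero_add, w1] at k1
      rw [k1, sh_apply, ← k, hL _ hp t ht]
      intro hcut
      rcases le_total t (π / 2) with h4 | h4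
      · have hκ1 : ε • D.R y a ∈ G.KS y := Submodule.smul_mem _ _ (D.memR y hy a)
        rw [c1 _ _ h4, u1] at hcut
        exact (B.gx_corner hk hy hκ1 (smul_ne_zero hε.ne' (Bl.R_ne hk hy D (yK ▸ h1)
          (by rintro rfl; simp at h2))) ⟨ht.1, h4⟩).ne (B.cut_dd (G.Z_ne h _ hy)
          (G.Z_ne h _ (Geo.add_KS_mem h hy hκ1)) hcut)
      · rw [c3 _ _ h4, w1] at hcut
        have k2 := h.dd_Z_le G hy (3 * π / 4) t
        rw [B.cut_dd (G.Z_ne h _ hy) (G.Z_ne h _ hy) hcut, le_abs] at k2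
        rcases k2 with k2 | k2 <;> linarith [ht.2]
    · refine B.loop_short (c0 _ hp) (hL _ hp) ?_ _ _
      rw [← Var_add h _ (by positivity : 0 ≤ π / 2) (by linarith),
        Var_congr h (H' _ hp).1 fun t ht => ⟨1, one_ne_zero, by rw [c1 _ _ ht.2, one_smul]⟩,
        Var_congr h (H' _ hp).2.1 fun t ht => c2 _ _ ht.1]
      exact (H' _ hp).2.2 h3 h2
  · have hp : ((1 : ℝ), a) ∈ S := ⟨⟨zero_le_one, le_rfl⟩, h1, h2⟩
    rw [q1 _ hp t ⟨ht.1, by linarith [ht.2]⟩, c1 _ _ ht.2, u1, y1, hyd]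
    rfl
  · have hp : ((1 : ℝ), a) ∈ S := ⟨⟨zero_le_one, le_rfl⟩, h1, h2⟩
    rw [q2 _ hp _ ⟨by linarith [ht.1], by linarith [ht.2]⟩, w1, yZ,
      show t - π / 4 + 3 * π / 4 + π / 4 = t - π / 4 + π by ring, B.Z_add_pi _ hx,
      pr_smul (B.hol_ne hx)]

end Pool.Agent.Work.MP_8c604c_gt.H
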