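import Pool.Agent.Work.MP_8c604c_gt.O.KS
import Pool.Agent.Work.MP_8c604c_gt.C.Count

-- merged part: Pool.Agent.Work.MP_8c604c_gt.H.Idx
section
/-!
The multiplicity of the middle conjugate point is constant.
Hints. jump: if q t0 has signature (p, k, m) then for t > t0 it is nonnegative on a subspace of dimension p + k and (near t0)
negative definite on one of dimension m; use sigPos, QuadraticForm.sigPos_add_sigNeg_add_radical. sigPos is locally constant on
nondegenerate forms. Geometry: y = psi (pi/4) x; for t in (pi/4, 3pi/4) and b in E let a(b) be the solution, GG-orthogonal to Bs y, of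
JH t x (0,b) + JH (t - pi/4) y (0,a) = 0 (JH_surj, no_conj; solve with the inverse of the positive form g(J a, J a') + penalty).
q t (b,b') = om y (0,a(b)) (D psi (0,b')) + penalty on Bs x. It is symmetric, nondecreasing in t (differentiate and use star),
nondegenerate for t not pi/2, with radical of dimension kdim x - 5 at pi/2, continuous in x.
-/

set_option maxSynthPendingDepth 3

open Set Filter Topology MeasureTheory
open scoped ContDiff Quaternion

noncomputable section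
namespace Pool.Agent.Work.MP_8c604c_gt.H

open Real

section Pure
variable {V : Type} [NormedAddCommGroup V] [NormedSpace ℝ V]

/-- Penalty form attached to a finite family of vectors. -/
def idxPen {ι : Type} [Fintype ι] (β : V →L[ℝ] V →L[ℝ] ℝ) (v : ι → V) : V →L[ℝ] V →L[ℝ] ℝ :=
  ∑ i, (β (v i)).smulRight (β (v i))

theorem idxPen_apply {ι : Type} [Fintype ι] (β : V →L[ℝ] V →L[ℝ] ℝ) (v : ι → V) (a b : V) :
    idxPen β v a b = ∑ i, β (v i) a * β (v i) b := by
  simp [idxPen]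

theorem idxPen_eq {ι : Type} [Fintype ι] (β : V →L[ℝ] V →L[ℝ] ℝ) (v : ι → V) (a b : V) :
    idxPen β v a b = β (∑ i, β (v i) a • v i) b := by
  simp [idxPen_apply]

theorem idxPen_nonneg {ι : Type} [Fintype ι] (β : V →L[ℝ] V →L[ℝ] ℝ) (v : ι → V) (a : V) :
    0 ≤ idxPen β v a a := by
  rw [idxPen_apply]
  exact Finset.sum_nonneg fun i _ => mul_self_nonneg _

theorem idxPen_self {ι : Type} [Fintype ι] {β : V →L[ℝ] V →L[ℝ] ℝ} {v : ι → V} {a : V}
    (h : idxPen β v a a = 0) {w : V} (hw : w ∈ Submodule.span ℝ (range v)) : β w a = 0 := by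
  rw [idxPen_apply, Finset.sum_eq_zero_iff_of_nonneg fun i _ => mul_self_nonneg _] at h
  induction hw using Submodule.span_induction with
  | mem w hw =>
    obtain ⟨i, rfl⟩ := hw
    exact mul_self_eq_zero.1 (h i (Finset.mem_univ i))
  | zero => simp
  | add u w _ _ h1 h2 => rw [map_add, add_apply, h1, h2, add_zero]
  | smul c w _ h1 => rw [map_smul, smul_apply, h1, smul_zero]

theorem idxPen_zero {ι : Type} [Fintype ι] {β : V →L[ℝ] V →L[ℝ] ℝ} (hβ : ∀ v, β v v = 0 → v = 0)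
    {v : ι → V} {a : V} (h : ∀ w ∈ Submodule.span ℝ (range v), idxPen β v a w = 0) (b : V) :
    idxPen β v a b = 0 := by
  have h1 := h _ (Submodule.sum_mem _ fun i (_ : i ∈ Finset.univ) =>
    Submodule.smul_mem _ (β (v i) a) (Submodule.subset_span ⟨i, rfl⟩))
  rw [idxPen_eq] at h1 ⊢
  rw [hβ _ h1]
  simp

theorem idx_invertible [FiniteDimensional ℝ V] {M : V →L[ℝ] V →L[ℝ] ℝ}
    (h : ∀ a, M a a = 0 → a = 0) : M.IsInvertible := by
  have h1 : Function.Injective (M : V →ₗ[ℝ] V →L[ℝ] ℝ) :=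
    (injective_iff_map_eq_zero _).2 fun a ha => h a (by
      rw [show M a = 0 from ha]
      rfl)
  have h2 : Module.finrank ℝ V = Module.finrank ℝ (V →L[ℝ] ℝ) := by
    rw [← (LinearMap.toContinuousLinearMap (𝕜 := ℝ) (E := V) (F' := ℝ)).finrank_eq]
    exact Subspace.dual_finrank_eq.symm
  exact ⟨(LinearMap.linearEquivOfInjective _ h1 h2).toContinuousLinearEquiv, by ext; rfl⟩

/-- Smooth solution operators for families of linear systems with a known kernel. -/
theorem idx_solve [FiniteDimensional ℝ V] {X W B : Type} [NormedAddCommGroup X] [NormedSpace ℝ X]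
    [NormedAddCommGroup W] [NormedSpace ℝ W] [NormedAddCommGroup B] [NormedSpace ℝ B]
    [FiniteDimensional ℝ B] {β : V →L[ℝ] V →L[ℝ] ℝ} (hβ : ∀ v, β v v = 0 → v = 0)
    {γ : W →L[ℝ] W →L[ℝ] ℝ} (hγ : ∀ w, γ w w = 0 → w = 0) (hγ0 : ∀ w, 0 ≤ γ w w)
    {ι : Type} [Fintype ι] {U : Set X} {T : X → V →L[ℝ] W} {R : X → B →L[ℝ] W} {v : X → ι → V}
    (hT : ContDiffOn ℝ 1 T U) (hR : ContDiffOn ℝ 1 R U)
    (hv : ∀ i, ContDiffOn ℝ 1 (fun p => v p i) U)
    (hker : ∀ p ∈ U, ∀ a, T p a = 0 ↔ a ∈ Submodule.span ℝ (range (v p)))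
    (hr : ∀ p ∈ U, ∀ b, ∃ a, T p a = R p b) :
    ∃ A : X → B →L[ℝ] V, ContDiffOn ℝ 1 A U ∧ ∀ p ∈ U, ∀ b, T p (A p b) = R p b := by
  let M : X → V →L[ℝ] V →L[ℝ] ℝ := fun p => γ.bilinearComp (T p) (T p) + idxPen β (v p)
  let N : X → B →L[ℝ] V →L[ℝ] ℝ := fun p => γ.bilinearComp (R p) (T p)
  have eM : ∀ p a a', M p a a' = γ (T p a) (T p a') + idxPen β (v p) a a' := fun _ _ _ => rfl
  have eN : ∀ p b a', N p b a' = γ (R p b) (T p a') := fun _ _ _ => rfl
  have hM : ContDiffOn ℝ 1 M U := by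
    refine contDiffOn_clm_apply.2 fun a => contDiffOn_clm_apply.2 fun a' => ?_
    simp only [eM, idxPen_apply]
    refine ((contDiffOn_const.clm_apply (hT.clm_apply contDiffOn_const)).clm_apply
      (hT.clm_apply contDiffOn_const)).add (ContDiffOn.sum fun i _ => ?_)
    exact ((contDiffOn_const.clm_apply (hv i)).clm_apply contDiffOn_const).mul
      ((contDiffOn_const.clm_apply (hv i)).clm_apply contDiffOn_const)
  have hN : ContDiffOn ℝ 1 N U := by
    refine contDiffOn_clm_apply.2 fun a => contDiffOn_clm_apply.2 fun a' => ?_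
    simp only [eN]
    exact (contDiffOn_const.clm_apply (hR.clm_apply contDiffOn_const)).clm_apply
      (hT.clm_apply contDiffOn_const)
  have hI : ∀ p ∈ U, (M p).IsInvertible := fun p hp => idx_invertible fun a ha => by
    rw [eM] at ha
    have h1 := hγ0 (T p a)
    have h2 := idxPen_nonneg β (v p) a
    exact hβ a (idxPen_self (by linarith) ((hker p hp a).1 (hγ _ (by linarith))))
  refine ⟨fun p => (M p).inverse.comp (N p), ContDiffOn.clm_comp (fun p hp =>
    (hI p hp).contDiffAt_map_inverse.comp_contDiffWithinAt p (hM p hp)) hN, fun p hp b => ?_⟩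
  have e1 : ∀ a', M p ((M p).inverse (N p b)) a' = N p b a' := fun a' => by
    rw [(hI p hp).self_apply_inverse]
  change T p ((M p).inverse (N p b)) = R p b
  generalize (M p).inverse (N p b) = a at e1 ⊢
  simp only [eM, eN] at e1
  have e2 := idxPen_zero hβ (v := v p) (a := a) fun w hw => by
    have := e1 w
    rw [(hker p hp w).2 hw] at this
    simpa using this
  obtain ⟨a₁, h1⟩ := hr p hp b
  have e3 := e1 (a - a₁)
  rw [e2, map_sub, h1] at e3
  refine sub_eq_zero.1 (hγ _ ?_)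
  rw [map_sub γ, sub_apply]
  linarith

end Pure

variable {n : ℕ} {g : Met n}

/-- The Euclidean form on `E n`. -/
def idxE (n : ℕ) : E n →L[ℝ] E n →L[ℝ] ℝ := innerSL ℝ (E := E n)

theorem idxE_apply (u w : E n) : idxE n u w = inner ℝ u w := rfl

/-- The Euclidean form on `VV n`. -/
def idxV (n : ℕ) : VV n →L[ℝ] VV n →L[ℝ] ℝ :=
  (idxE n).bilinearComp (ContinuousLinearMap.fst ℝ _ _) (ContinuousLinearMap.fst ℝ _ _) +
    (idxE n).bilinearComp (ContinuousLinearMap.snd ℝ _ _) (ContinuousLinearMap.snd ℝ _ _)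

theorem idxV_apply (u w : VV n) : idxV n u w = inner ℝ u.1 w.1 + inner ℝ u.2 w.2 := rfl

theorem idxV_nonneg (u : VV n) : 0 ≤ idxV n u u := by
  rw [idxV_apply]
  exact add_nonneg real_inner_self_nonneg real_inner_self_nonneg

theorem idxV_pos (u : VV n) (h : idxV n u u = 0) : u = 0 := by
  rw [idxV_apply] at h
  have h1 : 0 ≤ inner ℝ u.1 u.1 := real_inner_self_nonneg
  have h2 : 0 ≤ inner ℝ u.2 u.2 := real_inner_self_nonneg
  exact Prod.ext ((inner_self_eq_zero (𝕜 := ℝ)).1 (by linarith))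
    ((inner_self_eq_zero (𝕜 := ℝ)).1 (by linarith))

/-- Generators of `Bdir x`. -/
def idxGen (x : VV n) : Fin 9 → VV n :=
  ![x, qi • x, qj • x, qk • x, (0, x.1), (0, qi • x.1), (0, qj • x.1), (0, qk • x.1), (0, x.2)]

/-- Generators of `Bs x`. -/
def idxGen' (x : VV n) : Fin 5 → E n := ![x.1, qi • x.1, qj • x.1, qk • x.1, x.2]

theorem idxGen_span (x : VV n) : Submodule.span ℝ (range (idxGen x)) = Bdir x := rfl

theorem idxGen'_span (x : VV n) : Submodule.span ℝ (range (idxGen' x)) = Bs x := rfl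

theorem idxGen_smooth (i : Fin 9) : ContDiff ℝ 1 fun x : VV n => idxGen x i := by
  fin_cases i
  · exact contDiff_id
  · exact contDiff_id.const_smul qi
  · exact contDiff_id.const_smul qj
  · exact contDiff_id.const_smul qk
  · exact contDiff_const.prodMk contDiff_fst
  · exact contDiff_const.prodMk (contDiff_fst.const_smul qi)
  · exact contDiff_const.prodMk (contDiff_fst.const_smul qj)
  · exact contDiff_const.prodMk (contDiff_fst.const_smul qk)
  · exact contDiff_const.prodMk contDiff_snd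

theorem idxGen'_smooth (i : Fin 5) : ContDiff ℝ 1 fun x : VV n => idxGen' x i := by
  fin_cases i
  · exact contDiff_fst
  · exact contDiff_fst.const_smul qi
  · exact contDiff_fst.const_smul qj
  · exact contDiff_fst.const_smul qk
  · exact contDiff_snd

theorem idx_Bs_Bdir {x : VV n} {u : E n} (hu : u ∈ Bs x) : ((0, u) : VV n) ∈ Bdir x := by
  obtain ⟨c, a, rfl⟩ := mem_Bs.1 hu
  exact mem_Bdir.2 ⟨0, c, a, by simp⟩

theorem idx_om_add_left (x a b c : VV n) : om g x (a + b) c = om g x a c + om g x b c := by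
  simp only [om, map_add, add_apply, Prod.fst_add]
  ring

theorem idx_om_anti (x a b : VV n) : om g x a b = -om g x b a := by
  simp only [om]
  ring

namespace Geo
variable (G : Geo g) (h : IsMetric g)

theorem idx_JH (t : ℝ) (x δ : VV n) : G.JH t x δ = hor (G.Z t x) (G.JJ t x δ) := rfl

include h

theorem idx_g (t : ℝ) {x : VV n} (hx : x ∈ OO n) (u : E n) (δ : VV n) :
    g (G.Z t x) u (G.JJ t x δ) = g (G.Z t x) u (G.JH t x δ) :=
  (h.hor_right (G.Z_ne h t hx) _ _).symm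

theorem idx_lag (t : ℝ) {x : VV n} (hx : x ∈ OO n) {ξ η : VV n} (hξ : G.JH t x ξ = 0)
    (hη : G.JH t x η = 0) : om g x ξ η = 0 := by
  rw [← G.star h t hx hξ, G.idx_g h t hx, hη, map_zero]

theorem idx_fibre (t : ℝ) {x : VV n} (hx : x ∈ OO n) {δ : VV n} (hδ : G.JH t x δ = 0) (u : E n) :
    om g x (0, u) δ = (spd g x)⁻¹ * g x.1 u δ.1 := by
  have h1 : g x.1 (vel g x) δ.1 = 0 := by
    have := G.al_inv h t hx δ
    rw [G.idx_g h t hx, hδ, map_zero] at this
    exact this.symm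
  rw [om_fibre h hx, h1, mul_zero, sub_zero]

theorem idx_add (s t : ℝ) {x : VV n} (hx : x ∈ OO n) (δ : VV n) :
    G.JH (s + t) x δ = G.JH s (G.psi t x) (fderiv ℝ (G.psi t) x δ) := by
  rw [idx_JH, idx_JH, G.JJ_add h s t hx, Z, G.psi_add h s t hx]
  rfl

theorem idx_zero {x : VV n} (hx : x ∈ OO n) (δ : VV n) : G.JH 0 x δ = hor x.1 δ.1 := by
  rw [idx_JH, G.JJ_zero h hx, Z, G.psi_zero h hx]

end Geo

/-- The parameter domain. -/
def idxU (n : ℕ) : Set (ℝ × VV n) := {p | p.1 ∈ Ioo (π / 4) (3 * π / 4) ∧ p.2 ∈ OO n}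

theorem isOpen_idxU : IsOpen (idxU n) :=
  (isOpen_Ioo.preimage continuous_fst).inter (isOpen_OO.preimage continuous_snd)

namespace Bl
variable {G : Geo g} (B : Bl g G)
include B

theorem idx_pair {p : ℝ × VV n} (hp : p ∈ idxU n) {a : VV n} (h1 : G.JH (π / 4) p.2 a = 0)
    (h2 : G.JH p.1 p.2 a = 0) : a ∈ Bdir p.2 :=
  B.no_conj_pair hp.2 ⟨by linarith [hp.1.1], by linarith [hp.1.2, pi_pos]⟩
    (by linarith [hp.1.2] : p.1 - π / 4 < π / 2).ne h1 h2

theorem idx_range {p : ℝ × VV n} (hp : p ∈ idxU n) (b : E n) :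
    ∃ a, G.JH (π / 4) p.2 a = 0 ∧ G.JH p.1 p.2 a = -G.JH p.1 p.2 (0, b) := by
  obtain ⟨t, x⟩ := p
  obtain ⟨ht, hx⟩ := hp
  dsimp only at ht hx ⊢
  have h := B.met
  have hy := G.psi_mem h (π / 4) hx
  have e0 : G.psi (t - π / 4) (G.psi (π / 4) x) = G.psi t x := by
    rw [← G.psi_add h _ _ hx, sub_add_cancel]
  have e1 : G.psi (-(π / 4)) (G.psi (π / 4) x) = x := by
    rw [← G.psi_add h _ _ hx, neg_add_cancel, G.psi_zero h hx]
  obtain ⟨u, hu⟩ := G.JH_surj h (t - π / 4) hy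
    (fun u hu => B.no_conj hy ⟨by linarith [ht.1], by linarith [ht.2]⟩ hu)
    (y := -G.JH t x (0, b))
    (by
      rw [Geo.Z, e0, ← neg_one_smul ℍ, nu_smul]
      exact mul_eq_zero_of_right _ (nu_hor (G.Z_ne h t hx) _))
    (by
      have := G.al_inv h t hx (0, b)
      rw [G.idx_g h t hx] at this
      rw [Geo.Z, e0, map_neg, neg_eq_zero]
      exact this.trans (map_zero (g x.1 (vel g x))))
  have e2 := G.fderiv_psi_neg h (-(π / 4)) hy (0, u)
  rw [neg_neg, e1] at e2
  refine ⟨fderiv ℝ (G.psi (-(π / 4))) (G.psi (π / 4) x) (0, u), ?_, ?_⟩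
  · have := G.idx_add h 0 (π / 4) hx (fderiv ℝ (G.psi (-(π / 4))) (G.psi (π / 4) x) (0, u))
    rw [zero_add, e2, G.idx_zero h hy] at this
    exact this.trans (map_zero (horL _))
  · have := G.idx_add h (t - π / 4) (π / 4) hx
      (fderiv ℝ (G.psi (-(π / 4))) (G.psi (π / 4) x) (0, u))
    rw [sub_add_cancel, e2, hu] at this
    exact this

theorem idx_exists : ∃ A : ℝ × VV n → E n →L[ℝ] VV n, ContDiffOn ℝ 1 A (idxU n) ∧
    ∀ p ∈ idxU n, ∀ b, G.JH (π / 4) p.2 (A p b) = 0 ∧ G.JH p.1 p.2 ((0, b) + A p b) = 0 := by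
  have h := B.met
  have hJ := (G.contDiffOn_JH h).of_le (m := 1) (by exact_mod_cast le_top)
  have hJ1 : ContDiffOn ℝ 1 (fun p : ℝ × VV n => G.JH p.1 p.2) (idxU n) :=
    hJ.mono fun p hp => hp.2
  have hJ0 : ContDiffOn ℝ 1 (fun p : ℝ × VV n => G.JH (π / 4) p.2) (idxU n) :=
    hJ.comp (f := fun p : ℝ × VV n => (π / 4, p.2)) (contDiffOn_const.prodMk contDiffOn_snd)
      fun p hp => hp.2
  obtain ⟨A, hA, h1⟩ := idx_solve (U := idxU n) idxV_pos idxV_pos idxV_nonneg
    (T := fun p => (G.JH (π / 4) p.2).prod (G.JH p.1 p.2))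
    (R := fun p => (0 : E n →L[ℝ] E n).prod
      (-(G.JH p.1 p.2).comp (ContinuousLinearMap.inr ℝ (E n) (E n))))
    (v := fun p => idxGen p.2)
    (contDiffOn_clm_apply.2 fun a =>
      (hJ0.clm_apply contDiffOn_const).prodMk (hJ1.clm_apply contDiffOn_const))
    (contDiffOn_clm_apply.2 fun b =>
      contDiffOn_const.prodMk (hJ1.clm_apply (contDiffOn_const (c := ((0, b) : VV n)))).neg)
    (fun i => ((idxGen_smooth i).comp contDiff_snd).contDiffOn)
    (fun p hp a => by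
      rw [idxGen_span]
      exact ⟨fun ha => B.idx_pair hp (congrArg Prod.fst ha) (congrArg Prod.snd ha),
        fun ha => Prod.ext (G.JH_Bdir h _ hp.2 ha) (G.JH_Bdir h _ hp.2 ha)⟩)
    (fun p hp b => by
      obtain ⟨a, h1, h2⟩ := B.idx_range hp b
      exact ⟨a, Prod.ext h1 h2⟩)
  refine ⟨A, hA, fun p hp b => ⟨congrArg Prod.fst (h1 p hp b), ?_⟩⟩
  have h2 : G.JH p.1 p.2 (A p b) = -G.JH p.1 p.2 (0, b) := congrArg Prod.snd (h1 p hp b)
  rw [map_add, h2, add_neg_cancel]

end Bl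

/-- The family of forms. -/
def idxQ (g : Met n) (A : ℝ × VV n → E n →L[ℝ] VV n) (p : ℝ × VV n) : E n →L[ℝ] E n →L[ℝ] ℝ :=
  idxPen (idxE n) (idxGen' p.2) - (g p.2.1).comp ((ContinuousLinearMap.fst ℝ _ _).comp (A p))

theorem idxQ_apply (A : ℝ × VV n → E n →L[ℝ] VV n) (p : ℝ × VV n) (b b' : E n) :
    idxQ g A p b b' = idxPen (idxE n) (idxGen' p.2) b b' - g p.2.1 (A p b).1 b' := rfl

section Q
variable {G : Geo g} (B : Bl g G) {A : ℝ × VV n → E n →L[ℝ] VV n}
  (hA : ContDiffOn ℝ 1 A (idxU n))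
  (hS : ∀ p ∈ idxU n, ∀ b, G.JH (π / 4) p.2 (A p b) = 0 ∧ G.JH p.1 p.2 ((0, b) + A p b) = 0)

include B hA in
theorem idxQ_cont : ContinuousOn (idxQ g A) (idxU n) := by
  refine continuousOn_clm_apply.2 fun b => continuousOn_clm_apply.2 fun b' => ?_
  simp only [idxQ_apply, idxPen_apply, idxE_apply]
  refine ContinuousOn.sub (continuousOn_finsetSum _ fun i _ => ?_) ?_
  · have := ((idxGen'_smooth (n := n) i).continuous.comp
      (continuous_snd (X := ℝ) (Y := VV n))).continuousOn (s := idxU n)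
    exact (this.inner (𝕜 := ℝ) continuousOn_const).mul (this.inner (𝕜 := ℝ) continuousOn_const)
  · have h1 : ContinuousOn (fun p : ℝ × VV n => g p.2.1) (idxU n) :=
      B.met.smooth.continuousOn.comp (f := fun p : ℝ × VV n => p.2.1)
        continuous_snd.fst.continuousOn fun p hp => hp.2.1
    exact (h1.clm_apply (hA.continuousOn.clm_apply continuousOn_const).fst).clm_apply
      continuousOn_const

include B hS in
theorem idxQ_symm {p : ℝ × VV n} (hp : p ∈ idxU n) (b b' : E n) :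
    idxQ g A p b b' = idxQ g A p b' b := by
  have h := B.met
  have hx := hp.2
  have e := G.idx_lag h p.1 hx (hS p hp b).2 (hS p hp b').2
  rw [idx_om_add_left, idx_om_anti p.2 (0, b), idx_om_anti p.2 (A p b), idx_om_add_left,
    idx_om_add_left, G.idx_lag h _ hx (hS p hp b').1 (hS p hp b).1,
    G.idx_fibre h _ hx (hS p hp b).1, idx_om_anti p.2 (A p b'),
    G.idx_fibre h _ hx (hS p hp b').1, om_fibre h hx] at e
  simp only [map_zero, mul_zero, sub_zero] at e
  have e1 : g p.2.1 b (A p b').1 = g p.2.1 b' (A p b).1 :=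
    mul_left_cancel₀ (inv_ne_zero (h.spd_pos hx).ne') (by linarith)
  rw [idxQ_apply, idxQ_apply, h.symm _ _ b' hx.1, h.symm _ _ b hx.1, e1, idxPen_apply,
    idxPen_apply]
  simp only [mul_comm]

include B hS in
theorem idxQ_ker {p : ℝ × VV n} (hp : p ∈ idxU n) (b : E n) :
    idxQ g A p b = 0 ↔ b ∈ (Bs p.2)ᗮ ∧ G.JH p.1 p.2 (0, b) = 0 := by
  have h := B.met
  have hx := hp.2
  have e0 : A p b ∈ Bdir p.2 → ∀ b', g p.2.1 (A p b).1 b' = 0 := fun ha b' => by
    obtain ⟨l, c, a, e⟩ := mem_Bdir.1 ha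
    rw [e]
    exact h.vert l _ _ hx.1
  constructor
  · intro hq
    have e1 : ∀ b', idxPen (idxE n) (idxGen' p.2) b b' = g p.2.1 (A p b).1 b' := fun b' => by
      rw [← sub_eq_zero, ← idxQ_apply, hq]
      rfl
    have e2 := idxPen_zero (β := idxE n) (fun v hv => (inner_self_eq_zero (𝕜 := ℝ)).1 hv)
      (v := idxGen' p.2) (a := b) fun w hw => by
        rw [idxGen'_span] at hw
        have := G.idx_fibre h _ hx (hS p hp b).1 w
        rw [om_Bdir h hx (idx_Bs_Bdir hw)] at this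
        rw [e1, h.symm _ _ _ hx.1]
        exact (mul_eq_zero.1 this.symm).resolve_left (inv_ne_zero (h.spd_pos hx).ne')
    refine ⟨(Submodule.mem_orthogonal _ _).2 fun w hw =>
      idxPen_self (e2 b) (by rwa [idxGen'_span]), ?_⟩
    have e3 : G.JH 0 p.2 (A p b) = 0 := by
      rw [G.idx_zero h hx]
      exact h.hor_eq_zero hx.1 (by rw [← e1, e2])
    have e4 : A p b ∈ Bdir p.2 :=
      B.no_conj_pair hx (s := 0) (t := π / 4) ⟨by linarith [pi_pos], by linarith [pi_pos]⟩
        (by linarith [pi_pos] : π / 4 - 0 < π / 2).ne e3 (hS p hp b).1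
    have := (hS p hp b).2
    rwa [map_add, G.JH_Bdir h _ hx e4, add_zero] at this
  · rintro ⟨h1, h2⟩
    have e4 : A p b ∈ Bdir p.2 := B.idx_pair hp (hS p hp b).1 (by
      have := (hS p hp b).2
      rwa [map_add, h2, zero_add] at this)
    ext b'
    rw [idxQ_apply, e0 e4, idxPen_apply, sub_zero]
    refine Finset.sum_eq_zero fun i _ => mul_eq_zero_of_left ?_ _
    exact (Submodule.mem_orthogonal _ _).1 h1 _
      (idxGen'_span p.2 ▸ Submodule.subset_span ⟨i, rfl⟩)

include B hS in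
theorem idxQ_nondeg {p : ℝ × VV n} (hp : p ∈ idxU n) (hne : p.1 ≠ π / 2) (b : E n)
    (hb : idxQ g A p b = 0) : b = 0 := by
  obtain ⟨h1, h2⟩ := (idxQ_ker B hS hp b).1 hb
  have h3 := B.no_conj' hp.2 ⟨by linarith [hp.1.1, pi_pos], by linarith [hp.1.2, pi_pos]⟩ hne h2
  exact (inner_self_eq_zero (𝕜 := ℝ)).1 ((Submodule.mem_orthogonal _ _).1 h1 b h3)

include B hA hS in
theorem idxQ_deriv {t : ℝ} {x : VV n} (hp : (t, x) ∈ idxU n) (b : E n) :
    ∃ d, 0 ≤ d ∧ HasDerivAt (fun s => idxQ g A (s, x) b b) d t := by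
  have h := B.met
  have hx : x ∈ OO n := hp.2
  have hc : ContDiffAt ℝ 1 (fun s : ℝ => (s, x)) t := contDiffAt_id.prodMk contDiffAt_const
  have hev : ∀ᶠ s in 𝓝 t, (s, x) ∈ idxU n :=
    hc.continuousAt.preimage_mem_nhds (isOpen_idxU.mem_nhds hp)
  obtain ⟨a', ha⟩ : ∃ a', HasDerivAt (fun s => A (s, x) b) a' t :=
    ⟨_, ((((hA.contDiffAt (isOpen_idxU.mem_nhds hp)).comp t hc).clm_apply
      (contDiffAt_const (c := b))).differentiableAt one_ne_zero).hasDerivAt⟩
  have hJ1 : ContDiffAt ℝ 1 (fun p : ℝ × VV n => G.JH p.1 p.2) (t, x) :=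
    ((G.contDiffOn_JH h).contDiffAt
      ((isOpen_OO.preimage continuous_snd).mem_nhds (x := (t, x)) hx)).of_le
        (by exact_mod_cast le_top)
  obtain ⟨J', hJ⟩ : ∃ J', HasDerivAt (fun s => G.JH s x) J' t :=
    ⟨_, ((ContDiffAt.comp (g := fun p : ℝ × VV n => G.JH p.1 p.2) t hJ1 hc).differentiableAt
      one_ne_zero).hasDerivAt⟩
  have e1 : G.JH (π / 4) x a' = 0 := by
    have h1 := (G.JH (π / 4) x).hasFDerivAt.comp_hasDerivAt t ha
    exact h1.unique ((hasDerivAt_const t (0 : E n)).congr_of_eventuallyEq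
      (hev.mono fun s hs => (hS _ hs b).1))
  have e2 : J' ((0, b) + A (t, x) b) + G.JH t x a' = 0 := by
    have h1 := hJ.clm_apply (ha.const_add ((0, b) : VV n))
    exact h1.unique ((hasDerivAt_const t (0 : E n)).congr_of_eventuallyEq
      (hev.mono fun s hs => (hS _ hs b).2))
  have e3 : deriv (fun s => G.JH s x ((0, b) + A (t, x) b)) t = J' ((0, b) + A (t, x) b) := by
    have := (hJ.clm_apply (hasDerivAt_const t ((0, b) + A (t, x) b))).deriv
    rwa [map_zero, add_zero] at this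
  have e4 := G.star h t hx (hS _ hp b).2 a'
  rw [e3, G.idx_g h t hx, eq_neg_of_add_eq_zero_right e2, map_neg, idx_om_add_left,
    G.idx_lag h _ hx (hS _ hp b).1 e1, G.idx_fibre h _ hx e1, add_zero] at e4
  have e5 := h.nonneg (G.Z_ne h t hx) (J' ((0, b) + A (t, x) b))
  have e6 : g x.1 b a'.1 ≤ 0 := by
    by_contra hc
    have := mul_pos (inv_pos.2 (h.spd_pos hx)) (not_le.1 hc)
    linarith
  refine ⟨-g x.1 a'.1 b, by rw [h.symm _ _ _ hx.1]; linarith, ?_⟩
  exact ((((g x.1).flip b).comp (ContinuousLinearMap.fst ℝ (E n) (E n))).hasFDerivAt.comp_hasDerivAt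
    t ha).const_sub (idxPen (idxE n) (idxGen' x) b b)

end Q

/-- Dimension of the space of `u` with `JH (π/2) x (0,u) = 0` (it contains `Bs x`). -/
def Geo.kdim (G : Geo g) (x : VV n) : ℕ :=
  Module.finrank ℝ (LinearMap.ker
    ((G.JH (π / 2) x).comp (ContinuousLinearMap.inr ℝ (E n) (E n)) : E n →ₗ[ℝ] E n))

theorem Bl.kdim_const {G : Geo g} (B : Bl g G) {x y : VV n} (hx : x ∈ OO n) (hy : y ∈ OO n) :
    G.kdim x = G.kdim y := by
  obtain ⟨A, hA, hS⟩ := B.idx_exists
  have hU : ∀ t ∈ Icc (3 * π / 8) (5 * π / 8), ∀ x ∈ OO n, (t, x) ∈ idxU n := fun t ht x hx =>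
    ⟨⟨by linarith [ht.1, pi_pos], by linarith [ht.2, pi_pos]⟩, hx⟩
  have ha : 3 * π / 8 < π / 2 := by linarith [pi_pos]
  have hb : π / 2 < 5 * π / 8 := by linarith [pi_pos]
  have hcont := idxQ_cont B hA
  have jump : ∀ x ∈ OO n, npos (idxQ g A (5 * π / 8, x)) + 5 =
      npos (idxQ g A (3 * π / 8, x)) + G.kdim x := by
    intro x hx
    have h1 := npos_jump (q := fun t => idxQ g A (t, x)) ha hb
      (hcont.comp (f := fun t : ℝ => (t, x)) (continuous_id.prodMk continuous_const).continuousOn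
        fun t ht => hU t ht x hx)
      (fun t ht => idxQ_symm B hS (hU t ht x hx))
      (fun u => by
        choose! d hd using fun t (ht : t ∈ Icc (3 * π / 8) (5 * π / 8)) =>
          idxQ_deriv B hA hS (hU t ht x hx) u
        exact monotoneOn_of_hasDerivWithinAt_nonneg (convex_Icc _ _) (f' := d)
          (fun t ht => (hd t ht).2.continuousAt.continuousWithinAt)
          (fun t ht => (hd t (interior_subset ht)).2.hasDerivWithinAt)
          fun t ht => (hd t (interior_subset ht)).1)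
      fun t ht hne => idxQ_nondeg B hS (hU t ht x hx) hne
    have h2 := Submodule.finrank_add_inf_finrank_orthogonal (𝕜 := ℝ) (K₁ := Bs x)
      (K₂ := LinearMap.ker ((G.JH (π / 2) x).comp (ContinuousLinearMap.inr ℝ (E n) (E n)) :
        E n →ₗ[ℝ] E n)) fun u hu => G.JH_Bdir B.met _ hx (idx_Bs_Bdir hu)
    have h3 : LinearMap.ker (idxQ g A (π / 2, x) : E n →ₗ[ℝ] E n →L[ℝ] ℝ) = (Bs x)ᗮ ⊓
        LinearMap.ker ((G.JH (π / 2) x).comp (ContinuousLinearMap.inr ℝ (E n) (E n)) :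
          E n →ₗ[ℝ] E n) :=
      Submodule.ext fun b => idxQ_ker B hS (hU _ ⟨ha.le, hb.le⟩ x hx) b
    rw [finrank_Bs hx, ← h3] at h2
    unfold Geo.kdim
    omega
  have const : ∀ t ∈ Icc (3 * π / 8) (5 * π / 8), t ≠ π / 2 →
      npos (idxQ g A (t, x)) = npos (idxQ g A (t, y)) := by
    intro t ht hne
    refine (isPreconnected_OO (le_trans one_le_two B.two)).constant
      (f := fun z => npos (idxQ g A (t, z))) (fun z hz => ContinuousAt.continuousWithinAt ?_) hx hy
    exact Filter.EventuallyEq.continuousAt (npos_eventually (q := fun z => idxQ g A (t, z))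
      ((hcont.continuousAt (isOpen_idxU.mem_nhds (hU t ht z hz))).comp (f := fun z => (t, z))
        (continuous_const.prodMk continuous_id).continuousAt)
      (Filter.mem_of_superset (isOpen_OO.mem_nhds hz) fun w hw => idxQ_symm B hS (hU t ht w hw))
      (idxQ_nondeg B hS (hU t ht z hz) hne))
  have e1 := const _ ⟨le_rfl, (ha.trans hb).le⟩ ha.ne
  have e2 := const _ ⟨(ha.trans hb).le, le_rfl⟩ hb.ne'
  have e3 := jump x hx
  have e4 := jump y hy
  omega

end Pool.Agent.Work.MP_8c604c_gt.H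
end
end

-- merged part: Pool.Agent.Work.MP_8c604c_gt.B.IxK
section
/-!
The space `KS x` is the orthogonal complement, in the horizontal normal space, of the values at `x` of the Jacobi fields
that vanish at the cut point.
-/

set_option maxSynthPendingDepth 3

open Set Filter Topology MeasureTheory
open scoped ContDiff Quaternion

noncomputable section
namespace Pool.Agent.Work.MP_8c604c_gt.H

open Real

variable {n : ℕ} {g : Met n}

theorem Geo.ik_mem (G : Geo g) {x : VV n} {u : E n} : u ∈ G.KS x ↔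
    nu x.1 u = 0 ∧ g x.1 x.2 u = 0 ∧ G.JH (π / 2) x (0, u) = 0 := by
  simp only [Geo.KS, Submodule.mem_inf, LinearMap.mem_ker, and_assoc]
  rfl

theorem IsMetric.ik_vel (h : IsMetric g) {x : VV n} (hx : x ∈ OO n) (u : E n) :
    g x.1 x.2 u = spd g x * g x.1 (vel g x) u := by
  nth_rewrite 1 [h.snd_eq hx]
  rw [map_add, map_smul, add_apply, smul_apply, h.vert _ _ _ hx.1, add_zero, smul_eq_mul]

theorem IsMetric.ik_perp (h : IsMetric g) {G : Geo g} {x : VV n} (hx : x ∈ OO n) {u : E n}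
    (hu : u ∈ G.KS x) : g x.1 (vel g x) u = 0 := by
  have := (G.ik_mem.1 hu).2.1
  rw [h.ik_vel hx] at this
  exact (mul_eq_zero.1 this).resolve_left (h.spd_pos hx).ne'

namespace Geo
variable (G : Geo g) (h : IsMetric g)
include h

theorem ik_back (t : ℝ) {x : VV n} (hx : x ∈ OO n) : G.psi (-t) (G.psi t x) = x := by
  rw [← G.psi_add h _ _ hx, neg_add_cancel, G.psi_zero h hx]

theorem ik_Z (t : ℝ) {x : VV n} (hx : x ∈ OO n) : G.Z (-t) (G.psi t x) = x.1 :=
  congrArg Prod.fst (G.ik_back h t hx)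

/-- The symplectic pairing of a fibre vector at `x` with a Jacobi field given at time `t`. -/
theorem ik_pair (t : ℝ) {x : VV n} (hx : x ∈ OO n) {u : E n} (hu : g x.1 (vel g x) u = 0)
    (δ : VV n) : g x.1 u (G.JJ (-t) (G.psi t x) δ) =
      spd g x * om g (G.psi t x) (fderiv ℝ (G.psi t) x (0, u)) δ := by
  have hy := G.psi_mem h t hx
  rw [← G.om_psi h (-t) hy, G.fderiv_psi_neg h t hx, G.ik_back h t hx, om_fibre h hx, hu,
    G.fst_fderiv_psi h _ hy, zero_mul, sub_zero, mul_inv_cancel_left₀ (h.spd_pos hx).ne']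

theorem ik_fib (t : ℝ) {x : VV n} (hx : x ∈ OO n) {u : E n} (hu : g x.1 (vel g x) u = 0)
    (w : E n) : g x.1 u (G.JJ (-t) (G.psi t x) (0, w)) = -g (G.Z t x) w (G.JJ t x (0, u)) := by
  have hy := G.psi_mem h t hx
  have a : g (G.psi t x).1 (vel g (G.psi t x)) (G.JJ t x (0, u)) = 0 :=
    (G.al_inv h t hx (0, u)).trans (by simp [al])
  rw [G.ik_pair h t hx hu, idx_om_anti, om_fibre h hy, G.fst_fderiv_psi h _ hx, a,
    G.spd_psi h t hx, mul_zero, sub_zero, mul_neg, mul_inv_cancel_left₀ (h.spd_pos hx).ne']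
  rfl

/-- `KS x` is orthogonal to the fields that vanish at the cut point. -/
theorem ik_orth {x : VV n} (hx : x ∈ OO n) {u : E n} (hu : u ∈ G.KS x) (w : E n) :
    g x.1 u (G.JJ (-(π / 2)) (G.psi (π / 2) x) (0, w)) = 0 := by
  rw [G.ik_fib h _ hx (h.ik_perp hx hu), G.idx_g h _ hx, (G.ik_mem.1 hu).2.2, map_zero, neg_zero]

/-- A normal vector orthogonal to `KS x` is the value of a Jacobi field that vanishes at the cut point. -/
theorem ik_range {x : VV n} (hx : x ∈ OO n) {ρ : E n} (h0 : g x.1 (vel g x) ρ = 0)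
    (h1 : ∀ u ∈ G.KS x, g x.1 u ρ = 0) :
    ∃ (w : E n) (c : ℍ), ρ = G.JJ (-(π / 2)) (G.psi (π / 2) x) (0, w) + c • x.1 := by
  have hy := G.psi_mem h (π / 2) hx
  set T : E n →L[ℝ] E n := (G.JH (-(π / 2)) (G.psi (π / 2) x)).comp
    (ContinuousLinearMap.inr ℝ (E n) (E n))
  have hT : ∀ w, T w = hor x.1 (G.JJ (-(π / 2)) (G.psi (π / 2) x) (0, w)) := fun w => by
    rw [← G.ik_Z h (π / 2) hx]; rfl
  suffices k : hor x.1 ρ ∈ LinearMap.range (T : E n →ₗ[ℝ] E n) by
    obtain ⟨w, hw⟩ := k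
    have hw : T w = hor x.1 ρ := hw
    obtain ⟨c, hc⟩ := (hor_eq_zero_iff hx.1 (ρ - G.JJ (-(π / 2)) (G.psi (π / 2) x) (0, w))).1
      (by rw [hor_sub, ← hw, hT, sub_self])
    exact ⟨w, c, by rw [← hc]; abel⟩
  by_contra hn
  obtain ⟨φ, p1, p2⟩ := Submodule.exists_dual_map_eq_bot_of_notMem hn inferInstance
  let N : E n →L[ℝ] E n := horL x.1 - (g x.1 (vel g x)).smulRight (vel g x)
  have hN : ∀ v, N v = hor x.1 v - g x.1 (vel g x) v • vel g x := fun v => rfl
  obtain ⟨e, he⟩ := idx_invertible (M := GG g x.1) fun a ha => by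
    by_contra k
    exact (h.GG_pos hx.1 k).ne' ha
  set u := e.symm ((LinearMap.toContinuousLinearMap φ).comp N)
  have hu : ∀ v, GG g x.1 u v = φ (N v) := fun v => by
    rw [← he]
    simp [u]
  have u1 : nu x.1 u = 0 := by
    have := hu (nu x.1 u • x.1)
    rw [GG_apply, hN, h.vert' _ _ hx.1, h.vert' _ _ hx.1, (hor_eq_zero_iff hx.1 _).2 ⟨_, rfl⟩,
      nu_smul, nu_self hx.1, mul_one, zero_add, zero_smul, sub_zero, map_zero] at this
    exact inner_self_eq_zero.1 this
  have hg : ∀ v, g x.1 u v = φ (N v) := fun v => by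
    rw [← hu, GG_apply, u1, inner_zero_left, add_zero]
  have u2 : g x.1 (vel g x) u = 0 := by
    rw [h.symm _ _ _ hx.1, hg, hN, h.vel_unit hx, hor_of_nu (h.nu_vel hx.1), one_smul, sub_self,
      map_zero]
  have u3 : G.JH (π / 2) x (0, u) = 0 := by
    rw [G.idx_JH]
    refine h.hor_eq_zero (G.Z_ne h _ hx) (neg_eq_zero.1 ?_)
    have a := G.al_inv h (-(π / 2)) hy (0, G.JJ (π / 2) x (0, u))
    rw [G.ik_Z h _ hx, G.ik_back h _ hx] at a
    rw [← G.ik_fib h _ hx u2, hg, hN, a, ← hT]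
    have : φ (T (G.JJ (π / 2) x (0, u))) ∈ Submodule.map φ (LinearMap.range (T : E n →ₗ[ℝ] E n)) :=
      ⟨_, ⟨_, rfl⟩, rfl⟩
    rw [p2, Submodule.mem_bot] at this
    simp [al, this]
  have := h1 u (G.ik_mem.2 ⟨u1, by rw [h.ik_vel hx, u2, mul_zero], u3⟩)
  rw [hg, hN, h0, zero_smul, sub_zero] at this
  exact p1 this

end Geo

end Pool.Agent.Work.MP_8c604c_gt.H
end
end
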