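import Pool.Agent.Work.MP_8c604c_gt.C.Count
import Pool.Agent.Work.MP_8c604c_gt.H.RigC
import Pool.Agent.Work.MP_8c604c_gt.B.Dt
import Pool.Agent.Work.MP_8c604c_gt.B.IxK
import Pool.Agent.Work.MP_8c604c_gt.OS.ND

-- merged part: Pool.Agent.Work.MP_8c604c_gt.B.Lp
section
/-!
Closed geodesics as loops.
Plan. lp_cs: mkL_per, B.Z_add_pi, pr_smul. exists_act: x2.1 = l . x.1 (pr_eq_iff), dpr_smul and dpr_inj give vel x2 = r . l . vel x, unit speed gives r = 1,
snd_eq writes x.2 and x2.2 through vel and nu. vl_lp: lp_cs and hasDerivAt_Z. desc_SS: B.desc with K = slice n, q = lp.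
-/

set_option maxSynthPendingDepth 3

open Set Filter Topology MeasureTheory
open scoped ContDiff Quaternion

noncomputable section
namespace Pool.Agent.Work.MP_8c604c_gt.H

open T B Real

variable {n : ℕ} {g : Met n}

variable {G : Geo g}

theorem Geo.sec_mem {c : LM n} (hc : c ∈ G.SS) : G.sec c ∈ OO n ∧ G.lp (G.sec c) = c :=
  Classical.epsilon_spec (p := fun x => x ∈ OO n ∧ G.lp x = c) hc

theorem Lp_dd (hg : IsMetric g) {z z' y y' : E n} (hz : z ≠ 0) (hz' : z' ≠ 0) (hy : y ≠ 0)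
    (hy' : y' ≠ 0) (h : pr y = pr z) (h' : pr y' = pr z') : dd g y y' = dd g z z' := by
  obtain ⟨c, hc, rfl⟩ := (pr_eq_iff hz hy).1 h
  obtain ⟨c', hc', rfl⟩ := (pr_eq_iff hz' hy').1 h'
  rw [hg.dd_smul_left hc, dd_smul_right hc']

theorem Lp_dpr : ContinuousOn (fun x : VV n => fderiv ℝ (pr : E n → AM n) x.1) (OO n) :=
  contDiffOn_dpr.continuousOn.comp continuous_fst.continuousOn fun _ hx => hx.1

theorem Lp_inv {k : ℕ} (D : ND G k) :
    Inv fun x : VV n => (fderiv ℝ (pr : E n → AM n) x.1).comp (D.R x) := by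
  intro l m c x hl hm hx
  refine ContinuousLinearMap.ext fun a => ?_
  exact (congrArg (fderiv ℝ pr (l • x.1)) (D.eqvR a l m c x hl hm hx)).trans (dpr_smul hl hx.1 _)

namespace Bl
variable (B : Bl g G)
include B

theorem lp_cs {x : VV n} (hx : x ∈ OO n) (t : ℝ) : G.lp x (cs t) = pr (G.Z t x) := by
  refine mkL_per (c := fun t => pr (G.Z t x)) ?_ (fun s => ?_) t
  · exact (contDiffOn_pr.continuousOn.comp_continuous (G.nc_cont_Z B.met hx)
      fun s => G.Z_ne B.met s hx).continuousOn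
  · change pr (G.Z (s + π) x) = pr (G.Z s x)
    rw [B.Z_add_pi s hx, pr_smul (B.hol_ne hx)]

theorem lp_one {x : VV n} (hx : x ∈ OO n) : G.lp x 1 = pr x.1 := by
  rw [← cs_zero, B.lp_cs hx, dist_Z_zero G B.met hx]

theorem continuousOn_lp : ContinuousOn G.lp (OO n) := by
  refine continuousOn_mkL (F := fun p : VV n × ℝ => pr (G.Z p.2 p.1)) ?_ fun p hp => ?_
  · exact contDiffOn_pr.continuousOn.comp ((G.contDiffOn_Z B.met).continuousOn.comp
      continuous_swap.continuousOn fun p hp => hp.1) fun p hp => G.Z_ne B.met _ hp.1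
  · change pr (G.Z 0 p) = pr (G.Z π p)
    rw [← B.lp_cs hp, ← B.lp_cs hp, cs_zero, cs_pi]

theorem lp_act {l : ℍ} {m : ℝ} (c : ℍ) {x : VV n} (hl : l ≠ 0) (hm : 0 < m) (hx : x ∈ OO n) :
    G.lp (act l m c x) = G.lp x :=
  loop_ext fun t _ => by
    rw [B.lp_cs (act_mem c hl hm hx), B.lp_cs hx, G.Z_eqv B.met t l m c x hl hm hx, pr_smul hl]

theorem lp_vel {x : VV n} (hx : x ∈ OO n) : G.lp (x.1, vel g x) = G.lp x :=
  loop_ext fun t _ => by
    rw [B.lp_cs (B.met.unit_mem hx.1 (B.met.nu_vel hx.1) (B.met.vel_unit hx)).1, B.lp_cs hx,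
      G.Z_vel B.met t hx]

theorem sh_lp {x : VV n} (hx : x ∈ OO n) (t : ℝ) : sh (cs t) (G.lp x) = G.lp (G.psi t x) :=
  loop_ext fun s _ => by
    rw [sh_cs, B.lp_cs hx, B.lp_cs (G.psi_mem B.met t hx), dist_Z_add G B.met s t hx]

theorem vl_lp {x : VV n} (hx : x ∈ OO n) : vl (G.lp x) = fderiv ℝ pr x.1 (vel g x) := by
  have h1 := G.hasDerivAt_Z B.met 0 hx
  rw [G.psi_zero B.met hx] at h1
  have h2 := (hasFDerivAt_pr (G.Z_ne B.met 0 hx)).comp_hasDerivAt 0 h1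
  rw [dist_Z_zero G B.met hx] at h2
  rw [vl, funext (B.lp_cs hx)]
  exact h2.deriv

theorem exists_act {x x' : VV n} (hx : x ∈ OO n) (hx' : x' ∈ OO n) (h1 : pr x'.1 = pr x.1) {r : ℝ}
    (hr : 0 < r) (h2 : fderiv ℝ pr x'.1 (vel g x') = r • fderiv ℝ pr x.1 (vel g x)) :
    ∃ (l : ℍ) (m : ℝ) (c : ℍ), l ≠ 0 ∧ 0 < m ∧ x' = act l m c x := by
  obtain ⟨l, hl, e⟩ := (pr_eq_iff hx.1 hx'.1).1 h1
  have a1 : vel g x' = l • r • vel g x := by
    refine dpr_inj hx'.1 (B.met.nu_vel hx'.1) ?_ ?_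
    · rw [e, nu_smul_smul, nu_rsmul, B.met.nu_vel hx.1, smul_zero, mul_zero, zero_mul]
    · rw [h2, e, dpr_smul hl hx.1, map_smul]
  have a2 := B.met.vel_unit hx'
  rw [a1, e, B.met.inv l _ _ _ hl hx.1, map_smul, map_smul, smul_apply, B.met.vel_unit hx,
    smul_eq_mul, smul_eq_mul, mul_one] at a2
  rw [(mul_self_eq_one_iff.1 a2).resolve_right (by linarith), one_smul] at a1
  have a3 := B.met.snd_eq hx
  have a4 := B.met.snd_eq hx'
  have a5 := B.met.spd_pos hx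
  refine ⟨l, spd g x' / spd g x, l⁻¹ * nu x'.1 x'.2 * l - (spd g x' / spd g x) • nu x.1 x.2, hl,
    div_pos (B.met.spd_pos hx') a5, Prod.ext e ?_⟩
  change x'.2 = l • ((spd g x' / spd g x) • x.2 +
    (l⁻¹ * nu x'.1 x'.2 * l - (spd g x' / spd g x) • nu x.1 x.2) • x.1)
  generalize nu x.1 x.2 = a at *
  generalize nu x'.1 x'.2 = a' at *
  generalize spd g x = s at *
  generalize spd g x' = s' at *
  generalize vel g x = v at *
  rw [a4, a3, a1, e, smul_add (s' / s), sub_smul, smul_assoc, add_add_sub_cancel, smul_smul (s' / s),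
    div_mul_cancel₀ _ a5.ne', smul_add, mul_smul, mul_smul, smul_inv_smul₀ hl, smul_comm l s']

theorem lp_eq {x x' : VV n} (hx : x ∈ OO n) (hx' : x' ∈ OO n) (h : G.lp x' = G.lp x) :
    ∃ (l : ℍ) (m : ℝ) (c : ℍ), l ≠ 0 ∧ 0 < m ∧ x' = act l m c x :=
  B.exists_act hx hx' (by rw [← B.lp_one hx, ← B.lp_one hx', h]) one_pos
    (by rw [one_smul, ← B.vl_lp hx, ← B.vl_lp hx', h])

theorem inv_sec {α : Type} {f : VV n → α} (hf : Inv f) {x : VV n} (hx : x ∈ OO n) :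
    f (G.sec (G.lp x)) = f x := by
  obtain ⟨h1, h2⟩ := Geo.sec_mem (G := G) (c := G.lp x) ⟨x, hx, rfl⟩
  obtain ⟨l, m, c, hl, hm, e⟩ := B.lp_eq hx h1 h2
  rw [e, hf l m c x hl hm hx]

theorem SS_eq : G.SS = G.lp '' slice n := by
  refine Subset.antisymm ?_ (image_mono slice_subset)
  rintro _ ⟨x, hx, rfl⟩
  obtain ⟨y, hy, l, m, c, hl, hm, rfl⟩ := exists_slice hx
  exact ⟨y, hy, (B.lp_act c (coe_ne_zero hl.ne') hm (slice_subset hy)).symm⟩

theorem isCompact_SS : IsCompact G.SS := by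
  rw [B.SS_eq]
  exact isCompact_slice.image_of_continuousOn (B.continuousOn_lp.mono slice_subset)

theorem sh_mem (θ : Circle) {c : LM n} (hc : c ∈ G.SS) : sh θ c ∈ G.SS := by
  obtain ⟨x, hx, rfl⟩ := hc
  obtain ⟨t, -, rfl⟩ := exists_cs θ
  exact ⟨_, G.psi_mem B.met t hx, (B.sh_lp hx t).symm⟩

theorem desc_SS {P Y : Type} [TopologicalSpace P] [TopologicalSpace Y] {s : Set (LM n × P)}
    (hs : ∀ y ∈ s, y.1 ∈ G.SS) {f : LM n × P → Y}
    (hf : ContinuousOn (fun y : VV n × P => f (G.lp y.1, y.2))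
      {y | y.1 ∈ OO n ∧ (G.lp y.1, y.2) ∈ s}) : ContinuousOn f s :=
  desc isCompact_slice (B.continuousOn_lp.mono slice_subset) (fun y hy => B.SS_eq ▸ hs y hy)
    (hf.mono fun _ hy => ⟨slice_subset hy.1, hy.2⟩)

theorem continuousOn_sec {Y : Type} [TopologicalSpace Y] {f : VV n → Y}
    (hf : ContinuousOn f (OO n)) (hi : Inv f) : ContinuousOn (fun c => f (G.sec c)) G.SS :=
  desc₀ isCompact_slice (B.continuousOn_lp.mono slice_subset) B.SS_eq.subset
    ((hf.mono fun _ hy => slice_subset hy.1).congr fun _ hy => B.inv_sec hi (slice_subset hy.1))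

theorem continuousOn_vl : ContinuousOn vl G.SS :=
  desc₀ isCompact_slice (B.continuousOn_lp.mono slice_subset) B.SS_eq.subset
    (((Lp_dpr.clm_apply B.met.contDiffOn_vel.continuousOn).mono fun _ hy => slice_subset hy.1).congr
      fun _ hy => B.vl_lp (slice_subset hy.1))

/-- A closed geodesic through the line of `z` starts at `z` with a unit horizontal vector. -/
theorem exists_base {c : LM n} (hc : c ∈ G.SS) {z : E n} (hz : z ≠ 0) (h : c 1 = pr z) :
    ∃ w, (z, w) ∈ OO n ∧ nu z w = 0 ∧ vel g (z, w) = w ∧ c = G.lp (z, w) := by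
  obtain ⟨x, hx, rfl⟩ := hc
  rw [B.lp_one hx] at h
  obtain ⟨l, hl, e⟩ := (pr_eq_iff hx.1 hz).1 h.symm
  obtain ⟨y, hy, e1, e2⟩ : ∃ y ∈ OO n, z = y.1 ∧ G.lp y = G.lp x :=
    ⟨act l 1 0 x, act_mem 0 hl one_pos hx, e, B.lp_act 0 hl one_pos hx⟩
  obtain ⟨h1, -, h2⟩ := B.met.unit_mem hy.1 (B.met.nu_vel hy.1) (B.met.vel_unit hy)
  rw [e1]
  exact ⟨vel g y, h1, B.met.nu_vel hy.1, h2, ((B.lp_vel hy).trans e2).symm⟩

theorem cut_dd {z z' : E n} (hz : z ≠ 0) (hz' : z' ≠ 0) (h : (pr z, pr z') ∈ cutS G.SS) :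
    dd g z z' = π / 2 := by
  obtain ⟨_, ⟨x, hx, rfl⟩, h1, h2⟩ := h
  rw [← cs_zero, B.lp_cs hx] at h1
  rw [B.lp_cs hx] at h2
  have e : |π / 2 - 0| = π / 2 := by rw [sub_zero, abs_of_pos (half_pos pi_pos)]
  rw [← Lp_dd B.met hz hz' (G.Z_ne B.met 0 hx) (G.Z_ne B.met _ hx) h1 h2, B.dd_Z hx e.le, e]

theorem dd_pr {z z' y y' : E n} (hz : z ≠ 0) (hz' : z' ≠ 0) (hy : y ≠ 0) (hy' : y' ≠ 0)
    (h : pr y = pr z) (h' : pr y' = pr z') : dd g y y' = dd g z z' :=
  Lp_dd B.met hz hz' hy hy' h h'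

theorem KL_lp {k : ℕ} (D : ND G k) {x : VV n} (hx : x ∈ OO n) : D.KL (G.lp x) = D.K x :=
  B.inv_sec D.invK hx

theorem BL_lp {k : ℕ} (D : ND G k) {x : VV n} (hx : x ∈ OO n) (a : RN D.N) :
    D.BL (G.lp x) a = fderiv ℝ pr x.1 (D.R x a) :=
  congrArg (fun L => L a) (B.inv_sec (Lp_inv D) hx)

theorem continuousOn_KL {k : ℕ} (D : ND G k) : ContinuousOn D.KL G.SS :=
  B.continuousOn_sec D.cK D.invK

theorem continuousOn_BL {k : ℕ} (D : ND G k) : ContinuousOn D.BL G.SS :=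
  B.continuousOn_sec (Lp_dpr.clm_comp D.cR) (Lp_inv D)

theorem KL_sh {k : ℕ} (D : ND G k) (θ : Circle) {c : LM n} (hc : c ∈ G.SS) :
    D.KL (sh θ c) = D.KL c := by
  obtain ⟨x, hx, rfl⟩ := hc
  obtain ⟨t, -, rfl⟩ := exists_cs θ
  rw [B.sh_lp hx, B.KL_lp D (G.psi_mem B.met t hx), B.KL_lp D hx, D.psiK t x hx]

theorem isCompact_unitK {k : ℕ} (D : ND G k) : IsCompact (unitK G.SS D.KL) := by
  have h1 := B.isCompact_SS.prod (isCompact_sphere (0 : RN D.N) 1)
  have h2 : ContinuousOn (fun y : LM n × RN D.N => D.KL y.1 y.2 - y.2)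
      (G.SS ×ˢ Metric.sphere 0 1) :=
    (((B.continuousOn_KL D).comp continuous_fst.continuousOn fun y hy => hy.1).clm_apply
      continuous_snd.continuousOn).sub continuous_snd.continuousOn
  have e : unitK G.SS D.KL = G.SS ×ˢ Metric.sphere 0 1 ∩
      (fun y : LM n × RN D.N => D.KL y.1 y.2 - y.2) ⁻¹' {0} :=
    Set.ext fun y => ⟨fun h => ⟨⟨h.1, mem_sphere_zero_iff_norm.2 h.2.2⟩, sub_eq_zero.2 h.2.1⟩,
      fun h => ⟨h.1.1, sub_eq_zero.1 h.2, mem_sphere_zero_iff_norm.1 h.1.2⟩⟩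
  rw [e]
  exact h1.of_isClosed_subset (h2.preimage_isClosed_of_isClosed h1.isClosed isClosed_singleton)
    inter_subset_left

end Bl

end Pool.Agent.Work.MP_8c604c_gt.H
end
end

-- merged part: Pool.Agent.Work.MP_8c604c_gt.B.HR
section
/-!
Any two points are joined by a geodesic of length at most pi/2 (Hopf-Rinow). Use H.Log (exists_ex, Log_compact, DD).
Plan. near: for 0 < r < pi/2, r <= dd z y there is a unit horizontal v at z with dd (Z r (z,v)) y <= dd z y - r: minimise v -> dd (Z r (z,v)) y over the compact unit sphere at z;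
a path from z to y of length < dd z y + eta passes through a point m at distance r (intermediate value theorem, continuousOn_dd), m is on the line of some Z r (z,v2) (exists_ex, dd_ex, ex_vel),
and r + dd m y <= length (dd_le_curve on the two pieces). step: if dd (Z t x) y <= D - t, D = dd x.1 y, 0 < t <= pi/2, 0 < s < pi/2, s <= D - t, take near at Z t x;
the triangle inequality gives t + s <= dd x.1 (end point), so by corner the new direction is vel (psi t x) and dd (Z (t+s) x) y <= D - t - s.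
If D >= pi/2: near with pi/4, step with pi/4; D > pi/2 is impossible (one more step, dd x.1 (Z (pi/2 + s) x) <= pi/2 - s by Z_add_pi and dd_Z_le); dd = 0 means the same line (exists_ex, norm 0).
-/

set_option maxSynthPendingDepth 3

open Set Filter Topology MeasureTheory
open scoped ContDiff Quaternion

noncomputable section
namespace Pool.Agent.Work.MP_8c604c_gt.H

open T B Real

variable {n : ℕ} {g : Met n}

variable {G : Geo g}

theorem HR_split (h : IsMetric g) {c : ℝ → E n} {z y : E n} (hc : Joins c z y) {t : ℝ}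
    (ht : t ∈ Icc (0 : ℝ) 1) : dd g z (c t) + dd g (c t) y ≤ len g c := by
  have h1 : Continuous (deriv c) := hc.smooth.continuous_deriv le_rfl
  have h2 : Continuous fun s => √(g (c s) (deriv c s) (deriv c s)) :=
    (((h.smooth.continuousOn.comp_continuous hc.smooth.continuous hc.ne).clm_apply h1).clm_apply
      h1).sqrt
  have h3 := fun a b (hab : a ≤ b) => h.dd_le_curve (c := c) (c' := deriv c) hab
    (fun s _ => (hc.smooth.differentiable (by simp) s).hasDerivAt) h1.continuousOn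
    fun s _ => hc.ne s
  obtain ⟨a, ha⟩ := hc.stop
  have ha0 : a ≠ 0 := by
    rintro rfl
    exact hc.ne 1 (by rw [ha, zero_smul])
  have h4 := h3 0 t ht.1
  have h5 := h3 t 1 ht.2
  rw [hc.start] at h4
  rw [ha, dd_smul_right ha0] at h5
  rw [len, ← intervalIntegral.integral_add_adjacent_intervals (h2.intervalIntegrable 0 t)
    (h2.intervalIntegrable t 1)]
  exact add_le_add h4 h5

theorem HR_near (B : Bl g G) {z y : E n} (hz : z ≠ 0) (hy : y ≠ 0) {r : ℝ} (h0 : 0 < r)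
    (h1 : r < π / 2) (h2 : r ≤ dd g z y) :
    ∃ x ∈ OO n, x.1 = z ∧ dd g (G.Z r x) y ≤ dd g z y - r := by
  have h := B.met
  have c1 : Continuous (G.ex z) := by
    have h2 := G.contDiffOn_ex.continuousOn.comp_continuous
      (f := fun u : E n => ((z, u) : VV n)) (by fun_prop) fun _ => hz
    exact h2
  have c2 : Continuous fun u => dd g (G.ex z u) y := by
    have h2 := h.continuousOn_dd.comp_continuous
      (f := fun u : E n => ((G.ex z u, y) : VV n)) (by fun_prop) fun u => ⟨G.ex_ne hz u, hy⟩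
    exact h2
  obtain ⟨u, ⟨-, hu⟩, hm⟩ := (Log_compact h hz r).exists_isMinOn
    ⟨0, nu_zero z, by rw [map_zero, Real.sqrt_zero]; exact h0.le⟩ c2.continuousOn
  have key : dd g (G.ex z u) y ≤ dd g z y - r := by
    refine le_of_forall_pos_le_add fun η hη => ?_
    obtain ⟨c, hc, hl⟩ := exists_len_lt hz hy (lt_add_of_pos_right (dd g z y) hη)
    have c3 : Continuous fun t => dd g z (c t) := by
      have h2 := h.continuousOn_dd.comp_continuous (f := fun t : ℝ => ((z, c t) : VV n))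
        (continuous_const.prodMk hc.smooth.continuous) fun t => ⟨hz, hc.ne t⟩
      exact h2
    obtain ⟨a, ha⟩ := hc.stop
    have ha0 : a ≠ 0 := by
      rintro rfl
      exact hc.ne 1 (by rw [ha, zero_smul])
    obtain ⟨t, ht, e⟩ := intermediate_value_Icc zero_le_one c3.continuousOn (show r ∈ _ from ⟨by
      rw [hc.start, h.dd_self hz]; exact h0.le, by rwa [ha, dd_smul_right ha0]⟩)
    have e : dd g z (c t) = r := e
    obtain ⟨v, b, hb, hv, e2⟩ := B.exists_ex (q := z) (y := c t) ⟨hz, hc.ne t, e.trans_lt h1⟩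
    have h3 : √(g z v v) = r := by rw [← B.Log_dd hz hv hb, ← e2, e]
    have h4 : dd g (G.ex z u) y ≤ dd g (G.ex z (hor z v)) y :=
      hm (show hor z v ∈ _ from ⟨nu_hor hz v, by rw [Log_hor h hz, h3]⟩)
    have h5 := HR_split h hc ht
    rw [G.ex_hor hz, ← h.dd_smul_left hb (G.ex z v), ← e2] at h4
    linarith
  have h3 := h.dd_triangle hz (G.ex_ne hz u) hy
  rw [B.dd_ex hz (hu.trans h1.le)] at h3
  have h4 : spd g (z, u) = r := le_antisymm hu (by unfold spd; linarith)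
  have h5 : (z, u) ∈ OO n := ⟨hz, fun c hc => by
    have hc : u = c • z := hc
    rw [spd, hc, h.vert c z _ hz, Real.sqrt_zero] at h4
    exact h0.ne h4⟩
  refine ⟨_, h5, rfl, ?_⟩
  rw [← h4, ← G.ex_eq_Z h h5, h4]
  exact key

theorem HR_step (B : Bl g G) {x : VV n} (hx : x ∈ OO n) {y : E n} (hy : y ≠ 0) {t s : ℝ}
    (ht : 0 < t) (h0 : 0 < s) (h1 : s < π / 2) (h2 : s ≤ dd g x.1 y - t)
    (h3 : dd g (G.Z t x) y ≤ dd g x.1 y - t) :
    dd g (G.Z (s + t) x) y ≤ dd g x.1 y - (s + t) := by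
  have h := B.met
  have hq := G.Z_ne h t hx
  have h4 := h.dd_triangle hx.1 hq hy
  have h5 := h.dd_Z_le G hx 0 t
  rw [dist_Z_zero G h hx, sub_zero, abs_of_pos ht] at h5
  obtain ⟨x', hx', e, h6⟩ := HR_near B hq hy h0 h1 (by linarith)
  have h7 := h.dd_triangle hx.1 (G.Z_ne h s hx') hy
  have hp := G.psi_mem h t hx
  have hv : vel g x' = vel g (G.psi t x) := by
    by_contra hv
    have h8 := h.corner G hp hx' e hv ht h0
    rw [dist_Z_add G h _ _ hx, neg_add_cancel, dist_Z_zero G h hx] at h8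
    linarith
  have h8 : G.Z s x' = G.Z (s + t) x := by
    rw [← G.Z_vel h s hx', hv, e, ← dist_Z_add G h _ _ hx, ← G.Z_vel h s hp]
    rfl
  rw [← h8]
  linarith

theorem Bl.exists_Z (B : Bl g G) {z y : E n} (hz : z ≠ 0) (hy : y ≠ 0) (hne : pr y ≠ pr z) :
    ∃ w, (z, w) ∈ OO n ∧ ∃ t ∈ Ioc 0 (π / 2), pr (G.Z t (z, w)) = pr y := by
  have h := B.met
  have hπ := pi_pos
  rcases lt_or_ge (dd g z y) (π / 2) with hD | hD
  · obtain ⟨u, c, hc, hu, e⟩ := B.exists_ex (q := z) (y := y) ⟨hz, hy, hD⟩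
    have h1 : (z, u) ∈ OO n := mem_OO.2 ⟨hz, fun k => hne (by
      have k : hor z u = 0 := k
      rw [e, ← G.ex_hor hz, k, G.ex_zero hz, pr_smul hc])⟩
    refine ⟨u, h1, spd g (z, u), ⟨h.spd_pos h1, hu.le⟩, ?_⟩
    rw [e, pr_smul hc, ← G.ex_eq_Z h h1]
  obtain ⟨x, hx, rfl, h1⟩ := HR_near B hz hy (r := π / 4) (by linarith) (by linarith) (by linarith)
  have h2 := HR_step B hx hy (s := π / 4) (by linarith) (by linarith) (by linarith) (by linarith) h1
  rw [show π / 4 + π / 4 = π / 2 by ring] at h2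
  have hq := G.Z_ne h (π / 2) hx
  have h3 : dd g x.1 y ≤ π / 2 := by
    by_contra h3
    obtain ⟨s, s0, s1, s2⟩ : ∃ s, 0 < s ∧ s < π / 2 ∧ s ≤ dd g x.1 y - π / 2 :=
      ⟨Min.min (π / 4) (dd g x.1 y - π / 2), lt_min (by linarith) (sub_pos.2 (not_le.1 h3)),
        (min_le_left _ _).trans_lt (by linarith), min_le_right _ _⟩
    have h4 := HR_step B hx hy (by linarith) s0 s1 s2 h2
    have h5 := h.dd_triangle hx.1 (G.Z_ne h (s + π / 2) hx) hy
    obtain ⟨c, hc⟩ := B.per x hx 0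
    have hc0 : c ≠ 0 := by
      rintro rfl
      exact G.Z_ne h _ hx (by rw [hc, zero_smul])
    have h6 := h.dd_Z_le G hx (0 + π) (s + π / 2)
    rw [hc, h.dd_smul_left hc0, dist_Z_zero G h hx, abs_of_neg (by linarith)] at h6
    linarith
  obtain ⟨u, c, hc, hu, e⟩ := B.exists_ex (q := G.Z (π / 2) x) (y := y)
    ⟨hq, hy, by show dd g (G.Z (π / 2) x) y < _; linarith⟩
  have h4 := B.Log_dd hq hu hc
  rw [← e] at h4
  have h5 : g (G.Z (π / 2) x) u u = 0 :=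
    le_antisymm (Real.sqrt_eq_zero'.1 (le_antisymm (by linarith) (Real.sqrt_nonneg _)))
      (h.nonneg hq u)
  refine ⟨x.2, hx, π / 2, ⟨by linarith, le_rfl⟩, ?_⟩
  rw [e, pr_smul hc, ← G.ex_hor hq, h.hor_eq_zero hq h5, G.ex_zero hq]

end Pool.Agent.Work.MP_8c604c_gt.H
end
end

-- merged part: Pool.Agent.Work.MP_8c604c_gt.B.TD0
section
/-!
The closed geodesics of a Blaschke metric form a `TD0`.
-/

set_option maxSynthPendingDepth 3

open Set Filter Topology MeasureTheory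
open scoped ContDiff Quaternion

noncomputable section
namespace Pool.Agent.Work.MP_8c604c_gt.H

open T B Real

variable {n : ℕ} {g : Met n}

variable {G : Geo g}

theorem td_hor (h : IsMetric g) {x : VV n} (hx : x ∈ OO n) : hor x.1 x.2 = spd g x • vel g x := by
  rw [vel, smul_smul, mul_inv_cancel₀ (h.spd_pos hx).ne', one_smul]

theorem td_vel_mem (h : IsMetric g) {x : VV n} (hx : x ∈ OO n) : (x.1, vel g x) ∈ OO n :=
  (h.unit_mem hx.1 (h.nu_vel hx.1) (h.vel_unit hx)).1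

theorem td_vel_ne (h : IsMetric g) {x : VV n} (hx : x ∈ OO n) :
    fderiv ℝ pr x.1 (vel g x) ≠ 0 := fun e => by
  rw [dpr_eq_zero hx.1] at e
  exact (mem_OO.1 (td_vel_mem h hx)).2 e

namespace Bl
variable (B : Bl g G)
include B

theorem kk_eq {x y : VV n} (hx : x ∈ OO n) (hy : y ∈ OO n) : G.kk x = G.kk y := by
  have := B.kdim_const hx hy
  unfold Geo.kdim at this
  rw [Geo.finrank_ker B.met hx, Geo.finrank_ker B.met hy] at this
  omega

theorem exists_kk : ∃ k, ∀ x ∈ OO n, G.kk x = k := by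
  by_cases h : (OO n).Nonempty
  · obtain ⟨y, hy⟩ := h
    exact ⟨G.kk y, fun x hx => B.kk_eq hx hy⟩
  · exact ⟨0, fun x hx => (h ⟨x, hx⟩).elim⟩

theorem lp_congr {x x' : VV n} (hx : x ∈ OO n) (hx' : x' ∈ OO n) (h1 : x'.1 = x.1)
    (h2 : vel g x' = vel g x) : G.lp x' = G.lp x := by
  rw [← B.lp_vel hx, ← B.lp_vel hx', h1, h2]

/-- The geodesic of a nonzero vector of `WS x` is linked to the geodesic of `x`. -/
theorem lk_of_WS {k : ℕ} (hk : ∀ x ∈ OO n, G.kk x = k) {x : VV n} (hx : x ∈ OO n) {w : E n}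
    (hw : (x.1, w) ∈ OO n) (hW : G.JH (π / 2) x (0, w) = 0) : Lk (G.lp x) (G.lp (x.1, w)) := by
  obtain ⟨c, hc⟩ := (B.link_iff hk hx hw).2 hW
  have c0 : c ≠ 0 := fun e => G.Z_ne B.met _ hw (by rw [hc, e, zero_smul])
  refine ⟨by rw [B.lp_one hw, B.lp_one hx], ?_⟩
  rw [B.lp_cs hw, B.lp_cs hx, hc, pr_smul c0]

theorem exists_of_lk {x : VV n} (hx : x ∈ OO n) {c : LM n} (hc : c ∈ G.SS) (h : Lk (G.lp x) c) :
    ∃ w, (x.1, w) ∈ OO n ∧ w ∈ G.WS x ∧ vel g (x.1, w) = w ∧ c = G.lp (x.1, w) ∧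
      ∃ a : ℍ, G.Z (π / 2) (x.1, w) = a • G.Z (π / 2) x := by
  obtain ⟨w, hw, h0, hv, rfl⟩ := B.exists_base hc hx.1 (h.1.trans (B.lp_one hx))
  have h2 := h.2
  rw [B.lp_cs hw, B.lp_cs hx, pr_eq_iff (G.Z_ne B.met _ hx) (G.Z_ne B.met _ hw)] at h2
  obtain ⟨a, -, ha⟩ := h2
  exact ⟨w, hw, Geo.mem_WS.2 ⟨h0, B.link_ker hx hw ha⟩, hv, rfl, a, ha⟩

theorem td_link {k : ℕ} (hk : ∀ x ∈ OO n, G.kk x = k) {c : LM n} (hc : c ∈ G.SS) :
    ∃ V : Submodule ℝ (AM n × AM n), Module.finrank ℝ V = k + 1 ∧ ∀ y, y ∈ V ↔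
      ∃ c' ∈ G.SS, Lk c c' ∧ ∃ r : ℝ, 0 ≤ r ∧ y = r • (vl c', vl (sh (cs (π / 2)) c')) := by
  obtain ⟨x, hx, rfl⟩ := hc
  obtain ⟨D, hD⟩ := B.exists_swap hx
  let T : E n →ₗ[ℝ] AM n × AM n := ((fderiv ℝ pr x.1).prod D : E n →L[ℝ] AM n × AM n)
  have hT : ∀ u, T u = (fderiv ℝ pr x.1 u, D u) := fun _ => rfl
  have key : ∀ w, (x.1, w) ∈ OO n → (∃ a : ℍ, G.Z (π / 2) (x.1, w) = a • G.Z (π / 2) x) →
      (vl (G.lp (x.1, w)), vl (sh (cs (π / 2)) (G.lp (x.1, w)))) = T (vel g (x.1, w)) := by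
    intro w hw ha
    rw [hT, B.vl_lp hw, B.sh_lp hw, B.vl_lp (G.psi_mem B.met _ hw), ← hD w hw ha]
    rfl
  refine ⟨(G.WS x).map T, ?_, fun y => ⟨?_, ?_⟩⟩
  · rw [← hk x hx, ← Geo.finrank_WS B.met hx, ← LinearMap.range_domRestrict]
    refine LinearMap.finrank_range_of_inj fun u v e => Subtype.ext ?_
    exact dpr_inj hx.1 (Geo.mem_WS.1 u.2).1 (Geo.mem_WS.1 v.2).1 (congrArg Prod.fst e)
  · rintro ⟨u, hu, rfl⟩
    obtain ⟨h0, hJ⟩ := Geo.mem_WS.1 hu
    by_cases e : u = 0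
    · exact ⟨_, ⟨x, hx, rfl⟩, ⟨rfl, rfl⟩, 0, le_rfl, by rw [e, map_zero, zero_smul]⟩
    have hw : (x.1, u) ∈ OO n := mem_OO.2 ⟨hx.1, by rwa [hor_of_nu h0]⟩
    refine ⟨_, ⟨_, hw, rfl⟩, B.lk_of_WS hk hx hw hJ, spd g (x.1, u), (B.met.spd_pos hw).le, ?_⟩
    rw [key u hw ((B.link_iff hk hx hw).2 hJ), ← map_smul, ← td_hor B.met hw, hor_of_nu h0]
  · rintro ⟨c', hc', hl, r, -, rfl⟩
    obtain ⟨w, hw, hW, hv, rfl, ha⟩ := B.exists_of_lk hx hc' hl
    rw [key w hw ha, hv]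
    exact Submodule.smul_mem _ _ ⟨w, hW, rfl⟩

theorem td_inj {c c' : LM n} (hc : c ∈ G.SS) (hc' : c' ∈ G.SS) (h1 : c' 1 = c 1) {t t' : ℝ}
    (ht : t ∈ Ioo 0 (π / 2)) (ht' : t' ∈ Ioc 0 (π / 2)) (e : c' (cs t') = c (cs t)) :
    c' = c ∧ t' = t := by
  obtain ⟨x, hx, rfl⟩ := hc
  obtain ⟨w, hw, h0, hv, rfl⟩ := B.exists_base hc' hx.1 (h1.trans (B.lp_one hx))
  rw [B.lp_cs hw, B.lp_cs hx, pr_eq_iff (G.Z_ne B.met _ hx) (G.Z_ne B.met _ hw)] at e
  obtain ⟨a, a0, ha⟩ := e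
  have d1 := B.dd_Z hx (s := 0) (t := t) (by rw [sub_zero, abs_of_pos ht.1]; exact ht.2.le)
  have d2 := B.dd_Z hw (s := 0) (t := t') (by rw [sub_zero, abs_of_pos ht'.1]; exact ht'.2)
  rw [dist_Z_zero G B.met hx, sub_zero, abs_of_pos ht.1] at d1
  rw [dist_Z_zero G B.met hw, sub_zero, abs_of_pos ht'.1, ha, dd_smul_right a0, d1] at d2
  subst d2
  refine ⟨B.lp_congr hx hw rfl ?_, rfl⟩
  have sq : ∀ y ∈ OO n, √(g y.1 (t • vel g y) (t • vel g y)) < π / 2 := fun y hy => by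
    simp only [map_smul, _root_.smul_apply, smul_eq_mul, B.met.vel_unit hy, mul_one]
    rw [Real.sqrt_mul_self ht.1.le]
    exact ht.2
  rw [← G.ex_vel B.met t hw, ← G.ex_vel B.met t hx] at ha
  have := (B.ex_inj hx.1 (sq (x.1, w) hw) (sq x hx) ha).1
  rw [hor_rsmul, hor_rsmul, hor_of_nu (B.met.nu_vel (x := (x.1, w)) hx.1),
    hor_of_nu (B.met.nu_vel hx.1)] at this
  exact smul_right_injective _ ht.1.ne' this

/-- The closed geodesics. -/
def td0 {k : ℕ} (hk : ∀ x ∈ OO n, G.kk x = k) : TD0 n k where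
  S := G.SS
  vel := vl
  cpt := B.isCompact_SS
  inv θ _ hc := B.sh_mem θ hc
  mem := by
    rintro _ ⟨x, hx, rfl⟩ θ
    obtain ⟨t, -, rfl⟩ := exists_cs θ
    rw [B.lp_cs hx]
    exact pr_mem (G.Z_ne B.met _ hx)
  cvel := B.continuousOn_vl
  tan := by
    rintro _ ⟨x, hx, rfl⟩
    exact ⟨x.1, hx.1, (B.lp_one hx).symm, _, B.vl_lp hx⟩
  vne := by
    rintro _ ⟨x, hx, rfl⟩
    rw [B.vl_lp hx]
    exact td_vel_ne B.met hx
  ex := by
    rintro _ _ ⟨z, hz, rfl, u, rfl⟩ h0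
    have hx : (z, u) ∈ OO n := mem_OO.2 ⟨hz, fun e => h0 ((dpr_eq_zero hz u).2 e)⟩
    refine ⟨_, ⟨_, hx, rfl⟩, B.lp_one hx, _, B.met.spd_pos hx, ?_⟩
    rw [B.vl_lp hx, ← map_smul, ← td_hor B.met hx, dpr_hor hz]
  uniq := by
    rintro _ ⟨x, hx, rfl⟩ _ ⟨x', hx', rfl⟩ h1 r hr h2
    rw [B.lp_one hx, B.lp_one hx'] at h1
    rw [B.vl_lp hx, B.vl_lp hx'] at h2
    obtain ⟨l, m, c, hl, hm, rfl⟩ := B.exists_act hx hx' h1 hr h2
    exact B.lp_act c hl hm hx
  ne := by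
    rintro _ ⟨x, hx, rfl⟩ t ht e
    rw [B.lp_cs hx, B.lp_one hx, pr_eq_iff hx.1 (G.Z_ne B.met _ hx)] at e
    obtain ⟨c, -, e⟩ := e
    exact B.Z_not_mem hx ⟨ht.1, by linarith [ht.2, pi_pos]⟩ c e
  inj _ hc _ hc' h1 _ ht _ ht' e := B.td_inj hc hc' h1 ht ht' e
  surj := by
    rintro _ ⟨z, hz, rfl⟩ _ ⟨y, hy, rfl⟩ h
    obtain ⟨w, hw, t, ht, e⟩ := B.exists_Z hz hy h.symm
    exact ⟨_, ⟨_, hw, rfl⟩, B.lp_one hw, t, ht, (B.lp_cs hw t).trans e⟩
  link _ hc := B.td_link hk hc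

/-- A broken geodesic meets the cut locus of its base point only if it is not broken. -/
theorem td_cut {x : VV n} (hx : x ∈ OO n) {c : LM n} (hc : c ∈ G.SS)
    (hl : Lk (sh (cs (π / 4)) (G.lp x)) c) {t : ℝ} (ht : t ∈ Icc 0 (π / 2))
    (h : (G.lp x 1, c (cs t)) ∈ cutS G.SS) : c = sh (cs (π / 4)) (G.lp x) ∧ t = π / 4 := by
  have hm := B.met
  have hy := G.psi_mem hm (π / 4) hx
  rw [B.sh_lp hx] at hl ⊢
  obtain ⟨w, hw, -, -, rfl, a, ha⟩ := B.exists_of_lk hy hc hl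
  set y := G.psi (π / 4) x with hyd
  have a0 : a ≠ 0 := fun e => G.Z_ne B.met _ hw (by rw [ha, e, zero_smul])
  rw [B.lp_one hx, B.lp_cs hw] at h
  have d := B.cut_dd hx.1 (G.Z_ne B.met _ hw) h
  have p4 : 0 < π / 4 := by positivity
  have e0 : G.Z (-(π / 4)) y = x.1 := by
    rw [hyd, dist_Z_add G hm _ _ hx, neg_add_cancel, dist_Z_zero G hm hx]
  have t1 := hm.dd_triangle hx.1 hy.1 (G.Z_ne B.met t hw)
  have t2 := hm.dd_triangle hx.1 (G.Z_ne B.met (π / 2) hw) (G.Z_ne B.met t hw)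
  have l1 := hm.dd_Z_le G hy (-(π / 4)) 0
  have l2 := hm.dd_Z_le G hw 0 t
  have l3 := hm.dd_Z_le G hw (π / 2) t
  have l4 := hm.dd_Z_le G hy (-(π / 4)) (-(π / 2))
  rw [e0, dist_Z_zero G hm hy, zero_sub, neg_neg, abs_of_pos p4] at l1
  rw [dist_Z_zero G hm hw, sub_zero, abs_of_nonneg ht.1] at l2
  rw [abs_of_nonpos (by linarith [ht.2])] at l3
  rw [e0, abs_of_nonpos (by linarith)] at l4
  have e1 : dd g x.1 (G.Z (π / 2) (y.1, w)) = dd g x.1 (G.Z (-(π / 2)) y) := by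
    rw [ha, dd_smul_right a0, show π / 2 = -(π / 2) + π by ring, B.Z_add_pi _ hy,
      dd_smul_right (B.hol_ne hy)]
    congr 2
    ring
  have et : t = π / 4 := by
    change dd g y.1 _ ≤ t at l2
    linarith
  refine ⟨B.lp_congr hy hw rfl ?_, et⟩
  by_contra hv
  have := hm.corner G hy hw rfl hv p4 p4
  rw [e0, ← et, d] at this
  linarith

end Bl

end Pool.Agent.Work.MP_8c604c_gt.H
end
end

-- merged part: Pool.Agent.Work.MP_8c604c_gt.B.Phase
section
/-!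
Phase functions and the equivariant map to C^(4n).
Plan. exists_phase: port of Bl.exists_phase in ../ContractA.lean. exists_F: finitely many phases without common zero (isCompact_slice, exists_slice) give f : OO -> C^N;
the cone C = {r . f x : r > 0, x in OO} is closed under nonzero complex scalars (flow) and is covered by the images of the n + 1 maps
(a, b) -> |b| . f (ins_i 1 a, ins_i 0 b) on {b != 0} in (Fin n -> H) x (Fin n -> H) (Fin.insertNth; normalise x by act: x.1 i = 1, x.2 i = 0, scale |b| = r), a space of dimension 8n;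
dimH_le_of_cover and gen_proj.
-/

set_option maxSynthPendingDepth 3

open Set Filter Topology MeasureTheory
open scoped ContDiff Quaternion

noncomputable section
namespace Pool.Agent.Work.MP_8c604c_gt.H

open T B Real

variable {n : ℕ} {g : Met n}

variable {G : Geo g}

/-- Squared sine of the angle between two lines. -/
def Phase_ang (z₀ z : E n) : ℝ := ‖horL z₀ z‖ ^ 2 / ‖z‖ ^ 2

theorem Phase_ang_smul (z₀ z : E n) {c : ℍ} (hc : c ≠ 0) :
    Phase_ang z₀ (c • z) = Phase_ang z₀ z := by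
  unfold Phase_ang
  rw [horL_apply, horL_apply, hor_smul, norm_smul, norm_smul, mul_pow, mul_pow,
    mul_div_mul_left _ _ (pow_ne_zero 2 (norm_ne_zero_iff.2 hc))]

theorem Phase_ang_smooth (z₀ : E n) : ContDiffOn ℝ ∞ (Phase_ang z₀) {0}ᶜ :=
  (((contDiff_norm_sq ℝ).comp (horL z₀).contDiff).contDiffOn).div
    (contDiff_norm_sq ℝ).contDiffOn fun _ hz => pow_ne_zero 2 (norm_ne_zero_iff.2 hz)

theorem Bl.exists_phase (B : Bl g G) {x₀ : VV n} (hx : x₀ ∈ OO n) : ∃ f : VV n → ℂ,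
    ContDiffOn ℝ ∞ f (OO n) ∧ Inv f ∧ f x₀ ≠ 0 ∧
      ∀ t, ∀ x ∈ OO n, f (G.psi t x) = Complex.exp (2 * t * Complex.I) * f x := by
  have hZ : Continuous fun t => G.Z t x₀ :=
    (G.isUnitGeodesic_Z B.met hx).smooth.continuous
  have hA : Continuous fun t => Phase_ang x₀.1 (G.Z t x₀) :=
    (Phase_ang_smooth x₀.1).continuousOn.comp_continuous hZ fun t => G.Z_ne B.met t hx
  have hpi := pi_pos
  obtain ⟨t₀, ht₀, hmin⟩ := (isCompact_Icc (a := π / 4) (b := 3 * π / 4)).exists_isMinOn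
    ⟨π / 4, le_rfl, by linarith⟩ hA.continuousOn
  set m := Phase_ang x₀.1 (G.Z t₀ x₀) with hm
  have hm0 : 0 < m := by
    refine div_pos (pow_pos (norm_pos_iff.2 fun h => ?_) 2)
      (pow_pos (norm_pos_iff.2 (G.Z_ne B.met t₀ hx)) 2)
    obtain ⟨c, hc⟩ := (hor_eq_zero_iff hx.1 _).1 h
    exact B.Z_not_mem hx ⟨by linarith [ht₀.1], by linarith [ht₀.2]⟩ c hc
  set u : ℝ × VV n → ℂ := fun y => (expNegInvGlue (m - Phase_ang x₀.1 (G.Z y.1 y.2)) : ℝ) *
    Complex.exp (-(2 * y.1 * Complex.I)) with hu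
  have hus : ContDiffOn ℝ ∞ u {y | y.2 ∈ OO n} := by
    refine ContDiffOn.mul (Complex.ofRealCLM.contDiff.comp_contDiffOn
      (expNegInvGlue.contDiff.comp_contDiffOn (contDiffOn_const.sub
        ((Phase_ang_smooth x₀.1).comp (G.contDiffOn_Z B.met)
          fun y hy => G.Z_ne B.met y.1 hy)))) (ContDiff.contDiffOn ?_)
    exact Complex.contDiff_exp.comp ((contDiff_const.mul
      (Complex.ofRealCLM.contDiff.comp contDiff_fst)).mul contDiff_const).neg
  refine ⟨fun x => ∫ t in (0 : ℝ)..π, u (t, x), contDiffOn_integral isOpen_OO hus 0 π,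
    fun l r c x hl hr hx => ?_, fun h => ?_, fun s x hx => ?_⟩
  · simp only [hu, G.Z_eqv B.met _ l r c x hl hr hx, Phase_ang_smul _ _ hl]
  · have hc : Continuous fun t => u (t, x₀) :=
      hus.continuousOn.comp_continuous (by fun_prop) fun _ => hx
    have h1 := Complex.reCLM.intervalIntegral_comp_comm (hc.intervalIntegrable (μ := volume) 0 π)
    have h2 : ∀ t : ℝ, Complex.reCLM (u (t, x₀)) =
        expNegInvGlue (m - Phase_ang x₀.1 (G.Z t x₀)) * cos (2 * t) := fun t => by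
      simp [hu, Complex.exp_re]
    simp only at h
    rw [h, map_zero] at h1
    refine (intervalIntegral.integral_pos hpi (Complex.reCLM.continuous.comp hc).continuousOn
      (fun t ht => ?_) ⟨0, ⟨le_rfl, hpi.le⟩, ?_⟩).ne' h1
    · rw [Function.comp_apply, h2]
      by_cases a1 : t ≤ π / 4
      · exact mul_nonneg (expNegInvGlue.nonneg _)
          (cos_nonneg_of_mem_Icc ⟨by linarith [ht.1], by linarith⟩)
      by_cases a2 : 3 * π / 4 ≤ t
      · rw [← cos_sub_two_pi]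
        exact mul_nonneg (expNegInvGlue.nonneg _)
          (cos_nonneg_of_mem_Icc ⟨by linarith, by linarith [ht.2]⟩)
      · rw [expNegInvGlue.zero_of_nonpos (sub_nonpos.2 (hmin ⟨by linarith, by linarith⟩)),
          zero_mul]
    · have h3 : Phase_ang x₀.1 (G.Z 0 x₀) = 0 := by
        rw [Geo.Z, G.psi_zero B.met hx, Phase_ang, horL_apply,
          (hor_eq_zero_iff hx.1 _).2 ⟨1, (one_smul _ _).symm⟩]
        simp
      rw [Function.comp_apply, h2, h3, sub_zero, mul_zero, cos_zero, mul_one]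
      exact expNegInvGlue.pos_of_pos hm0
  · have hper : Function.Periodic (fun t => u (t, x)) π := fun t => by
      obtain ⟨c, hc⟩ := B.per x hx t
      have hc0 : c ≠ 0 := by
        rintro rfl
        exact G.Z_ne B.met _ hx (by rw [hc, zero_smul])
      simp only [hu, hc, Phase_ang_smul _ _ hc0]
      congr 1
      rw [← Complex.exp_periodic (-(2 * ((t + π : ℝ) : ℂ) * Complex.I))]
      congr 1
      push_cast
      ring
    have h1 : ∀ t : ℝ, u (t, G.psi s x) = Complex.exp (2 * s * Complex.I) * u (t + s, x) := by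
      intro t
      have e : G.Z t (G.psi s x) = G.Z (t + s) x := by rw [Geo.Z, Geo.Z, G.psi_add B.met t s hx]
      simp only [hu, e]
      rw [mul_left_comm, ← Complex.exp_add]
      congr 2
      push_cast
      ring
    simp only [h1]
    rw [intervalIntegral.integral_const_mul,
      intervalIntegral.integral_comp_add_right (fun t => u (t, x)) s, zero_add, add_comm π s,
      hper.intervalIntegral_add_eq s 0, zero_add]

/-- Insertion of a coordinate. -/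
def Phase_ins (i : Fin (n + 1)) (c : ℍ) (a : Fin n → ℍ) : E n :=
  WithLp.toLp 2 (Fin.insertNth (α := fun _ => ℍ) i c a)

theorem Phase_ins_smooth (i : Fin (n + 1)) (c : ℍ) : ContDiff ℝ ∞ (Phase_ins i c) := by
  refine (contDiff_piLp 2).2 fun j => ?_
  refine Fin.succAboveCases i ?_ (fun k => ?_) j
  · simpa [Phase_ins] using contDiff_const
  · simpa [Phase_ins] using contDiff_apply ℝ ℍ k

theorem Phase_ins_self (i : Fin (n + 1)) (u : E n) :
    Phase_ins i (u i) (Fin.removeNth i fun j => u j) = u := by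
  rw [Phase_ins, Fin.insertNth_self_removeNth i fun j => u j]

theorem Phase_ins_ne (i : Fin (n + 1)) (c : ℍ) {b : Fin n → ℍ} (hb : b ≠ 0) :
    Phase_ins i c b ≠ 0 := fun e => hb (funext fun k => by
  simpa [Phase_ins] using congrArg (fun u : E n => u (i.succAbove k)) e)

theorem Phase_ins_mem (i : Fin (n + 1)) (a : Fin n → ℍ) {b : Fin n → ℍ} (hb : b ≠ 0) :
    (Phase_ins i 1 a, Phase_ins i 0 b) ∈ OO n := by
  refine ⟨fun e => ?_, fun c e => Phase_ins_ne i 0 hb ?_⟩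
  · simpa [Phase_ins] using congrArg (fun u : E n => u i) e
  · have h : c = 0 := by simpa [Phase_ins, eq_comm] using congrArg (fun u : E n => u i) e
    exact e.trans (by rw [h, zero_smul])

/-- Normal form of a point under the group action. -/
theorem Phase_norm {V : Type} {f : VV n → V} (hf : Inv f) {x : VV n} (hx : x ∈ OO n) {r : ℝ}
    (hr : 0 < r) : ∃ i a b, b ≠ 0 ∧ ‖Phase_ins i 0 b‖ = r ∧
      f (Phase_ins i 1 a, Phase_ins i 0 b) = f x := by
  obtain ⟨i, hi⟩ : ∃ i, x.1 i ≠ 0 := by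
    by_contra! h
    exact hx.1 (PiLp.ext h)
  have h1 := act_mem (-(x.2 i * (x.1 i)⁻¹)) (inv_ne_zero hi) one_pos hx
  have e1 := hf _ _ (-(x.2 i * (x.1 i)⁻¹)) x (inv_ne_zero hi) one_pos hx
  have a1 : (act (x.1 i)⁻¹ 1 (-(x.2 i * (x.1 i)⁻¹)) x).1 i = 1 := by simp [act, hi]
  have a2 : (act (x.1 i)⁻¹ 1 (-(x.2 i * (x.1 i)⁻¹)) x).2 i = 0 := by simp [act, hi]
  generalize act (x.1 i)⁻¹ 1 (-(x.2 i * (x.1 i)⁻¹)) x = y at h1 e1 a1 a2
  have h2 : 0 < ‖y.2‖ := norm_pos_iff.2 fun e => h1.2 0 (by rw [e, zero_smul])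
  have h3 := div_pos hr h2
  have e2 := hf 1 _ 0 y one_ne_zero h3 h1
  have b1 := Phase_ins_self i y.1
  have b2 := Phase_ins_self i ((r / ‖y.2‖) • y.2)
  have b3 : ‖(r / ‖y.2‖) • y.2‖ = r := by
    rw [norm_smul, Real.norm_of_nonneg h3.le, div_mul_cancel₀ _ h2.ne']
  rw [a1] at b1
  rw [PiLp.smul_apply, a2, smul_zero] at b2
  refine ⟨i, Fin.removeNth i fun j => y.1 j, _, fun e => ?_, b2.symm ▸ b3, ?_⟩
  · have : Phase_ins i 0 (0 : Fin n → ℍ) = 0 := by
      rw [← Phase_ins_self i 0]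
      rfl
    rw [← b2, e, this, norm_zero] at b3
    exact hr.ne b3
  · rw [b1, b2, ← e1, ← e2]
    simp [act]

theorem Bl.exists_F (B : Bl g G) : ∃ F : VV n → Fin (4 * n) → ℂ,
    ContDiffOn ℝ ∞ F (OO n) ∧ Inv F ∧ (∀ x ∈ OO n, F x ≠ 0) ∧
      ∀ t, ∀ x ∈ OO n, F (G.psi t x) = Complex.exp (2 * t * Complex.I) • F x := by
  choose φ h1 h2 h3 h4 using fun y : slice n => B.exists_phase (slice_subset y.2)
  obtain ⟨s, hs⟩ := (isCompact_slice (n := n)).elim_finite_subcover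
    (fun y : slice n => OO n ∩ φ y ⁻¹' {0}ᶜ)
    (fun y => (h1 y).continuousOn.isOpen_inter_preimage isOpen_OO isOpen_compl_singleton)
    fun y hy => mem_iUnion.2 ⟨⟨y, hy⟩, slice_subset hy, h3 _⟩
  let f : VV n → s → ℂ := fun x i => φ i x
  have f1 : ContDiffOn ℝ ∞ f (OO n) := contDiffOn_pi.2 fun i => h1 i
  have f2 : Inv f := fun l m c x hl hm hx => funext fun i => h2 i l m c x hl hm hx
  have f3 : ∀ x ∈ OO n, f x ≠ 0 := fun x hx e => by
    obtain ⟨y, hy, l, m, c, hl, hm, rfl⟩ := exists_slice hx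
    obtain ⟨i, hi, -, k⟩ := mem_iUnion₂.1 (hs hy)
    rw [f2 _ _ _ _ (coe_ne_zero hl.ne') hm (slice_subset hy)] at e
    exact k (congrFun e ⟨i, hi⟩)
  have f4 : ∀ t, ∀ x ∈ OO n, f (G.psi t x) = Complex.exp (2 * t * Complex.I) • f x :=
    fun t x hx => funext fun i => h4 i t x hx
  refine (gen_proj (W := Fin (4 * n) → ℂ) (C := {v | ∃ r : ℝ, 0 < r ∧ ∃ x ∈ OO n, v = r • f x})
    ?_ ?_ ?_).elim fun L hL => ?_
  rotate_right
  · refine ⟨fun x => L (f x), (L.restrictScalars ℝ).contDiff.comp_contDiffOn f1,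
      fun l m c x hl hm hx => congrArg L (f2 l m c x hl hm hx),
      fun x hx => hL _ ⟨1, one_pos, x, hx, (one_smul _ _).symm⟩, fun t x hx => ?_⟩
    simp only [f4 t x hx, map_smul]
  · refine (dimH_le_of_cover (D := (Fin n → ℍ) × (Fin n → ℍ)) (U := fun _ => {p | p.2 ≠ 0})
      (f := fun (i : Fin (n + 1)) p =>
        ‖Phase_ins i 0 p.2‖ • f (Phase_ins i 1 p.1, Phase_ins i 0 p.2))
      (fun _ => isOpen_ne_fun continuous_snd continuous_const) (fun i => ?_) ?_).trans_eq ?_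
    · have k1 := (Phase_ins_smooth i 1).comp (contDiff_fst (F := Fin n → ℍ))
      have k2 := (Phase_ins_smooth i 0).comp (contDiff_snd (E := Fin n → ℍ))
      exact ((k2.contDiffOn.norm ℝ fun p hp => Phase_ins_ne i 0 hp).smul
        (f1.comp (k1.prodMk k2).contDiffOn fun p hp => Phase_ins_mem i p.1 hp)).of_le (by simp)
    · rintro _ ⟨r, hr, x, hx, rfl⟩
      obtain ⟨i, a, b, k1, k2, k3⟩ := Phase_norm f2 hx hr
      exact mem_iUnion.2 ⟨i, (a, b), k1, by simp only [k2, k3]⟩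
    · congr 1
      simp [Module.finrank_pi_fintype, Quaternion.finrank_eq_four]
      ring
  · rintro c hc _ ⟨r, hr, x, hx, rfl⟩
    refine ⟨‖c‖ * r, mul_pos (norm_pos_iff.2 hc) hr, _, G.psi_mem B.met (c.arg / 2) hx, ?_⟩
    rw [f4 _ x hx, mul_smul, smul_comm r, ← Complex.coe_smul ‖c‖, smul_smul]
    congr 1
    rw [show 2 * ((c.arg / 2 : ℝ) : ℂ) = c.arg by push_cast; ring, Complex.norm_mul_exp_arg_mul_I]
  · rintro ⟨r, hr, x, hx, e⟩
    exact smul_ne_zero hr.ne' (f3 x hx) e.symm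

end Pool.Agent.Work.MP_8c604c_gt.H
end
end

-- merged part: Pool.Agent.Work.MP_8c604c_gt.B.Comb
section
/-!
Minimal geodesics on projective space, and short loops.
-/

set_option maxSynthPendingDepth 3

open Set Filter Topology MeasureTheory
open scoped ContDiff Quaternion

noncomputable section
namespace Pool.Agent.Work.MP_8c604c_gt.H

open T B Real

variable {n : ℕ} {g : Met n}

/-- The metric model of a point of projective space. -/
def jM (h : IsMetric g) (p : MH n) : Mg h := toM h (rep p.1)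

theorem dist_jM (h : IsMetric g) {p q : MH n} {z z' : E n} (hz : z ≠ 0) (hz' : z' ≠ 0)
    (e : p.1 = pr z) (e' : q.1 = pr z') : dist (jM h p) (jM h q) = dd g z z' := by
  obtain ⟨c, hc, k⟩ := rep_pr hz
  obtain ⟨c', hc', k'⟩ := rep_pr hz'
  rw [jM, jM, dist_toM h (rep_ne _) (rep_ne _), e, e', k, k', h.dd_smul_left hc, dd_smul_right hc']

theorem shortL_of_Var (h : IsMetric g) {c : ℝ → E n} {γ : ℝ → MH n}
    (h0 : ∀ t ∈ Icc 0 π, c t ≠ 0) (e : ∀ t ∈ Icc 0 π, (γ t).1 = pr (c t))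
    (hV : Var h c 0 π < ENNReal.ofReal π) : ShortL (jM h) γ := by
  have := Var_congr h (c' := fun t => rep (γ t).1) h0 fun t ht => by
    rw [e t ht]; exact rep_pr (h0 t ht)
  exact this.trans_lt hV

variable {G : Geo g}

/-- The point at parameter `a` on the minimal geodesic. -/
def sgM (L : Lgm g G) (a : ℝ) (p q : AM n) : AM n :=
  pr (G.ex (rep p) (a • L.lg (rep p) (rep q)))

theorem sgM_pr (B : Bl g G) (L : Lgm g G) (a : ℝ) {z z' : E n} (hz : (z, z') ∈ DD g) :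
    sgM L a (pr z) (pr z') = pr (G.ex z (a • L.lg z z')) := by
  obtain ⟨c, hc, k⟩ := rep_pr hz.1
  obtain ⟨c', hc', k'⟩ := rep_pr hz.2.1
  have h1 := L.smul_right B hz hc'
  have h2 := L.smul_left B h1.1 hc
  rw [sgM, k, k', h2.2.1, h1.2.1, smul_comm a c, G.ex_smul hc hz.1, pr_smul hc]

theorem Bl.exists_comb (B : Bl g G) : ∃ C : Comb (MH n) (Mg B.met), C.j = jM B.met := by
  have h := B.met
  obtain ⟨L⟩ := B.exists_lgm
  have hD : ∀ p q : MH n, dist (jM h p) (jM h q) < π / 2 → (rep p.1, rep q.1) ∈ DD g :=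
    fun p q H => ⟨rep_ne _, rep_ne _, by rwa [jM, jM, dist_toM h (rep_ne _) (rep_ne _)] at H⟩
  refine ⟨⟨jM h, fun a p q => ⟨sgM L a p.1 q.1, pr_mem (G.ex_ne (rep_ne _) _)⟩, ?_,
    fun p q H => Subtype.ext ?_, fun p q H => Subtype.ext ?_, fun a p => Subtype.ext ?_,
    fun p q H a b => ?_⟩, rfl⟩
  · have key : ContinuousOn (fun y : (AM n × AM n) × ℝ => sgM L y.2 y.1.1 y.1.2)
        {y | y.1.1 ∈ MH n ∧ y.1.2 ∈ MH n ∧ dd g (rep y.1.1) (rep y.1.2) < π / 2} := by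
      refine desc_pair (fun y hy => ⟨hy.1, hy.2.1⟩) ?_
      have hm : ∀ y : VV n × ℝ, y.1.1 ≠ 0 → y.1.2 ≠ 0 →
          dd g (rep (pr y.1.1)) (rep (pr y.1.2)) < π / 2 → y.1 ∈ DD g := fun y h1 h2 h3 => by
        obtain ⟨c, hc, k⟩ := rep_pr h1
        obtain ⟨c', hc', k'⟩ := rep_pr h2
        rw [k, k', h.dd_smul_left hc, dd_smul_right hc'] at h3
        exact ⟨h1, h2, h3⟩
      have c1 : ContinuousOn (fun y : VV n × ℝ => pr (G.ex y.1.1 (y.2 • L.lg y.1.1 y.1.2)))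
          {y | y.1 ∈ DD g} := by
        refine contDiffOn_pr.continuousOn.comp (f := fun y : VV n × ℝ =>
          G.ex y.1.1 (y.2 • L.lg y.1.1 y.1.2)) ?_ fun y hy => G.ex_ne hy.1 _
        refine G.contDiffOn_ex.continuousOn.comp (f := fun y : VV n × ℝ =>
          (y.1.1, y.2 • L.lg y.1.1 y.1.2)) ?_ fun y hy => hy.1
        exact (by fun_prop : Continuous fun y : VV n × ℝ => y.1.1).continuousOn.prodMk
          (continuousOn_snd.smul (L.smooth_lg.continuousOn.comp continuousOn_fst fun y hy => hy))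
      exact (c1.mono fun y hy => hm y hy.1 hy.2.1 hy.2.2.2.2).congr fun y hy =>
        sgM_pr B L y.2 (hm y hy.1 hy.2.1 hy.2.2.2.2)
    rw [Topology.IsInducing.subtypeVal.continuousOn_iff]
    exact key.comp (f := fun p : ℝ × MH n × MH n => ((p.2.1.1, p.2.2.1), p.1)) (by fun_prop)
      fun p hp => ⟨p.2.1.2, p.2.2.2, (hD _ _ hp).2.2⟩
  · simp only [sgM, zero_smul, G.ex_zero (rep_ne _), pr_rep p.2]
  · have k := L.eq _ _ (hD p q H)
    simp only [sgM, one_smul]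
    rw [← pr_smul (L.sig_ne _ _ (hD p q H)), ← k, pr_rep q.2]
  · have k := (L.self B (rep_ne p.1) one_ne_zero).2.1
    rw [one_smul] at k
    simp only [sgM, k, smul_zero, G.ex_zero (rep_ne _), pr_rep p.2]
  · rw [dist_jM h (G.ex_ne (rep_ne p.1) (a • L.lg (rep p.1) (rep q.1)))
      (G.ex_ne (rep_ne p.1) (b • L.lg (rep p.1) (rep q.1))) rfl rfl,
      G.ex_real_smul (rep_ne _), G.ex_real_smul (rep_ne _), jM, jM,
      dist_toM h (rep_ne _) (rep_ne _), ← L.norm_lg _ _ (hD p q H), abs_sub_comm]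
    exact h.dd_φ_le G (x := (rep p.1, L.lg (rep p.1) (rep q.1))) (rep_ne _) a b

/-- Points closer than `π/2` are not a pair of cut points. -/
theorem Bl.not_cut (B : Bl g G) {p q : MH n} (H : dist (jM B.met p) (jM B.met q) < π / 2) :
    (p.1, q.1) ∉ cutS G.SS := fun k => by
  rw [← pr_rep p.2, ← pr_rep q.2] at k
  rw [jM, jM, dist_toM B.met (rep_ne _) (rep_ne _), B.cut_dd (rep_ne _) (rep_ne _) k] at H
  exact lt_irrefl _ H

/-- A short loop contains no pair of cut points. -/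
theorem Bl.loop_short (B : Bl g G) {L : LM n} {c : ℝ → E n} (h0 : ∀ t ∈ Icc 0 π, c t ≠ 0)
    (e : ∀ t ∈ Icc 0 π, L (cs t) = pr (c t)) (hV : Var B.met c 0 π < ENNReal.ofReal π)
    (θ θ' : Circle) : (L θ, L θ') ∉ cutS G.SS := by
  have hL : ∀ t, L (cs t) ∈ MH n := fun t => by
    obtain ⟨s, hs, k⟩ := exists_cs (cs t)
    rw [← k, e s hs]
    exact pr_mem (h0 s hs)
  obtain ⟨s, -, rfl⟩ := exists_cs θ
  obtain ⟨t, -, rfl⟩ := exists_cs θ'
  have hs : ShortL (jM B.met) fun t => (⟨L (cs t), hL t⟩ : MH n) := shortL_of_Var B.met h0 e hV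
  exact B.not_cut (hs.near (fun t => Subtype.ext (congrArg L (cs_add_pi t))) s t)

end Pool.Agent.Work.MP_8c604c_gt.H
end
end

-- merged part: Pool.Agent.Work.MP_8c604c_gt.B.Push
section
/-!
The push and its contraction.
-/

set_option maxSynthPendingDepth 3

open Set Filter Topology MeasureTheory
open scoped ContDiff Quaternion

noncomputable section
namespace Pool.Agent.Work.MP_8c604c_gt.H

open T B Real

variable {n : ℕ} {g : Met n}

variable {G : Geo g}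

theorem push_small {δ C : ℝ} (hδ : 0 < δ) (hC : 0 < C) {e : ℝ} (he : 0 < e)
    (h : e ≤ δ / (4 * C)) : -(δ * e ^ 2) / 2 + C * e ^ 3 < 0 := by
  have h1 : 4 * C * e ≤ δ := by rwa [le_div_iff₀ (by positivity), mul_comm] at h
  have h2 : 0 < e ^ 2 := by positivity
  nlinarith [mul_pos hδ h2]

/-- One piece of a geodesic pushed along a field of the family. -/
theorem ND.piece {k : ℕ} (D : ND G k) (h : IsMetric g) {S : Set (VV n)} (hS : IsCompact S)
    (hO : S ⊆ OO n) : ∃ C d : ℝ, 0 < C ∧ 0 < d ∧ ∀ x ∈ S, ∀ a : RN D.N, ‖a‖ ≤ 1 →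
      ∀ e ∈ Icc 0 d, ∀ p q : ℝ, 0 ≤ p → p ≤ q → q ≤ π →
      (∀ t ∈ Icc p q, G.Z t x + e • D.X (G.psi t x) a ≠ 0) ∧ ∃ l : ℝ, 0 ≤ l ∧
        Var h (fun t => G.Z t x + e • D.X (G.psi t x) a) p q ≤ ENNReal.ofReal l ∧
        l ≤ (q - p) + e ^ 2 / 2 * (∫ t in p..q, D2 g (G.Z t x, vel g (G.psi t x))
          (D.X (G.psi t x) a, D.dX (t, x) a) (D.X (G.psi t x) a, D.dX (t, x) a)) + C * e ^ 3 := by
  obtain ⟨C, d, hC, hd, H⟩ := G.piece h hS hO π
  obtain ⟨M, hM, hb⟩ := D.bound h hS hO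
  refine ⟨C * M ^ 3, d / M, by positivity, by positivity, fun x hx a ha e he p q hp hpq hq => ?_⟩
  have hx' := hO hx
  obtain ⟨h1, l, l0, h2, h3⟩ := H x hx p q (by linarith [pi_pos]) hpq hq
    (fun t => e • D.X (G.psi t x) a) (fun t => e • D.dX (t, x) a) (e * M)
    (fun t _ => (D.deriv_X h t hx' a).const_smul e)
    (((D.line_dX h hx').clm_apply continuous_const).const_smul e).continuousOn
    (fun t ht => by
      have := hb x hx t ⟨hp.trans ht.1, ht.2.trans hq⟩ a ha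
      rw [norm_smul, norm_smul, Real.norm_of_nonneg he.1]
      exact ⟨mul_le_mul_of_nonneg_left this.1 he.1, mul_le_mul_of_nonneg_left this.2 he.1⟩)
    ((le_div_iff₀ hM).1 he.2)
  refine ⟨h1, l, l0, h2, h3.trans_eq ?_⟩
  have e1 : ∀ t, D2 g (G.Z t x, vel g (G.psi t x)) (e • D.X (G.psi t x) a, e • D.dX (t, x) a)
      (e • D.X (G.psi t x) a, e • D.dX (t, x) a) = e ^ 2 * D2 g (G.Z t x, vel g (G.psi t x))
      (D.X (G.psi t x) a, D.dX (t, x) a) (D.X (G.psi t x) a, D.dX (t, x) a) := fun t => by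
    simp only [D2, ← Prod.smul_mk, map_smul, smul_apply, smul_eq_mul]
    ring
  simp only [e1, intervalIntegral.integral_const_mul, map_smul, D.perp h _ hx', smul_zero]
  ring

theorem Bl.push_short (B : Bl g G) {k : ℕ} (D : ND G k) : ∃ ε : ℝ, 0 < ε ∧
    ∀ x ∈ OO n, ∀ a : RN D.N, ‖a‖ = 1 → ∀ e ∈ Icc 0 ε,
      (∀ t ∈ Icc 0 π, G.Z t x + e • D.X (G.psi t x) a ≠ 0) ∧ (0 < e → D.K x a = a →
        Var B.met (fun t => G.Z t x + e • D.X (G.psi t x) a) 0 π < ENNReal.ofReal π) := by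
  have h := B.met
  obtain ⟨C, d, hC, hd, H⟩ := D.piece h isCompact_slice slice_subset
  have hδ := D.δ_pos
  refine ⟨Min.min d (D.δ / (4 * C)), by positivity, fun x hx a ha e he => ?_⟩
  obtain ⟨y, hy, l, m, c, hl, hm, rfl⟩ := exists_slice hx
  have hy' := slice_subset hy
  have hl' := coe_ne_zero hl.ne'
  obtain ⟨h1, L, -, h2, h3⟩ := H y hy a ha.le e ⟨he.1, he.2.trans (min_le_left _ _)⟩ 0 π le_rfl
    pi_pos.le le_rfl
  refine ⟨fun t ht => ?_, fun e0 hK => ?_⟩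
  · rw [D.push_act h t e c hl' hm hy']
    exact smul_ne_zero hl' (h1 t ht)
  · rw [Var_congr h h1 fun t _ => ⟨_, hl', D.push_act h t e c hl' hm hy' a⟩]
    refine h2.trans_lt ((ENNReal.ofReal_lt_ofReal_iff pi_pos).2 (h3.trans_lt ?_))
    rw [D.invK _ _ _ _ hl' hm hy'] at hK
    have k1 := D.neg y hy' a hK
    rw [D.ix_eq h hy', ha] at k1
    have k2 := push_small hδ hC e0 (he.2.trans (min_le_right _ _))
    have k3 := mul_le_mul_of_nonneg_left k1 (by positivity : 0 ≤ e ^ 2 / 2)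
    linarith

theorem Bl.exists_PD {G : Geo g} (B : Bl g G) {k : ℕ} (D : ND G k) : Nonempty (PD D) := by
  classical
  have h := B.met
  obtain ⟨C, hC⟩ := B.exists_comb
  obtain ⟨ε, hε, hS⟩ := B.push_short D
  set U := unitK G.SS D.KL with hU
  have : CompactSpace U := isCompact_iff_compactSpace.1 (B.isCompact_unitK D)
  have hsh : ∀ θ, ∀ y ∈ U, (sh θ y.1, y.2) ∈ U := fun θ y hy =>
    ⟨B.sh_mem θ hy.1, by rw [B.KL_sh D θ hy.1]; exact hy.2.1, hy.2.2⟩
  let ac : Circle → U → U := fun θ y => ⟨(sh θ y.1.1, y.1.2), hsh θ _ y.2⟩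
  have cac : Continuous fun p : Circle × U => ac p.1 p.2 :=
    Continuous.subtype_mk ((continuous_sh.comp (f := fun p : Circle × U => (p.1, p.2.1.1))
      (by fun_prop)).prodMk (by fun_prop)) _
  have aac : ∀ θ θ' y, ac θ (ac θ' y) = ac (θ * θ') y := fun θ θ' y =>
    Subtype.ext (Prod.ext (sh_sh _ _ _) rfl)
  have ac1 : ∀ y, ac 1 y = y := fun y => Subtype.ext (Prod.ext (sh_one _) rfl)
  let F : Flo U := ⟨fun t => ac (cs t),
    cac.comp (f := fun p : ℝ × U => (cs p.1, p.2))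
      ((continuous_cs.comp continuous_fst).prodMk continuous_snd),
    fun y => by rw [cs_zero, ac1], fun s t y => by rw [aac, cs_add], fun y => by rw [cs_pi, ac1]⟩
  have hph : ∀ y₀ : U, ∃ f : C(U, ℂ), f y₀ ≠ 0 ∧
      ∀ t y, f (F.φ t y) = Complex.exp (2 * t * Complex.I) * f y := fun y₀ => by
    obtain ⟨f, f1, f2, f3, f4⟩ := B.exists_phase (G.sec_mem y₀.2.1).1
    refine ⟨⟨fun y => f (G.sec y.1.1), (B.continuousOn_sec f1.continuousOn f2).comp_continuous
      (by fun_prop) fun y => y.2.1⟩, f3, fun t y => ?_⟩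
    obtain ⟨x, hx, e⟩ := y.2.1
    show f (G.sec (sh (cs t) y.1.1)) = _ * f (G.sec y.1.1)
    rw [← e, B.sh_lp hx, B.inv_sec f2 hx, B.inv_sec f2 (G.psi_mem h t hx), f4 t x hx]
  have z0 : ∀ x ∈ OO n, ∀ a : RN D.N, ‖a‖ = 1 → ∀ e ∈ Icc 0 ε, x.1 + e • D.X x a ≠ 0 :=
    fun x hx a ha e he => by
      have := (hS x hx a ha e he).1 0 ⟨le_rfl, pi_pos.le⟩
      rwa [dist_Z_zero G h hx, G.psi_zero h hx] at this
  let cl : ℝ → ℝ := fun s => max 0 (Min.min s 1) * ε
  have clm : ∀ s, cl s ∈ Icc 0 ε := fun s =>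
    ⟨mul_nonneg (le_max_left _ _) hε.le,
      mul_le_of_le_one_left hε.le (max_le zero_le_one (min_le_right _ _))⟩
  have cle : ∀ s ∈ Icc (0 : ℝ) 1, cl s = s * ε := fun s hs => by
    simp only [cl, min_eq_left hs.2, max_eq_right hs.1]
  let P0 : LM n × ℝ × RN D.N → AM n := fun y =>
    pr ((G.sec y.1).1 + cl y.2.1 • D.X (G.sec y.1) y.2.2)
  have P0l : ∀ x ∈ OO n, ∀ s a, P0 (G.lp x, s, a) = pr (x.1 + cl s • D.X x a) := fun x hx s a =>
    B.inv_sec (f := fun x => pr (x.1 + cl s • D.X x a)) (fun l m c x hl hm hx => by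
      have h1 := (D.fld a).eqv l m c x hl hm hx
      show pr (l • x.1 + cl s • D.X (act l m c x) a) = _
      rw [h1, smul_comm, ← smul_add, pr_smul hl]) hx
  have cP0 : ContinuousOn P0 {y | y.1 ∈ G.SS ∧ ‖y.2.2‖ = 1} := by
    refine B.desc_SS (fun y hy => hy.1) ?_
    have c1 : ContinuousOn (fun y : VV n × ℝ × RN D.N => pr (y.1.1 + cl y.2.1 • D.X y.1 y.2.2))
        {y | y.1 ∈ OO n ∧ ‖y.2.2‖ = 1} := by
      refine contDiffOn_pr.continuousOn.comp (f := fun y : VV n × ℝ × RN D.N =>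
        y.1.1 + cl y.2.1 • D.X y.1 y.2.2) ?_ fun y hy => z0 _ hy.1 _ hy.2 _ (clm _)
      exact (by fun_prop : Continuous fun y : VV n × ℝ × RN D.N => y.1.1).continuousOn.add
        ((by fun_prop : Continuous fun y : VV n × ℝ × RN D.N => cl y.2.1).continuousOn.smul
          ((D.smooth.continuousOn.comp continuousOn_fst fun y hy => hy.1).clm_apply (by fun_prop)))
    exact (c1.mono fun y hy => ⟨hy.1, hy.2.2⟩).congr fun y hy => P0l _ hy.1 _ _
  let P : C(ℝ × U, MH n) := ⟨fun y => ⟨P0 (y.2.1.1, y.1, y.2.1.2),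
      pr_mem (z0 _ (G.sec_mem y.2.2.1).1 _ y.2.2.2.2 _ (clm _))⟩,
    Continuous.subtype_mk (cP0.comp_continuous (by fun_prop) fun y => ⟨y.2.2.1, y.2.2.2.2⟩) _⟩
  have Pl : ∀ s t, ∀ x ∈ OO n, ∀ y : U, y.1.1 = G.lp x →
      (P (s, ac (cs t) y)).1 = pr (G.Z t x + cl s • D.X (G.psi t x) y.1.2) := fun s t x hx y e => by
    show P0 (sh (cs t) y.1.1, s, y.1.2) = _
    rw [e, B.sh_lp hx, P0l _ (G.psi_mem h t hx)]
    rfl
  have Ps : ∀ s ∈ Ioc (0 : ℝ) 1, ∀ y, ShortL C.j fun t => P (s, F.φ t y) := fun s hs y => by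
    obtain ⟨x, hx, e⟩ := y.2.1
    have k := hS x hx y.1.2 y.2.2.2 (cl s) (clm s)
    have hK : D.K x y.1.2 = y.1.2 := by
      have := y.2.2.1
      rwa [← e, B.KL_lp D hx] at this
    rw [hC]
    exact shortL_of_Var h k.1 (fun t _ => Pl s t x hx y e.symm)
      (k.2 (by rw [cle s ⟨hs.1.le, hs.2⟩]; exact mul_pos hs.1 hε) hK)
  obtain ⟨H, H0, H1, Hs, Hc⟩ := contract C F hph
    (P.comp ⟨fun y => (1 / 2, y), by fun_prop⟩) (Ps (1 / 2) ⟨by norm_num, by norm_num⟩)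
  let W : C(ℝ × U, MH n) := ⟨fun y => if y.1 ≤ 1 / 2 then P y else H (2 * y.1 - 1, y.2),
    Continuous.if_le P.continuous (by fun_prop) continuous_fst continuous_const fun y hy => by
      rw [H0 _ (by rw [hy]; norm_num)]
      show P y = P (1 / 2, y.2)
      rw [← hy]⟩
  have Ws : ∀ s ∈ Ioc (0 : ℝ) 1, ∀ y, ShortL C.j fun t => W (s, F.φ t y) := fun s hs y => by
    by_cases h2 : s ≤ 1 / 2
    · simpa only [W, ContinuousMap.coe_mk, if_pos h2] using Ps s hs y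
    · simpa only [W, ContinuousMap.coe_mk, if_neg h2] using Hs _ y
  obtain ⟨K, Ka⟩ : ∃ K : C(ℝ × U, LM n), ∀ s y θ, K (s, y) θ = (W (s, ac θ y)).1 :=
    ⟨ContinuousMap.curry ⟨fun p : (ℝ × U) × Circle =>
      (W (p.1.1, ac p.2 p.1.2)).1, continuous_subtype_val.comp (W.continuous.comp
        ((by fun_prop : Continuous fun p : (ℝ × U) × Circle => p.1.1).prodMk
          (cac.comp (f := fun p : (ℝ × U) × Circle => (p.2, p.1.2)) (by fun_prop))))⟩,
      fun _ _ _ => rfl⟩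
  obtain ⟨Hh, Ha⟩ : ∃ Hh : ℝ × LM n × RN D.N → LM n,
      ∀ s y (hy : y ∈ U), Hh (s, y) = K (s, ⟨y, hy⟩) :=
    ⟨fun y => if hy : y.2 ∈ U then K (y.1, ⟨y.2, hy⟩) else y.2.1, fun s y hy => dif_pos hy⟩
  refine ⟨⟨Hh, ?_, fun s _ y hy θ => ?_, fun s _ y hy θ => ?_, fun y hy θ => ?_,
    fun s hs y hy θ => ?_, ε, hε, fun s hs x hx a hK ha t => ?_⟩⟩
  · rw [continuousOn_iff_continuous_domRestrict]
    have c1 : Continuous fun p : Icc (0 : ℝ) 1 ×ˢ U => ((p.1.1, ⟨p.1.2, p.2.2⟩) : ℝ × U) := by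
      fun_prop
    exact (K.continuous.comp c1).congr fun p => (Ha p.1.1 p.1.2 p.2.2).symm
  · rw [Ha s y hy, Ka]
    exact Subtype.property _
  · rw [Ha s y hy, Ha s _ (hsh θ y hy)]
    ext1 θ'
    rw [sh_apply, Ka, Ka, mul_comm θ, ← aac]
  · obtain ⟨t, -, rfl⟩ := exists_cs θ
    rw [Ha 1 y hy, Ka, Ka, ac1]
    have e : ∀ y, W (1, y) = H (1, y) := fun y => by
      simp only [W, ContinuousMap.coe_mk]
      norm_num
    rw [e, e]
    exact congrArg _ (Hc t _)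
  · obtain ⟨t, -, rfl⟩ := exists_cs θ
    rw [Ha s y hy, Ka, Ka, ← cs_zero]
    refine B.not_cut ?_
    rw [← hC]
    exact (Ws s hs ⟨y, hy⟩).near (fun t => by
      show W (s, ac (cs (t + π)) _) = W (s, ac (cs t) _)
      rw [cs_add_pi]) 0 t
  · have hy : (G.lp x, a) ∈ U := ⟨⟨x, hx, rfl⟩, by rw [B.KL_lp D hx]; exact hK, ha⟩
    rw [Ha s _ hy, Ka, ← cle s ⟨hs.1, hs.2.trans (by norm_num)⟩, ← Pl s t x hx ⟨_, hy⟩ rfl]
    simp only [W, ContinuousMap.coe_mk, if_pos hs.2]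

end Pool.Agent.Work.MP_8c604c_gt.H
end
end

-- merged part: Pool.Agent.Work.MP_8c604c_gt.B.G4A
section
/-!
The middle arc of the broken geodesics and its push.
-/

set_option maxSynthPendingDepth 3

open Set Filter Topology MeasureTheory
open scoped ContDiff Quaternion

noncomputable section
namespace Pool.Agent.Work.MP_8c604c_gt.H

open T B Real

variable {n : ℕ} {g : Met n}

variable {G : Geo g}

/-- The tilted initial condition. -/
def gx (g : Met n) (y : VV n) (κ : E n) : VV n := (y.1, vel g y + κ)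

/-- The scalar that compares the end points. -/
def Geo.gc (G : Geo g) (y : VV n) (κ : E n) : ℍ :=
  nu (G.Z (π / 2) y) (G.Z (π / 2) (gx g y κ))

/-- The interpolating scalar. -/
def Geo.gm (G : Geo g) (y : VV n) (κ : E n) (t : ℝ) : ℍ := 1 + (t / (π / 2)) • (G.gc y κ - 1)

theorem gm_zero (y : VV n) (κ : E n) : G.gm y κ 0 = 1 := by simp [Geo.gm]

theorem gm_half (y : VV n) (κ : E n) : G.gm y κ (π / 2) = G.gc y κ := by
  rw [Geo.gm, div_self (by positivity), one_smul, add_sub_cancel]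

theorem gm_deriv (y : VV n) (κ : E n) (t : ℝ) :
    HasDerivAt (G.gm y κ) ((1 / (π / 2)) • (G.gc y κ - 1)) t :=
  (((hasDerivAt_id t).div_const (π / 2)).smul_const _).const_add 1

section
variable (h : IsMetric g) {y : VV n} (hy : y ∈ OO n)
include h hy

theorem gx_zero_mem : gx g y 0 ∈ OO n := by
  rw [gx, add_zero]
  exact (h.unit_mem hy.1 (h.nu_vel hy.1) (h.vel_unit hy)).1

theorem gx_zero_Z (t : ℝ) : G.Z t (gx g y 0) = G.Z t y := by
  rw [gx, add_zero, G.Z_vel h t hy]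

theorem gx_zero_vel (t : ℝ) : vel g (G.psi t (gx g y 0)) = vel g (G.psi t y) := by
  have h1 := G.hasDerivAt_Z h t (gx_zero_mem h hy)
  simp only [gx_zero_Z h hy] at h1
  exact h1.unique (G.hasDerivAt_Z h t hy)

theorem gc_zero : G.gc y 0 = 1 := by
  rw [Geo.gc, gx_zero_Z h hy, nu_self (G.Z_ne h _ hy)]

theorem gm_zero' (t : ℝ) : G.gm y 0 t = 1 := by simp [Geo.gm, gc_zero h hy]

theorem gx_vel {κ : E n} (hκ : κ ∈ G.KS y) :
    vel g (gx g y κ) = (spd g (gx g y κ))⁻¹ • (vel g y + κ) := by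
  rw [vel]
  congr 1
  exact hor_of_nu (by
    show nu y.1 (vel g y + κ) = 0
    rw [nu_add, h.nu_vel hy.1, (Geo.mem_KS_iff.1 hκ).1, add_zero])

theorem gx_vel_ne {κ : E n} (hκ : κ ∈ G.KS y) (h0 : κ ≠ 0) : vel g (gx g y κ) ≠ vel g y := by
  intro e
  have hp := h.spd_pos (Geo.add_KS_mem h hy hκ)
  rw [gx_vel h hy hκ] at e
  have e1 := congrArg (g y.1 (vel g y)) e
  rw [map_smul, map_add, h.vel_unit hy, Geo.vel_KS h hy hκ, add_zero, smul_eq_mul, mul_one] at e1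
  rw [e1, one_smul, add_eq_left] at e
  exact h0 e

end

theorem gc_cont (h : IsMetric g) (y : VV n) :
    ContinuousOn (G.gc y) {κ | gx g y κ ∈ OO n} :=
  (nuL _).continuous.comp_continuousOn ((G.contDiffOn_Z h).continuousOn.comp
    (f := fun κ => (π / 2, gx g y κ)) (by unfold gx; fun_prop) fun _ hκ => hκ)

namespace Bl
variable (B : Bl g G) {k : ℕ} (hk : ∀ x ∈ OO n, G.kk x = k) {y : VV n} (hy : y ∈ OO n)
include B hk hy

theorem gx_link {κ : E n} (hκ : κ ∈ G.KS y) :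
    G.Z (π / 2) (gx g y κ) = G.gc y κ • G.Z (π / 2) y ∧ ‖G.gc y κ‖ = 1 := by
  have h := B.met
  have hx := Geo.add_KS_mem h hy hκ
  have hv : vel g y ∈ Bs y := mem_Bs.2 ⟨-((spd g y)⁻¹ • nu y.1 y.2), (spd g y)⁻¹, by
    rw [vel, hor_def, smul_sub, neg_smul, smul_assoc]; abel⟩
  obtain ⟨c, hc⟩ := (B.link_iff hk hy hx).2 (by
    have : ((0, vel g y + κ) : VV n) = (0, vel g y) + (0, κ) := by simp
    rw [this, map_add, (Geo.mem_KS_iff.1 hκ).2.2, add_zero]
    show horL _ (G.JJ _ y (0, vel g y)) = 0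
    rw [G.JJ_Bs h _ hy hv, map_zero])
  have e : G.gc y κ = c := by
    rw [Geo.gc, gx, hc, nu_smul, nu_self (G.Z_ne h _ hy), mul_one]
  refine ⟨e ▸ hc, ?_⟩
  have n1 := G.norm_Z h (π / 2) hx
  rw [hc, norm_smul, G.norm_Z h _ hy] at n1
  rw [e]
  exact mul_right_cancel₀ (norm_ne_zero_iff.2 hy.1) (n1.trans (one_mul _).symm)

theorem gc_ne {κ : E n} (hκ : κ ∈ G.KS y) : G.gc y κ ≠ 0 := fun e => by
  have := (B.gx_link hk hy hκ).2
  rw [e, norm_zero] at this
  exact zero_ne_one this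

theorem gm_norm {κ : E n} (hκ : κ ∈ G.KS y) {t : ℝ} (ht : t ∈ Icc 0 (π / 2)) :
    ‖G.gm y κ t‖ ≤ 3 ∧ ‖(1 / (π / 2)) • (G.gc y κ - 1)‖ ≤ 2 := by
  have h1 : ‖G.gc y κ - 1‖ ≤ 2 := (norm_sub_le _ _).trans (by
    rw [(B.gx_link hk hy hκ).2, norm_one]; norm_num)
  have hp : 0 < π / 2 := by positivity
  have h2 : ∀ r : ℝ, 0 ≤ r → r ≤ π / 2 → ‖(r / (π / 2)) • (G.gc y κ - 1)‖ ≤ 2 := fun r r0 r1 => by
    rw [norm_smul, Real.norm_of_nonneg (by positivity)]
    exact (mul_le_of_le_one_left (norm_nonneg _) ((div_le_one hp).2 r1)).trans h1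
  refine ⟨(norm_add_le _ _).trans ?_, h2 1 zero_le_one (by linarith [two_le_pi])⟩
  rw [norm_one]
  linarith [h2 t ht.1 ht.2]

/-- The first variation along the tilted arc. -/
theorem gx_first {ξ : VV n → E n} (hξ : Fld g ξ) {κ : E n} (hκ : κ ∈ G.KS y)
    (h0 : 0 ≤ g y.1 κ (G.rho ξ y)) :
    g (G.Z (π / 2) (gx g y κ)) (vel g (G.psi (π / 2) (gx g y κ)))
        (G.gc y κ • ξ (G.psi (π / 2) y)) ≤ g y.1 (vel g (gx g y κ)) (ξ y) := by
  have h := B.met
  have hx := Geo.add_KS_mem h hy hκ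
  have k1 := B.swap hy hx (B.gx_link hk hy hκ).1 (ξ (G.psi (π / 2) y))
  have k2 : 0 ≤ g y.1 (vel g (gx g y κ)) (G.rho ξ y) := by
    rw [gx_vel h hy hκ, map_smul, map_add, smul_apply, add_apply, (Geo.fld_rho h hξ).perp y hy,
      zero_add]
    exact mul_nonneg (inv_nonneg.2 (h.spd_pos hx).le) h0
  rw [Geo.rho, map_sub, sub_nonneg] at k2
  exact k1.trans_le k2

omit B in
theorem R_ne (D : ND G k) {a : RN D.N} (hK : D.K y a = a) (ha : a ≠ 0) : D.R y a ≠ 0 := by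
  let W := LinearMap.range (D.K y : RN D.N →ₗ[ℝ] RN D.N)
  let f : W →ₗ[ℝ] G.KS y := ((D.R y : RN D.N →ₗ[ℝ] E n).domRestrict W).codRestrict _
    fun b => D.memR y hy b
  have hs : Function.Surjective f := fun u => by
    obtain ⟨b, h1, h2⟩ := D.surjR y hy u.1 u.2
    exact ⟨⟨b, b, h1⟩, Subtype.ext h2⟩
  have hi := (LinearMap.injective_iff_surjective_of_finrank_eq_finrank
    ((D.rkK y hy).trans (hk y hy).symm)).2 hs
  intro e
  have : (⟨a, a, hK⟩ : W) = 0 := hi (by rw [map_zero]; exact Subtype.ext e)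
  exact ha (congrArg Subtype.val this)

/-- The broken geodesic has no point at distance `π/2` from the middle of the old arc. -/
theorem gx_corner {κ : E n} (hκ : κ ∈ G.KS y) (h0 : κ ≠ 0) {t : ℝ} (ht : t ∈ Icc 0 (π / 2)) :
    dd g (G.Z (3 * π / 4) y) (G.Z t (gx g y κ)) < π / 2 := by
  have h := B.met
  have hx : gx g y κ ∈ OO n := Geo.add_KS_mem h hy hκ
  have hp := pi_pos
  rcases le_or_gt t (π / 4) with h1 | h1
  · rw [show 3 * π / 4 = -(π / 4) + π by ring, B.Z_add_pi _ hy, h.dd_smul_left (B.hol_ne hy)]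
    rcases ht.1.eq_or_lt with rfl | h2
    · rw [dist_Z_zero G h hx, show (gx g y κ).1 = G.Z 0 y from (dist_Z_zero G h hy).symm]
      refine (h.dd_Z_le G hy _ _).trans_lt ?_
      rw [abs_of_nonneg (by linarith)]
      linarith
    · exact (h.corner G hy hx rfl (gx_vel_ne h hy hκ h0) (by positivity) h2).trans_le (by linarith)
  · refine (h.dd_triangle (G.Z_ne h _ hy) (G.Z_ne h (π / 2) hx) (G.Z_ne h _ hx)).trans_lt ?_
    have k1 := h.dd_Z_le G hx (π / 2) t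
    have k2 := h.dd_Z_le G hy (3 * π / 4) (π / 2)
    rw [abs_of_nonpos (by linarith [ht.2])] at k1
    rw [abs_of_nonpos (by linarith)] at k2
    nth_rewrite 1 [(B.gx_link hk hy hκ).1]
    rw [dd_smul_right (B.gc_ne hk hy hκ)]
    linarith

end Bl

end Pool.Agent.Work.MP_8c604c_gt.H
end
end
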