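import Pool.Agent.Work.MP_8c604c_gt.C.Count
import Pool.Agent.Work.MP_8c604c_gt.B.IxK

-- merged part: Pool.Agent.Work.MP_8c604c_gt.B.IxO
section
/-!
The second variation along one closed geodesic: pairing with Jacobi fields, holonomy, and positivity on the fields
that agree with a Jacobi field at the times `0` and `π/2`.
-/

set_option maxSynthPendingDepth 3

open Set Filter Topology MeasureTheory
open scoped ContDiff Quaternion

noncomputable section
namespace Pool.Agent.Work.MP_8c604c_gt.H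

open Real

variable {n : ℕ} {g : Met n}

namespace Geo
variable (G : Geo g) (h : IsMetric g)
include h

theorem io_cont {x : VV n} (hx : x ∈ OO n) {a b : ℝ → VV n} (ha : Continuous a)
    (hb : Continuous b) :
    Continuous fun t => D2 g (G.Z t x, vel g (G.psi t x)) (a t) (b t) :=
  ((G.nc_cont_second h hx).clm_apply ha).clm_apply hb

theorem io_cont_JJ {x : VV n} (hx : x ∈ OO n) : Continuous fun t => G.JJ t x :=
  (G.contDiffOn_JJ h).continuousOn.comp_continuous (f := fun t : ℝ => (t, x)) (by fun_prop)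
    fun _ => hx

theorem io_cont_JD {x : VV n} (hx : x ∈ OO n) : Continuous fun t => G.JD t x :=
  (G.contDiffOn_JD h).continuousOn.comp_continuous (f := fun t : ℝ => (t, x)) (by fun_prop)
    fun _ => hx

theorem io_cont_g {x : VV n} (hx : x ∈ OO n) : Continuous fun t => g (G.Z t x) :=
  h.smooth.continuousOn.comp_continuous (G.nc_cont_Z h hx) fun t => G.Z_ne h t hx

/-- The second variation of a Jacobi field against any field is a boundary term. -/
theorem io_jac {x : VV n} (hx : x ∈ OO n) (δ : VV n) {η η' : ℝ → E n}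
    (hη : ∀ t, HasDerivAt η (η' t) t) (hη' : Continuous η') (a b : ℝ) :
    (∫ t in a..b, D2 g (G.Z t x, vel g (G.psi t x)) (G.JJ t x δ, G.JD t x δ) (η t, η' t)) =
      G.PP b x δ (η b) - G.PP a x δ (η a) := by
  have hc : Continuous η := continuous_iff_continuousAt.2 fun t => (hη t).continuousAt
  exact intervalIntegral.integral_eq_sub_of_hasDerivAt (f := fun s => G.PP s x δ (η s))
    (fun t _ => G.var h t hx δ (hη t))
    ((G.io_cont h hx (((G.io_cont_JJ h hx).clm_apply continuous_const).prodMk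
      ((G.io_cont_JD h hx).clm_apply continuous_const)) (hc.prodMk hη')).intervalIntegrable _ _)

theorem io_PP_vert (t : ℝ) {x : VV n} (hx : x ∈ OO n) (δ : VV n) (c : ℍ) :
    G.PP t x δ (c • G.Z t x) = -g (G.Z t x) (vel g (G.psi t x)) (c • G.JJ t x δ) := by
  rw [G.PP_apply h t hx, h.fderiv_vert_arg c (G.Z_ne h t hx), h.vert' c _ (G.Z_ne h t hx), add_zero]

end Geo

namespace Bl
variable {G : Geo g} (B : Bl g G)
include B

/-- On a minimising segment the second variation is nonnegative on fields with vertical end values. -/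
theorem io_half {x : VV n} (hx : x ∈ OO n) {a b : ℝ} (hab : a ≤ b) (hl : b - a ≤ π / 2)
    {η η' : ℝ → E n} (hη : ∀ t, HasDerivAt η (η' t) t) (hη' : Continuous η') {c d : ℍ}
    (ha : η a = c • G.Z a x) (hb : η b = d • G.Z b x) :
    0 ≤ ∫ t in a..b, D2 g (G.Z t x, vel g (G.psi t x)) (η t, η' t) (η t, η' t) := by
  have h := B.met
  obtain ⟨C, δ, hδ, H⟩ := G.nc_piece h hx hab hη hη'
  set I := ∫ t in a..b, D2 g (G.Z t x, vel g (G.psi t x)) (η t, η' t) (η t, η' t)
  have key : ∀ ε : ℝ, 0 < ε → ε ≤ δ → 0 ≤ I / 2 + C * ε := fun ε h0 h1 => by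
    obtain ⟨⟨n1, n2⟩, H⟩ := H ε h0.le h1
    have e : ∀ (c : ℍ) (z : E n), z + ε • c • z = (1 + ε • c) • z := fun c z => by
      rw [add_smul, one_smul, smul_assoc]
    rw [ha, e] at n1
    rw [hb, e] at n2
    rw [ha, hb, e, e, h.dd_smul_left (left_ne_zero_of_smul n1),
      dd_smul_right (left_ne_zero_of_smul n2), h.vert' _ _ (G.Z_ne h a hx),
      h.vert' _ _ (G.Z_ne h b hx)] at H
    have h2 := B.dist_dd_Z hx hab hl
    have h3 : 0 ≤ ε ^ 2 * (I / 2 + C * ε) := by linarith only [H, h2]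
    exact nonneg_of_mul_nonneg_right h3 (by positivity) |> fun k => k
  have h1 : Tendsto (fun ε : ℝ => I / 2 + C * ε) (𝓝[>] 0) (𝓝 (I / 2 + C * 0)) :=
    (Continuous.tendsto (by fun_prop) 0).mono_left nhdsWithin_le_nhds
  have h2 := ge_of_tendsto h1 (by
    filter_upwards [Ioc_mem_nhdsGT hδ] with ε hε using key ε hε.1 hε.2)
  linarith only [h2]

/-- The holonomy of Jacobi fields and of their momenta. -/
theorem io_hol {x : VV n} (hx : x ∈ OO n) (δ : VV n) : ∃ μ : ℍ,
    G.JJ π x δ = nu x.1 (G.Z π x) • (δ.1 + μ • x.1) ∧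
    ∀ w, G.PP π x δ (nu x.1 (G.Z π x) • w) = G.PP 0 x δ w - g x.1 (vel g x) (μ • w) := by
  have h := B.met
  have hc0 := B.hol_ne hx
  have e : ∀ y ∈ OO n, G.Z π y = nu y.1 (G.Z π y) • y.1 := fun y hy => by
    have := B.Z_add_pi 0 hy
    rwa [zero_add, dist_Z_zero G h hy] at this
  have e' : ∀ y ∈ OO n, vel g (G.psi π y) = nu y.1 (G.Z π y) • vel g y := fun y hy => by
    have := B.vel_add_pi 0 hy
    rwa [zero_add, G.psi_zero h hy] at this
  have hl := jac_line x δ
  have h0 : x + (0 : ℝ) • δ = x := by simp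
  obtain ⟨c', hc⟩ := jac_nu hl.fst (jac_curve (G.jac_dZ h π hx) hl h0) (by simpa using hx.1)
  have h3 : ∀ᶠ s : ℝ in 𝓝 0, x + s • δ ∈ OO n :=
    hl.continuousAt.eventually (isOpen_OO.mem_nhds (by simpa using hx))
  refine ⟨(nu x.1 (G.Z π x))⁻¹ * c', ?_, fun w => ?_⟩
  · have h1 := (jac_curve (G.jac_dZ h π hx) hl h0).unique
      ((hc.smul hl.fst).congr_of_eventuallyEq (h3.mono fun s hs => e _ hs))
    rw [h0] at h1
    rw [smul_add, smul_smul, mul_inv_cancel_left₀ hc0]
    exact h1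
  · have h1 := (jac_curve (G.jac_dP h π hx) hl h0).clm_apply (hc.smul_const w)
    have h2 := (jac_curve (G.jac_dP h 0 hx) hl h0).clm_apply (hasDerivAt_const (0 : ℝ) w)
    have h4 := h1.unique (h2.congr_of_eventuallyEq (h3.mono fun s hs => by
      simp only
      rw [dist_Z_zero G h hs, G.psi_zero h hs, e' _ hs]
      nth_rewrite 1 [e _ hs]
      exact h.inv _ _ _ _ (B.hol_ne hs) hs.1))
    simp only [h0, map_zero, add_zero] at h4
    have h5 : g (G.Z π x) (vel g (G.psi π x)) (c' • w) =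
        g x.1 (vel g x) (((nu x.1 (G.Z π x))⁻¹ * c') • w) := by
      rw [← h.inv _ _ _ _ hc0 hx.1, smul_smul, mul_inv_cancel_left₀ hc0, ← e x hx, ← e' x hx]
    rw [← h5]
    exact eq_sub_of_add_eq h4

/-- A closed field that agrees with a Jacobi field at `0` and `π/2` has nonnegative second variation. -/
theorem io_idx {x : VV n} (hx : x ∈ OO n) {η η' : ℝ → E n} (hη : ∀ t, HasDerivAt η (η' t) t)
    (hη' : Continuous η') (hπ : η π = nu x.1 (G.Z π x) • η 0) {δ : VV n} {c d : ℍ}
    (h0 : η 0 = δ.1 + c • x.1) (h1 : η (π / 2) = G.JJ (π / 2) x δ + d • G.Z (π / 2) x) :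
    0 ≤ ∫ t in (0 : ℝ)..π, D2 g (G.Z t x, vel g (G.psi t x)) (η t, η' t) (η t, η' t) := by
  have h := B.met
  have z0 := dist_Z_zero G h hx
  have hc : Continuous η := continuous_iff_continuousAt.2 fun t => (hη t).continuousAt
  have cJ : Continuous fun t => G.JJ t x δ := (G.io_cont_JJ h hx).clm_apply continuous_const
  have cD : Continuous fun t => G.JD t x δ := (G.io_cont_JD h hx).clm_apply continuous_const
  obtain ⟨μ, hJ, hP⟩ := B.io_hol hx δ
  have eπ : G.Z π x = nu x.1 (G.Z π x) • x.1 := by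
    have := B.Z_add_pi 0 hx
    rwa [zero_add, z0] at this
  have hd : ∀ t, HasDerivAt (fun t => η t - G.JJ t x δ) (η' t - G.JD t x δ) t := fun t =>
    (hη t).sub (G.hasDerivAt_JJ h t hx δ)
  have k1 := B.io_half hx (a := 0) (b := π / 2) (by positivity) (by simp) hd (hη'.sub cD)
    (c := c) (d := d) (by rw [h0, G.JJ_zero h hx, z0]; abel) (by rw [h1]; abel)
  have k2 := B.io_half hx (a := π / 2) (b := π) (by linarith only [pi_pos]) (by linarith only []) hd
    (hη'.sub cD) (c := d) (d := nu x.1 (G.Z π x) * (c - μ) * (nu x.1 (G.Z π x))⁻¹)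
    (by rw [h1]; abel) (by
      rw [hπ, hJ, h0]
      nth_rewrite 5 [eπ]
      rw [smul_smul, inv_mul_cancel_right₀ (B.hol_ne hx), mul_smul, ← smul_sub, sub_smul]
      congr 1
      abel)
  have c1 := G.io_cont h hx ((hc.fun_sub cJ).prodMk (hη'.fun_sub cD))
    ((hc.fun_sub cJ).prodMk (hη'.fun_sub cD))
  have k3 := add_nonneg k1 k2
  rw [intervalIntegral.integral_add_adjacent_intervals (c1.intervalIntegrable _ _)
    (c1.intervalIntegrable _ _)] at k3
  have hd2 : ∀ t, HasDerivAt (fun t => η t + η t - G.JJ t x δ) (η' t + η' t - G.JD t x δ) t :=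
    fun t => ((hη t).add (hη t)).sub (G.hasDerivAt_JJ h t hx δ)
  have k4 := G.io_jac h hx δ hd2 ((hη'.add hη').sub cD) 0 π
  have k5 : G.PP π x δ (η π + η π - G.JJ π x δ) - G.PP 0 x δ (η 0 + η 0 - G.JJ 0 x δ) = 0 := by
    have v := G.io_PP_vert h 0 hx δ μ
    rw [z0, G.psi_zero h hx, G.JJ_zero h hx] at v
    rw [hπ, hJ, ← smul_add, ← smul_sub, hP, G.JJ_zero h hx, h0]
    simp only [map_add, map_sub, smul_add, smul_sub, smul_smul μ, v, h.vert' _ _ hx.1]
    ring
  have c2 := G.io_cont h hx (cJ.prodMk cD) 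
    (((hc.fun_add hc).fun_sub cJ).prodMk ((hη'.fun_add hη').fun_sub cD))
  rw [k5] at k4
  refine (add_nonneg k3 k4.ge).trans_eq ?_
  rw [← intervalIntegral.integral_add (c1.intervalIntegrable _ _) (c2.intervalIntegrable _ _)]
  refine intervalIntegral.integral_congr fun t _ => ?_
  have s := h.D2_symm (p := (G.Z t x, vel g (G.psi t x))) (G.Z_ne h t hx) (η t, η' t)
    (G.JJ t x δ, G.JD t x δ)
  simp only [← Prod.mk_sub_mk, ← Prod.mk_add_mk, D2, map_add, map_sub,
    sub_apply] at s ⊢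
  linarith only [s]

end Bl

end Pool.Agent.Work.MP_8c604c_gt.H
end
end

-- merged part: Pool.Agent.Work.MP_8c604c_gt.B.NegO
section
/-!
Smooth fields of negative second variation along one geodesic, one for every vector of `KS x`.
The fields are `JJ t x (α t • u, β t • u)`; their second variation is a boundary term plus `om (A, A') + |JJ A'|^2`.
-/

set_option maxSynthPendingDepth 3
set_option linter.unusedSectionVars false

open Set Filter Topology MeasureTheory
open scoped ContDiff Quaternion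

noncomputable section
namespace Pool.Agent.Work.MP_8c604c_gt.H

open Real

variable {n : ℕ} {g : Met n}

/-- A smooth step from `0` at `c` to `1` at `c + w`. -/
def noS (c w t : ℝ) : ℝ := smoothTransition ((t - c) / w)

/-- Its derivative. -/
def noD (c w t : ℝ) : ℝ := wt ((t - c) / w) / w

theorem noS_smooth (c w : ℝ) : ContDiff ℝ ∞ (noS c w) :=
  smoothTransition.contDiff.comp ((contDiff_id.sub contDiff_const).div_const w)

theorem noS_deriv (c w t : ℝ) : HasDerivAt (noS c w) (noD c w t) t := by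
  have h1 : HasDerivAt smoothTransition (wt ((t - c) / w)) ((t - c) / w) :=
    ((smoothTransition.contDiff (n := 1)).differentiable one_ne_zero _).hasDerivAt
  exact (h1.comp t (((hasDerivAt_id t).sub_const c).div_const w)).congr_deriv (by
    rw [noD]; ring)

theorem noD_cont (c w : ℝ) : Continuous (noD c w) :=
  (contDiff_wt.continuous.comp (by fun_prop)).div_const w

theorem noS_zero {c w t : ℝ} (hw : 0 < w) (h : t ≤ c) : noS c w t = 0 :=
  smoothTransition.zero_of_nonpos (div_nonpos_of_nonpos_of_nonneg (by linarith) hw.le)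

theorem noS_one {c w t : ℝ} (hw : 0 < w) (h : c + w ≤ t) : noS c w t = 1 :=
  smoothTransition.one_of_one_le ((one_le_div hw).2 (by linarith))

theorem noD_nonneg {c w : ℝ} (hw : 0 < w) (t : ℝ) : 0 ≤ noD c w t := div_nonneg (wt_nonneg _) hw.le

theorem noD_supp {c w t : ℝ} (hw : 0 < w) (h : noD c w t ≠ 0) : c ≤ t ∧ t ≤ c + w := by
  have : (t - c) / w ∈ Icc (0 : ℝ) 1 := by
    by_contra k
    exact h (by rw [noD, wt_eq_zero k, zero_div])
  have h1 := (div_nonneg_iff.1 this.1).resolve_right fun k => k.2.not_gt hw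
  have h2 := (div_le_one hw).1 this.2
  constructor <;> linarith only [h1, h2, h1.1]

theorem no_wt : ∃ M : ℝ, 0 < M ∧ ∀ r, wt r ≤ M := by
  obtain ⟨M, hM⟩ := (isCompact_Icc (a := (0 : ℝ)) (b := 1)).bddAbove_image
    contDiff_wt.continuous.continuousOn
  refine ⟨|M| + 1, by positivity, fun r => ?_⟩
  by_cases hr : r ∈ Icc (0 : ℝ) 1
  · linarith [hM ⟨r, hr, rfl⟩, le_abs_self M]
  · rw [wt_eq_zero hr]; positivity

theorem no_om (x : VV n) (u : E n) (a b a' b' : ℝ) :
    om g x (a • u, b • u) (a' • u, b' • u) = (b * a' - a * b') * om g x (0, u) (u, 0) := by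
  have e : ∀ a b : ℝ, ((a • u, b • u) : VV n) = a • (u, 0) + b • (0, u) := fun a b => by simp
  simp only [om]
  rw [e a b, e a' b']
  simp only [map_add, map_smul, add_apply, smul_apply, smul_eq_mul, map_zero]
  ring

theorem IsMetric.no_three (h : IsMetric g) {z : E n} (hz : z ≠ 0) (a b c : E n) :
    g z (a + (b - c)) (a + (b - c)) ≤ 3 * (g z a a + g z b b + g z c c) := by
  have h1 := h.nonneg hz (a - b)
  have h2 := h.nonneg hz (a + c)
  have h3 := h.nonneg hz (b + c)
  simp only [map_add, map_sub, add_apply, sub_apply] at *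
  linarith only [h1, h2, h3]

namespace Geo
variable (G : Geo g) (h : IsMetric g)
include h

theorem no_line {F : Type} [NormedAddCommGroup F] [NormedSpace ℝ F] {f : ℝ → VV n → F}
    (hf : ContDiffOn ℝ ∞ (fun p : ℝ × VV n => f p.1 p.2) {p | p.2 ∈ OO n}) {x : VV n}
    (hx : x ∈ OO n) : ContDiff ℝ ∞ fun t => f t x :=
  hf.comp_contDiff (f := fun t : ℝ => (t, x)) (by fun_prop) fun _ => hx

theorem no_deriv {x : VV n} (hx : x ∈ OO n) {A : ℝ → VV n} {A' : VV n} {t : ℝ}
    (hA : HasDerivAt A A' t) :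
    HasDerivAt (fun s => G.JJ s x (A s)) (G.JD t x (A t) + G.JJ t x A') t := by
  have h1 := ((no_line h (G.contDiffOn_JJ h) hx).differentiable (by simp) t).hasDerivAt
  have h2 := (h1.clm_apply (hasDerivAt_const t (A t))).unique (G.hasDerivAt_JJ h t hx (A t))
  rw [map_zero, add_zero] at h2
  exact (h1.clm_apply hA).congr_deriv (by rw [h2])

/-- The second variation of a field written in the frame of the Jacobi fields. -/
theorem no_form {x : VV n} (hx : x ∈ OO n) {A : ℝ → VV n} {A' : VV n} {t : ℝ}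
    (hA : HasDerivAt A A' t) :
    HasDerivAt (fun s => G.PP s x (A s) (G.JJ s x (A s)))
      (D2 g (G.Z t x, vel g (G.psi t x)) (G.JJ t x (A t), G.JD t x (A t) + G.JJ t x A')
        (G.JJ t x (A t), G.JD t x (A t) + G.JJ t x A') - om g x (A t) A' -
        g (G.Z t x) (G.JJ t x A') (G.JJ t x A')) t := by
  have hz := G.Z_ne h t hx
  have h1 := ((no_line h (G.contDiffOn_PP h) hx).differentiable (by simp) t).hasDerivAt
  have h0 := G.no_deriv h hx hA
  have h2 := ((h1.clm_apply (hasDerivAt_const t (A t))).clm_apply h0).unique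
    (G.var h t hx (A t) h0)
  refine ((h1.clm_apply hA).clm_apply h0).congr_deriv ?_
  have h3 := G.om_inv h t hx (A t) A'
  have h4 := G.PP_apply h t hx (A t) (G.JJ t x A')
  have h5 := h.symm (G.Z t x) (G.JD t x (A t)) (G.JJ t x A') hz
  rw [h.D2_apply (p := (G.Z t x, vel g (G.psi t x))) hz] at h2 ⊢
  simp only [map_zero, add_zero, map_add, add_apply] at h2 ⊢
  linarith only [h3, h4, h5, h2]

theorem no_bounds {x : VV n} (hx : x ∈ OO n) : ∃ C : ℝ, 0 < C ∧ ∀ t ∈ Icc (-π) π, ∀ u : E n,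
    g (G.Z t x) (G.JJ t x (u, 0)) (G.JJ t x (u, 0)) ≤ C * ‖u‖ ^ 2 ∧ ∀ s ∈ Icc (-π) π,
      G.JH s x (0, u) = 0 →
        g (G.Z t x) (G.JJ t x (0, u)) (G.JJ t x (0, u)) ≤ C * (t - s) ^ 2 * ‖u‖ ^ 2 := by
  obtain ⟨a, ha⟩ := (isCompact_Icc (a := -π) (b := π)).exists_bound_of_continuousOn
    (G.io_cont_g h hx).continuousOn
  obtain ⟨b, hb⟩ := (isCompact_Icc (a := -π) (b := π)).exists_bound_of_continuousOn
    (G.io_cont_JJ h hx).continuousOn
  obtain ⟨L, hL⟩ := (no_line h (G.contDiffOn_JH h) hx).contDiffOn.exists_lipschitzOnWith (by simp)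
    (convex_Icc (-π) π) isCompact_Icc
  have k : ∀ t ∈ Icc (-π) π, ∀ v r, ‖v‖ ≤ r → g (G.Z t x) v v ≤ |a| * r ^ 2 := fun t ht v r hv => by
    have h1 := (le_abs_self _).trans ((g (G.Z t x)).le_opNorm₂ v v)
    have h2 := (ha t ht).trans (le_abs_self a)
    calc _ ≤ ‖g (G.Z t x)‖ * ‖v‖ * ‖v‖ := h1
      _ = ‖g (G.Z t x)‖ * ‖v‖ ^ 2 := by ring
      _ ≤ _ := by gcongr
  refine ⟨|a| * (b ^ 2 + L ^ 2) + 1, by positivity, fun t ht u => ⟨?_, fun s hs h0 => ?_⟩⟩
  · refine (k t ht _ (b * ‖u‖) ?_).trans (by linarith only [sq_nonneg ((L : ℝ) * ‖u‖), abs_nonneg a, sq_nonneg ‖u‖, mul_nonneg_of_nonpos_of_nonpos (Mathlib.Tactic.Linarith.sub_nonpos_of_le (sq_nonneg (↑L * ‖u‖))) (Mathlib.Tactic.Linarith.sub_nonpos_of_le (abs_nonneg a))])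
    simpa using (G.JJ t x).le_of_opNorm_le (hb t ht) (u, 0)
  · rw [G.idx_g h t hx, h.symm _ _ _ (G.Z_ne h t hx), G.idx_g h t hx]
    refine (k t ht _ (L * |t - s| * ‖u‖) ?_).trans ?_
    · have := (G.JH t x - G.JH s x).le_of_opNorm_le (hL.norm_sub_le ht hs) (0, u)
      simpa [h0] using this
    · rw [mul_pow, mul_pow, sq_abs]
      linarith only [mul_nonneg (abs_nonneg a) (sq_nonneg (b * (t - s) * ‖u‖)),
        sq_nonneg ((t - s) * ‖u‖), sq_nonneg ((t - s) * ‖u‖), sq_nonneg (b * (t - s) * ‖u‖)]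

/-- Fields of negative second variation, supported inside a period. -/
theorem no_neg {x : VV n} (hx : x ∈ OO n) : ∃ α β : ℝ → ℝ, ContDiff ℝ ∞ α ∧ ContDiff ℝ ∞ β ∧
    (∀ t, t ≤ -(π / 8) ∨ 5 * π / 8 ≤ t → α t = 0 ∧ β t = 0) ∧ ∀ u ∈ G.KS x, u ≠ 0 →
      (∫ t in (-(π / 4))..(3 * π / 4), D2 g (G.Z t x, vel g (G.psi t x))
        (G.JJ t x (α t • u, β t • u), deriv (fun s => G.JJ s x (α s • u, β s • u)) t)
        (G.JJ t x (α t • u, β t • u), deriv (fun s => G.JJ s x (α s • u, β s • u)) t)) < 0 := by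
  have hπ := pi_pos
  obtain ⟨M, hM, hw⟩ := no_wt
  obtain ⟨C, hC, hb⟩ := G.no_bounds h hx
  obtain ⟨A, hA, hc⟩ := h.exists_comp
  have hs := h.spd_pos hx
  have hz := norm_pos_iff.2 hx.1
  set c0 := (spd g x * (A * ‖x.1‖ ^ 2))⁻¹ with hc0
  have c0p : 0 < c0 := by positivity
  set v : ℝ := π / 16 with hv
  have vp : 0 < v := by positivity
  set C1 := 3 * (M / v) ^ 2 * C * π with hC1
  have C1p : 0 < C1 := by positivity
  set ε := c0 / (2 * C1) with hε
  have εp : 0 < ε := by positivity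
  set w := min v (ε * c0 / (6 * M * C)) with hw'
  have wp : 0 < w := lt_min vp (by positivity)
  have wv : w ≤ v := min_le_left _ _
  have w2 : w * (6 * M * C) ≤ ε * c0 := (le_div_iff₀ (by positivity)).1 (min_le_right _ _)
  have dle : ∀ c w t : ℝ, 0 < w → noD c w t ≤ M / w := fun c w t k =>
    div_le_div_of_nonneg_right (hw _) k.le
  obtain out : ∀ t, t ≤ -(π / 8) ∨ 5 * π / 8 ≤ t → ε * (noS (-(2 * v)) v t - noS v v t) = 0 ∧
      noS (-w) w t - noS (π / 2) w t = 0 := by
    clear * - ε v w vp hv hπ wp wv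
    rintro t (ht | ht)
    · rw [noS_zero vp (by linarith only [hv, ht]), noS_zero vp (by linarith only [hπ, vp, ht]), noS_zero wp (by linarith only [hv, vp, wv, ht]),
        noS_zero wp (by linarith only [hπ, ht])]
      simp
    · rw [noS_one vp (by linarith only [hπ, vp, ht]), noS_one vp (by linarith only [hv, vp, ht]), noS_one wp (by linarith only [hπ, ht]),
        noS_one wp (by linarith only [hv, vp, wv, ht])]
      simp
  refine ⟨fun t => ε * (noS (-(2 * v)) v t - noS v v t), fun t => noS (-w) w t - noS (π / 2) w t,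
    contDiff_const.mul ((noS_smooth _ _).sub (noS_smooth _ _)),
    (noS_smooth _ _).sub (noS_smooth _ _), out, fun u hu u0 => ?_⟩
  obtain ⟨u1, -, u3⟩ := G.ik_mem.1 hu
  have u2 := h.ik_perp hx hu
  have up : 0 < ‖u‖ ^ 2 := pow_pos (norm_pos_iff.2 u0) 2
  set κ := om g x (0, u) (u, 0) with hκ
  obtain κ1 : c0 * ‖u‖ ^ 2 ≤ κ := by
    have := (hc x.1 u hx.1).1
    rw [hor_of_nu u1] at this
    rw [hκ, om_fibre h hx, u2, zero_mul, sub_zero, hc0, mul_inv, mul_assoc]
    exact mul_le_mul_of_nonneg_left ((inv_mul_le_iff₀ (by positivity)).2 this) (by positivity)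
  set α : ℝ → ℝ := fun t => ε * (noS (-(2 * v)) v t - noS v v t)
  set β : ℝ → ℝ := fun t => noS (-w) w t - noS (π / 2) w t
  set α' : ℝ → ℝ := fun t => ε * (noD (-(2 * v)) v t - noD v v t)
  set β' : ℝ → ℝ := fun t => noD (-w) w t - noD (π / 2) w t
  have dα : ∀ t, HasDerivAt α (α' t) t := fun t =>
    ((noS_deriv _ _ t).sub (noS_deriv _ _ t)).const_mul ε
  have dβ : ∀ t, HasDerivAt β (β' t) t := fun t => (noS_deriv _ _ t).sub (noS_deriv _ _ t)
  have dA : ∀ t, HasDerivAt (fun s => ((α s • u, β s • u) : VV n)) (α' t • u, β' t • u) t :=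
    fun t => ((dα t).smul_const u).prodMk ((dβ t).smul_const u)
  have cA : Continuous fun s => ((α s • u, β s • u) : VV n) :=
    continuous_iff_continuousAt.2 fun t => (dA t).continuousAt
  have cA' : Continuous fun s => ((α' s • u, β' s • u) : VV n) :=
    ((continuous_const.mul ((noD_cont _ _).sub (noD_cont _ _))).smul continuous_const).prodMk
      (((noD_cont _ _).sub (noD_cont _ _)).smul continuous_const)
  have c1 := ((G.io_cont_JJ h hx).clm_apply cA).prodMk
    (((G.io_cont_JD h hx).clm_apply cA).fun_add ((G.io_cont_JJ h hx).clm_apply cA'))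
  simp only [fun t => (G.no_deriv h hx (dA t)).deriv]
  have dΦ := fun t => ((G.no_form h hx (dA t)).add
    ((((dα t).mul (dβ t)).sub ((noS_deriv (-w) w t).const_mul (2 * ε))).const_mul κ)).add
    ((((hasDerivAt_id t).const_mul (ε ^ 2 * C1 / π)).add
      (((noS_deriv (-w) w t).add (noS_deriv (π / 2) w t)).const_mul (3 * M * C * w))).mul_const
      (‖u‖ ^ 2))
  refine (intervalIntegral.integral_le_sub_of_hasDeriv_right_of_le (by linarith only [hπ])
    (fun t _ => (dΦ t).continuousAt.continuousWithinAt) (fun t _ => (dΦ t).hasDerivWithinAt)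
    ((G.io_cont h hx c1 c1).continuousOn.integrableOn_compact isCompact_Icc)
    fun t ht => ?_).trans_lt ?_
  · have ht' : t ∈ Icc (-π) π := ⟨by linarith only [hπ, ht, ht.1], by linarith only [hπ, ht, ht.2]⟩
    obtain ⟨b1, b2⟩ := hb t ht' u
    obtain e : ((α' t • u, β' t • u) : VV n) =
        α' t • (u, 0) + (noD (-w) w t • (0, u) - noD (π / 2) w t • (0, u)) := by
      simp [β', sub_smul]
    have k0 := h.no_three (G.Z_ne h t hx) (G.JJ t x (α' t • (u, 0)))
      (G.JJ t x (noD (-w) w t • (0, u))) (G.JJ t x (noD (π / 2) w t • (0, u)))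
    rw [← map_sub, ← map_add, ← e] at k0
    simp only [map_smul, smul_apply, smul_eq_mul] at k0
    obtain k1 : α t * β' t = ε * noD (-w) w t := by
      clear * - α t w ε wp v vp wv hπ hv β'
      obtain a1 : α t * noD (-w) w t = ε * noD (-w) w t := by
        by_cases k : noD (-w) w t = 0
        · rw [k, mul_zero, mul_zero]
        · obtain ⟨k1, k2⟩ := noD_supp wp k
          simp only [α]
          rw [noS_one vp (by linarith only [wv, k1]), noS_zero vp (by linarith only [vp, k2]), sub_zero, mul_one]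
      obtain a2 : α t * noD (π / 2) w t = 0 := by
        by_cases k : noD (π / 2) w t = 0
        · rw [k, mul_zero]
        · obtain ⟨k1, k2⟩ := noD_supp wp k
          simp only [α]
          rw [noS_one vp (by linarith only [hπ, vp, k1]), noS_one vp (by linarith only [hv, vp, k1]), sub_self, mul_zero, zero_mul]
      simp only [β']
      rw [mul_sub, a1, a2, sub_zero]
    have k2 : ∀ c s : ℝ, s ∈ Icc (-π) π → G.JH s x (0, u) = 0 → (s = c ∨ s = c + w) →
        noD c w t * (noD c w t * g (G.Z t x) (G.JJ t x (0, u)) (G.JJ t x (0, u))) ≤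
          M * C * w * noD c w t * ‖u‖ ^ 2 := fun c s s1 s2 s3 => by
      clear * - c w t n g G x u M C wp s s3 s1 s2 b2 hC u0 dle h hx hM v ε c0 C1 A hs hA hz k1
      by_cases k : noD c w t = 0
      · simp [k]
      · obtain ⟨k1, k2⟩ := noD_supp wp k
        obtain a1 : (t - s) ^ 2 ≤ w ^ 2 := by
          rcases s3 with rfl | rfl <;> linarith only [wp, k2, k1, mul_nonneg_of_nonpos_of_nonpos (le_of_lt (Mathlib.Tactic.Linarith.sub_neg_of_lt wp)) (Mathlib.Tactic.Linarith.sub_nonpos_of_le k2), mul_nonneg_of_nonpos_of_nonpos (Mathlib.Tactic.Linarith.sub_nonpos_of_le k1) (Mathlib.Tactic.Linarith.sub_nonpos_of_le k2), mul_nonneg_of_nonpos_of_nonpos (le_of_lt (Mathlib.Tactic.Linarith.sub_neg_of_lt wp)) (Mathlib.Tactic.Linarith.sub_nonpos_of_le k1)]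
        have a2 := (b2 s s1 s2).trans (by gcongr : C * (t - s) ^ 2 * ‖u‖ ^ 2 ≤ C * w ^ 2 * ‖u‖ ^ 2)
        have a3 := mul_le_mul (dle c w t wp) a2 (h.nonneg (G.Z_ne h t hx) _) (by positivity)
        calc _ ≤ noD c w t * (M / w * (C * w ^ 2 * ‖u‖ ^ 2)) :=
            mul_le_mul_of_nonneg_left a3 (noD_nonneg wp t)
          _ = _ := by field_simp
    have k3 := k2 (-w) 0 ⟨by linarith only [hπ], hπ.le⟩ (by rw [G.idx_zero h hx]; exact map_zero (horL _))
      (Or.inr (by ring))
    have k4 := k2 (π / 2) (π / 2) ⟨by linarith only [hπ], by linarith only [hπ]⟩ u3 (Or.inl rfl)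
    obtain k5 : α' t * (α' t * g (G.Z t x) (G.JJ t x (u, 0)) (G.JJ t x (u, 0))) ≤
        ε ^ 2 * C1 / π / 3 * ‖u‖ ^ 2 := by
      clear * - v t M dle vp α' n g G x u ε C C1 A c0 hs hA hz hM hC b1 h hx hC1 u0 εp
      have a1 : (noD (-(2 * v)) v t - noD v v t) ^ 2 ≤ (M / v) ^ 2 :=
        sq_le_sq' (by linarith only [dle, vp, dle v v t vp, noD_nonneg (c := -(2 * v)) vp t])
          (by linarith only [dle, vp, dle (-(2 * v)) v t vp, noD_nonneg (c := v) vp t])
      calc _ = ε ^ 2 * (noD (-(2 * v)) v t - noD v v t) ^ 2 *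
            g (G.Z t x) (G.JJ t x (u, 0)) (G.JJ t x (u, 0)) := by simp only [α']; ring
        _ ≤ ε ^ 2 * (M / v) ^ 2 * (C * ‖u‖ ^ 2) := by
            gcongr
            exact h.nonneg (G.Z_ne h t hx) _
        _ = _ := by rw [hC1]; field_simp
    rw [no_om, ← hκ]
    have k6 : κ * (α t * β' t) = κ * (ε * noD (-w) w t) := by rw [k1]
    clear * - n g G t x α u β α' β' κ ε w C1 M C A v c0 k0 k3 k4 k5 k6; linarith only [k0, k3, k4, k5, k6]
  · obtain ⟨a1, a2⟩ := out (-(π / 4)) (Or.inl (by linarith only [hπ]))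
    obtain ⟨a3, a4⟩ := out (3 * π / 4) (Or.inr (by linarith only [hπ]))
    have a1 : α (-(π / 4)) = 0 := a1
    have a2 : β (-(π / 4)) = 0 := a2
    have a3 : α (3 * π / 4) = 0 := a3
    have a4 : β (3 * π / 4) = 0 := a4
    simp only [Pi.add_apply, Pi.sub_apply, Pi.mul_apply, a1, a2, a3, a4, zero_smul, id,
      Prod.mk_zero_zero, map_zero]
    rw [noS_one wp (by linarith only [hπ]), noS_one wp (by linarith only [hv, vp, wv]), noS_zero wp (by linarith only [hv, vp, wv]),
      noS_zero wp (by linarith only [hπ])]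
    obtain e1 : ε ^ 2 * C1 / π * (3 * π / 4) - ε ^ 2 * C1 / π * -(π / 4) = ε * c0 / 2 := by
      rw [hε]; field_simp; ring
    clear * - κ ε C1 M C w n u c0 g x A v κ1 εp w2 up c0p e1; linarith only [κ1, εp, w2, up, c0p, e1, mul_le_mul_of_nonneg_left κ1 εp.le, mul_le_mul_of_nonneg_right w2 up.le,
      mul_pos (mul_pos εp c0p) up, Mathlib.Tactic.Linarith.mul_zero_eq (Mathlib.Tactic.Linarith.sub_nonpos_of_le (sq_nonneg ‖u‖)) (sub_eq_zero_of_eq e1)]

end Geo

end Pool.Agent.Work.MP_8c604c_gt.H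
end
end
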