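import Mathlib
import Pool.Agent.Work.MP_8c604c_gt.B.IxK
import Pool.Agent.Work.MP_8c604c_gt.O.KS
import Pool.Agent.Work.MP_8c604c_gt.O.RigC1
import Pool.Agent.Work.MP_8c604c_gt.H.RigC
import Pool.Agent.Work.MP_8c604c_gt.B.Dt
import Pool.Agent.Work.MP_8c604c_gt.C.Count
import Pool.Agent.Work.MP_8c604c_gt.B.NegO
import Pool.Agent.Work.MP_8c604c_gt.B.G4A

-- merged part: Pool.Agent.Work.MP_8c604c_gt.RigA
section
/-!
Linear algebra for the rigidity step.
Hints. linear_of_sq: q a (h,h) = B(h, k a)^2 (second derivative of B(a, k u)^2 at u = a, and B(u, k u) = 0), so B(a, k h) = +- B(k a, h);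
the sign is constant on each of the two half spaces B(k a, h) > 0, < 0 and is minus near h = a. Hence k is skew, so linear.
exists_frame: induction, pick a unit vector B-orthogonal to the span of the previous e_i, J e_i.
-/

set_option maxSynthPendingDepth 3

open Set Filter Topology MeasureTheory
open scoped ContDiff

noncomputable section
namespace Pool.Agent.Work.MP_8c604c_gt

variable {H : Type} [NormedAddCommGroup H] [NormedSpace ℝ H] [FiniteDimensional ℝ H]

theorem linear_of_sq {B : H →L[ℝ] H →L[ℝ] ℝ} (hs : ∀ u w, B u w = B w u)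
    (hp : ∀ u, u ≠ 0 → 0 < B u u) {k : H → H} (hk : ∀ u, u ≠ 0 → DifferentiableAt ℝ k u)
    (h0 : ∀ u, u ≠ 0 → B u (k u) = 0) (h1 : ∀ u, u ≠ 0 → B (k u) (k u) = B u u)
    (hq : ∀ a, ∃ q : H →L[ℝ] H →L[ℝ] ℝ, ∀ u, u ≠ 0 → B a (k u) ^ 2 = q u u) :
    ∃ J : H →L[ℝ] H, (∀ u, u ≠ 0 → k u = J u) ∧ (∀ u w, B (J u) w = -B u (J w)) ∧
      ∀ u, J (J u) = -u := by
  classical
  have hnd : ∀ x y : H, (∀ a, B a x = B a y) → x = y := fun x y h => by
    by_contra hne
    have := hp (x - y) (sub_ne_zero.2 hne)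
    rw [map_sub, h, sub_self] at this
    exact lt_irrefl _ this
  have hder : ∀ a, a ≠ 0 → ∀ h : H,
      Tendsto (fun t : ℝ => t⁻¹ * B a (k (a + t • h))) (𝓝[>] 0) (𝓝 (-B h (k a))) := by
    intro a ha h
    have hl : HasDerivAt (fun t : ℝ => a + t • h) h 0 := by
      simpa using ((hasDerivAt_id (0 : ℝ)).smul_const h).const_add a
    have hk' : HasDerivAt (fun t : ℝ => k (a + t • h)) (fderiv ℝ k a h) 0 :=
      HasFDerivAt.comp_hasDerivAt_of_eq 0 (hk a ha).hasFDerivAt hl (by simp)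
    have h2 : HasDerivAt (fun t : ℝ => B (a + t • h) (k (a + t • h)))
        (B h (k a) + B a (fderiv ℝ k a h)) 0 := by
      simpa using (B.hasFDerivAt.comp_hasDerivAt 0 hl).clm_apply hk'
    have h3 : (fun t : ℝ => B (a + t • h) (k (a + t • h))) =ᶠ[𝓝 0] fun _ => 0 := by
      have : ∀ᶠ t : ℝ in 𝓝 0, a + t • h ≠ 0 :=
        hl.continuousAt.eventually_ne (by simpa using ha)
      exact this.mono fun t ht => h0 _ ht
    have h4 : B h (k a) + B a (fderiv ℝ k a h) = 0 :=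
      h2.unique ((hasDerivAt_const (0 : ℝ) (0 : ℝ)).congr_of_eventuallyEq h3)
    have h5 := ((B a).hasFDerivAt.comp_hasDerivAt 0 hk').tendsto_slope_zero_right
    rw [eq_neg_of_add_eq_zero_right h4] at h5
    simpa [h0 a ha] using h5
  have hsq : ∀ a, a ≠ 0 → ∀ h, h ≠ 0 → B a (k h) ^ 2 = B h (k a) ^ 2 := by
    intro a ha h hh
    obtain ⟨q, hq⟩ := hq a
    have q0 : q a a = 0 := by rw [← hq a ha, h0 a ha]; simp
    have hne : ∀ᶠ t : ℝ in 𝓝[>] 0, a + t • h ≠ 0 := by
      have hc : ContinuousAt (fun t : ℝ => a + t • h) 0 := by fun_prop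
      exact (hc.eventually_ne (by simpa using ha)).filter_mono nhdsWithin_le_nhds
    have h1 : Tendsto (fun t : ℝ => t⁻¹ * (q a h + q h a) + q h h) (𝓝[>] 0)
        (𝓝 (B h (k a) ^ 2)) := by
      have := (hder a ha h).pow 2
      rw [neg_sq] at this
      refine this.congr' ?_
      filter_upwards [hne, self_mem_nhdsWithin] with t ht ht0
      have ht1 : t ≠ 0 := ne_of_gt ht0
      rw [mul_pow, hq _ ht]
      simp only [map_add, map_smul, add_apply, smul_apply,
        smul_eq_mul, q0]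
      field_simp
      ring
    have hid : Tendsto (fun t : ℝ => t) (𝓝[>] 0) (𝓝 0) := tendsto_id.mono_left nhdsWithin_le_nhds
    have h2 : q a h + q h a = 0 := by
      have h3 := hid.mul (h1.sub_const (q h h))
      rw [zero_mul] at h3
      refine tendsto_nhds_unique (tendsto_const_nhds.congr' ?_) h3
      filter_upwards [self_mem_nhdsWithin] with t ht0
      have ht1 : t ≠ 0 := ne_of_gt ht0
      field_simp
      ring
    rw [hq h hh]
    simp only [h2, mul_zero, zero_add] at h1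
    exact tendsto_nhds_unique tendsto_const_nhds h1
  have hskew : ∀ a, a ≠ 0 → ∀ h, h ≠ 0 → B a (k h) = -B (k a) h := by
    intro a ha h hh
    have hs2 := hsq a ha h hh
    rw [hs h] at hs2
    by_cases hL : B (k a) h = 0
    · rw [hL] at hs2 ⊢
      simpa using hs2
    set ε := B (k a) h with hε
    have hε2 : 0 < ε * ε := mul_self_pos.2 hL
    have hka : 0 < B (k a) (k a) := by rw [h1 a ha]; exact hp a ha
    let U : Set H := {v | 0 < ε * B (k a) v}
    have hU0 : ∀ v ∈ U, v ≠ 0 := fun v hv e => by simp [U, e] at hv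
    have hU : IsPreconnected U := by
      refine Convex.isPreconnected (convex_halfSpace_gt (f := fun v => ε * B (k a) v) ⟨?_, ?_⟩ 0)
      · intro x y
        rw [map_add, mul_add]
      · intro c x
        rw [map_smul, smul_eq_mul, smul_eq_mul, mul_left_comm]
    have hc : ContinuousOn (fun v => ε * B a (k v)) U := fun v hv =>
      (continuousAt_const.mul ((B a).continuous.continuousAt.comp
        (hk v (hU0 v hv)).continuousAt)).continuousWithinAt
    obtain ⟨v, hv, hv'⟩ : ∃ v ∈ U, ε * B a (k v) < 0 := by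
      have h2 := (hder a ha (ε • k a)).const_mul ε
      have h3 : ε * -B (ε • k a) (k a) < 0 := by
        rw [map_smul, smul_apply, smul_eq_mul, mul_neg, ← mul_assoc]
        exact neg_lt_zero.2 (mul_pos hε2 hka)
      obtain ⟨t, ht, ht0⟩ := ((h2.eventually (gt_mem_nhds h3)).and self_mem_nhdsWithin).exists
      have ht1 : 0 < t := ht0
      refine ⟨a + t • ε • k a, ?_, ?_⟩
      · change 0 < ε * B (k a) (a + t • ε • k a)
        rw [map_add, map_smul, map_smul, hs _ a, h0 a ha, zero_add, smul_eq_mul, smul_eq_mul,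
          mul_left_comm, ← mul_assoc ε]
        exact mul_pos ht1 (mul_pos hε2 hka)
      · rw [mul_left_comm] at ht
        exact neg_of_mul_neg_right ht (inv_pos.2 ht1).le
    rcases sq_eq_sq_iff_eq_or_eq_neg.1 hs2 with e | e
    · exfalso
      have hh' : h ∈ U := hε2
      obtain ⟨w, hw, hw'⟩ := hU.intermediate_value hv hh' hc
        (show (0 : ℝ) ∈ Icc _ _ from ⟨hv'.le, by rw [e]; exact hε2.le⟩)
      have h4 := hsq a ha w (hU0 w hw)
      have h5 : B a (k w) = 0 := (mul_eq_zero.1 hw').resolve_left hL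
      rw [h5, hs w] at h4
      have h6 : B (k a) w = 0 := by simpa using h4.symm
      simp [U, h6] at hw
    · exact e
  let j : H → H := fun u => if u = 0 then 0 else k u
  have hj : ∀ a h, B a (j h) = -B (j a) h := fun a h => by
    by_cases ha : a = 0
    · simp [j, ha]
    by_cases hh : h = 0
    · simp [j, hh]
    simpa [j, ha, hh] using hskew a ha h hh
  let J₀ : H →ₗ[ℝ] H :=
    { toFun := j
      map_add' := fun x y => hnd _ _ fun a => by rw [map_add, hj, hj, hj, map_add, neg_add]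
      map_smul' := fun c x => hnd _ _ fun a => by
        rw [map_smul, hj, hj, map_smul, RingHom.id_apply, smul_neg] }
  have hJ : ∀ u w, B (J₀ u) w = -B u (J₀ w) := fun u w => by
    change B (j u) w = -B u (j w)
    rw [hj, neg_neg]
  have hn : ∀ u, B (J₀ u) (J₀ u) = B u u := fun u => by
    by_cases hu : u = 0
    · simp [hu]
    · have : J₀ u = k u := if_neg hu
      rw [this, h1 u hu]
  have hn' : ∀ u w, B (J₀ u) (J₀ w) = B u w := fun u w => by
    have := hn (u + w)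
    simp only [map_add, add_apply, hn, hs w u, hs (J₀ w) (J₀ u)] at this
    linarith
  refine ⟨LinearMap.toContinuousLinearMap J₀, fun u hu => (if_neg hu).symm, hJ, fun u => ?_⟩
  refine hnd _ _ fun a => ?_
  change B a (J₀ (J₀ u)) = B a (-u)
  rw [map_neg, ← hn' a u, hJ, neg_neg]

theorem exists_frame {B : H →L[ℝ] H →L[ℝ] ℝ} (hs : ∀ u w, B u w = B w u)
    (hp : ∀ u, u ≠ 0 → 0 < B u u) {J : H →L[ℝ] H} (hJ : ∀ u w, B (J u) w = -B u (J w))
    (hJ' : ∀ u, J (J u) = -u) {m : ℕ} (hm : Module.finrank ℝ H = 2 * m) :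
    ∃ e : Fin m → H, (∀ i j, B (e i) (e j) = if i = j then 1 else 0) ∧
      ∀ i j, B (e i) (J (e j)) = 0 := by
  have key : ∀ n, n ≤ m → ∃ e : Fin n → H, (∀ i j, B (e i) (e j) = if i = j then 1 else 0) ∧
      ∀ i j, B (e i) (J (e j)) = 0 := by
    intro n
    induction n with
    | zero => exact fun _ => ⟨Fin.elim0, fun i => i.elim0, fun i => i.elim0⟩
    | succ n ih =>
      intro hn
      obtain ⟨e, he, he'⟩ := ih (by omega)
      let f : H →ₗ[ℝ] (Fin n → ℝ) × (Fin n → ℝ) :=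
        (LinearMap.pi fun i => (B (e i) : H →ₗ[ℝ] ℝ)).prod
          (LinearMap.pi fun i => (B (J (e i)) : H →ₗ[ℝ] ℝ))
      have hf : LinearMap.ker f ≠ ⊥ := LinearMap.ker_ne_bot_of_finrank_lt (by
        rw [Module.finrank_prod, Module.finrank_fin_fun, hm]
        omega)
      obtain ⟨v, hv, hv0⟩ := Submodule.exists_mem_ne_zero_of_ne_bot hf
      have h1 : ∀ i, B (e i) v = 0 := fun i => congrFun (congrArg Prod.fst hv) i
      have h2 : ∀ i, B (J (e i)) v = 0 := fun i => congrFun (congrArg Prod.snd hv) i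
      have h3 : B v (J v) = 0 := by
        have := hJ v v
        rw [hs] at this
        linarith
      have h4 : 0 < B v v := hp v hv0
      have h5 : (√(B v v))⁻¹ * ((√(B v v))⁻¹ * B v v) = 1 := by
        rw [← mul_assoc, ← mul_inv, Real.mul_self_sqrt h4.le, inv_mul_cancel₀ h4.ne']
      refine ⟨Fin.cons ((√(B v v))⁻¹ • v) e, fun i j => ?_, fun i j => ?_⟩
      · refine Fin.cases ?_ (fun i => ?_) i <;> refine Fin.cases ?_ (fun j => ?_) j
        · simpa using h5
        · simp [hs v, h1, (Fin.succ_ne_zero j).symm]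
        · simp [h1]
        · simp [he]
      · refine Fin.cases ?_ (fun i => ?_) i <;> refine Fin.cases ?_ (fun j => ?_) j
        · simp [h3]
        · simp [hs v, h2]
        · have := hJ (e i) v
          rw [h2] at this
          simp [neg_eq_zero.1 this.symm]
        · simp [he']
  exact key m le_rfl

/-- A smooth function whose restriction to every ray has a given even expansion. -/
theorem quadratic_of_ray {γ : H → ℝ} (hγ : ContDiffAt ℝ ∞ γ 0) {c : H → ℝ}
    (h : ∀ u, u ≠ 0 → Tendsto (fun t : ℝ => (γ (t • u) - γ 0) / t ^ 2) (𝓝[>] 0) (𝓝 (c u))) :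
    ∃ q : H →L[ℝ] H →L[ℝ] ℝ, ∀ u, u ≠ 0 → c u = q u u := by
  refine ⟨(2⁻¹ : ℝ) • fderiv ℝ (fderiv ℝ γ) 0, fun u hu => ?_⟩
  have hl : ∀ t : ℝ, HasDerivAt (fun t : ℝ => t • u) u t := fun t => by
    simpa using (hasDerivAt_id t).smul_const u
  have h2 : ContDiffAt ℝ 2 γ 0 := hγ.of_le (WithTop.coe_le_coe.2 (le_top : (2 : ℕ∞) ≤ ⊤))
  have hd : ∀ᶠ x in 𝓝 (0 : H), DifferentiableAt ℝ γ x :=
    (h2.eventually (by simp)).mono fun x hx => hx.differentiableAt (by simp)
  have hd' : ∀ᶠ t : ℝ in 𝓝 0, HasDerivAt (fun t : ℝ => γ (t • u) - γ 0) (fderiv ℝ γ (t • u) u) t := by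
    have ht : Tendsto (fun t : ℝ => t • u) (𝓝 0) (𝓝 0) := by
      simpa using (hl 0).continuousAt.tendsto
    filter_upwards [ht.eventually hd] with t ht
    exact (ht.hasFDerivAt.comp_hasDerivAt t (hl t)).sub_const _
  have hdd : HasDerivAt (fun t : ℝ => fderiv ℝ γ (t • u) u) (fderiv ℝ (fderiv ℝ γ) 0 u u) 0 := by
    have h3 : DifferentiableAt ℝ (fderiv ℝ γ) 0 :=
      (h2.fderiv_right (m := 1) (by norm_num)).differentiableAt (by simp)
    have h4 : HasDerivAt (fun t : ℝ => fderiv ℝ γ (t • u)) (fderiv ℝ (fderiv ℝ γ) 0 u) 0 :=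
      HasFDerivAt.comp_hasDerivAt_of_eq 0 h3.hasFDerivAt (hl 0) (by simp)
    simpa using h4.clm_apply (hasDerivAt_const (0 : ℝ) u)
  have hid : Tendsto (fun t : ℝ => t) (𝓝[>] 0) (𝓝 0) := tendsto_id.mono_left nhdsWithin_le_nhds
  have h5 : fderiv ℝ γ 0 u = 0 := by
    have h6 := hd'.self_of_nhds.tendsto_slope_zero_right
    have h7 := hid.mul (h u hu)
    simp only [zero_add, zero_smul, sub_self, sub_zero, smul_eq_mul, zero_mul] at h6 h7
    refine tendsto_nhds_unique h6 (h7.congr' ?_)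
    filter_upwards [self_mem_nhdsWithin] with t ht0
    have ht1 : t ≠ 0 := ne_of_gt ht0
    field_simp
  refine tendsto_nhds_unique (h u hu) (HasDerivAt.lhopital_zero_nhdsGT
    (f' := fun t => fderiv ℝ γ (t • u) u) (g' := fun t => 2 * t)
    (hd'.filter_mono nhdsWithin_le_nhds) (Eventually.of_forall fun t => ?_) ?_ ?_ ?_ ?_)
  · simpa using hasDerivAt_pow 2 t
  · filter_upwards [self_mem_nhdsWithin] with t ht0
    exact mul_ne_zero two_ne_zero (ne_of_gt ht0)
  · simpa using hd'.self_of_nhds.continuousAt.tendsto.mono_left nhdsWithin_le_nhds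
  · simpa using hid.pow 2
  · have h6 := hdd.tendsto_slope_zero_right.const_mul (2⁻¹ : ℝ)
    simp only [zero_add, zero_smul, h5, sub_zero, smul_eq_mul] at h6
    refine h6.congr fun t => ?_
    rw [div_eq_inv_mul, mul_inv, mul_assoc]

end Pool.Agent.Work.MP_8c604c_gt
end
end

-- merged part: Pool.Agent.Work.MP_8c604c_gt.H.KS
section
/-!
The space `KS x` of conjugate directions: dimension, orthonormal frames, the orthogonal projector `KP`.
-/

set_option maxSynthPendingDepth 3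

open Set Filter Topology MeasureTheory
open scoped ContDiff Quaternion

noncomputable section
namespace Pool.Agent.Work.MP_8c604c_gt.H

open Real

variable {n : ℕ} {g : Met n}

/-- Orthonormal bases for a positive form on a subspace. -/
theorem KS_onb {V : Type} [AddCommGroup V] [Module ℝ V] [FiniteDimensional ℝ V]
    (B : V →ₗ[ℝ] V →ₗ[ℝ] ℝ) (hs : ∀ u w, B u w = B w u) (hp : ∀ u, u ≠ 0 → 0 < B u u) :
    ∃ b : Fin (Module.finrank ℝ V) → V, (∀ i j, B (b i) (b j) = if i = j then 1 else 0) ∧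
      ∀ u, u = ∑ i, B (b i) u • b i := by
  let c : InnerProductSpace.Core ℝ V :=
    { inner := fun u w => B u w
      conj_inner_symm := fun u w => hs w u
      re_inner_nonneg := fun u => by
        by_cases h : u = 0
        · simp [h]
        · exact (hp u h).le
      add_left := fun u w y => by simp
      smul_left := fun u w r => by simp
      definite := fun u h => by_contra fun h' => (hp u h').ne' h }
  let : NormedAddCommGroup V := c.toNormedAddCommGroup
  let : InnerProductSpace ℝ V := InnerProductSpace.ofCore c.toCore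
  exact ⟨stdOrthonormalBasis ℝ V, orthonormal_iff_ite.1 (stdOrthonormalBasis ℝ V).orthonormal,
    fun u => ((stdOrthonormalBasis ℝ V).sum_repr' u).symm⟩

/-- The horizontal part normal to the geodesic. -/
def nrm (g : Met n) (x : VV n) : E n →L[ℝ] E n :=
  horL x.1 - (g x.1 (vel g x)).smulRight (vel g x)

theorem nrm_apply (x : VV n) (u : E n) :
    nrm g x u = hor x.1 u - g x.1 (vel g x) u • vel g x := rfl

theorem vel_mem_Bs (g : Met n) (x : VV n) : vel g x ∈ Bs x := by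
  rw [vel, hor_def, sub_eq_neg_add, ← neg_smul]
  exact Submodule.smul_mem _ _ (mem_Bs.2 ⟨-nu x.1 x.2, 1, by rw [one_smul]⟩)

theorem sub_nrm_mem (x : VV n) (u : E n) : u - nrm g x u ∈ Bs x := by
  rw [nrm_apply, hor_def, sub_sub, sub_sub_cancel]
  exact add_mem (mem_Bs.2 ⟨nu x.1 u, 0, by rw [zero_smul, add_zero]⟩)
    (Submodule.smul_mem _ _ (vel_mem_Bs g x))

theorem Bs_act {x : VV n} {l : ℍ} {m : ℝ} (c : ℍ) (hl : l ≠ 0) (hm : 0 < m) {v : E n} :
    l • v ∈ Bs (act l m c x) ↔ v ∈ Bs x := by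
  simp only [mem_Bs, act]
  constructor
  · rintro ⟨d, a, e⟩
    refine ⟨l⁻¹ * d * l + a • c, a * m, smul_right_injective _ hl (e.trans ?_)⟩
    simp only [smul_add, add_smul, smul_smul, ← mul_assoc, mul_inv_cancel₀ hl, one_mul,
      smul_comm a l, smul_assoc, add_assoc]
    rw [add_comm (l • (a * m) • _), smul_comm l a, smul_smul l c]
  · rintro ⟨d, a, rfl⟩
    refine ⟨l * (d - (a / m) • c) * l⁻¹, a / m, ?_⟩
    rw [smul_smul, inv_mul_cancel_right₀ hl, mul_smul, smul_comm (a / m) l, ← smul_add, smul_add (a / m),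
      smul_smul (a / m), div_mul_cancel₀ _ hm.ne', sub_smul, smul_assoc]
    abel_nf

namespace IsMetric
variable (h : IsMetric g) {x : VV n}
include h

theorem g_vel (hx : x ∈ OO n) (u : E n) : g x.1 (vel g x) u = (spd g x)⁻¹ * g x.1 u x.2 := by
  rw [vel, map_smul, smul_apply, h.hor_left hx.1, h.symm _ _ _ hx.1, smul_eq_mul]

theorem g_Bs (hx : x ∈ OO n) {u r : E n} (hu : g x.1 u x.2 = 0) (hr : r ∈ Bs x) :
    g x.1 u r = 0 := by
  obtain ⟨c, a, rfl⟩ := mem_Bs.1 hr
  rw [map_add, h.vert' c u hx.1, map_smul, hu, smul_zero, add_zero]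

theorem eq_zero_of_hor {z u : E n} (hz : z ≠ 0) (h1 : nu z u = 0) (h2 : g z u u = 0) : u = 0 :=
  (hor_of_nu h1).symm.trans (h.hor_eq_zero hz h2)

theorem Bs_zero (hx : x ∈ OO n) {u : E n} (hu : u ∈ Bs x) (h1 : nu x.1 u = 0)
    (h2 : g x.1 u x.2 = 0) : u = 0 :=
  h.eq_zero_of_hor hx.1 h1 (h.g_Bs hx h2 hu)

theorem nu_nrm (hx : x ∈ OO n) (u : E n) : nu x.1 (nrm g x u) = 0 := by
  rw [nrm_apply, nu_sub, nu_rsmul, nu_hor hx.1, h.nu_vel hx.1, smul_zero, sub_zero]

theorem nrm_perp (hx : x ∈ OO n) (u : E n) : g x.1 (nrm g x u) x.2 = 0 := by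
  have h1 : g x.1 (vel g x) (nrm g x u) = 0 := by
    rw [nrm_apply, map_sub, map_smul, h.hor_right hx.1, h.vel_unit hx, smul_eq_mul, mul_one,
      sub_self]
  rwa [h.g_vel hx, mul_eq_zero, or_iff_right (inv_ne_zero (h.spd_pos hx).ne')] at h1

theorem nrm_of (hx : x ∈ OO n) {u : E n} (h1 : nu x.1 u = 0) (h2 : g x.1 u x.2 = 0) :
    nrm g x u = u := by
  rw [nrm_apply, hor_of_nu h1, h.g_vel hx, h2, mul_zero, zero_smul, sub_zero]

theorem g_nrm (hx : x ∈ OO n) {k : E n} (hk : g x.1 k x.2 = 0) (u : E n) :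
    g x.1 k (nrm g x u) = g x.1 k u := by
  have := h.g_Bs hx hk (sub_nrm_mem (g := g) x u)
  rw [map_sub, sub_eq_zero] at this
  exact this.symm

theorem contDiffOn_nrm : ContDiffOn ℝ ∞ (nrm g) (OO n) :=
  (contDiffOn_horL.comp contDiffOn_fst fun _ hx => hx.1).sub
    (((h.smooth.comp contDiffOn_fst fun _ hx => hx.1).clm_apply h.contDiffOn_vel).smulRight
      h.contDiffOn_vel)

end IsMetric

namespace Geo
variable (G : Geo g)

theorem mem_KS' {x : VV n} {u : E n} :
    u ∈ G.KS x ↔ nu x.1 u = 0 ∧ g x.1 x.2 u = 0 ∧ G.JH (π / 2) x (0, u) = 0 := by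
  simp only [KS, Submodule.mem_inf, LinearMap.mem_ker, and_assoc]
  rfl

open Classical in
/-- The `g`-orthogonal projector onto `KS x`. -/
def KP (x : VV n) : E n →L[ℝ] E n :=
  if h : ∃ K : Fin (G.kk x) → E n, G.IsK x K then
    ∑ i, (g x.1 (h.choose i)).smulRight (h.choose i) else 0

variable (h : IsMetric g) {x : VV n} (hx : x ∈ OO n)
include h hx

theorem mem_KS {u : E n} :
    u ∈ G.KS x ↔ nu x.1 u = 0 ∧ g x.1 u x.2 = 0 ∧ G.JH (π / 2) x (0, u) = 0 := by
  rw [G.mem_KS', h.symm _ _ _ hx.1]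

theorem JH_Bs (t : ℝ) {u : E n} (hu : u ∈ Bs x) : G.JH t x (0, u) = 0 := by
  rw [JH, ContinuousLinearMap.comp_apply, G.JJ_Bs h _ hx hu, map_zero]

theorem JH_nrm (t : ℝ) (u : E n) : G.JH t x (0, nrm g x u) = G.JH t x (0, u) := by
  have := G.JH_Bs h hx t (sub_nrm_mem (g := g) x u)
  rw [show ((0, u - nrm g x u) : VV n) = (0, u) - (0, nrm g x u) by simp, map_sub, sub_eq_zero] at this
  exact this.symm

theorem nrm_mem_KS {u : E n} : nrm g x u ∈ G.KS x ↔ G.JH (π / 2) x (0, u) = 0 := by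
  rw [G.mem_KS h hx, G.JH_nrm h hx]
  exact ⟨fun e => e.2.2, fun e => ⟨h.nu_nrm hx u, h.nrm_perp hx u, e⟩⟩

theorem ker_iff {u : E n} : G.JH (π / 2) x (0, u) = 0 ↔ ∃ k ∈ G.KS x, u - k ∈ Bs x := by
  refine ⟨fun e => ⟨_, (G.nrm_mem_KS h hx).2 e, sub_nrm_mem x u⟩, fun ⟨k, hk, e⟩ => ?_⟩
  have := G.JH_Bs h hx (π / 2) e
  rwa [show ((0, u - k) : VV n) = (0, u) - (0, k) by simp, map_sub, ((G.mem_KS h hx).1 hk).2.2,
    sub_zero] at this

theorem kdim_eq : G.kdim x = G.kk x + 5 := by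
  rw [← finrank_Bs hx, kk, ← Submodule.finrank_sup_add_finrank_inf_eq,
    show G.KS x ⊓ Bs x = ⊥ from (Submodule.eq_bot_iff _).2 fun u hu =>
      h.Bs_zero hx hu.2 ((G.mem_KS h hx).1 hu.1).1 ((G.mem_KS h hx).1 hu.1).2.1,
    finrank_bot, add_zero, kdim]
  refine congrArg (fun S : Submodule ℝ (E n) => Module.finrank ℝ S) (Submodule.ext fun u => ?_)
  refine (G.ker_iff h hx).trans ⟨fun ⟨k, hk, e⟩ => ?_, fun hu => ?_⟩
  · exact Submodule.mem_sup.2 ⟨k, hk, _, e, add_sub_cancel _ _⟩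
  · obtain ⟨k, hk, r, hr, rfl⟩ := Submodule.mem_sup.1 hu
    exact ⟨k, hk, (add_sub_cancel_left k r).symm ▸ hr⟩

theorem exists_isK : ∃ K : Fin (G.kk x) → E n, G.IsK x K := by
  obtain ⟨b, b1, b2⟩ := KS_onb ((g x.1).toLinearMap₁₂.domRestrict₁₂ (G.KS x) (G.KS x))
    (fun u w => h.symm _ _ _ hx.1) fun u hu => (h.nonneg hx.1 _).lt_of_ne' fun e =>
      hu (Subtype.ext (h.eq_zero_of_hor hx.1 ((G.mem_KS h hx).1 u.2).1 e))
  refine ⟨fun i => b i, fun i => ((G.mem_KS h hx).1 (b i).2).1,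
    fun i => ((G.mem_KS h hx).1 (b i).2).2.1, b1, fun u => (G.ker_iff h hx).trans
      ⟨fun ⟨k, hk, e⟩ => ⟨fun i => g x.1 (b i) k, ?_⟩, fun ⟨a, e⟩ =>
        ⟨_, Submodule.sum_mem _ fun i _ => Submodule.smul_mem _ _ (b i).2, e⟩⟩⟩
  have := congrArg Subtype.val (b2 ⟨k, hk⟩)
  rw [Submodule.coe_sum] at this
  exact this ▸ e

variable {G}

theorem IsK.mem {κ : Type} [Fintype κ] [DecidableEq κ] {K : κ → E n} (hK : G.IsK x K) (i : κ) :
    K i ∈ G.KS x :=
  (G.mem_KS h hx).2 ⟨hK.hor i, hK.perp i, (hK.ker _).2 ⟨Pi.single i 1, by simp [Pi.single_apply]⟩⟩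

theorem IsK.sum_mem {κ : Type} [Fintype κ] [DecidableEq κ] {K : κ → E n} (hK : G.IsK x K)
    (a : κ → ℝ) : ∑ i, a i • K i ∈ G.KS x :=
  Submodule.sum_mem _ fun i _ => Submodule.smul_mem _ _ (hK.mem h hx i)

theorem IsK.expand {κ : Type} [Fintype κ] [DecidableEq κ] {K : κ → E n} (hK : G.IsK x K)
    {u : E n} (hu : u ∈ G.KS x) : u = ∑ i, g x.1 (K i) u • K i := by
  obtain ⟨a, ha⟩ := (hK.ker u).1 ((G.mem_KS h hx).1 hu).2.2
  have h1 := (G.mem_KS h hx).1 (sub_mem hu (hK.sum_mem h hx a))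
  have h2 := sub_eq_zero.1 (h.Bs_zero hx ha h1.1 h1.2.1)
  have h3 : ∀ i, g x.1 (K i) u = a i := fun i => by
    rw [h2]
    simp [hK.on]
  simpa only [h3] using h2

theorem IsK.card {κ : Type} [Fintype κ] [DecidableEq κ] {K : κ → E n} (hK : G.IsK x K) :
    Fintype.card κ = G.kk x := by
  have h1 : LinearIndependent ℝ K := Fintype.linearIndependent_iff.2 fun a ha i => by
    simpa [hK.on] using congrArg (g x.1 (K i)) ha
  rw [← finrank_span_eq_card h1, kk]
  refine congrArg (fun S : Submodule ℝ (E n) => Module.finrank ℝ S)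
    (le_antisymm (Submodule.span_le.2 (range_subset_iff.2 (hK.mem h hx))) fun u hu => ?_)
  rw [hK.expand h hx hu]
  exact Submodule.sum_mem _ fun i _ => Submodule.smul_mem _ _ (Submodule.subset_span ⟨i, rfl⟩)

theorem IsK.reindex {κ κ' : Type} [Fintype κ] [DecidableEq κ] [Fintype κ'] [DecidableEq κ']
    {K : κ → E n} (hK : G.IsK x K) (e : κ' ≃ κ) : G.IsK x (K ∘ e) := by
  refine ⟨fun i => hK.hor _, fun i => hK.perp _, fun i j => by simp [hK.on], fun u => ?_⟩
  rw [hK.ker]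
  refine ⟨fun ⟨a, ha⟩ => ⟨a ∘ e, ?_⟩, fun ⟨a, ha⟩ => ⟨a ∘ e.symm, ?_⟩⟩
  · rwa [← e.sum_comp] at ha
  · rw [← e.sum_comp]
    simpa using ha

variable (G)

theorem exists_isK' {κ : Type} [Fintype κ] [DecidableEq κ] (hκ : Fintype.card κ = G.kk x) :
    ∃ K : κ → E n, G.IsK x K := by
  obtain ⟨K, hK⟩ := G.exists_isK h hx
  exact ⟨_, hK.reindex h hx (Fintype.equivFinOfCardEq hκ)⟩

theorem KP_mem (u : E n) : G.KP x u ∈ G.KS x := by
  have e := G.exists_isK h hx
  rw [KP, dif_pos e]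
  simpa using e.choose_spec.sum_mem h hx fun i => g x.1 (e.choose i) u

theorem g_KP {k : E n} (hk : k ∈ G.KS x) (u : E n) : g x.1 k (G.KP x u) = g x.1 k u := by
  have e := G.exists_isK h hx
  rw [KP, dif_pos e]
  conv_rhs => rw [e.choose_spec.expand h hx hk]
  simp [mul_comm, h.symm _ k _ hx.1]

theorem KP_eq {u a : E n} (ha : a ∈ G.KS x) (e : ∀ k ∈ G.KS x, g x.1 k a = g x.1 k u) :
    G.KP x u = a := by
  have h1 := sub_mem (G.KP_mem h hx u) ha
  refine sub_eq_zero.1 (h.eq_zero_of_hor hx.1 ((G.mem_KS h hx).1 h1).1 ?_)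
  rw [(g x.1 _).map_sub, G.g_KP h hx h1, e _ h1, sub_self]

theorem KP_of_mem {k : E n} (hk : k ∈ G.KS x) : G.KP x k = k := G.KP_eq h hx hk fun _ _ => rfl

theorem KP_symm (u w : E n) : g x.1 (G.KP x u) w = g x.1 u (G.KP x w) := by
  rw [← G.g_KP h hx (G.KP_mem h hx u), h.symm _ u _ hx.1, ← G.g_KP h hx (G.KP_mem h hx w) u,
    h.symm _ _ _ hx.1]

theorem KP_Bs {u : E n} (hu : u ∈ Bs x) : G.KP x u = 0 :=
  G.KP_eq h hx (zero_mem _) fun k hk => by
    rw [map_zero, h.g_Bs hx ((G.mem_KS h hx).1 hk).2.1 hu]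

theorem IsK.KP {G : Geo g} {κ : Type} [Fintype κ] [DecidableEq κ] {K : κ → E n} (hK : G.IsK x K)
    (u : E n) : G.KP x u = ∑ i, g x.1 (K i) u • K i :=
  G.KP_eq h hx (hK.sum_mem h hx _) fun k hk => by
    conv_rhs => rw [hK.expand h hx hk]
    simp [mul_comm, h.symm _ k _ hx.1]

theorem JH_act (t : ℝ) {l : ℍ} {m : ℝ} (c : ℍ) (hl : l ≠ 0) (hm : 0 < m) (u : E n) :
    G.JH t (act l m c x) (0, l • u) = m⁻¹ • l • G.JH t x (0, u) := by
  have e : ((0, l • u) : VV n) = m⁻¹ • act l m c (0, u) := by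
    simp [act, smul_comm l m, hm.ne']
  rw [e, map_smul, JH, ContinuousLinearMap.comp_apply, G.JJ_act h _ c hl hm hx,
    G.Z_eqv h _ l m c x hl hm hx, horL_apply, hor_smul_left hl, hor_smul]
  rfl

theorem KS_act {l : ℍ} {m : ℝ} (c : ℍ) (hl : l ≠ 0) (hm : 0 < m) {u : E n} :
    l • u ∈ G.KS (act l m c x) ↔ u ∈ G.KS x := by
  rw [G.mem_KS h (act_mem c hl hm hx), G.mem_KS h hx, G.JH_act h hx _ c hl hm]
  simp only [act]
  rw [nu_smul_smul, h.inv l _ _ _ hl hx.1, map_add, map_smul, h.vert' c _ hx.1]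
  simp [hl, hm.ne']

theorem KP_act {l : ℍ} {m : ℝ} (c : ℍ) (hl : l ≠ 0) (hm : 0 < m) (u : E n) :
    G.KP (act l m c x) (l • u) = l • G.KP x u := by
  refine G.KP_eq h (act_mem c hl hm hx) ((G.KS_act h hx c hl hm).2 (G.KP_mem h hx u))
    fun k hk => ?_
  obtain ⟨k, rfl⟩ : ∃ k', k = l • k' := ⟨l⁻¹ • k, (smul_inv_smul₀ hl k).symm⟩
  simp only [act]
  rw [h.inv l _ _ _ hl hx.1, h.inv l _ _ _ hl hx.1, G.g_KP h hx ((G.KS_act h hx c hl hm).1 hk)]

theorem IsK.act {G : Geo g} {κ : Type} [Fintype κ] [DecidableEq κ] {K : κ → E n} (hK : G.IsK x K)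
    {l : ℍ} {m : ℝ} (c : ℍ) (hl : l ≠ 0) (hm : 0 < m) : G.IsK (act l m c x) fun i => l • K i := by
  have h1 := fun i => (G.mem_KS h (act_mem c hl hm hx)).1
    ((G.KS_act h hx c hl hm).2 (hK.mem h hx i))
  refine ⟨fun i => (h1 i).1, fun i => (h1 i).2.1, fun i j => (h.inv l _ _ _ hl hx.1).trans (hK.on i j),
    fun u => ?_⟩
  obtain ⟨u, rfl⟩ : ∃ u', u = l • u' := ⟨l⁻¹ • u, (smul_inv_smul₀ hl u).symm⟩
  rw [G.JH_act h hx _ c hl hm, smul_eq_zero_iff_right (inv_ne_zero hm.ne'), smul_eq_zero_iff_right hl,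
    hK.ker]
  refine exists_congr fun a => ?_
  rw [← Bs_act c hl hm, smul_sub, Finset.smul_sum]
  simp only [smul_comm l]

end Geo

namespace Bl
variable {G : Geo g} (B : Bl g G)
include B

theorem kk_const {x y : VV n} (hx : x ∈ OO n) (hy : y ∈ OO n) : G.kk x = G.kk y := by
  have := B.kdim_const hx hy
  rw [G.kdim_eq B.met hx, G.kdim_eq B.met hy] at this
  omega

theorem contDiffOn_KP : ContDiffOn ℝ ∞ G.KP (OO n) := by
  have h := B.met
  intro x₀ hx₀
  have hg : ContDiffOn ℝ ∞ (fun x : VV n => g x.1) (OO n) :=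
    h.smooth.comp contDiffOn_fst fun x hx => hx.1
  obtain ⟨U, T, h1, h2, h3, h4, h5⟩ := MP_8c604c_gt.B.ker_proj isOpen_OO
    (L := fun x : VV n => (G.JH (π / 2) x).comp (ContinuousLinearMap.inr ℝ (E n) (E n)))
    (((G.contDiffOn_JH h).comp (contDiffOn_const.prodMk contDiffOn_id)
      fun x hx => hx).clm_comp contDiffOn_const) (k := G.kdim x₀)
    (fun x hx => B.kdim_const hx hx₀) hx₀
  obtain ⟨S, hS⟩ : ∃ S : VV n → E n →L[ℝ] E n, S = fun x => (nrm g x).comp (T x) := ⟨_, rfl⟩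
  have s1 : ContDiffOn ℝ ∞ S U := hS ▸ (h.contDiffOn_nrm.mono h3).clm_comp h4
  have s2 : ∀ x ∈ U, ∀ v, S x v ∈ G.KS x := fun x hx v =>
    hS ▸ (G.nrm_mem_KS h (h3 hx)).2 (h5 x hx v).1
  have s3 : ∀ x ∈ U, ∀ v ∈ G.KS x, S x v = v := fun x hx v hv => by
    have h6 := (G.mem_KS h (h3 hx)).1 hv
    simp only [hS, ContinuousLinearMap.comp_apply]
    rw [(h5 x hx v).2 h6.2.2, h.nrm_of (h3 hx) h6.1 h6.2.1]
  obtain ⟨M, hM⟩ : ∃ M : VV n → E n →L[ℝ] E n →L[ℝ] ℝ, M = fun x =>
      (g x.1).bilinearComp (S x) (S x) + (idxE n).bilinearComp (1 - S x) (1 - S x) := ⟨_, rfl⟩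
  have m0 : ∀ x a b, M x a b = g x.1 (S x a) (S x b) + inner ℝ (a - S x a) (b - S x b) :=
    fun x a b => by rw [hM]; rfl
  have m1 : ContDiffOn ℝ ∞ M U := contDiffOn_clm_apply.2 fun a => contDiffOn_clm_apply.2 fun b => by
    simp only [m0]
    exact (((hg.mono h3).clm_apply (s1.clm_apply contDiffOn_const)).clm_apply
      (s1.clm_apply contDiffOn_const)).add ((contDiffOn_const.sub (s1.clm_apply contDiffOn_const)).inner ℝ
        (contDiffOn_const.sub (s1.clm_apply contDiffOn_const)))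
  have m2 : ∀ x ∈ U, (M x).IsInvertible := fun x hx => idx_invertible fun a ha => by
    rw [m0] at ha
    have h6 := h.nonneg (h3 hx).1 (S x a)
    have h7 : 0 ≤ inner ℝ (a - S x a) (a - S x a) := real_inner_self_nonneg
    have h8 := h.eq_zero_of_hor (h3 hx).1 ((G.mem_KS h (h3 hx)).1 (s2 x hx a)).1 (by linarith)
    have h9 : a - S x a = 0 := inner_self_eq_zero.1 (by linarith : inner ℝ (a - S x a) (a - S x a) = 0)
    rwa [h8, sub_zero] at h9
  have m3 : ContDiffOn ℝ ∞ (fun x => (M x).inverse) U := fun x hx =>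
    (m2 x hx).contDiffAt_map_inverse.comp_contDiffWithinAt x (m1 x hx)
  refine (ContDiffOn.contDiffAt (s := U) (contDiffOn_clm_apply.2 fun u => ?_)
    (h1.mem_nhds h2)).contDiffWithinAt
  refine (m3.clm_apply (((hg.mono h3).clm_apply (contDiffOn_const (c := u))).clm_comp s1)).congr
    fun x hx => ((m2 x hx).inverse_apply_eq.2 ?_).symm
  ext b
  rw [m0, s3 x hx _ (G.KP_mem h (h3 hx) u), sub_self, inner_zero_left, add_zero,
    G.KP_symm h (h3 hx), G.KP_of_mem h (h3 hx) (s2 x hx b)]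
  rfl

end Bl

end Pool.Agent.Work.MP_8c604c_gt.H
end
end

-- merged part: Pool.Agent.Work.MP_8c604c_gt.H.RigQ
section
/-!
Linear algebra: a fibration of a Euclidean space by 4-planes whose projector is quadratic is the quaternionic one.
Plan for exists_quat (write |u|^2 for B u u; one may first turn B into an inner product, InnerProductSpace.ofCore as in ../BKGAux.lean bkg_onb, or stay with B).
(1) S u = |u|^2 P u (S 0 = 0). By polarisation in a there is a symmetric bilinear A u v (operator valued, A u v = S (u+v) - S u - S v, A u u = 2 S u), every A u v is B-symmetric.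
(2) S u u = |u|^2 u for all u; the coefficient of t in S (u + t v) (u + t v) gives S u v + A u v u = |u|^2 v + 2 B(u,v) u. Pair with v and exchange u, v: B(v, S u v) = B(u, S v u).
(3) If H is nontrivial fix a unit x0, W0 = W x0, V = B-orthogonal complement of W0. For y in V, w in W0: B(w, S y w) = B(y, S w y) = 0 (W w = W0), so S y w = 0 and W y is orthogonal to W0.
From S(u)^2 = |u|^2 S(u) at u = x0 + t y (coefficients of t and t^2): P0 A + A P0 = A and A^2 = |y|^2 P0 + S y for A = A x0 y. So mu(w,y) = A x0 y w lies in V, |mu(w,y)|^2 = |w|^2 |y|^2, mu(x0,y) = y by (2),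
and mu(w,y) is in W y (vectors orthogonal to W0 and W y are killed by A^2, hence by A; dimension free version: for d = A w - P y (A w), B(d,d) = B(d, A w) = B(A d, w) and A d = 0).
(4) e0 = x0, e1, e2, e3 orthonormal basis of W0, J i = mu(e i, .) on V. Polarising the norm identity: J i skew, J i J j + J j J i = -2 delta. W y is spanned by y, J i y (orthogonal, dimension 4).
J1 (J2 y) is in W (J2 y) = W y and orthogonal to y, J1 y, J2 y, so J1 J2 y = +- J3 y for every y; the sign is independent of y (a vector space is not the union of two proper subspaces). Replace e3 by -e3 if needed: J1 J2 = J3.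
(5) phi : quaternions -> W0 the isometry with basis e; m c (phi d + y) = phi (c * d) + mu(phi c, y). For y2 in V and w in W0, S (x0 + y2) w = w + mu(w,y2) is in W (x0 + y2). For d nonzero take y2 = m d^(-1) y:
phi d + y = phi d + mu(phi d, y2) is in W (x0 + y2), so W (phi d + y) = W (x0 + y2) contains phi (c d) + mu(phi (c d), y2) = m c (phi d + y).
Plan for quat_iso: induction gives e : Fin k -> H with B (m c (e i)) (m d (e j)) = if i = j then inner c d else 0 as long as 4 k <= finrank (the orthogonal complement of the span is m-invariant); model ../RigA.lean exists_frame, ../RigBAux.lean rb_iso.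
-/

set_option maxSynthPendingDepth 3

open Set Filter Topology MeasureTheory
open scoped ContDiff Quaternion

noncomputable section
namespace Pool.Agent.Work.MP_8c604c_gt.H

open Real

variable {H : Type} [NormedAddCommGroup H] [NormedSpace ℝ H] [FiniteDimensional ℝ H]

/-- `m` is a left quaternionic structure compatible with the form `B`. -/
structure IsQuat (B : H →L[ℝ] H →L[ℝ] ℝ) (m : ℍ →ₗ[ℝ] H →ₗ[ℝ] H) : Prop where
  one : ∀ u, m 1 u = u
  mul : ∀ c d u, m (c * d) u = m c (m d u)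
  adj : ∀ c u w, B (m c u) w = B u (m (star c) w)

theorem exists_quat {B : H →L[ℝ] H →L[ℝ] ℝ} (hs : ∀ u w, B u w = B w u)
    (hp : ∀ u, u ≠ 0 → 0 < B u u) {W : H → Submodule ℝ H}
    (hd : ∀ u, u ≠ 0 → Module.finrank ℝ (W u) = 4) (hu : ∀ u, u ≠ 0 → u ∈ W u)
    (hw : ∀ u, u ≠ 0 → ∀ w ∈ W u, w ≠ 0 → W w = W u) {P : H → H → H}
    (hP : ∀ u, u ≠ 0 → ∀ a, P u a ∈ W u ∧ ∀ w ∈ W u, B w (P u a) = B w a)
    (hq : ∀ a, ∃ q : H →L[ℝ] H →L[ℝ] ℝ, ∀ u, u ≠ 0 → B u u * B a (P u a) = q u u) :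
    ∃ m : ℍ →ₗ[ℝ] H →ₗ[ℝ] H, IsQuat B m ∧ ∀ c u, u ≠ 0 → m c u ∈ W u := by
  obtain ⟨m, h1, h2, h3, h4⟩ := RigQA_main hs hp hd hu hw hP hq
  exact ⟨m, ⟨h1, h2, h3⟩, h4⟩

/-- the map with the frame `e` -/
def RigQ_phi (m : ℍ →ₗ[ℝ] H →ₗ[ℝ] H) {j : ℕ} (e : Fin j → H) : (Fin j → ℍ) →ₗ[ℝ] H :=
  ∑ i, m.flip (e i) ∘ₗ LinearMap.proj i

omit [FiniteDimensional ℝ H] in
theorem RigQ_phi_apply (m : ℍ →ₗ[ℝ] H →ₗ[ℝ] H) {j : ℕ} (e : Fin j → H) (a : Fin j → ℍ) :
    RigQ_phi m e a = ∑ i, m (a i) (e i) := by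
  simp [RigQ_phi, LinearMap.sum_apply]

theorem RigQ_rank (j : ℕ) : Module.finrank ℝ (Fin j → ℍ) = 4 * j := by
  rw [Module.finrank_pi_fintype, Finset.sum_const, Quaternion.finrank_eq_four, Finset.card_univ,
    Fintype.card_fin, smul_eq_mul, mul_comm]

omit [FiniteDimensional ℝ H] in
theorem RigQ_self {B : H →L[ℝ] H →L[ℝ] ℝ} (hs : ∀ u w, B u w = B w u)
    {m : ℍ →ₗ[ℝ] H →ₗ[ℝ] H} (h : IsQuat B m) (v : H) (c d : ℍ) :
    B (m c v) (m d v) = (star c * d).re * B v v := by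
  rw [h.adj, ← h.mul]
  generalize star c * d = q
  have e1 : B v (m (star q) v) = B v (m q v) := by rw [← h.adj, hs]
  have e2 : m (q + star q) v = (2 * q.re) • v := by
    have : q + star q = (2 * q.re) • (1 : ℍ) := by
      ext <;> simp
      ring
    rw [this, map_smul, LinearMap.smul_apply, h.one]
  have e3 := congrArg (B v) e2
  rw [map_add, LinearMap.add_apply, map_add, e1, map_smul, smul_eq_mul] at e3
  linarith

theorem RigQ_frame {B : H →L[ℝ] H →L[ℝ] ℝ} (hs : ∀ u w, B u w = B w u)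
    (hp : ∀ u, u ≠ 0 → 0 < B u u) {m : ℍ →ₗ[ℝ] H →ₗ[ℝ] H} (h : IsQuat B m) (j : ℕ)
    (hj : 4 * j ≤ Module.finrank ℝ H) : ∃ e : Fin j → H, ∀ i l c d,
      B (m c (e i)) (m d (e l)) = if i = l then (star c * d).re else 0 := by
  induction j with
  | zero => exact ⟨Fin.elim0, fun i => i.elim0⟩
  | succ j ih =>
    obtain ⟨e, he⟩ := ih (by omega)
    let Ψ : H →ₗ[ℝ] Module.Dual ℝ (Fin j → ℍ) :=
      ((ContinuousLinearMap.coeLM ℝ).comp B.toLinearMap).compl₂ (RigQ_phi m e)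
    have hne : LinearMap.ker Ψ ≠ ⊥ := LinearMap.ker_ne_bot_of_finrank_lt (by
      rw [Subspace.dual_finrank_eq, RigQ_rank]
      omega)
    obtain ⟨u, hu, u0⟩ := (Submodule.ne_bot_iff _).1 hne
    have o1 : ∀ i c, B u (m c (e i)) = 0 := fun i c => by
      have := LinearMap.congr_fun (LinearMap.mem_ker.1 hu) (Pi.single i c)
      change B u (RigQ_phi m e (Pi.single i c)) = 0 at this
      rwa [RigQ_phi_apply, Finset.sum_eq_single i (fun l _ hl => by simp [hl]) (by simp),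
        Pi.single_eq_same] at this
    have pu := hp u u0
    obtain ⟨v, v1, v2⟩ : ∃ v : H, B v v = 1 ∧ ∀ i c, B v (m c (e i)) = 0 := by
      refine ⟨(√(B u u))⁻¹ • u, ?_, fun i c => by simp [o1]⟩
      simp only [map_smul, smul_apply, smul_eq_mul]
      rw [← mul_assoc, ← mul_inv, Real.mul_self_sqrt pu.le, inv_mul_cancel₀ pu.ne']
    have o2 : ∀ i c d, B (m c v) (m d (e i)) = 0 := fun i c d => by rw [h.adj, ← h.mul, v2]
    refine ⟨Fin.cons v e, fun i l c d => ?_⟩
    refine Fin.cases ?_ (fun i => ?_) i <;> refine Fin.cases ?_ (fun l => ?_) l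
    · rw [Fin.cons_zero, RigQ_self hs h, v1, mul_one, if_pos rfl]
    · rw [Fin.cons_zero, Fin.cons_succ, o2, if_neg (Fin.succ_ne_zero l).symm]
    · rw [Fin.cons_zero, Fin.cons_succ, hs, o2, if_neg (Fin.succ_ne_zero i)]
    · rw [Fin.cons_succ, Fin.cons_succ, he]
      simp only [Fin.succ_inj]

theorem RigQ_equiv {B : H →L[ℝ] H →L[ℝ] ℝ} (hs : ∀ u w, B u w = B w u)
    (hp : ∀ u, u ≠ 0 → 0 < B u u) {m : ℍ →ₗ[ℝ] H →ₗ[ℝ] H} (h : IsQuat B m) {k : ℕ}
    (hk : Module.finrank ℝ H = 4 * k) : ∃ Φ : (Fin k → ℍ) ≃ₗ[ℝ] H,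
      (∀ a b, B (Φ a) (Φ b) = ∑ i, (star (a i) * b i).re) ∧
        ∀ c a, Φ (fun i => c * a i) = m c (Φ a) := by
  obtain ⟨e, he⟩ := RigQ_frame hs hp h k hk.ge
  have p : ∀ a b, B (RigQ_phi m e a) (RigQ_phi m e b) = ∑ i, (star (a i) * b i).re := fun a b => by
    simp only [RigQ_phi_apply, map_sum, sum_apply, he]
    simp
  have inj : Function.Injective (RigQ_phi m e) := by
    rw [injective_iff_map_eq_zero]
    intro a ha
    have := p a a
    rw [ha, map_zero] at this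
    simp only [Quaternion.star_mul_self, Quaternion.re_coe] at this
    funext i
    exact Quaternion.normSq_eq_zero.1 ((Finset.sum_eq_zero_iff_of_nonneg
      fun _ _ => Quaternion.normSq_nonneg).1 this.symm i (Finset.mem_univ i))
  refine ⟨LinearEquiv.ofInjectiveOfFinrankEq _ inj (by rw [RigQ_rank, hk]), p, fun c a => ?_⟩
  change RigQ_phi m e _ = m c (RigQ_phi m e a)
  simp only [RigQ_phi_apply, map_sum, h.mul]

theorem quat_iso {B₀ B : H →L[ℝ] H →L[ℝ] ℝ} (hs₀ : ∀ u w, B₀ u w = B₀ w u)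
    (hp₀ : ∀ u, u ≠ 0 → 0 < B₀ u u) (hs : ∀ u w, B u w = B w u) (hp : ∀ u, u ≠ 0 → 0 < B u u)
    {m₀ m : ℍ →ₗ[ℝ] H →ₗ[ℝ] H} (h₀ : IsQuat B₀ m₀) (h : IsQuat B m) {k : ℕ}
    (hk : Module.finrank ℝ H = 4 * k) :
    ∃ L : H →L[ℝ] H, (∀ u w, B (L u) (L w) = B₀ u w) ∧ ∀ c u, L (m₀ c u) = m c (L u) := by
  obtain ⟨Φ₀, p₀, q₀⟩ := RigQ_equiv hs₀ hp₀ h₀ hk
  obtain ⟨Φ, p, q⟩ := RigQ_equiv hs hp h hk
  refine ⟨LinearMap.toContinuousLinearMap (Φ₀.symm.trans Φ).toLinearMap, fun u w => ?_,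
    fun c u => ?_⟩
  · obtain ⟨a, rfl⟩ := Φ₀.surjective u
    obtain ⟨b, rfl⟩ := Φ₀.surjective w
    change B (Φ (Φ₀.symm (Φ₀ a))) (Φ (Φ₀.symm (Φ₀ b))) = _
    rw [Φ₀.symm_apply_apply, Φ₀.symm_apply_apply, p, p₀]
  · obtain ⟨a, rfl⟩ := Φ₀.surjective u
    change Φ (Φ₀.symm (m₀ c (Φ₀ a))) = m c (Φ (Φ₀.symm (Φ₀ a)))
    rw [← q₀, Φ₀.symm_apply_apply, Φ₀.symm_apply_apply, q]

end Pool.Agent.Work.MP_8c604c_gt.H
end
end

-- merged part: Pool.Agent.Work.MP_8c604c_gt.H.RigBAux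
section
/-!
The horizontal space at a point, its standard quaternionic structure, and frames of `KS`.
-/

set_option maxSynthPendingDepth 3

open Set Filter Topology MeasureTheory
open scoped ContDiff Quaternion

noncomputable section
namespace Pool.Agent.Work.MP_8c604c_gt.H

open Real

variable {n : ℕ} {g : Met n} {G : Geo g}

/-- The horizontal space. -/
def RigBH (o : E n) : Submodule ℝ (E n) := LinearMap.ker (nuL o : E n →ₗ[ℝ] ℍ)

theorem RigB_mem {o u : E n} : u ∈ RigBH o ↔ nu o u = 0 := Iff.rfl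

theorem RigB_finrank {o : E n} (ho : o ≠ 0) : Module.finrank ℝ (RigBH o) = 4 * n := by
  have h1 := LinearMap.finrank_range_add_finrank_ker (nuL o : E n →ₗ[ℝ] ℍ)
  have h2 : LinearMap.range (nuL o : E n →ₗ[ℝ] ℍ) = ⊤ := by
    rw [LinearMap.range_eq_top]
    intro c
    exact ⟨c • o, by
      show nu o (c • o) = c
      rw [nu_smul, nu_self ho, mul_one]⟩
  rw [h2, finrank_top, Quaternion.finrank_eq_four, finrank_E] at h1
  unfold RigBH
  omega

/-- Projection to the horizontal space. -/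
def RigBPr {o : E n} (ho : o ≠ 0) : E n →L[ℝ] RigBH o :=
  (horL o).codRestrict (RigBH o) fun u => nu_hor ho u

theorem RigBPr_coe {o : E n} (ho : o ≠ 0) (u : E n) : (RigBPr ho u : E n) = hor o u := rfl

/-- Restriction of a metric to the horizontal space. -/
def RigBB (g : Met n) (o : E n) : RigBH o →L[ℝ] RigBH o →L[ℝ] ℝ :=
  (g o).bilinearComp (RigBH o).subtypeL (RigBH o).subtypeL

theorem RigBB_apply (g : Met n) (o : E n) (u w : RigBH o) : RigBB g o u w = g o u w := rfl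

theorem RigB_OO {o : E n} (ho : o ≠ 0) {u : RigBH o} (hu : u ≠ 0) : (o, (u : E n)) ∈ OO n :=
  mem_OO.2 ⟨ho, by
    show hor o u ≠ 0
    rw [hor_of_nu u.2]
    exact fun h => hu (Subtype.ext h)⟩

theorem RigBB_pos (h : IsMetric g) {o : E n} (ho : o ≠ 0) (u : RigBH o) (hu : u ≠ 0) :
    0 < RigBB g o u u := h.pos _ _ ho (RigB_OO ho hu).2

theorem RigB_smooth_ex (G : Geo g) {o : E n} (ho : o ≠ 0) : ContDiff ℝ ∞ (G.ex o) := by
  rw [← contDiffOn_univ]
  exact G.contDiffOn_ex.comp (f := fun u : E n => (o, u))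
    (contDiff_const.prodMk contDiff_id).contDiffOn fun _ _ => ho

theorem RigB_vel (h : IsMetric g) (G : Geo g) {x : VV n} (hx : x ∈ OO n) (h0 : nu x.1 x.2 = 0) :
    x.2 = spd g x • vel g x ∧ ∀ a, G.KP (x.1, vel g x) a = G.KP x a := by
  have e1 : x.2 = spd g x • vel g x := by
    have := h.snd_eq hx
    rwa [h0, zero_smul, add_zero] at this
  refine ⟨e1, fun a => ?_⟩
  have hv := (h.unit_mem hx.1 (h.nu_vel hx.1) (h.vel_unit hx)).1
  have e2 := G.KP_act h hv (l := 1) (m := spd g x) 0 one_ne_zero (h.spd_pos hx) a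
  simp only [act, one_smul, zero_smul, add_zero] at e2
  rw [← e1] at e2
  exact e2.symm

/-- The standard quaternionic structure of the horizontal space. -/
def RigBm (o : E n) : ℍ →ₗ[ℝ] RigBH o →ₗ[ℝ] RigBH o :=
  LinearMap.mk₂ ℝ (fun c u => ⟨c • (u : E n), RigB_mem.2 (by rw [nu_smul, RigB_mem.1 u.2, mul_zero])⟩)
    (fun c d u => Subtype.ext (add_smul c d (u : E n)))
    (fun r c u => Subtype.ext (smul_assoc r c (u : E n)))
    (fun c u w => Subtype.ext (smul_add c (u : E n) w))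
    (fun r c u => Subtype.ext (smul_comm c r (u : E n)))

theorem RigBm_coe (o : E n) (c : ℍ) (u : RigBH o) : (RigBm o c u : E n) = c • (u : E n) := rfl

theorem RigB_adj (c : ℍ) (u w : E n) : inner ℝ (c • u) w = inner ℝ u (star c • w) := by
  rw [inner_re, inner_re, hm_smul_left, hm_smul_right, Quaternion.re_mul, Quaternion.re_mul]
  ring

theorem RigB_isQuat (o : E n) : IsQuat (RigBB (fsM n) o) (RigBm o) := by
  refine ⟨fun u => Subtype.ext (one_smul _ _), fun c d u => Subtype.ext (mul_smul _ _ _),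
    fun c u w => ?_⟩
  rw [RigBB_apply, RigBB_apply, RigBm_coe, RigBm_coe, fsM_eq, fsM_eq, hor_smul, hor_smul, RigB_adj]

theorem RigB_fs (c d : ℍ) (o u : E n) :
    fsM n o (c • u) (d • u) = inner ℝ c d * fsM n o u u := by
  rw [fsM_eq, fsM_eq, hor_smul, hor_smul, inner_csmul_left, hm_smul_right, hm_self,
    Quaternion.mul_coe_eq_smul, real_inner_smul_right, real_inner_self_eq_norm_sq]
  ring

/-- The three imaginary units. -/
def RigBq : Fin 3 → ℍ := ![qi, qj, qk]

theorem RigBq_on (i j : Fin 3) : inner ℝ (RigBq i) (RigBq j) = if i = j then (1 : ℝ) else 0 := by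
  rw [Quaternion.inner_def]
  fin_cases i <;> fin_cases j <;> simp [RigBq, qi, qj, qk]

theorem RigBq_one (i : Fin 3) : inner ℝ (RigBq i) (1 : ℍ) = (0 : ℝ) := by
  fin_cases i <;> simp [RigBq, Quaternion.inner_def, qi, qj, qk]

/-- Three orthonormal vectors of `KS` give the projector. -/
theorem RigB_KP (h : IsMetric g) {x : VV n} (hx : x ∈ OO n) (hk : G.kk x = 3) {K : Fin 3 → E n}
    (h1 : ∀ i, K i ∈ G.KS x) (h2 : ∀ i j, g x.1 (K i) (K j) = if i = j then 1 else 0) (b : E n) :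
    g x.1 b (G.KP x b) = ∑ i, g x.1 b (K i) ^ 2 := by
  have h3 : LinearIndependent ℝ K := Fintype.linearIndependent_iff.2 fun a ha i => by
    simpa [h2] using congrArg (g x.1 (K i)) ha
  have h4 : Submodule.span ℝ (range K) = G.KS x :=
    Submodule.eq_of_le_of_finrank_eq (Submodule.span_le.2 (range_subset_iff.2 h1))
      (by rw [finrank_span_eq_card h3, Fintype.card_fin, ← hk, Geo.kk])
  have hK : G.IsK x K := by
    refine ⟨fun i => ((G.mem_KS h hx).1 (h1 i)).1, fun i => ((G.mem_KS h hx).1 (h1 i)).2.1, h2,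
      fun u => (G.ker_iff h hx).trans ⟨fun ⟨k, hk, e⟩ => ?_, fun ⟨a, e⟩ =>
        ⟨_, Submodule.sum_mem _ fun i _ => Submodule.smul_mem _ _ (h1 i), e⟩⟩⟩
    rw [← h4, Submodule.mem_span_range_iff_exists_fun] at hk
    obtain ⟨a, rfl⟩ := hk
    exact ⟨a, e⟩
  rw [hK.KP h hx, map_sum]
  refine Finset.sum_congr rfl fun i _ => ?_
  rw [map_smul, smul_eq_mul, h.symm _ (K i) _ hx.1, sq]

end Pool.Agent.Work.MP_8c604c_gt.H
end
end

-- merged part: Pool.Agent.Work.MP_8c604c_gt.H.RigB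
section
/-!
Normal coordinates of a metric with model Jacobi fields are those of the standard metric. Port of ../RigB.lean (copy, do not import).
Changes. rb_normal: the last term is sin^4 / tau^2 * g o a (KP (o,v) a) (KP_Bs, KP_symm, g_KP). rb_J is replaced by exists_quat on rbH o (dimension 4 n) with B = rbB g o,
W u = comap of WS (o,u) (B/Link: mem_WS, finrank_WS, mem_WS_iff), P u a = KP (o,u) a + g o (vel) a . vel. hw: by link_iff the relation JH (pi/2) (o,u) (0,w) = 0 between nonzero horizontal u, w is an equivalence relation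
(c is nonzero since Z is). hq: quadratic_of_ray and rb_lim as in rb_J, no differentiability of K is needed; KP (o, vel (o,u)) = KP (o,u) by KP_act with l = 1.
rb_L: quat_iso with m0 c u = c . u on rbH o and B0 = rbB (fsM n) o. For unit horizontal u the vectors L (qi . u), L (qj . u), L (qk . u) are orthonormal, in WS and orthogonal to L u, so in KS, which has dimension 3:
KP (o, L u) b is the sum of the three components (KP_eq; the span of the three vectors is KS by Submodule.eq_of_le_of_finrank_eq).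
-/

set_option maxSynthPendingDepth 3

open Set Filter Topology MeasureTheory
open scoped ContDiff Quaternion

noncomputable section
namespace Pool.Agent.Work.MP_8c604c_gt.H

open Real

variable {n : ℕ} {g : Met n} {G : Geo g}

/-- All Jacobi fields have the model length. -/
def Model (G : Geo g) : Prop :=
  ∀ x ∈ OO n, ∀ τ ∈ Ioo 0 (π / 2), ∀ u, g x.1 u x.2 = 0 →
    g (G.Z τ x) (spd g x • G.JJ τ x (0, u)) (spd g x • G.JJ τ x (0, u)) =
      sin τ ^ 2 * (g x.1 u u - g x.1 u (G.KP x u)) + (sin (2 * τ) / 2) ^ 2 * g x.1 u (G.KP x u)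

/-- The metric in normal coordinates. -/
theorem RigB_normal (h : IsMetric g) (hM : Model G) {o v : E n} (ho : o ≠ 0)
    (h0 : nu o v = 0) (h1 : g o v v = 1) {τ : ℝ} (hτ : τ ∈ Ioo 0 (π / 2)) (a : E n) :
    g (G.ex o (τ • v)) (fderiv ℝ (G.ex o) (τ • v) a) (fderiv ℝ (G.ex o) (τ • v) a) =
      g o v a ^ 2 + (sin τ / τ) ^ 2 * (g o a a - g o v a ^ 2) -
        sin τ ^ 4 / τ ^ 2 * g o a (G.KP (o, v) a) := by
  obtain ⟨hx, hs, hv⟩ := h.unit_mem ho h0 h1
  have e1 := G.fderiv_ex h τ hx hτ.1 a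
  have e2 := G.ex_vel h τ hx
  simp only [hv, hs] at e1 e2
  have hK : G.KP (o, v) v = 0 := G.KP_Bs h hx (mem_Bs.2 ⟨0, 1, by simp⟩)
  have hK' : g o v (G.KP (o, v) a) = 0 := by
    have := G.KP_symm h hx v a
    simp only at this
    rw [← this, hK, map_zero, zero_apply]
  have hav : g o a v = g o v a := h.symm _ _ _ ho
  have e3 : G.JJ τ (o, v) (0, a - g o v a • v) = G.JJ τ (o, v) (0, a) := by
    have hB : g o v a • v ∈ Bs (o, v) := mem_Bs.2 ⟨0, g o v a, by simp⟩
    have : ((0, a - g o v a • v) : VV n) = (0, a) - (0, g o v a • v) := by simp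
    rw [this, map_sub, G.JJ_Bs h τ hx hB, sub_zero]
  have e4 := hM _ hx τ hτ (a - g o v a • v) (by simp [hav, h1])
  simp only [hs, one_smul, e3, map_sub, map_smul, sub_apply, smul_apply, smul_eq_mul, hav, h1,
    hK', hK, smul_zero, map_zero] at e4
  have e5 : g (G.Z τ (o, v)) (vel g (G.psi τ (o, v))) (vel g (G.psi τ (o, v))) = 1 :=
    h.vel_unit (G.psi_mem h τ hx)
  have e6 : g (G.Z τ (o, v)) (vel g (G.psi τ (o, v))) (G.JJ τ (o, v) (0, a)) = 0 := by
    rw [G.al_inv h τ hx]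
    simp [al]
  have e7 : g (G.Z τ (o, v)) (G.JJ τ (o, v) (0, a)) (vel g (G.psi τ (o, v))) = 0 := by
    rw [h.symm _ _ _ (G.Z_ne h τ hx), e6]
  rw [e1, e2]
  simp only [map_add, map_smul, add_apply, smul_apply, smul_eq_mul, e4, e5, e6, e7]
  have := hτ.1.ne'
  rw [sin_two_mul]
  field_simp
  linear_combination (sin τ ^ 2 * g o a (G.KP (o, v) a)) * sin_sq_add_cos_sq τ

/-- The projector is quadratic. -/
theorem RigB_quadratic (h : IsMetric g) (hM : Model G) {o : E n} (ho : o ≠ 0) (a : RigBH o) :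
    ∃ q : RigBH o →L[ℝ] RigBH o →L[ℝ] ℝ, ∀ u : RigBH o, u ≠ 0 →
      g o u u * g o a (G.KP (o, u) a) = q u u := by
  let γ : RigBH o → ℝ := fun u =>
    g (G.ex o u) (fderiv ℝ (G.ex o) u a) (fderiv ℝ (G.ex o) u a)
  have hs := RigB_smooth_ex G ho
  have hγ : ContDiffAt ℝ ∞ γ 0 := by
    have b0 : ContDiff ℝ ∞ fun u : RigBH o => (u : E n) := (RigBH o).subtypeL.contDiff
    have b1 : ContDiffAt ℝ ∞ (fun u : RigBH o => g (G.ex o u)) 0 :=
      ContDiffAt.comp (g := g) (f := fun u : RigBH o => G.ex o u) 0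
        (h.contDiffAt (G.ex_ne ho _)) (hs.comp b0).contDiffAt
    have b2 : ContDiff ℝ ∞ fun u : RigBH o => fderiv ℝ (G.ex o) u a :=
      ((hs.fderiv_right (m := ∞) (by simp)).comp b0).clm_apply contDiff_const
    exact (b1.clm_apply b2.contDiffAt).clm_apply b2.contDiffAt
  have hγ0 : γ 0 = g o a a := by
    show g (G.ex o 0) (fderiv ℝ (G.ex o) 0 a) (fderiv ℝ (G.ex o) 0 a) = _
    rw [G.ex_zero ho, (G.hasFDerivAt_ex_zero ho).fderiv, horL_apply, hor_of_nu a.2]
  refine Exists.elim (quadratic_of_ray hγ (c := fun u =>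
    -1 / 3 * (RigBB g o a a * RigBB g o u u - RigBB g o a u * RigBB g o a u) -
      g o u u * g o a (G.KP (o, u) a)) fun u hu => ?_) fun q hq => ?_
  swap
  · refine ⟨(-1 / 3 : ℝ) • (RigBB g o a a • RigBB g o -
      (RigBB g o a).smulRight (RigBB g o a)) - q, fun u hu => ?_⟩
    simp only [sub_apply, smul_apply, smul_eq_mul, ContinuousLinearMap.smulRight_apply,
      ← hq u hu]
    ring
  · have hx := RigB_OO ho hu
    obtain ⟨e1, e2⟩ := RigB_vel h G hx u.2
    have hs := h.spd_pos hx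
    have e := h.spd_sq (x := (o, (u : E n))) ho
    simp only at e1 e2 e
    have hv0 := h.nu_vel (x := (o, (u : E n))) ho
    have hv1 := h.vel_unit hx
    simp only at hv0 hv1
    set s := spd g (o, (u : E n)) with hsd
    set v := vel g (o, (u : E n)) with hvd
    have hl := rb_lim (g o a a - g o v a ^ 2) (g o a (G.KP (o, u) a)) hs
    have e3 : s ^ 2 * (-1 / 3 * (g o a a - g o v a ^ 2) - g o a (G.KP (o, u) a)) =
        -1 / 3 * (RigBB g o a a * RigBB g o u u - RigBB g o a u * RigBB g o a u) -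
          g o u u * g o a (G.KP (o, u) a) := by
      have e4 : g o a u = s * g o v a := by
        rw [e1, map_smul, h.symm _ _ _ ho, smul_eq_mul]
      simp only [RigBB_apply, ← e, e4]
      ring
    rw [e3] at hl
    refine hl.congr' ?_
    filter_upwards [Ioo_mem_nhdsGT (show (0 : ℝ) < π / 2 / s by positivity)] with t ht
    have ht' : t * s ∈ Ioo 0 (π / 2) := ⟨mul_pos ht.1 hs, (lt_div_iff₀ hs).1 ht.2⟩
    have e5 : ((t • u : RigBH o) : E n) = (t * s) • v := by
      rw [Submodule.coe_smul, mul_smul, ← e1]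
    have e6 : γ (t • u) = g (G.ex o (t • u : RigBH o)) (fderiv ℝ (G.ex o) (t • u : RigBH o) a)
        (fderiv ℝ (G.ex o) (t • u : RigBH o) a) := rfl
    rw [e6, hγ0, e5, RigB_normal h hM ho hv0 hv1 ht', e2]
    ring

/-- The conjugate directions come from a quaternionic structure. -/
theorem RigB_quat (B : Bl g G) (hk : ∀ x ∈ OO n, G.kk x = 3) (hM : Model G) {o : E n}
    (ho : o ≠ 0) : ∃ m : ℍ →ₗ[ℝ] RigBH o →ₗ[ℝ] RigBH o, IsQuat (RigBB g o) m ∧
      ∀ (c : ℍ) (u : RigBH o), u ≠ 0 → (m c u : E n) ∈ G.WS (o, u) := by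
  have h := B.met
  let P : RigBH o → RigBH o → RigBH o := fun u a =>
    RigBPr ho (g o (vel g (o, u)) a • vel g (o, u) + G.KP (o, u) a)
  have hW : ∀ u : RigBH o, u ≠ 0 → ∀ a : E n,
      g o (vel g (o, u)) a • vel g (o, u) + G.KP (o, u) a ∈ G.WS (o, u) := fun u hu a =>
    (Geo.mem_WS_iff h (RigB_OO ho hu)).2 ⟨_, _, G.KP_mem h (RigB_OO ho hu) a, rfl⟩
  have hP : ∀ u : RigBH o, u ≠ 0 → ∀ a : RigBH o,
      (P u a : E n) = g o (vel g (o, u)) a • vel g (o, u) + G.KP (o, u) a := fun u hu a =>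
    hor_of_nu (Geo.mem_WS.1 (hW u hu a)).1
  have hl : ∀ u w : RigBH o, u ≠ 0 → w ≠ 0 → ((w : E n) ∈ G.WS (o, u) ↔
      ∃ c : ℍ, G.Z (π / 2) (o, w) = c • G.Z (π / 2) (o, u)) := fun u w hu hw => by
    rw [Geo.mem_WS, B.link_iff hk (RigB_OO ho hu) (RigB_OO ho hw)]
    exact and_iff_right w.2
  refine exists_quat (B := RigBB g o) (fun u w => h.symm _ _ _ ho) (RigBB_pos h ho)
    (W := fun u => (G.WS (o, u)).comap (RigBH o).subtype) (fun u hu => ?_) (fun u hu => ?_)
    (fun u hu w hw hw0 => ?_) (P := P) (fun u hu a => ⟨?_, fun w hw => ?_⟩) fun a => ?_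
  · have hle : G.WS (o, u) ≤ RigBH o := fun w hw => (Geo.mem_WS.1 hw).1
    rw [(Submodule.comapSubtypeEquivOfLe hle).finrank_eq, Geo.finrank_WS h (RigB_OO ho hu),
      hk _ (RigB_OO ho hu)]
  · exact (hl u u hu hu).2 ⟨1, (one_smul _ _).symm⟩
  · obtain ⟨c, hc⟩ := (hl u w hu hw0).1 hw
    have hc0 : c ≠ 0 := by
      rintro rfl
      exact G.Z_ne h _ (RigB_OO ho hw0) (by rw [hc, zero_smul])
    ext v
    by_cases hv : v = 0
    · simp [hv]
    refine (hl w v hw0 hv).trans (Iff.trans ?_ (hl u v hu hv).symm)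
    refine ⟨fun ⟨d, hd⟩ => ⟨d * c, by rw [hd, hc, mul_smul]⟩, fun ⟨d, hd⟩ => ⟨d * c⁻¹, ?_⟩⟩
    rw [hd, hc, mul_smul, inv_smul_smul₀ hc0]
  · change (P u a : E n) ∈ G.WS (o, u)
    rw [hP u hu]
    exact hW u hu a
  · have hx := RigB_OO ho hu
    obtain ⟨t, κ, hκ, e⟩ := (Geo.mem_WS_iff h hx).1 hw
    replace e : (w : E n) = t • vel g (o, u) + κ := e
    have a1 := h.vel_unit hx
    have a2 := G.vel_KS h hx hκ
    have a3 := G.vel_KS h hx (G.KP_mem h hx a)
    have a4 := G.g_KP h hx hκ a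
    simp only at a1 a2 a3 a4
    rw [h.symm _ _ _ ho] at a2
    rw [RigBB_apply, RigBB_apply, hP u hu, e]
    simp only [map_add, map_smul, add_apply, smul_apply, smul_eq_mul, a1, a2, a3, a4]
    ring
  · obtain ⟨q, hq⟩ := RigB_quadratic h hM ho a
    refine ⟨q + (RigBB g o a).smulRight (RigBB g o a), fun u hu => ?_⟩
    have hx := RigB_OO ho hu
    have e1 := (RigB_vel h G hx u.2).1
    have e := h.spd_sq (x := (o, (u : E n))) ho
    simp only at e1 e
    have e4 : g o a u = spd g (o, u) * g o a (vel g (o, u)) := by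
      conv_lhs => rw [e1]
      rw [map_smul, smul_eq_mul]
    simp only [add_apply, ContinuousLinearMap.smulRight_apply, smul_apply, smul_eq_mul, ← hq u hu,
      RigBB_apply, hP u hu, map_add, map_smul, e4, ← e, h.symm o (vel g (o, u)) a ho]
    ring

theorem RigB_L (B : Bl g G) (hk : ∀ x ∈ OO n, G.kk x = 3) (hM : Model G) {o : E n} (ho : o ≠ 0) :
    ∃ L : E n →L[ℝ] E n, (∀ u w, g o (L u) (L w) = fsM n o u w) ∧ (∀ u, nu o (L u) = 0) ∧
      ∀ u, nu o u = 0 → fsM n o u u = 1 → ∀ b, g o (L b) (G.KP (o, L u) (L b)) =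
        fsM n o b (qi • u) ^ 2 + fsM n o b (qj • u) ^ 2 + fsM n o b (qk • u) ^ 2 := by
  have h := B.met
  obtain ⟨m, h1, h2⟩ := RigB_quat B hk hM ho
  obtain ⟨L, h4, h5⟩ := quat_iso (B₀ := RigBB (fsM n) o) (fun u w => isMetric_fsM.symm _ _ _ ho)
    (RigBB_pos isMetric_fsM ho) (fun u w => h.symm _ _ _ ho) (RigBB_pos h ho) (RigB_isQuat o) h1
    (RigB_finrank ho)
  have h6 : ∀ u w, g o (L (RigBPr ho u)) (L (RigBPr ho w)) = fsM n o u w := fun u w => by
    have := h4 (RigBPr ho u) (RigBPr ho w)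
    rwa [RigBB_apply, RigBB_apply, RigBPr_coe, RigBPr_coe, isMetric_fsM.hor_left ho,
      isMetric_fsM.hor_right ho] at this
  refine ⟨(RigBH o).subtypeL.comp (L.comp (RigBPr ho)), h6, fun u => (L (RigBPr ho u)).2,
    fun u _ hu' b => ?_⟩
  have a2 : L (RigBPr ho u) ≠ 0 := by
    intro h0
    have a1 := h6 u u
    rw [h0, hu'] at a1
    simp at a1
  have hx := RigB_OO ho a2
  have a3 : ∀ c : ℍ, RigBPr ho (c • u) = RigBm o c (RigBPr ho u) := fun c =>
    Subtype.ext (by rw [RigBm_coe, RigBPr_coe, RigBPr_coe, hor_smul])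
  have a4 := RigB_KP h hx (hk _ hx) (K := fun i => L (RigBPr ho (RigBq i • u))) (fun i => ?_)
    (fun i j => ?_) (L (RigBPr ho b))
  · simp only [h6, Fin.sum_univ_three] at a4
    exact a4
  · have a5 := h2 (RigBq i) _ a2
    rw [← h5, ← a3] at a5
    refine (G.mem_KS h hx).2 ⟨(Geo.mem_WS.1 a5).1, ?_, (Geo.mem_WS.1 a5).2⟩
    have a6 := RigB_fs (RigBq i) 1 o u
    rw [one_smul, RigBq_one, zero_mul] at a6
    exact (h6 _ _).trans a6
  · refine (h6 _ _).trans ?_
    rw [RigB_fs, RigBq_on, hu', mul_one]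

theorem Bl.exists_chart (B : Bl g G) (hk : ∀ x ∈ OO n, G.kk x = 3) (hM : Model G) {o : E n}
    (ho : o ≠ 0) : ∃ L : E n →L[ℝ] E n, (∀ u w, g o (L u) (L w) = fsM n o u w) ∧
      ∀ y, nu o y ≠ 0 → ∀ u w, g (chart G o o L y) (fderiv ℝ (chart G o o L) y u)
        (fderiv ℝ (chart G o o L) y w) = fsM n y u w := by
  have h := B.met
  obtain ⟨L, h1, h2, h3⟩ := RigB_L B hk hM ho
  refine ⟨L, h1, ?_⟩
  have hU : IsOpen {y : E n | nu o y ≠ 0} := isOpen_ne_fun (nuL o).continuous continuous_const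
  have hs := RigB_smooth_ex G ho
  have hl : ∀ y, nu o y ≠ 0 → ContDiffAt ℝ ∞ (lgF o) y := fun y hy =>
    (contDiffOn_lgF ho).contDiffAt (hU.mem_nhds hy)
  have hc : ∀ y, nu o y ≠ 0 → ContDiffAt ℝ ∞ (chart G o o L) y := fun y hy =>
    hs.contDiffAt.comp y (L.contDiff.contDiffAt.comp y (hl y hy))
  have hF : ∀ y, chart G o o L y ≠ 0 := fun y => G.ex_ne ho _
  have hne : ∀ y, nu o y ≠ 0 → y ≠ 0 := by
    rintro y hy rfl
    exact hy (map_zero (nuL o))
  have hd : ∀ y, nu o y ≠ 0 → ∀ a, fderiv ℝ (chart G o o L) y a =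
      fderiv ℝ (G.ex o) (L (lgF o y)) (L (fderiv ℝ (lgF o) y a)) := fun y hy a => by
    have := (hs.differentiable (by simp) (L (lgF o y))).hasFDerivAt.comp y
      (L.hasFDerivAt.comp y ((hl y hy).differentiableAt (by simp)).hasFDerivAt)
    exact congrArg (fun T => T a) this.fderiv
  have k1 : ∀ y, nu o y ≠ 0 → hor o y ≠ 0 → ∀ a, g (chart G o o L y)
      (fderiv ℝ (chart G o o L) y a) (fderiv ℝ (chart G o o L) y a) = fsM n y a a := by
    intro y hy hy' a
    obtain ⟨v, t, a1, a2, a3, a4, a5⟩ := rb_model ho hy hy' a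
    rw [hd y hy, chart, a4, map_smul, RigB_normal h hM ho (h2 v) (by rw [h1, a2]) a3, h3 v a1 a2,
      h1, h1, a5]
  have k2 : ∀ y, nu o y ≠ 0 → ∀ a, g (chart G o o L y)
      (fderiv ℝ (chart G o o L) y a) (fderiv ℝ (chart G o o L) y a) = fsM n y a a := by
    intro y hy a
    by_cases hy' : hor o y = 0
    swap
    · exact k1 y hy hy' a
    obtain ⟨v, -, -, v0, v1, -⟩ := exists_ray (by have := B.two; omega) ho hy
    have v2 : v ≠ 0 := by
      rintro rfl
      exact ho (norm_eq_zero.1 (by rw [← v1, norm_zero]))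
    have c1 : ContinuousAt (fun y => g (chart G o o L y) (fderiv ℝ (chart G o o L) y a)
        (fderiv ℝ (chart G o o L) y a) - fsM n y a a) y := by
      have b1 : ContinuousAt (fun y => g (chart G o o L y)) y :=
        ((h.contDiffAt (hF y)).comp y (hc y hy)).continuousAt
      have b2 : ContinuousAt (fun y => fderiv ℝ (chart G o o L) y a) y :=
        (((hc y hy).fderiv_right (m := 0) (by simp)).continuousAt).clm_apply continuousAt_const
      have b3 := (isMetric_fsM.contDiffAt (hne y hy)).continuousAt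
      exact ((b1.clm_apply b2).clm_apply b2).sub
        ((b3.clm_apply continuousAt_const).clm_apply continuousAt_const)
    have c2 : Tendsto (fun ε : ℝ => y + ε • v) (𝓝[>] 0) (𝓝 y) := by
      have : Continuous fun ε : ℝ => y + ε • v := by fun_prop
      simpa using (this.tendsto 0).mono_left nhdsWithin_le_nhds
    have c3 := c1.tendsto.comp c2
    rw [← sub_eq_zero]
    refine tendsto_nhds_unique c3 (tendsto_const_nhds.congr' ?_)
    filter_upwards [self_mem_nhdsWithin] with ε hε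
    have hε0 : ε ≠ 0 := ne_of_gt hε
    have d1 : nu o (ε • v) = 0 := by rw [nu_rsmul, v0, smul_zero]
    have := k1 (y + ε • v) (by rwa [nu_add, d1, add_zero])
      (by rw [hor_add, hy', zero_add, hor_of_nu d1]; exact smul_ne_zero hε0 v2) a
    simp only [Function.comp, this, sub_self]
  intro y hy u w
  rw [← sub_eq_zero]
  refine rb_polar (f := fun u w => g (chart G o o L y) (fderiv ℝ (chart G o o L) y u)
    (fderiv ℝ (chart G o o L) y w) - fsM n y u w) (fun u w => ?_) (fun u v w => ?_)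
    (fun u => by rw [k2 y hy, sub_self]) u w
  · rw [h.symm _ _ _ (hF y), isMetric_fsM.symm _ _ _ (hne y hy)]
  · simp only [map_add, add_apply]
    ring

end Pool.Agent.Work.MP_8c604c_gt.H
end
end

-- merged part: Pool.Agent.Work.MP_8c604c_gt.B.Ix
section
/-!
The index form on equivariant fields: invariance, smoothness, and positivity on the fields without defect.
-/

set_option maxSynthPendingDepth 3
set_option linter.unusedSectionVars false

open Set Filter Topology MeasureTheory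
open scoped ContDiff Quaternion

noncomputable section
namespace Pool.Agent.Work.MP_8c604c_gt.H

open T B Real

variable {n : ℕ} {g : Met n}

theorem ix_open : IsOpen {p : ℝ × VV n | p.2 ∈ OO n} := isOpen_OO.preimage continuous_snd

theorem IsMetric.D2_smul (h : IsMetric g) {l : ℍ} (hl : l ≠ 0) {p : VV n} (hp : p.1 ≠ 0)
    (a b : VV n) : D2 g (l • p) (l • a) (l • b) = D2 g p a b := by
  set T : VV n →L[ℝ] VV n := l • ContinuousLinearMap.id ℝ (VV n)
  have m : ∀ q : VV n, q.1 ≠ 0 → (T q).1 ≠ 0 := fun q hq => smul_ne_zero hl hq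
  have o : ∀ q : VV n, q.1 ≠ 0 → {q : VV n | q.1 ≠ 0} ∈ 𝓝 q := fun q hq => nc_open.mem_nhds hq
  have e1 : ∀ q : VV n, q.1 ≠ 0 → (fderiv ℝ (Lg g) (T q)) (T b) = fderiv ℝ (Lg g) q b :=
    fun q hq => by
      have d := ((h.contDiffOn_Lg.contDiffAt (o _ (m q hq))).differentiableAt (by simp)).hasFDerivAt
      have e : (fun q => Lg g (T q)) =ᶠ[𝓝 q] Lg g := by
        filter_upwards [o q hq] with y hy
        exact congrArg (1 / 2 * ·) (h.inv l _ _ _ hl hy)
      rw [← e.fderiv_eq]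
      exact (DFunLike.congr_fun (d.comp q T.hasFDerivAt).fderiv b).symm
  have d : ∀ q : VV n, q.1 ≠ 0 → HasFDerivAt (fderiv ℝ (Lg g)) (fderiv ℝ (fderiv ℝ (Lg g)) q) q :=
    fun q hq => (((h.contDiffOn_Lg.fderiv_of_isOpen nc_open (m := ∞) (by simp)).contDiffAt
      (o q hq)).differentiableAt (by simp)).hasFDerivAt
  have d1 := ((d _ (m p hp)).comp p T.hasFDerivAt).clm_apply (hasFDerivAt_const (T b) p)
  have d2 := (d p hp).clm_apply (hasFDerivAt_const b p)
  have := DFunLike.congr_fun (d1.unique (d2.congr_of_eventuallyEq (by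
    filter_upwards [o p hp] with y hy using e1 y hy))) a
  simpa [D2, T] using this

namespace Geo
variable (G : Geo g) (h : IsMetric g)
include h

section
variable {F : Type} [NormedAddCommGroup F] [NormedSpace ℝ F] {f : VV n → F}

theorem ix_smooth (hf : ContDiffOn ℝ ∞ f (OO n)) :
    ContDiffOn ℝ ∞ (fun q : ℝ × VV n => f (G.psi q.1 q.2)) {p | p.2 ∈ OO n} :=
  hf.comp (G.contDiffOn_psi h) fun p hp => G.psi_mem h p.1 hp

theorem ix_diff (hf : ContDiffOn ℝ ∞ f (OO n)) (t : ℝ) {x : VV n} (hx : x ∈ OO n) :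
    HasDerivAt (fun s => f (G.psi s x))
      (fderiv ℝ (fun q : ℝ × VV n => f (G.psi q.1 q.2)) (t, x) (1, 0)) t :=
  jac_fst (F := fun s y => f (G.psi s y))
    (((G.ix_smooth h hf).contDiffAt (ix_open.mem_nhds hx)).differentiableAt (by simp))

theorem ix_deriv (hf : ContDiffOn ℝ ∞ f (OO n)) (t : ℝ) {x : VV n} (hx : x ∈ OO n) :
    HasDerivAt (fun s => f (G.psi s x)) (deriv (fun s => f (G.psi s (G.psi t x))) 0) t := by
  have h1 := (G.ix_diff h hf 0 (G.psi_mem h t hx)).differentiableAt.hasDerivAt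
  rw [← sub_self t] at h1
  have h2 := h1.comp_sub_const t t
  rw [sub_self] at h2
  refine h2.congr_of_eventuallyEq (Eventually.of_forall fun s => ?_)
  simp only
  rw [← G.psi_add h _ _ hx, sub_add_cancel]

theorem ix_dsmooth (hf : ContDiffOn ℝ ∞ f (OO n)) :
    ContDiffOn ℝ ∞ (fun x => deriv (fun s => f (G.psi s x)) 0) (OO n) := by
  have h1 := ((G.ix_smooth h hf).fderiv_of_isOpen ix_open (m := ∞) (by simp)).clm_apply
    (contDiffOn_const (c := ((1, 0) : ℝ × VV n)))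
  exact (h1.comp (f := fun x : VV n => ((0, x) : ℝ × VV n)) (by fun_prop) fun x hx => hx).congr
    fun x hx => (G.ix_diff h hf 0 hx).deriv

theorem ix_line (hf : ContinuousOn f (OO n)) {x : VV n} (hx : x ∈ OO n) :
    Continuous fun t => f (G.psi t x) :=
  hf.comp_continuous ((G.contDiffOn_psi h).continuousOn.comp_continuous
    (f := fun t : ℝ => (t, x)) (by fun_prop) fun _ => hx) fun t => G.psi_mem h t hx

end

variable {ξ η : VV n → E n}

theorem hasDerivAt_dt (hξ : ContDiffOn ℝ ∞ ξ (OO n)) (t : ℝ) {x : VV n} (hx : x ∈ OO n) :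
    HasDerivAt (fun s => ξ (G.psi s x)) (G.dt ξ (G.psi t x)) t := G.ix_deriv h hξ t hx

theorem contDiffOn_dt (hξ : ContDiffOn ℝ ∞ ξ (OO n)) : ContDiffOn ℝ ∞ (G.dt ξ) (OO n) :=
  G.ix_dsmooth h hξ

theorem dt_eqv (hξ : ContDiffOn ℝ ∞ ξ (OO n)) (he : Eqv ξ) : Eqv (G.dt ξ) := by
  intro l m c x hl hm hx
  have h1 := (G.ix_diff h hξ 0 hx).differentiableAt.hasDerivAt.const_smul l
  refine (h1.congr_of_eventuallyEq (Eventually.of_forall fun s => ?_)).deriv
  simp only [Pi.smul_apply]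
  rw [G.psi_act h s c hl hm hx, he _ _ _ _ hl hm (G.psi_mem h s hx)]

theorem q2_inv (hξ : Fld g ξ) (hη : Fld g η) : Inv (G.q2 ξ η) := by
  intro l m c x hl hm hx
  rw [q2, q2, h.vel_eqv _ _ _ _ hl hm hx, hξ.eqv _ _ _ _ hl hm hx, hη.eqv _ _ _ _ hl hm hx,
    G.dt_eqv h hξ.smooth hξ.eqv _ _ _ _ hl hm hx, G.dt_eqv h hη.smooth hη.eqv _ _ _ _ hl hm hx]
  exact h.D2_smul hl (p := (x.1, vel g x)) hx.1 (ξ x, G.dt ξ x) (η x, G.dt η x)

theorem ix_second : ContDiffOn ℝ ∞
    (fun x : VV n => fderiv ℝ (fderiv ℝ (Lg g)) ((x.1, vel g x) : VV n)) (OO n) :=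
  ((h.contDiffOn_Lg.fderiv_of_isOpen nc_open (m := ∞) (by simp)).fderiv_of_isOpen nc_open
    (m := ∞) (by simp)).comp (contDiffOn_fst.prodMk h.contDiffOn_vel) fun _ hx => hx.1

theorem contDiffOn_q2 (hξ : ContDiffOn ℝ ∞ ξ (OO n)) (hη : ContDiffOn ℝ ∞ η (OO n)) :
    ContDiffOn ℝ ∞ (G.q2 ξ η) (OO n) :=
  ((ix_second h).clm_apply (hξ.prodMk (G.contDiffOn_dt h hξ))).clm_apply
    (hη.prodMk (G.contDiffOn_dt h hη))

theorem contDiffOn_ix (hξ : ContDiffOn ℝ ∞ ξ (OO n)) (hη : ContDiffOn ℝ ∞ η (OO n)) :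
    ContDiffOn ℝ ∞ (G.ix ξ η) (OO n) :=
  contDiffOn_integral isOpen_OO (G.ix_smooth h (G.contDiffOn_q2 h hξ hη)) 0 π

theorem ix_inv (hξ : Fld g ξ) (hη : Fld g η) : Inv (G.ix ξ η) := by
  intro l m c x hl hm hx
  refine intervalIntegral.integral_congr fun t _ => ?_
  rw [G.psi_act h t c hl hm hx, G.q2_inv h hξ hη _ _ _ _ hl hm (G.psi_mem h t hx)]

theorem ix_symm {x : VV n} (hx : x ∈ OO n) : G.ix ξ η x = G.ix η ξ x :=
  intervalIntegral.integral_congr fun t _ =>
    h.D2_symm (p := (G.Z t x, vel g (G.psi t x))) (G.Z_ne h t hx) _ _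

theorem bkL_act {l : ℍ} {m : ℝ} (c : ℍ) {x : VV n} (hl : l ≠ 0) (hm : 0 < m) (hx : x ∈ OO n)
    (u : E n) : G.bkL (act l m c x) (l • u) = l • G.bkL x u := by
  rw [bkL_apply, bkL_apply, G.psi_act h _ c hl hm hx,
    ← G.JJ_act h _ c hl hm (G.psi_mem h _ hx), nu_act m c hx.1]
  congr 1
  simp only [act]
  rw [smul_smul, inv_mul_cancel_right₀ hl, mul_smul, add_smul, smul_assoc]

theorem rho_eqv (he : Eqv ξ) : Eqv (G.rho ξ) := by
  intro l m c x hl hm hx
  rw [rho, rho, he _ _ _ _ hl hm hx, G.psi_act h _ c hl hm hx,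
    he _ _ _ _ hl hm (G.psi_mem h _ hx), G.bkL_act h c hl hm hx, smul_sub]

theorem continuousOn_bkL : ContinuousOn G.bkL (OO n) := by
  have h1 : ContinuousOn (G.psi (π / 2)) (OO n) := fun x hx =>
    (G.jac_dpsi h _ hx).continuousAt.continuousWithinAt
  refine continuousOn_clm_apply.2 fun u => ?_
  simp only [bkL_apply]
  refine ContinuousOn.clm_apply ((G.contDiffOn_JJ h).continuousOn.comp (f := fun x => (-(π / 2), G.psi (π / 2) x))
      (continuousOn_const.prodMk h1) fun x hx => G.psi_mem h _ hx) ?_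
  exact continuousOn_const.prodMk (((contDiffOn_nuL.continuousOn.comp continuousOn_fst
    fun _ hx => hx.1).clm_apply continuousOn_snd).smul continuousOn_const)

theorem rho_perp (hξ : Fld g ξ) {x : VV n} (hx : x ∈ OO n) :
    g x.1 (vel g x) (G.rho ξ x) = 0 := by
  have hy := G.psi_mem h (π / 2) hx
  have a := G.al_inv h (-(π / 2)) hy
    (ξ (G.psi (π / 2) x), nu x.1 x.2 • ξ (G.psi (π / 2) x))
  rw [G.ik_Z h _ hx, G.ik_back h _ hx] at a
  rw [rho, map_sub, hξ.perp x hx, bkL_apply, a, zero_sub, neg_eq_zero]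
  exact hξ.perp _ hy

end Geo

namespace Bl
variable {G : Geo g} (B : Bl g G) {ξ η : VV n → E n}
include B

theorem inv_per {α : Type} {f : VV n → α} (hf : Inv f) {x : VV n} (hx : x ∈ OO n) :
    Function.Periodic (fun t => f (G.psi t x)) π := fun t => by
  obtain ⟨c, hc⟩ := B.psi_add_pi t hx
  simp only
  rw [hc, hf _ _ _ _ (B.hol_ne hx) one_pos (G.psi_mem B.met t hx)]

theorem eqv_pi (he : Eqv ξ) (t : ℝ) {x : VV n} (hx : x ∈ OO n) :
    ξ (G.psi (t + π) x) = nu x.1 (G.Z π x) • ξ (G.psi t x) := by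
  obtain ⟨c, hc⟩ := B.psi_add_pi t hx
  rw [hc, he _ _ _ _ (B.hol_ne hx) one_pos (G.psi_mem B.met t hx)]

theorem ix_shift (hξ : Fld g ξ) (hη : Fld g η) {x : VV n} (hx : x ∈ OO n) (s : ℝ) :
    G.ix ξ η x = ∫ t in s..s + π, G.q2 ξ η (G.psi t x) := by
  rw [(B.inv_per (G.q2_inv B.met hξ hη) hx).intervalIntegral_add_eq s 0, zero_add, Geo.ix]

theorem ix_psi (hξ : Fld g ξ) (hη : Fld g η) (s : ℝ) {x : VV n} (hx : x ∈ OO n) :
    G.ix ξ η (G.psi s x) = G.ix ξ η x := by
  rw [B.ix_shift hξ hη hx s, Geo.ix]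
  simp only [← G.psi_add B.met _ _ hx]
  rw [intervalIntegral.integral_comp_add_right (fun t => G.q2 ξ η (G.psi t x)), zero_add,
    add_comm π]

/-- The index form is nonnegative on the fields whose defect is orthogonal to `KS x`. -/
theorem ix_nonneg (hξ : Fld g ξ) {x : VV n} (hx : x ∈ OO n)
    (h1 : ∀ u ∈ G.KS x, g x.1 u (G.rho ξ x) = 0) : 0 ≤ G.ix ξ ξ x := by
  have h := B.met
  have hy := G.psi_mem h (π / 2) hx
  obtain ⟨w, c, hw⟩ := G.ik_range h hx (G.rho_perp h hξ hx) h1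
  have k := G.JJ_add h (π / 2) (-(π / 2)) hy
    ((ξ (G.psi (π / 2) x), nu x.1 x.2 • ξ (G.psi (π / 2) x)) + (0, w))
  rw [add_neg_cancel, G.ik_back h _ hx, G.JJ_zero h hy] at k
  refine B.io_idx hx (fun t => G.hasDerivAt_dt h hξ.smooth t hx)
    (G.ix_line h (G.contDiffOn_dt h hξ.smooth).continuousOn hx) ?_
    (δ := fderiv ℝ (G.psi (-(π / 2))) (G.psi (π / 2) x)
      ((ξ (G.psi (π / 2) x), nu x.1 x.2 • ξ (G.psi (π / 2) x)) + (0, w))) (c := c) (d := 0) ?_ ?_
  · simpa only [zero_add] using B.eqv_pi hξ.eqv 0 hx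
  · rw [G.fst_fderiv_psi h _ hy, map_add, add_assoc, ← hw, Geo.rho, Geo.bkL_apply,
      G.psi_zero h hx, add_sub_cancel]
  · rw [← k]
    simp

end Bl

end Pool.Agent.Work.MP_8c604c_gt.H
end
end

-- merged part: Pool.Agent.Work.MP_8c604c_gt.B.IxF
section
/-!
The index form of a linear family of fields as a bilinear map.
-/

set_option maxSynthPendingDepth 3
set_option linter.unusedSectionVars false

open Set Filter Topology MeasureTheory
open scoped ContDiff Quaternion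

noncomputable section
namespace Pool.Agent.Work.MP_8c604c_gt.H

open T B Real

variable {n : ℕ} {g : Met n} {V : Type} [NormedAddCommGroup V] [NormedSpace ℝ V]
  [FiniteDimensional ℝ V]

theorem Fld.fam {X : VV n → V →L[ℝ] E n} (hX : ∀ a, Fld g fun x => X x a) :
    ContDiffOn ℝ ∞ X (OO n) := contDiffOn_clm_apply.2 fun a => (hX a).smooth

namespace Geo
variable (G : Geo g)

/-- The derivative of a family along the flow. -/
def dX (X : VV n → V →L[ℝ] E n) (x : VV n) : V →L[ℝ] E n := deriv (fun s => X (G.psi s x)) 0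

/-- The density of the second variation of a family. -/
def q2B (X : VV n → V →L[ℝ] E n) (x : VV n) : V →L[ℝ] V →L[ℝ] ℝ :=
  (fderiv ℝ (fderiv ℝ (Lg g)) ((x.1, vel g x) : VV n)).bilinearComp ((X x).prod (G.dX X x))
    ((X x).prod (G.dX X x))

/-- The index form of a family. -/
def ixB (X : VV n → V →L[ℝ] E n) (x : VV n) : V →L[ℝ] V →L[ℝ] ℝ :=
  ∫ t in (0 : ℝ)..π, G.q2B X (G.psi t x)

variable (h : IsMetric g) {X : VV n → V →L[ℝ] E n} (hX : ContDiffOn ℝ ∞ X (OO n))
include h hX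

theorem contDiffOn_dX : ContDiffOn ℝ ∞ (G.dX X) (OO n) := G.ix_dsmooth h hX

theorem dX_apply {x : VV n} (hx : x ∈ OO n) (a : V) : G.dt (fun y => X y a) x = G.dX X x a := by
  have h1 := (G.ix_diff h hX 0 hx).differentiableAt.hasDerivAt.clm_apply
    (hasDerivAt_const (0 : ℝ) a)
  rw [map_zero, add_zero] at h1
  exact h1.deriv

theorem q2B_apply {x : VV n} (hx : x ∈ OO n) (a b : V) :
    G.q2B X x a b = G.q2 (fun y => X y a) (fun y => X y b) x := by
  rw [q2, G.dX_apply h hX hx, G.dX_apply h hX hx]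
  rfl

theorem contDiffOn_q2B : ContDiffOn ℝ ∞ (G.q2B X) (OO n) :=
  contDiffOn_clm_apply.2 fun a => contDiffOn_clm_apply.2 fun b =>
    (G.contDiffOn_q2 h (hX.clm_apply (contDiffOn_const (c := a)))
      (hX.clm_apply (contDiffOn_const (c := b)))).congr fun _ hx => G.q2B_apply h hX hx a b

theorem contDiffOn_ixB : ContDiffOn ℝ ∞ (G.ixB X) (OO n) :=
  contDiffOn_integral isOpen_OO (G.ix_smooth h (G.contDiffOn_q2B h hX)) 0 π

theorem ixB_apply {x : VV n} (hx : x ∈ OO n) (a b : V) :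
    G.ixB X x a b = G.ix (fun y => X y a) (fun y => X y b) x := by
  have c := G.ix_line h (G.contDiffOn_q2B h hX).continuousOn hx
  rw [ixB, ContinuousLinearMap.intervalIntegral_apply (c.intervalIntegrable _ _),
    ContinuousLinearMap.intervalIntegral_apply
      ((c.clm_apply continuous_const).intervalIntegrable _ _)]
  exact intervalIntegral.integral_congr fun t _ => G.q2B_apply h hX (G.psi_mem h t hx) a b

end Geo

end Pool.Agent.Work.MP_8c604c_gt.H
end
end

-- merged part: Pool.Agent.Work.MP_8c604c_gt.B.NegF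
section
/-!
Extension of fields along one closed geodesic to equivariant fields, and a negative family at every point.
-/

set_option maxSynthPendingDepth 3
set_option linter.unusedSectionVars false

open Set Filter Topology MeasureTheory
open scoped ContDiff Quaternion

noncomputable section
namespace Pool.Agent.Work.MP_8c604c_gt.H

open T B Real

variable {n : ℕ} {g : Met n}

theorem nf_far {z : ℂ} (h0 : z ≠ 0) (hz : z ∉ Complex.slitPlane) :
    ∀ᶠ w in 𝓝 z, 3 * π / 8 ≤ |w.arg / 2| := by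
  have hπ := pi_pos
  have h1 : z.arg = π := by
    by_contra k
    exact hz (Complex.mem_slitPlane_iff_arg.2 ⟨k, h0⟩)
  have h2 : z.re / ‖z‖ < cos (3 * π / 4) := by
    rw [← Complex.cos_arg h0, h1]
    exact cos_lt_cos_of_nonneg_of_le_pi (by positivity) le_rfl (by linarith)
  have h3 : ContinuousAt (fun w : ℂ => w.re / ‖w‖) z :=
    Complex.continuous_re.continuousAt.div continuous_norm.continuousAt (norm_ne_zero_iff.2 h0)
  filter_upwards [h3.eventually_lt_const h2, isOpen_ne.mem_nhds h0] with w h4 h5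
  by_contra k
  rw [not_le, abs_div, abs_two] at k
  rw [← Complex.cos_arg h5, ← cos_abs] at h4
  exact (cos_le_cos_of_nonneg_of_le_pi (abs_nonneg _) (by linarith) (by linarith)).not_gt h4

/-- A function of the phase with support away from the branch cut and from the origin is smooth. -/
theorem nf_smooth {F : Type} [NormedAddCommGroup F] [NormedSpace ℝ F] {η : ℝ → F}
    (hη : ContDiff ℝ ∞ η) (h0 : ∀ t, 3 * π / 8 ≤ |t| → η t = 0) :
    ContDiff ℝ ∞ fun w : ℂ => smoothTransition (2 * ‖w‖ ^ 2 - 1) • η (w.arg / 2) := by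
  refine contDiff_iff_contDiffAt.2 fun z => ?_
  by_cases hz : z = 0
  · refine (contDiffAt_const (c := (0 : F))).congr_of_eventuallyEq ?_
    have h3 : ContinuousAt (fun w : ℂ => 2 * ‖w‖ ^ 2 - 1) z := by fun_prop
    filter_upwards [h3.eventually_lt_const (show 2 * ‖z‖ ^ 2 - 1 < 0 by simp [hz])] with w hw
    rw [smoothTransition.zero_of_nonpos hw.le, zero_smul]
  by_cases hs : z ∈ Complex.slitPlane
  · have h1 : ContDiffAt ℝ ∞ Complex.log z := (analyticAt_clog hs).contDiffAt.restrict_scalars ℝ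
    have h2 : ContDiffAt ℝ ∞ (fun w : ℂ => w.arg / 2) z := by
      simp only [← Complex.log_im]
      exact (Complex.imCLM.contDiff.contDiffAt.comp z h1).div_const _
    exact (smoothTransition.contDiff.comp
      ((contDiff_const.mul (contDiff_norm_sq ℝ)).sub contDiff_const)).contDiffAt.smul
      (hη.contDiffAt.comp z h2)
  · refine (contDiffAt_const (c := (0 : F))).congr_of_eventuallyEq ?_
    filter_upwards [nf_far hz hs] with w hw
    rw [h0 _ hw, smul_zero]

namespace Bl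
variable {G : Geo g} (B : Bl g G)
include B

theorem nf_ext {V : Type} [NormedAddCommGroup V] [NormedSpace ℝ V] {x : VV n} (hx : x ∈ OO n)
    {η : ℝ → V →L[ℝ] E n} (hη : ContDiff ℝ ∞ η) (h0 : ∀ t, 3 * π / 8 ≤ |t| → η t = 0)
    (hp : ∀ t a, g (G.Z t x) (vel g (G.psi t x)) (η t a) = 0) :
    ∃ X : VV n → V →L[ℝ] E n, (∀ a, Fld g fun y => X y a) ∧
      ∀ t ∈ Ioc (-(π / 2)) (π / 2), X (G.psi t x) = η t := by
  have h := B.met
  obtain ⟨f, f1, f2, f3, f4⟩ := B.exists_phase hx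
  let b : ℝ → E n →L[ℝ] V →L[ℝ] E n := fun t =>
    (((ContinuousLinearMap.compL ℝ V (E n) (E n)).flip (η t)).comp
      (ContinuousLinearMap.lsmul ℝ ℍ)).comp (nuL (G.Z t x))
  have hb : ∀ t z a, b t z a = nu (G.Z t x) z • η t a := fun t z a => rfl
  have b1 : ContDiff ℝ ∞ b :=
    (((ContinuousLinearMap.compL ℝ V (E n) (E n)).flip.contDiff.comp hη).clm_comp
      contDiff_const).clm_comp (contDiffOn_nuL.comp_contDiff
        (Geo.no_line h (G.contDiffOn_Z h) hx) fun t => G.Z_ne h t hx)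
  have b2 := nf_smooth b1 fun t ht => by ext z a : 2; rw [hb, h0 t ht]; simp
  let Y : VV n → V →L[ℝ] E n := fun y =>
    (smoothTransition (2 * ‖f y / f x‖ ^ 2 - 1) • b ((f y / f x).arg / 2)) y.1
  have Y1 : ContDiffOn ℝ ∞ Y (OO n) :=
    (b2.comp_contDiffOn (f1.div_const _)).clm_apply contDiffOn_fst
  have Y2 : ∀ a, Eqv fun y => Y y a := fun a l m c y hl hm hy => by
    simp only [Y, f2 l m c y hl hm hy, smul_apply, hb]
    rw [act, nu_smul, mul_smul, smul_comm]
  refine ⟨fun y => (ContinuousLinearMap.id ℝ (E n) - (g y.1 (vel g y)).smulRight (vel g y)).comp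
    (Y y), fun a => ⟨?_, fun l m c y hl hm hy => ?_, fun y hy => ?_⟩, fun t ht => ?_⟩
  · have Y3 := Y1.clm_apply (contDiffOn_const (c := a))
    exact Y3.sub ((((h.smooth.comp contDiffOn_fst fun _ hy => hy.1).clm_apply
      h.contDiffOn_vel).clm_apply Y3).smul h.contDiffOn_vel)
  · have := Y2 a l m c y hl hm hy
    simp only at this
    simp only [ContinuousLinearMap.comp_apply, sub_apply, ContinuousLinearMap.id_apply,
      ContinuousLinearMap.smulRight_apply]
    rw [this, h.vel_eqv _ _ _ _ hl hm hy, smul_sub, smul_comm l]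
    exact congrArg (fun r : ℝ => l • Y y a - r • l • vel g y) (h.inv l _ _ _ hl hy.1)
  · simp [h.vel_unit hy]
  · have e : f (G.psi t x) / f x = Complex.exp ((2 * t : ℝ) * Complex.I) := by
      rw [f4 t x hx, mul_div_cancel_right₀ _ f3]
      push_cast
      rfl
    have e1 : (f (G.psi t x) / f x).arg / 2 = t := by
      rw [e, Complex.exp_mul_I, Complex.arg_cos_add_sin_mul_I ⟨by linarith [ht.1], by linarith [ht.2]⟩]
      ring
    have e2 : ‖f (G.psi t x) / f x‖ = 1 := by rw [e, Complex.norm_exp_ofReal_mul_I]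
    ext1 a
    have e3 : Y (G.psi t x) a = η t a := by
      simp only [Y, e1, e2, smul_apply, hb]
      rw [show (G.psi t x).1 = G.Z t x from rfl, nu_self (G.Z_ne h t hx)]
      norm_num
    simp only [ContinuousLinearMap.comp_apply, sub_apply, ContinuousLinearMap.id_apply,
      ContinuousLinearMap.smulRight_apply, e3]
    rw [show (G.psi t x).1 = G.Z t x from rfl, hp, zero_smul, sub_zero]

/-- A family of fields on which the index form at `y` is negative definite. -/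
theorem nf_neg {k : ℕ} (hk : ∀ x ∈ OO n, G.kk x = k) {y : VV n} (hy : y ∈ OO n) :
    ∃ X : VV n → RN k →L[ℝ] E n, (∀ a, Fld g fun x => X x a) ∧
      ∀ a, a ≠ 0 → G.ix (fun x => X x a) (fun x => X x a) y < 0 := by
  have h := B.met
  have hπ := pi_pos
  obtain ⟨x, hx, rfl⟩ : ∃ x ∈ OO n, y = G.psi (π / 4) x := ⟨_, G.psi_mem h (-(π / 4)) hy, by
    rw [← G.psi_add h _ _ hy, add_neg_cancel, G.psi_zero h hy]⟩
  obtain ⟨α, β, s1, s2, h0, hn⟩ := G.no_neg h hx
  obtain ⟨K, hK⟩ := G.exists_isK' h hx (κ := Fin k) (by rw [Fintype.card_fin, hk x hx])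
  let L : RN k →L[ℝ] E n := ∑ i, (EuclideanSpace.proj i : RN k →L[ℝ] ℝ).smulRight (K i)
  have hL : ∀ a, L a = ∑ i, a i • K i := fun a => by simp [L]
  have Lm : ∀ a, L a ∈ G.KS x := fun a => hL a ▸ hK.sum_mem h hx _
  let η : ℝ → RN k →L[ℝ] E n := fun t => (G.JJ t x).comp ((α t • L).prod (β t • L))
  have hη : ∀ t a, η t a = G.JJ t x (α t • L a, β t • L a) := fun t a => rfl
  have η1 : ContDiff ℝ ∞ η := contDiff_clm_apply_iff.2 fun a =>
    (Geo.no_line h (G.contDiffOn_JJ h) hx).clm_apply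
      ((s1.smul contDiff_const).prodMk (s2.smul contDiff_const))
  obtain ⟨X, X1, X2⟩ := B.nf_ext hy (η := fun t => η (t + π / 4))
    (η1.comp (contDiff_id.add contDiff_const)) (fun t ht => by
      obtain ⟨a1, a2⟩ := h0 (t + π / 4) (by
        rcases le_abs.1 ht with k | k
        · exact Or.inr (by linarith)
        · exact Or.inl (by linarith))
      ext1 a
      simp [hη, a1, a2, Prod.mk_zero_zero]) fun t a => by
      rw [dist_Z_add G h _ _ hx, ← G.psi_add h _ _ hx, hη, G.al_inv h _ hx]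
      simp [al, h.ik_perp hx (Lm a)]
  refine ⟨X, X1, fun a ha => ?_⟩
  have u0 : L a ≠ 0 := fun k => ha (by
    ext j
    have := congrArg (g x.1 (K j)) ((hL a).symm.trans k)
    simpa [hK.on] using this)
  have e : ∀ t ∈ Ioo (-(π / 4)) (3 * π / 4), X (G.psi t x) a = G.JJ t x (α t • L a, β t • L a) :=
    fun t ht => by
      have := X2 (t - π / 4) ⟨by linarith [ht.1], by linarith [ht.2]⟩
      rw [← G.psi_add h _ _ hx, sub_add_cancel] at this
      rw [this, hη]
  rw [B.ix_psi (X1 a) (X1 a) _ hx, B.ix_shift (X1 a) (X1 a) hx (-(π / 4)),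
    show -(π / 4) + π = 3 * π / 4 by ring]
  refine (intervalIntegral.integral_congr_Ioo_of_le (by linarith) fun t ht => ?_).trans_lt
    (hn _ (Lm a) u0)
  have d : G.dt (fun x => X x a) (G.psi t x) =
      deriv (fun s => G.JJ s x (α s • L a, β s • L a)) t := by
    rw [← (G.hasDerivAt_dt h (X1 a).smooth t hx).deriv]
    exact EventuallyEq.deriv_eq (by filter_upwards [Ioo_mem_nhds ht.1 ht.2] with s hs using e s hs)
  simp only [Geo.q2, d, e t ht]
  rfl

end Bl

end Pool.Agent.Work.MP_8c604c_gt.H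
end
end
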