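import Pool.Agent.Work.MP_8c604c_gt.C.Change
import Pool.Agent.Work.MP_8c604c_gt.O.BKG
import Pool.Agent.Work.MP_8c604c_gt.B.NegF
import Pool.Agent.Work.MP_8c604c_gt.C.Count
import Pool.Agent.Work.MP_8c604c_gt.H.Base
import Pool.Agent.Work.MP_8c604c_gt.H.Dist
import Pool.Agent.Work.MP_8c604c_gt.H.RigC
import Pool.Agent.Work.MP_8c604c_gt.B.G4A

-- merged part: Pool.Agent.Work.MP_8c604c_gt.H.Vol
section
-- merged part: Pool.Agent.Work.MP_8c604c_gt.H.Liou
section
/-!
Liouville theorem for the unit speed flow upstairs. Port of ../Liou.lean (copy its lemmas, do not import it).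
Changes. liouN x is quaternion valued; the vertical part of liouB is (a,b) -> inner (liouN x a) (nu x.1 b.1) - inner (liouN x b) (nu x.1 a.1)
(one term instead of the two wedge products), so liouB_fibre is GG_apply. sigma a = nu (psi t x).1 (T a).1 - nu x.1 a.1 is quaternion valued,
w c = c . x - (0, liouN x (c . x) . x.1) is a real linear map from the quaternions into Bdir x (mem_Bdir) with nu x.1 (w c).1 = c, liouN x (w c) = 0 (liouN_fibre),
D spd (w c) = 0 (spd is invariant under act l 1 c: jac_act, or liou_rot with the curve qe c s . x), sigma (w c) = 0 (JJ_gauge, JJ_Bs).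
U = 1 + w o sigma replaces the transvection, det U = det (1 + sigma o w) = 1 (Matrix.det_one_add_mul_comm after LinearMap.toMatrix). liou_rho is not needed.
-/

set_option maxSynthPendingDepth 3

open Set Filter Topology MeasureTheory
open scoped ContDiff Quaternion

noncomputable section
namespace Pool.Agent.Work.MP_8c604c_gt.H

open Real

variable {n : ℕ} {g : Met n}

section LinAlg
variable {W : Type} [AddCommGroup W] [Module ℝ W] {ι : Type} [Fintype ι] [DecidableEq ι]

theorem liou_gram_comp (b : Module.Basis ι ℝ W) (B : LinearMap.BilinForm ℝ W) (T : W →ₗ[ℝ] W) :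
    (LinearMap.BilinForm.toMatrix b (B.comp T T)).det =
      LinearMap.det T ^ 2 * (LinearMap.BilinForm.toMatrix b B).det := by
  rw [LinearMap.BilinForm.toMatrix_comp b b, Matrix.det_mul, Matrix.det_mul, Matrix.det_transpose,
    LinearMap.det_toMatrix]
  ring

theorem liou_gram_block (b : Module.Basis ι ℝ W) (B : LinearMap.BilinForm ℝ (W × W))
    (Gm : W → W → ℝ) (hA : ∀ a c, B a c = -B c a) (h0 : ∀ u c, B (0, u) c = Gm u c.1)
    (hz : ∀ u, Gm u 0 = 0) :
    (LinearMap.BilinForm.toMatrix (b.prod b) B).det *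
        (Matrix.fromBlocks 0 1 1 0 : Matrix (ι ⊕ ι) (ι ⊕ ι) ℝ).det =
      (-1) ^ Fintype.card ι * (Matrix.of fun i j => Gm (b i) (b j)).det ^ 2 := by
  have e : LinearMap.BilinForm.toMatrix (b.prod b) B =
      Matrix.fromBlocks (Matrix.of fun i j => B (b i, 0) (b j, 0))
        (-(Matrix.of fun i j => Gm (b i) (b j)).transpose)
        (Matrix.of fun i j => Gm (b i) (b j)) 0 := by
    ext i j
    rcases i with i | i <;> rcases j with j | j
    · simp [Module.Basis.prod_apply]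
    · simp [Module.Basis.prod_apply, hA (b i, 0), h0]
    · simp [Module.Basis.prod_apply, h0]
    · simp [Module.Basis.prod_apply, h0, hz]
  rw [← Matrix.det_mul, e, Matrix.fromBlocks_multiply]
  simp only [Matrix.mul_zero, Matrix.mul_one, zero_add, add_zero]
  rw [Matrix.det_fromBlocks_zero₂₁, Matrix.det_neg, Matrix.det_transpose]
  ring

theorem liou_alg (b : Module.Basis ι ℝ W) (B B' : LinearMap.BilinForm ℝ (W × W))
    (Gm Gm' : W → W → ℝ) (hA : ∀ a c, B a c = -B c a) (h0 : ∀ u c, B (0, u) c = Gm u c.1)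
    (hz : ∀ u, Gm u 0 = 0) (hA' : ∀ a c, B' a c = -B' c a) (h0' : ∀ u c, B' (0, u) c = Gm' u c.1)
    (hz' : ∀ u, Gm' u 0 = 0) (T : (W × W) →ₗ[ℝ] (W × W)) (σ : (W × W) →ₗ[ℝ] ℍ)
    (w : ℍ →ₗ[ℝ] (W × W)) (hσ : σ ∘ₗ w = 0)
    (h : ∀ a c, B' (T a) (T c) = B (a + w (σ a)) (c + w (σ c))) :
    LinearMap.det T ^ 2 * (Matrix.of fun i j => Gm' (b i) (b j)).det ^ 2 =
      (Matrix.of fun i j => Gm (b i) (b j)).det ^ 2 := by
  have e : B'.comp T T = B.comp (LinearMap.id + w ∘ₗ σ) (LinearMap.id + w ∘ₗ σ) :=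
    LinearMap.ext fun a => LinearMap.ext fun c => h a c
  have h1 := liou_gram_comp (b.prod b) B' T
  have h2 := liou_gram_comp (b.prod b) B (LinearMap.id + w ∘ₗ σ)
  have d : LinearMap.det (LinearMap.id + w ∘ₗ σ) = 1 := by
    let q := Module.finBasis ℝ ℍ
    rw [← LinearMap.det_toMatrix (b.prod b), map_add, LinearMap.toMatrix_id,
      LinearMap.toMatrix_comp _ q, Matrix.det_one_add_mul_comm, ← LinearMap.toMatrix_comp, hσ,
      map_zero, add_zero, Matrix.det_one]
  rw [d] at h2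
  have h3 := liou_gram_block b B Gm hA h0 hz
  have h4 := liou_gram_block b B' Gm' hA' h0' hz'
  rw [e, h2] at h1
  have h5 : ((-1 : ℝ)) ^ Fintype.card ι ≠ 0 := pow_ne_zero _ (by norm_num)
  apply mul_left_cancel₀ h5
  rw [← h3, mul_left_comm, ← h4, ← mul_assoc, ← h1]
  ring

end LinAlg

/-- Wedge product of two linear forms. -/
def liouW (α β : VV n →L[ℝ] ℝ) : LinearMap.BilinForm ℝ (VV n) :=
  LinearMap.mk₂ ℝ (fun a b => α a * β b - α b * β a)
    (fun _ _ _ => by simp only [map_add]; ring)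
    (fun _ _ _ => by simp only [map_smul, smul_eq_mul]; ring)
    (fun _ _ _ => by simp only [map_add]; ring)
    (fun _ _ _ => by simp only [map_smul, smul_eq_mul]; ring)

/-- Wedge product of two quaternion valued forms. -/
def liouV (α β : VV n →L[ℝ] ℍ) : LinearMap.BilinForm ℝ (VV n) :=
  LinearMap.mk₂ ℝ (fun a b => inner ℝ (α a) (β b) - inner ℝ (α b) (β a))
    (fun _ _ _ => by simp only [map_add, inner_add_left, inner_add_right]; ring)
    (fun _ _ _ => by
      simp only [map_smul, real_inner_smul_left, real_inner_smul_right, smul_eq_mul]; ring)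
    (fun _ _ _ => by simp only [map_add, inner_add_left, inner_add_right]; ring)
    (fun _ _ _ => by
      simp only [map_smul, real_inner_smul_left, real_inner_smul_right, smul_eq_mul]; ring)

/-- The form `om` as a bilinear form. -/
def liouO (g : Met n) (x : VV n) : LinearMap.BilinForm ℝ (VV n) :=
  LinearMap.mk₂ ℝ (fun a b => om g x a b)
    (fun _ _ _ => by
      simp only [om, map_add, Prod.fst_add, add_apply]; ring)
    (fun _ _ _ => by
      simp only [om, map_smul, Prod.smul_fst, smul_apply, smul_eq_mul]; ring)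
    (fun _ _ _ => by
      simp only [om, map_add, Prod.fst_add, add_apply]; ring)
    (fun _ _ _ => by
      simp only [om, map_smul, Prod.smul_fst, smul_apply, smul_eq_mul]; ring)

/-- Differential of the vertical coordinate. -/
def liouN (x : VV n) : VV n →L[ℝ] ℍ := fderiv ℝ (fun y : VV n => nu y.1 y.2) x

/-- The nondegenerate two-form upstairs. -/
def liouB (g : Met n) (x : VV n) : LinearMap.BilinForm ℝ (VV n) :=
  liouW (fderiv ℝ (spd g) x) (al g x) + spd g x • liouO g x +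
    liouV (liouN x) ((nuL x.1).comp (ContinuousLinearMap.fst ℝ _ _))

theorem liouB_apply (g : Met n) (x a b : VV n) : liouB g x a b =
    (fderiv ℝ (spd g) x a * al g x b - fderiv ℝ (spd g) x b * al g x a) + spd g x * om g x a b +
      (inner ℝ (liouN x a) (nu x.1 b.1) - inner ℝ (liouN x b) (nu x.1 a.1)) := rfl

theorem liouB_anti (g : Met n) (x a b : VV n) : liouB g x a b = -liouB g x b a := by
  simp only [liouB_apply, om]
  ring

theorem liou_diff_nu {x : VV n} (hx : x.1 ≠ 0) :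
    DifferentiableAt ℝ (fun y : VV n => nu y.1 y.2) x := by
  have h1 : ContDiffAt ℝ ∞ (fun p : VV n => nu p.1 p.2) x :=
    ((contDiffOn_nuL.contDiffAt (isOpen_compl_singleton.mem_nhds hx)).comp x
      contDiffAt_fst).clm_apply contDiffAt_snd
  exact h1.differentiableAt (by simp)

theorem liou_diff_spd (h : IsMetric g) {x : VV n} (hx : x ∈ OO n) :
    DifferentiableAt ℝ (spd g) x :=
  (h.contDiffOn_spd.contDiffAt (isOpen_OO.mem_nhds hx)).differentiableAt (by simp)

/-- Derivative in a fibre direction. -/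
theorem liou_fibre {F : Type} [NormedAddCommGroup F] [NormedSpace ℝ F] {f : VV n → F} {x : VV n}
    (hf : DifferentiableAt ℝ f x) {L : E n →L[ℝ] F}
    (hL : HasFDerivAt (fun w => f (x.1, w)) L x.2) (u : E n) : fderiv ℝ f x (0, u) = L u := by
  have h1 : HasFDerivAt (fun w => f (x.1, w))
      ((fderiv ℝ f x).comp (ContinuousLinearMap.inr ℝ (E n) (E n))) x.2 :=
    HasFDerivAt.comp (g := f) (f := fun w : E n => ((x.1, w) : VV n)) x.2 hf.hasFDerivAt
      (hasFDerivAt_prodMk_right x.1 x.2)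
  rw [← h1.unique hL]
  rfl

theorem liouN_fibre {x : VV n} (hx : x.1 ≠ 0) (u : E n) : liouN x (0, u) = nu x.1 u :=
  liou_fibre (liou_diff_nu hx) (nuL x.1).hasFDerivAt u

theorem liou_spd_fibre (h : IsMetric g) {x : VV n} (hx : x ∈ OO n) (u : E n) :
    fderiv ℝ (spd g) x (0, u) = g x.1 (vel g x) u := by
  have h0 := h.spd_pos hx
  have h1 : g x.1 x.2 x.2 ≠ 0 := by
    rw [← h.spd_sq hx.1]
    positivity
  have h2 := (((g x.1).hasFDerivAt (x := x.2)).clm_apply (hasFDerivAt_id x.2)).sqrt h1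
  rw [liou_fibre (liou_diff_spd h hx) h2 u]
  have h3 : √(g x.1 x.2 x.2) = spd g x := rfl
  simp only [vel, map_smul, smul_apply, smul_eq_mul, h.hor_left hx.1, id, h3,
    add_apply, ContinuousLinearMap.comp_apply, ContinuousLinearMap.id_apply,
    ContinuousLinearMap.flip_apply, h.symm x.1 u x.2 hx.1]
  field_simp
  ring

theorem liouB_fibre (h : IsMetric g) {x : VV n} (hx : x ∈ OO n) (u : E n) (c : VV n) :
    liouB g x (0, u) c = GG g x.1 u c.1 := by
  have h0 := (h.spd_pos hx).ne'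
  rw [liouB_apply, om_fibre h hx, liou_spd_fibre h hx, liouN_fibre hx.1, GG_apply]
  simp only [al, ContinuousLinearMap.comp_apply, ContinuousLinearMap.coe_fst', map_zero, nu_zero,
    inner_zero_right]
  field_simp
  ring

/-- The gauge directions along which the vertical coordinate is constant. -/
def liouG (x : VV n) : ℍ →ₗ[ℝ] VV n where
  toFun c := c • x - (0, liouN x (c • x) • x.1)
  map_add' c d := by
    simp only [add_smul, map_add, Prod.ext_iff, Prod.fst_sub, Prod.snd_sub, Prod.fst_add,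
      Prod.snd_add, sub_zero, true_and]
    abel
  map_smul' r c := by
    simp only [smul_assoc, map_smul, RingHom.id_apply, smul_sub, Prod.smul_mk, smul_zero]

theorem liouG_eq (x : VV n) (c : ℍ) :
    liouG x c = (c • x.1, c • x.2 + (-liouN x (c • x)) • x.1 + (0 : ℝ) • x.2) :=
  Prod.ext (sub_zero _) (by rw [zero_smul, add_zero, neg_smul, ← sub_eq_add_neg]; rfl)

theorem liouN_G {x : VV n} (hx : x.1 ≠ 0) (c : ℍ) : liouN x (liouG x c) = 0 := by
  change liouN x (c • x - (0, liouN x (c • x) • x.1)) = 0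
  rw [map_sub, liouN_fibre hx, nu_smul, nu_self hx, mul_one, sub_self]

theorem liouB_G (h : IsMetric g) {x : VV n} (hx : x ∈ OO n) (c : ℍ) (b : VV n) :
    liouB g x (liouG x c) b = -inner ℝ (liouN x b) c := by
  have hB : liouG x c ∈ Bdir x := mem_Bdir.2 ⟨_, _, _, liouG_eq x c⟩
  have h1 : fderiv ℝ (spd g) x (liouG x c) = 0 := by
    have k := jac_curve (liou_diff_spd h hx) (jac_act c (-liouN x (c • x)) 0 x) (jac_act0 _ _ _ x)
    simp only [mul_zero, Real.exp_zero, h.spd_act _ (qe_ne _ _) one_pos hx.1, one_mul] at k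
    rw [liouG_eq]
    exact k.unique (hasDerivAt_const _ _)
  rw [liouB_apply, h1, liouN_G hx.1, al_Bdir h hx hB, om_Bdir h hx hB, liouG_eq, nu_smul,
    nu_self hx.1]
  simp

namespace Geo
variable (G : Geo g) (h : IsMetric g)
include h

theorem det_psi (t : ℝ) {x : VV n} (hx : x ∈ OO n) :
    |(fderiv ℝ (G.psi t) x).det| * detG g (G.Z t x) = detG g x.1 := by
  have hy := G.psi_mem h t hx
  set T := fderiv ℝ (G.psi t) x with hT
  let σ : VV n →L[ℝ] ℍ :=
    ((nuL (G.psi t x).1).comp (ContinuousLinearMap.fst ℝ _ _)).comp T -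
      (nuL x.1).comp (ContinuousLinearMap.fst ℝ _ _)
  have hσa : ∀ a, σ a = nu (G.psi t x).1 (T a).1 - nu x.1 a.1 := fun a => rfl
  have hσ : (σ : VV n →ₗ[ℝ] ℍ) ∘ₗ liouG x = 0 := LinearMap.ext fun c => by
    change σ (liouG x c) = 0
    rw [hσa, hT, G.fst_fderiv_psi h t hx, liouG_eq, G.jac_JJ_Bdir h t hx]
    have e : (G.psi t x).1 = G.Z t x := rfl
    simp only [e, nu_smul, nu_self hx.1, nu_self (G.Z_ne h t hx), sub_self]
  have hs : ∀ a, fderiv ℝ (spd g) (G.psi t x) (T a) = fderiv ℝ (spd g) x a := fun a =>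
    (G.jac_chain h t hx (liou_diff_spd h hy) (fun y hy => (G.spd_psi h t hy).symm) a).symm
  have hn : ∀ a, liouN (G.psi t x) (T a) = liouN x a := fun a =>
    (G.jac_chain h (f := fun y : VV n => nu y.1 y.2) (f' := fun y : VV n => nu y.1 y.2) t hx
      (liou_diff_nu hy.1) (fun y hy => (G.nu_psi h t hy).symm) a).symm
  have key : ∀ a c, liouB g (G.psi t x) (T a) (T c) =
      liouB g x (a + liouG x (σ a)) (c + liouG x (σ c)) := by
    intro a c
    simp only [map_add, LinearMap.add_apply]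
    rw [liouB_anti g x a (liouG x _), liouB_G h hx, liouB_G h hx, liouB_G h hx, liouN_G hx.1,
      liouB_apply, liouB_apply, hs, hs, hn, hn, hT, G.al_psi h t hx, G.al_psi h t hx,
      G.om_psi h t hx, G.spd_psi h t hx, ← hT, hσa, hσa, inner_sub_right, inner_sub_right,
      inner_zero_left]
    ring
  have main := liou_alg (stdOrthonormalBasis ℝ (E n)).toBasis (liouB g x) (liouB g (G.psi t x))
    (fun u w => GG g x.1 u w) (fun u w => GG g (G.Z t x) u w) (liouB_anti g x) (liouB_fibre h hx)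
    (fun u => map_zero _) (liouB_anti g _) (liouB_fibre h hy) (fun u => map_zero _)
    (T : VV n →ₗ[ℝ] VV n) (σ : VV n →ₗ[ℝ] ℍ) (liouG x) hσ key
  have main' : T.det ^ 2 * detG g (G.Z t x) ^ 2 = detG g x.1 ^ 2 := main
  have p1 := h.detG_pos hx.1
  have p2 := h.detG_pos (G.Z_ne h t hx)
  refine (pow_left_inj₀ (by positivity) p1.le two_ne_zero).1 ?_
  rw [mul_pow, sq_abs, main']

theorem integral_psi (t : ℝ) (f : VV n → ℝ) :
    ∫ x in OO n, f (G.psi t x) * detG g x.1 = ∫ x in OO n, f x * detG g x.1 := by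
  have : (volume : Measure (VV n)).IsAddHaarMeasure := Measure.prod.instIsAddHaarMeasure _ _
  have hinv : ∀ s : ℝ, ∀ x ∈ OO n, G.psi (-s) (G.psi s x) = x := fun s x hx => by
    rw [← G.psi_add h _ _ hx, neg_add_cancel, G.psi_zero h hx]
  have him : G.psi t '' OO n = OO n := by
    refine Subset.antisymm ?_ fun y hy => ⟨G.psi (-t) y, G.psi_mem h _ hy, ?_⟩
    · rintro _ ⟨x, hx, rfl⟩
      exact G.psi_mem h t hx
    · simpa using hinv (-t) y hy
  have hinj : InjOn (G.psi t) (OO n) := fun x hx y hy e => by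
    rw [← hinv t x hx, e, hinv t y hy]
  have h1 := integral_image_eq_integral_abs_det_fderiv_smul (volume : Measure (VV n))
    isOpen_OO.measurableSet
    (fun x hx => (G.jac_dpsi h t hx).hasFDerivAt.hasFDerivWithinAt) hinj
    (fun x => f x * detG g x.1)
  rw [him] at h1
  rw [h1]
  refine setIntegral_congr_fun isOpen_OO.measurableSet fun x hx => ?_
  simp only [smul_eq_mul]
  rw [← G.det_psi h t hx]
  exact by simp only [Z]; ring

end Geo

end Pool.Agent.Work.MP_8c604c_gt.H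
end
end

-- merged part: Pool.Agent.Work.MP_8c604c_gt.H.BKGAux
section
/-!
Adapted frames of the normal space and coordinates for the normal Jacobi fields.
-/

set_option maxSynthPendingDepth 3

open Set Filter Topology MeasureTheory
open scoped ContDiff Quaternion

noncomputable section
namespace Pool.Agent.Work.MP_8c604c_gt.H

open Real Sum

theorem bkg_onb {V α ι : Type} [AddCommGroup V] [Module ℝ V] [FiniteDimensional ℝ V] [Fintype α]
    [Fintype ι] [DecidableEq α] [DecidableEq ι] (B : V →ₗ[ℝ] V →ₗ[ℝ] ℝ)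
    (hs : ∀ u w, B u w = B w u) (hp : ∀ u, u ≠ 0 → 0 < B u u)
    (hc : Module.finrank ℝ V = Fintype.card α + Fintype.card ι) {f : α → V}
    (hf : ∀ a a', B (f a) (f a') = if a = a' then 1 else 0) :
    ∃ b : ι → V, (∀ i j, B (b i) (b j) = if i = j then 1 else 0) ∧ (∀ a i, B (f a) (b i) = 0) ∧
      ∀ u, u = ∑ a, B (f a) u • f a + ∑ i, B (b i) u • b i := by
  let c : InnerProductSpace.Core ℝ V :=
    { inner := fun u w => B u w
      conj_inner_symm := fun u w => hs w u
      re_inner_nonneg := fun u => by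
        by_cases h : u = 0
        · simp [h]
        · exact (hp u h).le
      add_left := fun u w y => by simp
      smul_left := fun u w r => by simp
      definite := fun u h => by_contra fun h' => (hp u h').ne' h }
  let : NormedAddCommGroup V := c.toNormedAddCommGroup
  let : InnerProductSpace ℝ V := InnerProductSpace.ofCore c.toCore
  obtain ⟨b, hb⟩ := Orthonormal.exists_orthonormalBasis_extension_of_card_eq (𝕜 := ℝ)
    (hc.trans Fintype.card_sum.symm) (v := Sum.elim f 0) (s := range Sum.inl) (by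
      rw [orthonormal_iff_ite]
      rintro ⟨_, a, rfl⟩ ⟨_, a', rfl⟩
      exact (hf a a').trans (by simp))
  have h1 : ∀ a, b (Sum.inl a) = f a := fun a => hb _ ⟨a, rfl⟩
  have h2 : ∀ i j, B (b i) (b j) = if i = j then 1 else 0 := orthonormal_iff_ite.1 b.orthonormal
  refine ⟨fun i => b (Sum.inr i), fun i j => by simp [h2], fun a i => by simp [← h1, h2],
    fun u => ?_⟩
  have h3 := b.sum_repr' u
  rw [Fintype.sum_sum_type] at h3
  simp only [h1] at h3
  exact h3.symm

variable {n : ℕ} {g : Met n} {κ ι : Type} [Fintype κ] [DecidableEq κ] [Fintype ι] [DecidableEq ι]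

/-- Coordinates of the normal space and of the normal Jacobi fields at `x`. -/
structure BKGFr (g : Met n) (x : VV n) (K : κ → E n)
    (P : (κ ⊕ ι → ℝ) →L[ℝ] E n) (L : JC κ ι →L[ℝ] VV n) : Prop where
  one : ∀ i, P (Pi.single (inl i) 1) = K i
  hor : ∀ a, nu x.1 (P a) = 0
  perp : ∀ a, g x.1 (P a) x.2 = 0
  gram : ∀ a a', g x.1 (P a) (P a') = a ⬝ᵥ a'
  span : ∀ u, ∃ a, u - P a ∈ Bs x
  fib : ∀ a, L (a, 0) = (0, spd g x • P a)
  fst : ∀ ξ, (L ξ).1 = P ξ.2
  om : ∀ ξ η, om g x (L ξ) (L η) = omJ ξ η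

namespace IsMetric
variable (h : IsMetric g) {x : VV n}
include h

theorem bkg_vert (hx : x ∈ OO n) {r : E n} (hu : g x.1 r x.2 = 0) (hr : r ∈ Bs x) :
    ∃ c : ℍ, r = c • x.1 :=
  (hor_eq_zero_iff hx.1 r).1 (h.hor_eq_zero hx.1 (h.g_Bs hx hu hr))

theorem bkg_fibre (hx : x ∈ OO n) {u : E n} (hu : g x.1 u x.2 = 0) (δ : VV n) :
    om g x (0, spd g x • u) δ = g x.1 u δ.1 := by
  rw [om_fibre h hx, map_smul, map_smul, h.g_vel hx u, hu, mul_zero, smul_zero, zero_mul,
    sub_zero, smul_apply, smul_eq_mul, inv_mul_cancel_left₀ (h.spd_pos hx).ne']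

theorem bkg_basis (hx : x ∈ OO n) (hc : Fintype.card κ + Fintype.card ι + 1 = 4 * n) {K : κ → E n}
    (k1 : ∀ i, nu x.1 (K i) = 0) (k2 : ∀ i, g x.1 (K i) x.2 = 0)
    (k3 : ∀ i j, g x.1 (K i) (K j) = if i = j then 1 else 0) :
    ∃ e : κ ⊕ ι → E n, (∀ i, e (inl i) = K i) ∧
      (∀ i, nu x.1 (e i) = 0) ∧ (∀ i, g x.1 (e i) x.2 = 0) ∧
      (∀ i j, g x.1 (e i) (e j) = if i = j then 1 else 0) ∧
      ∀ u, ∃ a : κ ⊕ ι → ℝ, u - ∑ i, a i • e i ∈ Bs x := by
  let N : Submodule ℝ (E n) := LinearMap.range (nrm g x : E n →ₗ[ℝ] E n)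
  have hN : ∀ u, u ∈ N ↔ nu x.1 u = 0 ∧ g x.1 u x.2 = 0 := fun u =>
    ⟨by rintro ⟨v, rfl⟩; exact ⟨h.nu_nrm hx v, h.nrm_perp hx v⟩, fun e => ⟨u, h.nrm_of hx e.1 e.2⟩⟩
  have hd : Module.finrank ℝ N = Fintype.card κ + Fintype.card ι := by
    have h1 := LinearMap.finrank_range_add_finrank_ker (nrm g x : E n →ₗ[ℝ] E n)
    have h2 : LinearMap.ker (nrm g x : E n →ₗ[ℝ] E n) = Bs x := by
      ext u
      have h3 := sub_nrm_mem (g := g) x u
      refine ⟨fun e => ?_, fun e => h.Bs_zero hx ?_ (h.nu_nrm hx u) (h.nrm_perp hx u)⟩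
      · rwa [show nrm g x u = 0 from e, sub_zero] at h3
      · simpa using sub_mem e h3
    rw [h2, finrank_Bs hx, finrank_E] at h1
    change Module.finrank ℝ N + 5 = _ at h1
    omega
  obtain ⟨b, b1, b2, b3⟩ := bkg_onb (ι := ι) ((g x.1).toLinearMap₁₂.domRestrict₁₂ N N)
    (fun u w => h.symm _ _ _ hx.1) (fun u hu => (h.nonneg hx.1 _).lt_of_ne' fun e =>
      hu (Subtype.ext (h.eq_zero_of_hor hx.1 ((hN _).1 u.2).1 e))) hd
    (f := fun i => ⟨K i, (hN _).2 ⟨k1 i, k2 i⟩⟩) k3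
  refine ⟨Sum.elim K fun i => b i, fun _ => rfl, Sum.forall.2 ⟨k1, fun i => ((hN _).1 (b i).2).1⟩,
    Sum.forall.2 ⟨k2, fun i => ((hN _).1 (b i).2).2⟩, ?_, fun u => ?_⟩
  · rintro (i | i) (j | j)
    · simpa using k3 i j
    · exact (b2 i j).trans (by simp)
    · exact ((h.symm _ _ _ hx.1).trans (b2 j i)).trans (by simp)
    · exact (b1 i j).trans (by simp)
  · have h1 := congrArg Subtype.val (b3 ⟨nrm g x u, u, rfl⟩)
    simp only [Submodule.coe_add, Submodule.coe_sum, Submodule.coe_smul] at h1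
    refine ⟨Sum.elim (fun i => g x.1 (K i) (nrm g x u)) fun i => g x.1 (b i) (nrm g x u), ?_⟩
    rw [Fintype.sum_sum_type]
    exact (congrArg (fun v => u - v ∈ Bs x) h1).mp (sub_nrm_mem x u)

theorem bkg_frame (hx : x ∈ OO n) (hc : Fintype.card κ + Fintype.card ι + 1 = 4 * n) {K : κ → E n}
    (k1 : ∀ i, nu x.1 (K i) = 0) (k2 : ∀ i, g x.1 (K i) x.2 = 0)
    (k3 : ∀ i j, g x.1 (K i) (K j) = if i = j then 1 else 0) :
    ∃ (P : (κ ⊕ ι → ℝ) →L[ℝ] E n) (L : JC κ ι →L[ℝ] VV n), BKGFr g x K P L := by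
  obtain ⟨e, e0, e1, e2, e3, e4⟩ := h.bkg_basis hx hc k1 k2 k3
  obtain ⟨P, hP⟩ : ∃ P : (κ ⊕ ι → ℝ) →L[ℝ] E n, ∀ a, P a = ∑ i, a i • e i :=
    ⟨∑ i, (ContinuousLinearMap.proj i).smulRight (e i), fun a => by simp⟩
  have p1 : ∀ a, g x.1 (P a) x.2 = 0 := fun a => by simp [hP, e2]
  have p2 : ∀ a a', g x.1 (P a) (P a') = a ⬝ᵥ a' := fun a a' => by
    simp [hP, e3, dotProduct, mul_comm]
  obtain ⟨C, hC⟩ : ∃ C : (κ ⊕ ι → ℝ) →L[ℝ] κ ⊕ ι → ℝ,
      ∀ b b', C b ⬝ᵥ b' = -(1 / 2) * om g x (P b, 0) (P b', 0) := by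
    obtain ⟨D, hD⟩ : ∃ D : VV n →L[ℝ] VV n →L[ℝ] ℝ, ∀ a b, D a b = om g x a b :=
      ⟨(fderiv ℝ (fun y : VV n => g y.1 (vel g y)) x).bilinearComp (ContinuousLinearMap.id ℝ _)
        (ContinuousLinearMap.fst ℝ _ _) - ((fderiv ℝ (fun y : VV n => g y.1 (vel g y)) x).bilinearComp
          (ContinuousLinearMap.id ℝ _) (ContinuousLinearMap.fst ℝ _ _)).flip, fun _ _ => rfl⟩
    refine ⟨ContinuousLinearMap.pi fun k => (-(1 / 2) : ℝ) •
      (D.flip (ContinuousLinearMap.inl ℝ _ _ (e k))).comp ((ContinuousLinearMap.inl ℝ _ _).comp P),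
      fun b b' => ?_⟩
    rw [← hD, hP b', ← ContinuousLinearMap.inl_apply (R := ℝ) (∑ i, b' i • e i), map_sum, map_sum,
      Finset.mul_sum]
    exact Finset.sum_congr rfl fun k _ => by
      rw [map_smul, map_smul, smul_eq_mul, mul_left_comm, mul_comm]
      rfl
  obtain ⟨L, hL⟩ : ∃ L : JC κ ι →L[ℝ] VV n,
      ∀ ξ, L ξ = (P ξ.2, 0) + (0, spd g x • P (ξ.1 + C ξ.2)) :=
    ⟨(P.comp (ContinuousLinearMap.snd ℝ _ _)).prod (spd g x • P.comp (ContinuousLinearMap.fst ℝ _ _ +
      C.comp (ContinuousLinearMap.snd ℝ _ _))), fun ξ => by simp⟩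
  refine ⟨P, L, fun i => by simp [hP, Pi.single_apply, e0], fun a => ?_, p1, p2,
    fun u => by simpa only [hP] using e4 u, fun a => by simp [hL], fun ξ => by simp [hL],
    fun ξ η => ?_⟩
  · rw [hP, ← nuL_apply, map_sum]
    exact Finset.sum_eq_zero fun i _ => by rw [map_smul, nuL_apply, e1, smul_zero]
  · rw [hL ξ, idx_om_add_left, h.bkg_fibre hx (p1 _), idx_om_anti, hL η, idx_om_add_left,
      h.bkg_fibre hx (p1 _), Prod.fst_add, add_zero, p2, p2, add_dotProduct, add_dotProduct, hC, hC,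
      omJ, idx_om_anti x (P η.2, 0), dotProduct_comm η.1]
    ring

end IsMetric

end Pool.Agent.Work.MP_8c604c_gt.H
end
end

-- merged part: Pool.Agent.Work.MP_8c604c_gt.H.BKG
section
/-!
The inequality along one geodesic of a Blaschke metric.
-/

set_option maxSynthPendingDepth 3

open Set Filter Topology MeasureTheory
open scoped ContDiff Quaternion

noncomputable section
namespace Pool.Agent.Work.MP_8c604c_gt.H

open Real Sum

variable {n : ℕ} {g : Met n}

namespace Geo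
variable (G : Geo g) (h : IsMetric g) {x : VV n} (hx : x ∈ OO n)
include h hx

theorem bkg_add (r t : ℝ) (δ : VV n) :
    G.JH (r + t) x δ = G.JH r (G.psi t x) (fderiv ℝ (G.psi t) x δ) := by
  simp only [JH, ContinuousLinearMap.comp_apply, G.JJ_add h r t hx, Z, G.psi_add h r t hx]

theorem bkg_congr (t : ℝ) {δ δ' : VV n} (e : δ - δ' ∈ Bdir x) : G.JH t x δ = G.JH t x δ' := by
  rw [← sub_eq_zero, ← map_sub, G.JH_Bdir h t hx e]

theorem bkg_zero (u : E n) : G.JH 0 x (0, u) = 0 := by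
  rw [JH, ContinuousLinearMap.comp_apply, G.JJ_zero h hx, map_zero]

theorem bkg_gram (t : ℝ) (a b : VV n) : g (G.Z t x) (G.JH t x a) (G.JH t x b) =
    g (G.Z t x) (G.JJ t x a) (G.JJ t x b) :=
  (h.hor_left (G.Z_ne h t hx) _ _).trans (h.hor_right (G.Z_ne h t hx) _ _)

theorem bkg_deriv {u : E n} (hu : g x.1 u x.2 = 0) (w : E n) :
    g x.1 (deriv (fun r => G.JH r x (0, spd g x • u)) 0) w = g x.1 u w := by
  have h1 := G.star h 0 hx (G.bkg_zero h hx (spd g x • u)) (w, 0)
  rwa [G.JJ_zero h hx, h.bkg_fibre hx hu, Z, G.psi_zero h hx] at h1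

theorem bkg_deriv2 {u w : E n} (hu : g x.1 u x.2 = 0) (hw : g x.1 w x.2 = 0) :
    g x.1 (deriv (fun r => G.JH r x (0, spd g x • u)) 0)
      (deriv (fun r => G.JH r x (0, spd g x • w)) 0) = g x.1 u w := by
  rw [G.bkg_deriv h hx hu, h.symm _ _ _ hx.1, G.bkg_deriv h hx hw, h.symm _ _ _ hx.1]

theorem bkg_descend {t : ℝ} {δ : VV n} (e : G.JH t x δ = 0) :
    ∃ u, g (G.psi t x).1 u (G.psi t x).2 = 0 ∧
      ∀ r, G.JH (r + t) x δ = G.JH r (G.psi t x) (0, spd g (G.psi t x) • u) := by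
  have hy := G.psi_mem h t hx
  obtain ⟨c, hc⟩ := (hor_eq_zero_iff hy.1 (G.JJ t x δ)).1 e
  rw [← G.fst_fderiv_psi h t hx] at hc
  simp only [G.bkg_add h hx]
  generalize fderiv ℝ (G.psi t) x δ = d at hc ⊢
  generalize G.psi t x = y at hy hc ⊢
  have h1 := h.spd_pos hy
  refine ⟨(spd g y)⁻¹ • (d.2 - c • y.2 - (g y.1 (d.2 - c • y.2) y.2 / spd g y ^ 2) • y.2), ?_,
    fun r => G.bkg_congr h hy r (mem_Bdir.2 ⟨c, 0, g y.1 (d.2 - c • y.2) y.2 / spd g y ^ 2,
      Prod.ext (by rw [Prod.fst_sub, sub_zero, hc]) ?_⟩)⟩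
  · rw [map_smul, map_sub, map_smul, smul_apply, sub_apply, smul_apply, ← h.spd_sq hy.1,
      smul_eq_mul, smul_eq_mul, div_mul_cancel₀ _ (by positivity), sub_self, mul_zero]
  · rw [Prod.snd_sub, smul_inv_smul₀ h1.ne', zero_smul, add_zero, sub_sub, sub_sub_cancel]

end Geo

namespace BKGFr
variable {κ ι : Type} [Fintype κ] [DecidableEq κ] [Fintype ι] [DecidableEq ι] {x : VV n}
  {K : κ → E n} {P : (κ ⊕ ι → ℝ) →L[ℝ] E n} {L : JC κ ι →L[ℝ] VV n} (F : BKGFr g x K P L) (h : IsMetric g)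
  (hx : x ∈ OO n)
include F h hx

theorem inj {ξ : JC κ ι} (e : L ξ ∈ Bdir x) : ξ = 0 := by
  have h1 := om_Bdir h hx e (L (-ξ.2, ξ.1))
  rw [F.om, omJ, dotProduct_neg, sub_neg_eq_add] at h1
  have h2 : ∀ a : κ ⊕ ι → ℝ, 0 ≤ a ⬝ᵥ a := fun a => Finset.sum_nonneg fun _ _ => mul_self_nonneg _
  exact Prod.ext (dotProduct_self_eq_zero.1 (by linarith [h2 ξ.1, h2 ξ.2]))
    (dotProduct_self_eq_zero.1 (by linarith [h2 ξ.1, h2 ξ.2]))

theorem normal {u : E n} (hu : g x.1 u x.2 = 0) : ∃ a, ∃ c : ℍ, u - P a = c • x.1 := by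
  obtain ⟨a, ha⟩ := F.span u
  exact ⟨a, h.bkg_vert hx (by rw [map_sub, sub_apply, hu, F.perp, sub_zero]) ha⟩

theorem surj {δ : VV n} (e : g x.1 δ.1 x.2 = 0) : ∃ ξ, δ - L ξ ∈ Bdir x := by
  obtain ⟨b, c, hb⟩ := F.normal h hx e
  obtain ⟨a, ha⟩ := F.span (δ.2 - (L (0, b)).2 - c • x.2)
  obtain ⟨c', a', ha'⟩ := mem_Bs.1 ha
  refine ⟨((spd g x)⁻¹ • a, 0) + (0, b), mem_Bdir.2 ⟨c, c', a', Prod.ext ?_ ?_⟩⟩
  · rw [Prod.fst_sub, F.fst, Prod.snd_add, zero_add, hb]
  · rw [map_add, F.fib, map_smul, smul_inv_smul₀ (h.spd_pos hx).ne', Prod.snd_sub, Prod.snd_add,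
      add_assoc, ← ha']
    abel_nf

theorem conj (G : Geo g) (t : ℝ) {K' : κ → E n} (hk : G.IsK (G.psi t x) K') :
    ∃ ξ : κ → JC κ ι, LinearIndependent ℝ ξ ∧
      ∀ i, G.JH t x (L (ξ i)) = 0 ∧ G.JH (t + π / 2) x (L (ξ i)) = 0 := by
  have hy := G.psi_mem h t hx
  have h1 : G.psi (-t) (G.psi t x) = x := by
    rw [← G.psi_add h _ _ hx, neg_add_cancel, G.psi_zero h hx]
  have h5 : ∀ i, ∃ ξ, (0, spd g (G.psi t x) • K' i) - fderiv ℝ (G.psi t) x (L ξ) ∈
      Bdir (G.psi t x) := fun i => by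
    have h2 := G.al_psi h (-t) hy (0, spd g (G.psi t x) • K' i)
    have h3 := G.fderiv_psi_neg h (-t) hy (0, spd g (G.psi t x) • K' i)
    rw [neg_neg, h1] at h3
    rw [h1] at h2
    simp only [al, ContinuousLinearMap.comp_apply, ContinuousLinearMap.coe_fst', map_zero,
      h.g_vel hx, mul_eq_zero, inv_eq_zero, (h.spd_pos hx).ne', false_or] at h2
    obtain ⟨ξ, h4⟩ := F.surj h hx h2
    have h5 := G.fderiv_psi_Bdir h t hx h4
    rw [map_sub, h3] at h5
    exact ⟨ξ, h5⟩
  choose ξ h5 using h5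
  have h6 : ∀ i r, G.JH (r + t) x (L (ξ i)) = G.JH r (G.psi t x) (0, spd g (G.psi t x) • K' i) :=
    fun i r => by rw [G.bkg_add h hx, G.bkg_congr h hy r (h5 i)]
  refine ⟨ξ, Fintype.linearIndependent_iff.2 fun a ha j => ?_, fun i => ⟨?_, ?_⟩⟩
  · have h7 := Submodule.sum_mem _ fun i (_ : i ∈ Finset.univ) => Submodule.smul_mem _ (a i) (h5 i)
    simp only [smul_sub, Finset.sum_sub_distrib, ← map_smul, ← map_sum, ha, map_zero,
      sub_zero] at h7
    have h8 : ∑ i, a i • (((0 : E n), spd g (G.psi t x) • K' i) : VV n) =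
        (0, spd g (G.psi t x) • ∑ i, a i • K' i) := by
      ext1
      · simp [Prod.fst_sum]
      · simp [Prod.snd_sum, Finset.smul_sum, smul_comm (a _)]
    have h9 := om_Bdir h hy (h8 ▸ h7) (K' j, 0)
    rw [h.bkg_fibre hy (by simp [hk.perp])] at h9
    simpa [hk.on] using h9
  · rw [← zero_add t, h6, G.bkg_zero h hy]
  · rw [add_comm t, h6]
    exact ((G.mem_KS h hy).1 (Submodule.smul_mem _ _ (hk.mem h hy i))).2.2

theorem sum_inl (a : κ → ℝ) : P (Sum.elim a 0) = ∑ i, a i • K i := by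
  simp only [← F.one, ← map_smul, ← map_sum]
  congr 1
  ext (j | j) <;> simp [Pi.single_apply]

end BKGFr

namespace Bl
variable {G : Geo g} (B : Bl g G)
include B

theorem bkg_sys {κ ι : Type} [Fintype κ] [DecidableEq κ] [Fintype ι] [DecidableEq ι]
    (hι : Fintype.card κ + Fintype.card ι + 1 = 4 * n) {x : VV n} (hx : x ∈ OO n) {K : κ → E n}
    (hk : G.IsK x K) {P : (κ ⊕ ι → ℝ) →L[ℝ] E n} {L : JC κ ι →L[ℝ] VV n} (F : BKGFr g x K P L) :
    ∃ A : JSys κ ι (E n), (∀ t, A.g t = g (G.Z t x)) ∧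
      (∀ t ξ, A.J t ξ = G.JH t x (L ξ)) ∧
      ∀ τ ∈ Ioo 0 (π / 2), A.Link τ fun t => G.th (G.psi t x) τ := by
  have h := B.met
  have hK : ∀ y ∈ OO n, ∃ K' : κ → E n, G.IsK y K' := fun y hy =>
    G.exists_isK' h hy ((hk.card h hx).trans (B.kk_const hx hy))
  have hz := fun t => G.Z_ne h t hx
  have c0 : ContDiff ℝ ∞ fun t : ℝ => (t, x) := contDiff_id.prodMk contDiff_const
  have c1 : ContDiff ℝ ∞ fun t => g (G.Z t x) :=
    h.smooth.comp_contDiff ((G.contDiffOn_Z h).comp_contDiff c0 fun _ => hx) hz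
  have c2 : ContDiff ℝ ∞ fun t => (G.JH t x).comp L :=
    ((G.contDiffOn_JH h).comp_contDiff c0 fun _ => hx).clm_comp contDiff_const
  have c3 : Continuous fun t => G.psi t x :=
    ((G.contDiffOn_psi h).comp_contDiff c0 fun _ => hx).continuous
  have hn : ∀ t δ, nu (G.Z t x) (G.JH t x δ) = 0 := fun t δ => nu_hor (hz t) _
  have hc : nu x.1 (G.Z π x) ≠ 0 := norm_ne_zero_iff.1 ((B.psi_pi hx).2 ▸ one_ne_zero)
  refine ⟨⟨fun t => g (G.Z t x), fun t => (G.JH t x).comp L, c1.of_le (by simp), c2.of_le (by simp),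
    fun t u w => h.symm _ u w (hz t), fun t => h.nonneg (hz t),
    fun t ξ e => (hor_of_nu (hn t _)).symm.trans (h.hor_eq_zero (hz t) e),
    fun t ξ η e => ((h.hor_right (hz t) _ _).trans (G.star h t hx e _)).trans (F.om ξ η),
    fun t => ?_, fun a => ?_, fun a a' => ?_,
    ⟨ContinuousLinearMap.lsmul ℝ ℍ (nu x.1 (G.Z π x)), fun t =>
      ⟨fun ξ => B.JH_add_pi t hx _, fun u w => ?_⟩⟩, fun t ht hne a e => ?_, fun a => ?_,
    fun t _ => ?_⟩, fun _ => rfl, fun _ _ => rfl, fun τ hτ => ⟨?_, fun t _ => ?_, ?_⟩⟩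
  · have hy := G.psi_mem h t hx
    obtain ⟨K', hk'⟩ := hK _ hy
    obtain ⟨P', L', F'⟩ := h.bkg_frame hy hι hk'.hor hk'.perp hk'.on
    refine le_trans (Submodule.finrank_mono ?_) ((LinearMap.finrank_range_le
      (P' : (κ ⊕ ι → ℝ) →ₗ[ℝ] E n)).trans_eq (Module.finrank_fintype_fun_eq_card ℝ))
    rintro _ ⟨ξ, rfl⟩
    have h1 := G.al_inv h t hx (L ξ)
    rw [al, ContinuousLinearMap.comp_apply, ContinuousLinearMap.coe_fst', F.fst, h.g_vel hx,
      F.perp, mul_zero, ← h.hor_right (hz t), Geo.Z, h.g_vel hy, mul_eq_zero, inv_eq_zero] at h1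
    obtain ⟨a, c, e⟩ := F'.normal h hy (h1.resolve_left (h.spd_pos hy).ne')
    have h2 := congrArg (nuL (G.psi t x).1) e
    rw [map_sub, nuL_apply, nuL_apply, nuL_apply, nu_hor hy.1, F'.hor, nu_smul, nu_self hy.1,
      mul_one, sub_zero] at h2
    rw [← h2, zero_smul, sub_eq_zero] at e
    exact ⟨a, e.symm⟩
  · rw [ContinuousLinearMap.comp_apply, F.fib, G.bkg_zero h hx]
  · simp only [ContinuousLinearMap.comp_apply, F.fib]
    rw [Geo.Z, G.psi_zero h hx, G.bkg_deriv2 h hx (F.perp a) (F.perp a'), F.gram]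
  · rw [B.Z_add_pi t hx]
    exact h.inv _ _ _ _ hc (hz t)
  · refine (Prod.ext_iff.1 (F.inj h hx (B.no_conj_pair hx (s := 0) (t := t) (by rwa [sub_zero])
      (by rwa [sub_zero]) ?_ e))).1
    rw [F.fib, G.bkg_zero h hx]
  · rw [ContinuousLinearMap.comp_apply, F.fib, hk.ker]
    constructor
    · rintro ⟨c, e⟩ i
      have h1 := h.g_Bs hx (F.perp (Pi.single (inr i) 1)) e
      rw [← F.sum_inl h hx, map_sub, map_smul, F.gram, F.gram] at h1
      simpa [(h.spd_pos hx).ne'] using h1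
    · intro e
      refine ⟨spd g x • (a ∘ inl), ?_⟩
      rw [← F.sum_inl h hx, ← map_smul, ← map_sub, sub_eq_zero.2, map_zero]
      · exact Submodule.zero_mem _
      · ext (i | i) <;> simp [e]
  · obtain ⟨K', hk'⟩ := hK _ (G.psi_mem h t hx)
    exact F.conj h hx G t hk'
  · exact ((G.continuousOn_th h).comp_continuous (c3.prodMk continuous_const)
      fun t => G.psi_mem h t hx).continuousOn
  · have hy := G.psi_mem h t hx
    refine mul_pos (pow_pos hτ.1 _) (B.jac_pos hy.1 ?_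
      (by rw [nu_rsmul, h.nu_vel hy.1, smul_zero, add_zero]; exact one_ne_zero))
    rw [map_smul, map_smul, smul_apply, h.vel_unit hy, smul_eq_mul, smul_eq_mul, mul_one,
      sqrt_mul_self hτ.1.le]
    exact hτ.2
  · intro t ξ _ e
    have hy := G.psi_mem h t hx
    have h2 := B.two
    choose u h3 h4 using fun i => G.bkg_descend h hx (δ := L (ξ i)) (e i)
    have h5 : ∀ i, deriv (fun s => G.JH s x (L (ξ i))) t =
        deriv (fun r => G.JH r (G.psi t x) (0, spd g (G.psi t x) • u i)) 0 := fun i => by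
      rw [← funext (h4 i), deriv_comp_add_const (fun s => G.JH s x (L (ξ i))), zero_add]
    have h6 : G.Z (τ + t) x = G.Z τ (G.psi t x) := by rw [Geo.Z, G.psi_add h τ t hx, Geo.Z]
    have h7 := G.th_link h (by omega) hy hτ.1 (by simp; omega) u h3
    simp only [ContinuousLinearMap.comp_apply, h5, add_comm t τ, h4, h6, G.bkg_gram h hy]
    simp only [← map_smul (G.JJ τ (G.psi t x)), Prod.smul_mk, smul_zero] at h7
    simp only [Geo.Z, G.bkg_deriv2 h hy (h3 _) (h3 _)] at h7 ⊢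
    exact h7

theorem bkg_card {x : VV n} (hx : x ∈ OO n) :
    Fintype.card (Fin (G.kk x)) + Fintype.card (Fin (4 * n - 1 - G.kk x)) + 1 = 4 * n := by
  have h1 : G.kdim x ≤ _ := Submodule.finrank_le _
  rw [G.kdim_eq B.met hx, finrank_E] at h1
  simp only [Fintype.card_fin]
  omega

theorem bk_ineq {x : VV n} (hx : x ∈ OO n) {τ : ℝ} (hτ : τ ∈ Ioo 0 (π / 2)) :
    π * log (thk n (G.kk x) τ) ≤ ∫ t in (0 : ℝ)..π, log (G.th (G.psi t x) τ) := by
  obtain ⟨K, hk⟩ := G.exists_isK B.met hx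
  obtain ⟨P, L, F⟩ := B.met.bkg_frame hx (B.bkg_card hx) hk.hor hk.perp hk.on
  obtain ⟨A, -, -, h3⟩ := B.bkg_sys (B.bkg_card hx) hx hk F
  have h4 := A.ineq hτ (h3 τ hτ)
  rwa [Fintype.card_fin, Fintype.card_fin] at h4

theorem bk_eq {x : VV n} (hx : x ∈ OO n) {τ : ℝ} (hτ : τ ∈ Ioo 0 (π / 2))
    (e : π * log (thk n (G.kk x) τ) = ∫ t in (0 : ℝ)..π, log (G.th (G.psi t x) τ)) {u : E n}
    (hu : g x.1 u x.2 = 0) :
    g (G.Z τ x) (spd g x • G.JJ τ x (0, u)) (spd g x • G.JJ τ x (0, u)) =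
      sin τ ^ 2 * (g x.1 u u - g x.1 u (G.KP x u)) +
        (sin (2 * τ) / 2) ^ 2 * g x.1 u (G.KP x u) := by
  have h := B.met
  obtain ⟨K, hk⟩ := G.exists_isK h hx
  obtain ⟨P, L, F⟩ := h.bkg_frame hx (B.bkg_card hx) hk.hor hk.perp hk.on
  obtain ⟨A, h1, h2, h3⟩ := B.bkg_sys (B.bkg_card hx) hx hk F
  obtain ⟨a, c, ha⟩ := F.normal h hx hu
  have h4 := A.eq_case hτ (h3 τ hτ) (by rwa [Fintype.card_fin, Fintype.card_fin]) a a
  have h5 : ∀ w, g x.1 u w = g x.1 (P a) w := fun w => by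
    rw [sub_eq_iff_eq_add.1 ha, map_add, add_apply, h.vert c _ w hx.1, zero_add]
  have h6 : G.JJ τ x (0, u) = G.JJ τ x (0, P a) := by
    rw [← sub_eq_zero, ← map_sub, Prod.mk_sub_mk, sub_zero, ha]
    exact G.JJ_Bs h τ hx (mem_Bs.2 ⟨c, 0, by rw [zero_smul, add_zero]⟩)
  have h7 : ∀ i, g x.1 u (K i) = a (inl i) := fun i => by
    rw [h5, ← F.one, F.gram, dotProduct_single, mul_one]
  have h8 : g x.1 u (G.KP x u) = ∑ i, a (inl i) * a (inl i) := by
    rw [hk.KP h hx, map_sum]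
    exact Finset.sum_congr rfl fun i _ => by rw [map_smul, h.symm _ (K i) _ hx.1, h7, smul_eq_mul]
  rw [h1, h2, G.bkg_gram h hx, F.fib] at h4
  rw [h6, ← map_smul, Prod.smul_mk, smul_zero, h4, h8, h5, h.symm _ _ u hx.1, h5, F.gram,
    dotProduct, Fintype.sum_sum_type]
  ring

end Bl

end Pool.Agent.Work.MP_8c604c_gt.H
end
end

-- merged part: Pool.Agent.Work.MP_8c604c_gt.H.FSV
section
/-!
Explicit integrals. Port of ../FSAux.lean (fs_GG, fs_detG, fs_int_log, vol_fsM', fs_int_th0, model_integral') and ../NVolA.lean (nvola_frame, fibre_integral).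
fs_GG follows from GG_apply, fsM_eq, inner_hor. The primitive of th0 n = sin^(4n-4) (sin cos)^3 is sin^(4n)/(4n) - sin^(4n+2)/(4n+2).
qk_lint: translate c -> 1 + c, integral_fun_norm_addHaar in dimension 4 (Quaternion.finrank_eq_four, volume_ball_of_dim_even with k = 2), fs_int_log.
-/

set_option maxSynthPendingDepth 3

open Set Filter Topology MeasureTheory
open scoped ContDiff Quaternion

noncomputable section
namespace Pool.Agent.Work.MP_8c604c_gt.H

open Real

variable {n : ℕ} {g : Met n}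

theorem fs_GG {z : E n} (hz : z ≠ 0) (u w : E n) :
    GG (fsM n) z u w = (‖z‖ ^ 2)⁻¹ * inner ℝ u w := by
  have hN : ‖z‖ ^ 2 ≠ 0 := pow_ne_zero 2 (norm_ne_zero_iff.2 hz)
  rw [GG_apply, fsM_eq, inner_hor hz]
  field_simp
  ring

theorem fs_detG {z : E n} (hz : z ≠ 0) : √(detG (fsM n) z) = (‖z‖⁻¹) ^ (4 * n + 4) := by
  have h : (Matrix.of fun i j => GG (fsM n) z (stdOrthonormalBasis ℝ (E n) i)
      (stdOrthonormalBasis ℝ (E n) j)) = (‖z‖ ^ 2)⁻¹ • (1 : Matrix _ _ ℝ) := by
    ext i j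
    rw [Matrix.of_apply, fs_GG hz, Matrix.smul_apply, smul_eq_mul, Matrix.one_apply,
      orthonormal_iff_ite.1 (stdOrthonormalBasis ℝ (E n)).orthonormal i j]
  rw [detG, bdet, h, Matrix.det_smul, Matrix.det_one, mul_one, Fintype.card_fin, finrank_E,
    ← inv_pow, ← pow_mul, mul_comm 2 (4 * n + 4), pow_mul]
  exact Real.sqrt_sq (by positivity)

theorem FSV_int_log : ∫ y in Ioi (0 : ℝ), y⁻¹ * wt (Real.log y) = 1 := by
  have h := integral_image_eq_integral_abs_deriv_smul (s := univ) (f := Real.exp) (f' := Real.exp)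
    MeasurableSet.univ (fun x _ => (Real.hasDerivAt_exp x).hasDerivWithinAt)
    Real.exp_injective.injOn (fun y => y⁻¹ * wt (Real.log y))
  rw [image_univ, Real.range_exp, Measure.restrict_univ] at h
  rw [h, ← integral_wt]
  refine integral_congr_ae (Eventually.of_forall fun x => ?_)
  simp only [Real.log_exp, smul_eq_mul, abs_of_pos (Real.exp_pos x)]
  field_simp

theorem vol_fsM : vol (fsM n) = 2 * π ^ (2 * n + 2) / (2 * n + 1).factorial := by
  have h1 : vol (fsM n) = ∫ y : E n, (fun r : ℝ => r⁻¹ ^ (4 * n + 4) * wt (Real.log r)) ‖y‖ := by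
    refine integral_congr_ae ?_
    have : ∀ᵐ y : E n, y ≠ 0 := by
      simp [ae_iff]
    filter_upwards [this] with y hy
    rw [fs_detG hy]
  have hb : (volume : Measure (E n)).real (Metric.ball 0 1) =
      π ^ (2 * n + 2) / (2 * n + 2).factorial := by
    rw [Measure.real, InnerProductSpace.volume_ball_of_dim_even (k := 2 * n + 2)
      (by rw [finrank_E]; ring) 0 1]
    simp only [ENNReal.ofReal_one, one_pow, one_mul]
    exact ENNReal.toReal_ofReal (by positivity)
  have h2 : ∫ y in Ioi (0 : ℝ), y ^ (4 * n + 4 - 1) •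
      (y⁻¹ ^ (4 * n + 4) * wt (Real.log y)) = 1 := by
    rw [← FSV_int_log]
    refine setIntegral_congr_fun measurableSet_Ioi fun y hy => ?_
    have hy0 : y ≠ 0 := ne_of_gt hy
    simp only [smul_eq_mul, show 4 * n + 4 - 1 = 4 * n + 3 by omega]
    rw [pow_succ (y⁻¹) (4 * n + 3), inv_pow]
    field_simp
  rw [h1, integral_fun_norm_addHaar volume
    (fun r : ℝ => r⁻¹ ^ (4 * n + 4) * wt (Real.log r)), hb, finrank_E, h2,
    Nat.factorial_succ (2 * n + 1)]
  simp only [smul_eq_mul, nsmul_eq_mul]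
  push_cast
  field_simp
  ring

theorem FSV_int_th0 (hn : 1 ≤ n) :
    ∫ r in (0 : ℝ)..(π / 2), th0 n r = 1 / (4 * n * (2 * n + 1)) := by
  obtain ⟨m, rfl⟩ : ∃ m, n = m + 1 := ⟨n - 1, by omega⟩
  have hd : ∀ r ∈ uIcc (0 : ℝ) (π / 2), HasDerivAt
      (fun r => Real.sin r ^ (4 * m + 4) / (4 * m + 4) - Real.sin r ^ (4 * m + 6) / (4 * m + 6))
      (th0 (m + 1) r) r := by
    intro r _
    have := (((Real.hasDerivAt_sin r).fun_pow (4 * m + 4)).div_const (4 * m + 4)).sub
      (((Real.hasDerivAt_sin r).fun_pow (4 * m + 6)).div_const (4 * m + 6))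
    refine this.congr_deriv ?_
    rw [th0, thk, Real.sin_two_mul, show 4 * (m + 1) - 1 - 3 = 4 * m by omega,
      show 4 * m + 4 - 1 = 4 * m + 3 by omega, show 4 * m + 6 - 1 = 4 * m + 5 by omega]
    push_cast
    field_simp
    linear_combination (-(Real.sin r ^ (4 * m + 3) * Real.cos r)) * Real.sin_sq_add_cos_sq r
  have hc : Continuous (th0 (m + 1)) := by
    unfold th0 thk
    fun_prop
  rw [intervalIntegral.integral_eq_sub_of_hasDerivAt hd (hc.intervalIntegrable _ _)]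
  simp only [Real.sin_pi_div_two, one_pow, Real.sin_zero, ne_eq, Nat.add_eq_zero_iff,
    OfNat.ofNat_ne_zero, and_false, not_false_eq_true, zero_pow, zero_div, sub_zero]
  push_cast
  field_simp
  ring

theorem model_integral (hn : 1 ≤ n) :
    ∫⁻ y : EuclideanSpace ℝ (Fin (4 * n)),
      (Ioo 0 (π / 2)).indicator (fun r => ENNReal.ofReal (th0 n r / r ^ (4 * n - 1))) ‖y‖ =
      ENNReal.ofReal (π ^ (2 * n) / (2 * n + 1).factorial) := by
  have : Nonempty (Fin (4 * n)) := ⟨⟨0, by omega⟩⟩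
  set f : ℝ → ℝ := (Ioo 0 (π / 2)).indicator fun r => th0 n r / r ^ (4 * n - 1) with hf
  have hc : Continuous (th0 n) := by
    unfold th0 thk
    fun_prop
  have hf0 : ∀ r, 0 ≤ f r := by
    intro r
    refine indicator_nonneg (fun r hr => div_nonneg ?_ (pow_nonneg hr.1.le _)) r
    have h1 : 0 ≤ Real.sin r :=
      Real.sin_nonneg_of_nonneg_of_le_pi hr.1.le (by linarith [hr.2, pi_pos])
    have h2 : 0 ≤ Real.sin (2 * r) :=
      Real.sin_nonneg_of_nonneg_of_le_pi (by linarith [hr.1]) (by linarith [hr.2])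
    unfold th0 thk
    positivity
  have hdim : Module.finrank ℝ (EuclideanSpace ℝ (Fin (4 * n))) = 4 * n := by simp
  have he : EqOn (fun y : ℝ => y ^ (4 * n - 1) • f y)
      ((Ioo 0 (π / 2)).indicator (th0 n)) (Ioi 0) := by
    intro y hy
    have hy0 : y ≠ 0 := ne_of_gt hy
    by_cases h : y ∈ Ioo 0 (π / 2)
    · simp only [hf, indicator_of_mem h, smul_eq_mul]
      field_simp
    · simp only [hf, indicator_of_notMem h, smul_zero]
  have hio : IntegrableOn (th0 n) (Ioo 0 (π / 2)) :=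
    (hc.integrableOn_Icc).mono_set Ioo_subset_Icc_self
  have hint : Integrable (fun y : EuclideanSpace ℝ (Fin (4 * n)) => f ‖y‖) := by
    rw [integrable_fun_norm_addHaar volume, hdim, integrableOn_congr_fun he measurableSet_Ioi]
    exact ((integrable_indicator_iff measurableSet_Ioo).2 hio).integrableOn
  have hb : (volume : Measure (EuclideanSpace ℝ (Fin (4 * n)))).real (Metric.ball 0 1) =
      π ^ (2 * n) / (2 * n).factorial := by
    rw [Measure.real, InnerProductSpace.volume_ball_of_dim_even (k := 2 * n)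
      (by rw [hdim]; ring) 0 1]
    simp only [ENNReal.ofReal_one, one_pow, one_mul]
    exact ENNReal.toReal_ofReal (by positivity)
  have h3 : ∫ y in Ioi (0 : ℝ), y ^ (4 * n - 1) • f y = 1 / (4 * n * (2 * n + 1)) := by
    rw [setIntegral_congr_fun measurableSet_Ioi he, setIntegral_indicator measurableSet_Ioo,
      inter_eq_right.2 Ioo_subset_Ioi_self, ← integral_Ioc_eq_integral_Ioo,
      ← intervalIntegral.integral_of_le (by positivity), FSV_int_th0 hn]
  have h4 : ∫ y : EuclideanSpace ℝ (Fin (4 * n)), f ‖y‖ =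
      π ^ (2 * n) / (2 * n + 1).factorial := by
    rw [integral_fun_norm_addHaar volume f, hdim, hb, h3, Nat.factorial_succ]
    have : (n : ℝ) ≠ 0 := by exact_mod_cast (by omega : n ≠ 0)
    simp only [smul_eq_mul, nsmul_eq_mul]
    push_cast
    field_simp
  rw [← h4, ofReal_integral_eq_lintegral_ofReal hint (Eventually.of_forall fun y => hf0 _)]
  refine lintegral_congr fun y => ?_
  by_cases h : ‖y‖ ∈ Ioo 0 (π / 2)
  · simp only [hf, indicator_of_mem h]
  · simp only [hf, indicator_of_notMem h, ENNReal.ofReal_zero]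

/-- The weight of the vertical coordinate. -/
def kw (c : ℍ) : ℝ := wt (log ‖1 + c‖) / ‖1 + c‖ ^ 4

theorem kw_nonneg (c : ℍ) : 0 ≤ kw c := div_nonneg (wt_nonneg _) (by positivity)

theorem kw_meas : Measurable kw := by
  have h1 : Measurable fun c : ℍ => ‖1 + c‖ := (by fun_prop : Continuous _).measurable
  exact (contDiff_wt.continuous.measurable.comp (measurable_log.comp h1)).div (h1.pow_const 4)

theorem kw_cont : ContinuousOn kw {c | 1 + c ≠ 0} := by
  have h1 : ContinuousOn (fun c : ℍ => ‖1 + c‖) {c | 1 + c ≠ 0} := by fun_prop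
  exact (contDiff_wt.continuous.comp_continuousOn (h1.log fun c hc => norm_ne_zero_iff.2 hc)).div
    (h1.pow 4) fun c hc => pow_ne_zero 4 (norm_ne_zero_iff.2 hc)

theorem kw_lint : ∫⁻ c : ℍ, ENNReal.ofReal (kw c) = ENNReal.ofReal (2 * π ^ 2) := by
  let f : ℝ → ℝ := fun r => wt (log r) / r ^ 4
  have h1 : ∫ y in Ioi (0 : ℝ), y ^ (4 - 1) • f y = 1 := by
    rw [← FSV_int_log]
    refine setIntegral_congr_fun measurableSet_Ioi fun y hy => ?_
    have hy0 : y ≠ 0 := ne_of_gt hy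
    simp only [f, smul_eq_mul, Nat.add_one_sub_one]
    field_simp
  have hint : Integrable fun c : ℍ => f ‖c‖ := by
    rw [integrable_fun_norm_addHaar volume, Quaternion.finrank_eq_four]
    exact Integrable.of_integral_ne_zero (by rw [h1]; exact one_ne_zero)
  have hb : (volume : Measure ℍ).real (Metric.ball 0 1) = π ^ 2 / 2 := by
    rw [Measure.real, InnerProductSpace.volume_ball_of_dim_even (k := 2)
      Quaternion.finrank_eq_four 0 1]
    simp only [ENNReal.ofReal_one, one_pow, one_mul]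
    exact ENNReal.toReal_ofReal (by positivity)
  have h2 : ∫ c : ℍ, f ‖c‖ = 2 * π ^ 2 := by
    rw [integral_fun_norm_addHaar volume f, Quaternion.finrank_eq_four, hb, h1]
    simp only [smul_eq_mul, nsmul_eq_mul]
    push_cast
    ring
  rw [← h2, ofReal_integral_eq_lintegral_ofReal hint
    (Eventually.of_forall fun c => div_nonneg (wt_nonneg _) (by positivity))]
  exact lintegral_add_left_eq_self (fun c : ℍ => ENNReal.ofReal (f ‖c‖)) 1

/-- An orthonormal frame of the horizontal space. -/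
theorem hor_frame (h : IsMetric g) {z : E n} (hz : z ≠ 0) :
    ∃ S : EuclideanSpace ℝ (Fin (4 * n)) →ₗ[ℝ] E n, (∀ y, nu z (S y) = 0) ∧
      ∀ y y', g z (S y) (S y') = inner ℝ y y' := by
  let H : Submodule ℝ (E n) := LinearMap.ker (nuL z).toLinearMap
  have hH : Module.finrank ℝ H = 4 * n := by
    have h1 := LinearMap.finrank_range_add_finrank_ker (nuL z).toLinearMap
    have h2 : LinearMap.range (nuL z).toLinearMap = ⊤ := LinearMap.range_eq_top.2 fun c =>
      ⟨c • z, by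
        show nu z (c • z) = c
        rw [nu_smul, nu_self hz, mul_one]⟩
    rw [h2, finrank_top, Quaternion.finrank_eq_four, finrank_E] at h1
    show Module.finrank ℝ (LinearMap.ker (nuL z).toLinearMap) = _
    omega
  let B : LinearMap.BilinForm ℝ H := LinearMap.mk₂ ℝ (fun u w => g z u w)
    (fun _ _ _ => by simp) (fun _ _ _ => by simp) (fun _ _ _ => by simp) (fun _ _ _ => by simp)
  have hB : ∀ u w : H, B u w = g z u w := fun _ _ => rfl
  obtain ⟨v, hv⟩ := LinearMap.BilinForm.exists_orthogonal_basis (B := B)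
    ⟨fun u w => h.symm z u w hz⟩
  let b := v.reindex (finCongr hH)
  have hb0 : ∀ i, nu z (b i) = 0 := fun i => (b i).2
  have hb1 : ∀ i j, i ≠ j → g z (b i) (b j) = 0 := fun i j hij => by
    simp only [b, Module.Basis.reindex_apply]
    exact hv ((finCongr hH).symm.injective.ne hij)
  have hb2 : ∀ i, 0 < g z (b i) (b i) := fun i => by
    refine lt_of_le_of_ne (h.nonneg hz _) fun e => b.ne_zero i (Subtype.ext ?_)
    have := h.hor_eq_zero hz e.symm
    rwa [hor_of_nu (hb0 i)] at this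
  obtain ⟨e, he⟩ : ∃ e : Fin (4 * n) → E n, ∀ i, e i = (√(g z (b i) (b i)))⁻¹ • (b i : E n) :=
    ⟨_, fun _ => rfl⟩
  have he0 : ∀ i, nuL z (e i) = 0 := fun i => by
    rw [he, map_smul, nuL_apply, hb0, smul_zero]
  have he1 : ∀ i j, g z (e i) (e j) = if i = j then 1 else 0 := fun i j => by
    simp only [he, map_smul, smul_apply, smul_eq_mul]
    split_ifs with hij
    · subst hij
      have h1 := Real.mul_self_sqrt (hb2 i).le
      have h2 := (Real.sqrt_pos.2 (hb2 i)).ne'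
      field_simp
      linarith
    · rw [hb1 i j hij, mul_zero, mul_zero]
  refine ⟨Fintype.linearCombination ℝ e ∘ₗ (WithLp.linearEquiv 2 ℝ _).toLinearMap, fun y => ?_,
    fun y y' => ?_⟩
  · show nuL z (∑ i, y i • e i) = 0
    simp only [map_sum, map_smul, he0, smul_zero, Finset.sum_const_zero]
  · show g z (∑ i, y i • e i) (∑ i, y' i • e i) = _
    simp only [map_sum, map_smul, sum_apply, smul_apply, he1, smul_eq_mul, mul_ite, mul_one,
      mul_zero, Finset.sum_ite_eq', Finset.mem_univ, if_true, PiLp.inner_apply]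
    exact Finset.sum_congr rfl fun i _ => by simp

/-- Fibre integrals: a function of the speed and of the vertical coordinate. -/
theorem fibre_integral (h : IsMetric g) {z : E n} (hz : z ≠ 0) (f : ℝ → ENNReal)
    (hf : Measurable f) (k : ℍ → ENNReal) (hk : Measurable k) :
    ∫⁻ w : E n, f (√(g z w w)) * k (nu z w) * ENNReal.ofReal √(detG g z) =
      (∫⁻ y : EuclideanSpace ℝ (Fin (4 * n)), f ‖y‖) * ∫⁻ c, k c := by
  obtain ⟨S, hS0, hS1⟩ := hor_frame h hz
  have hdim : Module.finrank ℝ (E n) =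
      Module.finrank ℝ (WithLp 2 (EuclideanSpace ℝ (Fin (4 * n)) × ℍ)) := by
    rw [finrank_E, (WithLp.linearEquiv 2 ℝ _).finrank_eq, Module.finrank_prod,
      finrank_euclideanSpace_fin, Quaternion.finrank_eq_four]
  let J : E n ≃ₗᵢ[ℝ] WithLp 2 (EuclideanSpace ℝ (Fin (4 * n)) × ℍ) :=
    (stdOrthonormalBasis ℝ _).equiv (stdOrthonormalBasis ℝ _) (finCongr hdim)
  let L : EuclideanSpace ℝ (Fin (4 * n)) × ℍ →ₗ[ℝ] E n :=
    S.coprod ((LinearMap.toSpanSingleton ℍ (E n) z).restrictScalars ℝ)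
  let T : E n →ₗ[ℝ] E n :=
    L ∘ₗ (WithLp.linearEquiv 2 ℝ _).toLinearMap ∘ₗ J.toLinearEquiv.toLinearMap
  have hT : ∀ x, T x = S (J x).ofLp.1 + (J x).ofLp.2 • z := fun _ => rfl
  have hnu : ∀ x, nu z (T x) = (J x).ofLp.2 := fun x => by
    rw [hT, nu_add, hS0, nu_smul, nu_self hz, zero_add, mul_one]
  have hg : ∀ x x', g z (T x) (T x') = inner ℝ (J x).ofLp.1 (J x').ofLp.1 := fun x x' => by
    rw [hT, hT, map_add, h.vert' _ _ hz, add_zero, map_add, add_apply, h.vert _ _ _ hz, add_zero,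
      hS1]
  have hG : ∀ x x', GG g z (T x) (T x') = inner ℝ x x' := fun x x' => by
    rw [GG_apply, hg, hnu, hnu, ← J.inner_map_map, WithLp.prod_inner_apply]
  have hdet : (LinearMap.det T) ^ 2 * detG g z = 1 := by
    have h1 := bdet_comp (GG g z) (LinearMap.toContinuousLinearMap T)
    rw [LinearMap.det_toContinuousLinearMap] at h1
    rw [detG, ← h1, bdet, ← Matrix.det_one (n := Fin (Module.finrank ℝ (E n)))]
    congr 1
    ext i j
    rw [Matrix.of_apply, ContinuousLinearMap.bilinearComp_apply, Matrix.one_apply]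
    exact (hG _ _).trans (orthonormal_iff_ite.1 (stdOrthonormalBasis ℝ (E n)).orthonormal i j)
  have hd0 : LinearMap.det T ≠ 0 := by
    intro e
    rw [e] at hdet
    simp at hdet
  have hsq : √(detG g z) = |(LinearMap.det T)⁻¹| := by
    rw [← Real.sqrt_sq_eq_abs, inv_pow, eq_inv_of_mul_eq_one_right hdet]
  have hF : Measurable fun w : E n => f (√(g z w w)) * k (nu z w) := by
    refine (hf.comp ?_).mul (hk.comp (nuL z).continuous.measurable)
    exact (((g z).continuous.clm_apply continuous_id).sqrt).measurable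
  rw [lintegral_mul_const _ hF, mul_comm, hsq, ← smul_eq_mul, ← lintegral_smul_measure,
    ← Measure.map_linearMap_addHaar_eq_smul_addHaar volume hd0,
    lintegral_map hF T.continuous_of_finiteDimensional.measurable]
  have hP := (WithLp.volume_preserving_ofLp (EuclideanSpace ℝ (Fin (4 * n))) ℍ).comp
    J.measurePreserving
  have hf' : Measurable fun y : EuclideanSpace ℝ (Fin (4 * n)) => f ‖y‖ := hf.comp measurable_norm
  rw [← lintegral_prod_mul hf'.aemeasurable hk.aemeasurable, ← Measure.volume_eq_prod,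
    ← hP.lintegral_comp (f := fun p => f ‖p.1‖ * k p.2)
      ((hf'.comp measurable_fst).mul (hk.comp measurable_snd))]
  refine lintegral_congr fun x => ?_
  rw [hg, hnu, real_inner_self_eq_norm_sq, Real.sqrt_sq (norm_nonneg _)]
  rfl

end Pool.Agent.Work.MP_8c604c_gt.H
end
end

-- merged part: Pool.Agent.Work.MP_8c604c_gt.H.Vol
section
/-!
The volume inequality and its equality case. Port of ../Vol.lean (copy its lemmas, do not import it).
Changes. Vol_R g = {x in OO, spd < pi/2, 1 + nu x.1 x.2 nonzero}; Vol_w g x = wt (log |x.1|) * kw (nu x.1 x.2) * detG g x.1 (kw, kw_lint = 2 pi^2 in H/FSV; kw (-1) = 0);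
everywhere G.jac x.1 x.2 is replaced by G.jac x.1 (hor x.1 x.2) (th_spd, continuousOn_jac, nu_hor). In jac_le_vol the set is
{u | sqrt (g q u u) < pi/2 and 1 + nu q u nonzero}, the integrand jac q (hor q u) * kw (nu q u) * sqrt detG = jac q u * wt (log |Ex q u|) * sqrt detG (jac_hor, norm_Ex),
injectivity of Ex q is direct from ex_inj with c = (1 + nu q u)^(-1) * (1 + nu q u'). At the end use the real numbers l = exp r / |x.1| and
c = (exp r - 1) - nu x.1 (m . x.2), so that 1 + nu = exp r. bk_ineq is stated with thk n (kk x); th0 n = thk n 3.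
-/

set_option maxSynthPendingDepth 3

open Set Filter Topology MeasureTheory
open scoped ContDiff Quaternion

noncomputable section
namespace Pool.Agent.Work.MP_8c604c_gt.H

open Real

variable {n : ℕ} {g : Met n}

theorem Vol_wt_zero : wt 0 = 0 := by
  have h : Iio (0 : ℝ) ⊆ {r | wt r = 0} := fun r hr => wt_eq_zero fun h => h.1.not_gt hr
  have h2 := (isClosed_eq contDiff_wt.continuous continuous_const).closure_subset_iff.2 h
  rw [closure_Iio] at h2
  exact h2 (mem_Iic.2 le_rfl)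

theorem Vol_wt_pos : ∃ r, 0 < wt r := by
  by_contra h
  push Not at h
  have e : wt = fun _ => 0 := funext fun r => le_antisymm (h r) (wt_nonneg r)
  have := integral_wt
  rw [e] at this
  simp at this

theorem Vol_kw_zero {c : ℍ} (hc : 1 + c = 0) : kw c = 0 := by
  unfold kw
  rw [hc, norm_zero, zero_pow (by norm_num), div_zero]

theorem Vol_lint (h : IsMetric g) :
    ∫⁻ y : E n, ENNReal.ofReal (√(detG g y) * wt (log ‖y‖)) = ENNReal.ofReal (vol g) := by
  refine (ofReal_integral_eq_lintegral_ofReal ?_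
    (Eventually.of_forall fun y => mul_nonneg (sqrt_nonneg _) (wt_nonneg _))).symm
  have hK : IsCompact (Metric.closedBall (0 : E n) (exp 1) \ Metric.ball 0 1) :=
    (isCompact_closedBall _ _).diff Metric.isOpen_ball
  have hs : Metric.closedBall (0 : E n) (exp 1) \ Metric.ball 0 1 ⊆ {0}ᶜ := by
    rintro y hy rfl
    exact hy.2 (Metric.mem_ball_self one_pos)
  refine IntegrableOn.integrable_of_forall_notMem_eq_zero
    (ContinuousOn.integrableOn_compact hK ?_) fun y hy => ?_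
  · exact ((h.continuousOn_detG.mono hs).sqrt).mul (contDiff_wt.continuous.comp_continuousOn
      (continuous_norm.continuousOn.log fun y hy => norm_ne_zero_iff.2 (hs hy)))
  · by_cases h0 : y = 0
    · rw [h0, norm_zero, log_zero, Vol_wt_zero, mul_zero]
    · have h1 : 0 < ‖y‖ := norm_pos_iff.2 h0
      rw [wt_eq_zero, mul_zero]
      refine fun h2 => hy ⟨?_, ?_⟩
      · rw [mem_closedBall_zero_iff]
        exact (log_le_iff_le_exp h1).1 h2.2
      · rw [mem_ball_zero_iff, not_lt]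
        exact (log_nonneg_iff h1).1 h2.1

/-- The region of integration. -/
def Vol_R (g : Met n) : Set (VV n) :=
  {x | x ∈ OO n ∧ spd g x < π / 2 ∧ 1 + nu x.1 x.2 ≠ 0}

/-- The weight. -/
def Vol_w (g : Met n) (x : VV n) : ℝ := wt (log ‖x.1‖) * kw (nu x.1 x.2) * detG g x.1

/-- The Jacobian at the horizontal part. -/
def Vol_J (G : Geo g) (x : VV n) : ℝ := G.jac x.1 (hor x.1 x.2)

/-- The integral of the Jacobian along the flow. -/
def Vol_avg (G : Geo g) (x : VV n) : ℝ := ∫ t in (0 : ℝ)..π, Vol_J G (G.psi t x)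

theorem Vol_nu_cont : ContinuousOn (fun x : VV n => nu x.1 x.2) (OO n) :=
  (contDiffOn_nuL.continuousOn.comp continuousOn_fst fun _ hx => hx.1).clm_apply continuousOn_snd

theorem Vol_open (h : IsMetric g) : IsOpen (Vol_R g) := by
  have h1 := h.contDiffOn_spd.continuousOn.isOpen_inter_preimage isOpen_OO (isOpen_Iio (a := π / 2))
  have h2 := ((continuousOn_const (c := (1 : ℍ))).add
    (Vol_nu_cont (n := n))).isOpen_inter_preimage isOpen_OO (isOpen_compl_singleton (x := 0))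
  have e : Vol_R g = OO n ∩ spd g ⁻¹' Iio (π / 2) ∩
      (OO n ∩ (fun x => 1 + nu x.1 x.2) ⁻¹' {0}ᶜ) := by
    ext x
    exact ⟨fun hx => ⟨⟨hx.1, hx.2.1⟩, hx.1, hx.2.2⟩, fun hx => ⟨hx.1.1, hx.1.2, hx.2.2⟩⟩
  rw [e]
  exact h1.inter h2

theorem Vol_w_cont (h : IsMetric g) : ContinuousOn (Vol_w g) (Vol_R g) :=
  ((contDiff_wt.continuous.comp_continuousOn
    (continuous_fst.norm.continuousOn.log fun _ hx => norm_ne_zero_iff.2 hx.1.1)).mul
    (kw_cont.comp (Vol_nu_cont.mono fun _ hx => hx.1) fun _ hx => hx.2.2)).mul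
    (h.continuousOn_detG.comp continuousOn_fst fun _ hx => hx.1.1)

theorem Vol_w_nonneg (h : IsMetric g) {x : VV n} (hx : x.1 ≠ 0) : 0 ≤ Vol_w g x :=
  mul_nonneg (mul_nonneg (wt_nonneg _) (kw_nonneg _)) (h.detG_pos hx).le

theorem Vol_J_nonneg (G : Geo g) (x : VV n) : 0 ≤ Vol_J G x := G.jac_nonneg _ _

theorem Vol_J_cont (G : Geo g) (h : IsMetric g) : ContinuousOn (Vol_J G) (OO n) := by
  have h1 : ContinuousOn (fun x : VV n => ((x.1, hor x.1 x.2) : VV n)) (OO n) :=
    continuousOn_fst.prodMk ((contDiffOn_horL.continuousOn.comp continuousOn_fst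
      fun _ hx => hx.1).clm_apply continuousOn_snd)
  refine (G.continuousOn_jac h).comp h1 fun x hx => ⟨hx.1, ?_⟩
  have e : nu x.1 (hor x.1 x.2) = 0 := nu_hor hx.1 _
  simp only [e, add_zero]
  exact one_ne_zero

theorem Vol_psi_mem (G : Geo g) (h : IsMetric g) (t : ℝ) {x : VV n} (hx : x ∈ Vol_R g) :
    G.psi t x ∈ Vol_R g :=
  ⟨G.psi_mem h t hx.1, by rw [G.spd_psi h t hx.1]; exact hx.2.1,
    by rw [G.nu_psi h t hx.1]; exact hx.2.2⟩

theorem Vol_psi (G : Geo g) (h : IsMetric g) (t : ℝ) {f : VV n → ℝ} :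
    ∫⁻ x in Vol_R g, ENNReal.ofReal (f (G.psi t x) * Vol_w g x) =
      ∫⁻ x in Vol_R g, ENNReal.ofReal (f x * Vol_w g x) := by
  have hinv : ∀ s x, x ∈ OO n → G.psi (-s) (G.psi s x) = x := fun s x hx => by
    rw [← G.psi_add h _ _ hx, neg_add_cancel, G.psi_zero h hx]
  have him : G.psi t '' Vol_R g = Vol_R g := by
    refine Subset.antisymm ?_ fun x hx => ⟨_, Vol_psi_mem G h (-t) hx, ?_⟩
    · rintro _ ⟨x, hx, rfl⟩
      exact Vol_psi_mem G h t hx
    · have := hinv (-t) x hx.1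
      rwa [neg_neg] at this
  have hd : ∀ x ∈ Vol_R g, HasFDerivWithinAt (G.psi t) (fderiv ℝ (G.psi t) x) (Vol_R g) x := by
    intro x hx
    have h1 : ContDiffAt ℝ ∞ (fun p : ℝ × VV n => G.psi p.1 p.2) (t, x) :=
      (G.contDiffOn_psi h).contDiffAt ((isOpen_OO.preimage continuous_snd).mem_nhds hx.1)
    have h2 : ContDiffAt ℝ ∞ (G.psi t) x := h1.comp x (contDiffAt_const.prodMk contDiffAt_id)
    exact (h2.differentiableAt (by simp)).hasFDerivAt.hasFDerivWithinAt
  have hi : InjOn (G.psi t) (Vol_R g) := fun x hx y hy e => by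
    rw [← hinv t x hx.1, e, hinv t y hy.1]
  have : (volume : Measure (VV n)).IsAddHaarMeasure := Measure.prod.instIsAddHaarMeasure _ _
  have key := lintegral_image_eq_lintegral_abs_det_fderiv_mul volume (Vol_open h).measurableSet hd hi
    fun x => ENNReal.ofReal (f x * Vol_w g x)
  rw [him] at key
  rw [key]
  refine setLIntegral_congr_fun (Vol_open h).measurableSet fun x hx => ?_
  beta_reduce
  rw [← ENNReal.ofReal_mul (abs_nonneg _)]
  congr 1
  have e1 : ‖(G.psi t x).1‖ = ‖x.1‖ := G.norm_Z h t hx.1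
  have e2 : |(fderiv ℝ (G.psi t) x).det| * detG g (G.psi t x).1 = detG g x.1 := G.det_psi h t hx.1
  unfold Vol_w
  rw [e1, G.nu_psi h t hx.1, ← e2]
  ring

theorem Vol_jac_cont (G : Geo g) (h : IsMetric g) :
    ContinuousOn (fun p : ℝ × VV n => Vol_J G (G.psi p.1 p.2)) {p | p.2 ∈ OO n} :=
  (Vol_J_cont G h).comp (G.contDiffOn_psi h).continuousOn fun p hp => G.psi_mem h p.1 hp

theorem Vol_jac_cont' (G : Geo g) (h : IsMetric g) {x : VV n} (hx : x ∈ OO n) :
    Continuous fun t => Vol_J G (G.psi t x) := by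
  have := (Vol_jac_cont G h).comp_continuous (f := fun t : ℝ => (t, x)) (by fun_prop) fun _ => hx
  exact this

theorem Vol_avg_cont (G : Geo g) (h : IsMetric g) : ContinuousOn (Vol_avg G) (OO n) := by
  rw [continuousOn_iff_continuous_domRestrict]
  have := (Vol_jac_cont G h).comp_continuous (f := fun p : OO n × ℝ => (p.2, (p.1 : VV n)))
    (by fun_prop) fun p => p.1.2
  exact intervalIntegral.continuous_parametric_intervalIntegral_of_continuous'
    (f := fun (x : OO n) t => Vol_J G (G.psi t x)) this 0 π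

theorem Vol_avg_lint (G : Geo g) (h : IsMetric g) :
    ∫⁻ x in Vol_R g, ENNReal.ofReal (Vol_avg G x * Vol_w g x) =
      ENNReal.ofReal π * ∫⁻ x in Vol_R g, ENNReal.ofReal (Vol_J G x * Vol_w g x) := by
  have h1 : ∫⁻ t in Ioc 0 π, ∫⁻ x in Vol_R g,
      ENNReal.ofReal (Vol_J G (G.psi t x) * Vol_w g x) =
      ENNReal.ofReal π * ∫⁻ x in Vol_R g, ENNReal.ofReal (Vol_J G x * Vol_w g x) := by
    simp only [Vol_psi G h _ (f := Vol_J G)]
    rw [setLIntegral_const, Real.volume_Ioc, sub_zero, mul_comm]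
  rw [← h1, lintegral_lintegral_swap]
  · refine setLIntegral_congr_fun (Vol_open h).measurableSet fun x hx => ?_
    rw [← ofReal_integral_eq_lintegral_ofReal, integral_mul_const,
      ← intervalIntegral.integral_of_le pi_pos.le]
    · rfl
    · exact ((Vol_jac_cont' G h hx.1).mul continuous_const).integrableOn_Ioc
    · exact Eventually.of_forall fun t =>
        mul_nonneg (Vol_J_nonneg G _) (Vol_w_nonneg h hx.1.1)
  · rw [Measure.prod_restrict]
    refine ContinuousOn.aemeasurable ?_ (measurableSet_Ioc.prod (Vol_open h).measurableSet)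
    exact ENNReal.continuous_ofReal.comp_continuousOn
      (((Vol_jac_cont G h).mono fun p hp => hp.2.1).mul
        ((Vol_w_cont h).comp continuousOn_snd fun p hp => hp.2))

theorem Vol_log {θ : ℝ → ℝ} (hc : Continuous θ) (hp : ∀ t, 0 < θ t) {a : ℝ} (ha : 0 < a) :
    a * ((∫ t in (0 : ℝ)..π, log (θ t)) - π * log a) ≤ (∫ t in (0 : ℝ)..π, θ t) - π * a := by
  have hl : Continuous fun t => log (θ t) := hc.log fun t => (hp t).ne'
  have h1 : ∫ t in (0 : ℝ)..π, a * (log (θ t) - log a) ≤ ∫ t in (0 : ℝ)..π, (θ t - a) := by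
    refine intervalIntegral.integral_mono_on pi_pos.le
      ((continuous_const.mul (hl.sub continuous_const)).intervalIntegrable _ _)
      ((hc.sub continuous_const).intervalIntegrable _ _) fun t _ => ?_
    have h2 := log_le_sub_one_of_pos (div_pos (hp t) ha)
    rw [log_div (hp t).ne' ha.ne'] at h2
    refine (mul_le_mul_of_nonneg_left h2 ha.le).trans (le_of_eq ?_)
    field_simp
  rw [intervalIntegral.integral_const_mul,
    intervalIntegral.integral_sub (hl.intervalIntegrable _ _) intervalIntegrable_const,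
    intervalIntegral.integral_sub (hc.intervalIntegrable _ _) intervalIntegrable_const] at h1
  simpa using h1

theorem Vol_th0_pos {τ : ℝ} (hτ : τ ∈ Ioo 0 (π / 2)) : 0 < th0 n τ := by
  have h1 : 0 < sin τ := sin_pos_of_pos_of_lt_pi hτ.1 (by linarith [hτ.2, pi_pos])
  have h2 : 0 < sin (2 * τ) := sin_pos_of_pos_of_lt_pi (by linarith [hτ.1]) (by linarith [hτ.2])
  unfold th0 thk
  positivity

theorem Vol_j_cont (h : IsMetric g) :
    ContinuousOn (fun x : VV n => th0 n (spd g x) / spd g x ^ (4 * n - 1)) (OO n) := by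
  have h1 : Continuous (th0 n) := by
    unfold th0 thk
    fun_prop
  exact (h1.comp_continuousOn h.contDiffOn_spd.continuousOn).div
    (h.contDiffOn_spd.continuousOn.pow _) fun x hx => pow_ne_zero _ (h.spd_pos hx).ne'

theorem Vol_model (hn : 1 ≤ n) (h : IsMetric g) :
    ∫⁻ x in Vol_R g, ENNReal.ofReal (th0 n (spd g x) / spd g x ^ (4 * n - 1) * Vol_w g x) =
      ENNReal.ofReal (vol g) * ENNReal.ofReal (vol (fsM n)) := by
  have hR := (Vol_open h).measurableSet
  have hf : Measurable ((Ioo 0 (π / 2)).indicator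
      fun r : ℝ => ENNReal.ofReal (th0 n r / r ^ (4 * n - 1))) := by
    refine Measurable.indicator (Measurable.ennreal_ofReal ?_) measurableSet_Ioo
    unfold th0 thk
    fun_prop
  have hv : ENNReal.ofReal (vol (fsM n)) =
      ENNReal.ofReal (π ^ (2 * n) / (2 * n + 1).factorial) * ENNReal.ofReal (2 * π ^ 2) := by
    rw [vol_fsM, ← ENNReal.ofReal_mul (by positivity)]
    congr 1
    ring
  rw [← lintegral_indicator hR, Measure.volume_eq_prod, lintegral_prod, ← Vol_lint h,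
    ← lintegral_mul_const' _ _ ENNReal.ofReal_ne_top]
  · refine lintegral_congr fun z => ?_
    by_cases hz : z = 0
    · have : ∀ u : E n, (z, u) ∉ Vol_R g := fun u hu => hu.1.1 hz
      simp only [indicator_of_notMem (this _)]
      rw [hz, norm_zero, log_zero, Vol_wt_zero]
      simp
    rw [hv, ← model_integral hn, ← kw_lint,
      ← fibre_integral h hz _ hf _ kw_meas.ennreal_ofReal,
      ← lintegral_const_mul' _ _ ENNReal.ofReal_ne_top]
    refine lintegral_congr fun u => ?_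
    by_cases hu : (z, u) ∈ Vol_R g
    · have h1 : √(g z u u) ∈ Ioo 0 (π / 2) := ⟨h.spd_pos hu.1, hu.2.1⟩
      have h3 : 0 ≤ th0 n √(g z u u) / √(g z u u) ^ (4 * n - 1) :=
        div_nonneg (Vol_th0_pos h1).le (pow_nonneg h1.1.le _)
      rw [indicator_of_mem hu, indicator_of_mem h1,
        ← ENNReal.ofReal_mul h3, ← ENNReal.ofReal_mul (mul_nonneg h3 (kw_nonneg _)),
        ← ENNReal.ofReal_mul (mul_nonneg (sqrt_nonneg _) (wt_nonneg _))]
      congr 1
      unfold Vol_w spd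
      linear_combination (-(th0 n √(g z u u) / √(g z u u) ^ (4 * n - 1) * wt (log ‖z‖) *
        kw (nu z u))) * mul_self_sqrt (h.detG_pos hz).le
    · rw [indicator_of_notMem hu]
      by_cases h1 : √(g z u u) ∈ Ioo 0 (π / 2)
      · have h2 : 1 + nu z u = 0 := by
          by_contra h2
          exact hu ⟨⟨hz, fun c hc => by
            have hc' : u = c • z := hc
            rw [hc', h.vert c z _ hz, sqrt_zero] at h1
            exact h1.1.false⟩, h1.2, h2⟩
        rw [Vol_kw_zero h2]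
        simp
      · rw [indicator_of_notMem h1]
        simp
  · rw [← Measure.volume_eq_prod, aemeasurable_indicator_iff hR]
    exact (ENNReal.continuous_ofReal.comp_continuousOn
      (((Vol_j_cont h).mono fun x hx => hx.1).mul (Vol_w_cont h))).aemeasurable hR

namespace Bl
variable {G : Geo g} (B : Bl g G)
include B

/-- Change of variables for the completed exponential map. -/
theorem jac_le_vol {q : E n} (hq : q ≠ 0) :
    ∫⁻ u in {u | √(g q u u) < π / 2 ∧ 1 + nu q u ≠ 0},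
      ENNReal.ofReal (G.jac q (hor q u) * kw (nu q u) * √(detG g q)) ≤
      ENNReal.ofReal (vol g) := by
  have h := B.met
  have hq' : ‖q‖⁻¹ ≠ 0 := inv_ne_zero (norm_ne_zero_iff.2 hq)
  have hS : MeasurableSet {u : E n | √(g q u u) < π / 2 ∧ 1 + nu q u ≠ 0} := by
    have h1 : Continuous fun u : E n => √(g q u u) := by fun_prop
    have h2 : Continuous fun u : E n => 1 + nu q u := continuous_const.add (nuL q).continuous
    exact ((isOpen_lt h1 continuous_const).inter (isOpen_ne_fun h2 continuous_const)).measurableSet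
  have hd : ∀ u ∈ {u : E n | √(g q u u) < π / 2 ∧ 1 + nu q u ≠ 0},
      HasFDerivWithinAt (G.Ex q) (fderiv ℝ (G.Ex q) u)
        {u : E n | √(g q u u) < π / 2 ∧ 1 + nu q u ≠ 0} u := by
    intro u _
    have h1 : ContDiffAt ℝ ∞ (fun p : VV n => G.Ex p.1 p.2) (q, u) :=
      G.contDiffOn_Ex.contDiffAt ((isOpen_ne.preimage continuous_fst).mem_nhds hq)
    have h2 := h1.comp (f := fun u : E n => (q, u)) u (contDiffAt_const.prodMk contDiffAt_id)
    have h3 : ContDiffAt ℝ ∞ (G.Ex q) u := h2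
    exact (h3.differentiableAt (by simp)).hasFDerivAt.hasFDerivWithinAt
  have hi : InjOn (G.Ex q) {u : E n | √(g q u u) < π / 2 ∧ 1 + nu q u ≠ 0} := by
    intro u hu u' hu' e
    have e0 : (1 + nu q u) • G.ex q u = (1 + nu q u') • G.ex q u' := by
      refine smul_right_injective _ hq' ?_
      unfold Geo.Ex at e
      beta_reduce
      rw [← smul_assoc, ← smul_assoc, e]
    have e1 : G.ex q u = ((1 + nu q u)⁻¹ * (1 + nu q u')) • G.ex q u' := by
      rw [mul_smul, ← e0, smul_smul, inv_mul_cancel₀ hu.2, one_smul]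
    obtain ⟨e2, e3⟩ := B.ex_inj hq hu.1 hu'.1 e1
    have e4 : nu q u = nu q u' := add_left_cancel ((inv_mul_eq_one₀ hu.2).1 e3)
    rw [hor_def, hor_def, e4] at e2
    exact sub_left_injective e2
  have key := lintegral_image_eq_lintegral_abs_det_fderiv_mul volume hS hd hi
    fun y => ENNReal.ofReal (√(detG g y) * wt (log ‖y‖))
  rw [← Vol_lint h]
  refine le_trans (le_of_eq ?_) (setLIntegral_le_lintegral
    (G.Ex q '' {u : E n | √(g q u u) < π / 2 ∧ 1 + nu q u ≠ 0}) _)
  rw [key]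
  refine setLIntegral_congr_fun hS fun u hu => ?_
  have h0 : √(detG g q) ≠ 0 := (sqrt_pos.2 (h.detG_pos hq)).ne'
  have h1 : ‖1 + nu q u‖ ≠ 0 := norm_ne_zero_iff.2 hu.2
  beta_reduce
  rw [← ENNReal.ofReal_mul (abs_nonneg _), G.norm_Ex hq, ← G.jac_hor h hq hu.2]
  congr 1
  unfold Geo.jac kw
  field_simp

theorem Vol_le :
    ∫⁻ x in Vol_R g, ENNReal.ofReal (Vol_J G x * Vol_w g x) ≤
      ENNReal.ofReal (vol g) * ENNReal.ofReal (vol g) := by
  rw [← lintegral_indicator (Vol_open B.met).measurableSet, Measure.volume_eq_prod]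
  refine (lintegral_prod_le _).trans ?_
  nth_rewrite 1 [← Vol_lint B.met]
  rw [← lintegral_mul_const' _ _ ENNReal.ofReal_ne_top]
  refine lintegral_mono fun z => ?_
  by_cases hz : z = 0
  · have : ∀ u : E n, (z, u) ∉ Vol_R g := fun u hu => hu.1.1 hz
    simp only [indicator_of_notMem (this _)]
    simp
  refine le_trans ?_ (mul_le_mul_right (B.jac_le_vol hz) _)
  refine le_trans ?_ (mul_le_mul_right (lintegral_indicator_le _ _) _)
  rw [← lintegral_const_mul' _ _ ENNReal.ofReal_ne_top]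
  refine lintegral_mono fun u => ?_
  by_cases hu : (z, u) ∈ Vol_R g
  · have h1 : u ∈ {u | √(g z u u) < π / 2 ∧ 1 + nu z u ≠ 0} := hu.2
    rw [indicator_of_mem hu, indicator_of_mem h1,
      ← ENNReal.ofReal_mul (mul_nonneg (sqrt_nonneg _) (wt_nonneg _))]
    refine le_of_eq (congrArg _ ?_)
    unfold Vol_w Vol_J
    linear_combination (-(G.jac z (hor z u) * wt (log ‖z‖) * kw (nu z u))) *
      mul_self_sqrt (B.met.detG_pos hz).le
  · rw [indicator_of_notMem hu]
    exact zero_le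

theorem Vol_point {x : VV n} (hx : x ∈ OO n) (hs : spd g x < π / 2) :
    th0 n (spd g x) * ((∫ t in (0 : ℝ)..π, log (G.th (G.psi t x) (spd g x))) -
      π * log (th0 n (spd g x))) ≤ spd g x ^ (4 * n - 1) * Vol_avg G x - π * th0 n (spd g x) := by
  have h := B.met
  have hs0 := h.spd_pos hx
  have h0 : 0 < th0 n (spd g x) := Vol_th0_pos ⟨hs0, hs⟩
  have e : ∀ t, G.th (G.psi t x) (spd g x) =
      spd g x ^ (4 * n - 1) * Vol_J G (G.psi t x) := fun t => by
    have := G.th_spd h (G.psi_mem h t hx)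
    rwa [G.spd_psi h t hx] at this
  have hp : ∀ t, 0 < spd g x ^ (4 * n - 1) * Vol_J G (G.psi t x) := fun t => by
    have h1 := (G.psi_mem h t hx).1
    refine mul_pos (pow_pos hs0 _) (B.jac_pos h1 ?_ ?_)
    · rw [h.hor_left h1, h.hor_right h1]
      exact (G.spd_psi h t hx).trans_lt hs
    · rw [nu_hor h1, add_zero]
      exact one_ne_zero
  simp only [e]
  have hc : Continuous fun t => spd g x ^ (4 * n - 1) * Vol_J G (G.psi t x) :=
    continuous_const.mul (Vol_jac_cont' G h hx)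
  unfold Vol_avg
  rw [← intervalIntegral.integral_const_mul (spd g x ^ (4 * n - 1))]
  exact Vol_log hc hp h0

theorem eq_of_vol_le (hk : ∀ x ∈ OO n, G.kk x = 3) (hv : vol g ≤ vol (fsM n)) {x : VV n}
    (hx : x ∈ OO n) {τ : ℝ} (hτ : τ ∈ Ioo 0 (π / 2)) :
    π * log (th0 n τ) = ∫ t in (0 : ℝ)..π, log (G.th (G.psi t x) τ) := by
  have h := B.met
  have hR := Vol_open h
  have hbk : ∀ y ∈ OO n, ∀ s ∈ Ioo 0 (π / 2),
      π * log (th0 n s) ≤ ∫ t in (0 : ℝ)..π, log (G.th (G.psi t y) s) := fun y hy s hs => by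
    have := B.bk_ineq hy hs
    rw [hk y hy] at this
    exact this
  have hD : ∀ y ∈ Vol_R g, π * (th0 n (spd g y) / spd g y ^ (4 * n - 1)) ≤ Vol_avg G y :=
    fun y hy => by
    have h1 := B.Vol_point hy.1 hy.2.1
    have h2 := hbk y hy.1 _ ⟨h.spd_pos hy.1, hy.2.1⟩
    have h3 := mul_nonneg (Vol_th0_pos (n := n) ⟨h.spd_pos hy.1, hy.2.1⟩).le (sub_nonneg.2 h2)
    rw [← mul_div_assoc, div_le_iff₀ (pow_pos (h.spd_pos hy.1) _)]
    linarith
  have hm : ∫⁻ y in Vol_R g,
      ENNReal.ofReal (π * (th0 n (spd g y) / spd g y ^ (4 * n - 1)) * Vol_w g y) =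
      ENNReal.ofReal π * (ENNReal.ofReal (vol g) * ENNReal.ofReal (vol (fsM n))) := by
    rw [← Vol_model (by have := B.two; omega) h, ← lintegral_const_mul' _ _ ENNReal.ofReal_ne_top]
    refine lintegral_congr fun y => ?_
    rw [← ENNReal.ofReal_mul pi_pos.le, mul_assoc]
  have c1 : ContinuousOn (fun y => ENNReal.ofReal
      (π * (th0 n (spd g y) / spd g y ^ (4 * n - 1)) * Vol_w g y)) (Vol_R g) :=
    ENNReal.continuous_ofReal.comp_continuousOn
      (((continuousOn_const.mul (Vol_j_cont h)).mono fun y hy => hy.1).mul (Vol_w_cont h))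
  have c2 : ContinuousOn (fun y => ENNReal.ofReal (Vol_avg G y * Vol_w g y)) (Vol_R g) :=
    ENNReal.continuous_ofReal.comp_continuousOn
      (((Vol_avg_cont G h).mono fun y hy => hy.1).mul (Vol_w_cont h))
  have key := Measure.eqOn_open_of_ae_eq (μ := volume) (ae_eq_of_ae_le_of_lintegral_le
    ((ae_restrict_iff' hR.measurableSet).2 (Eventually.of_forall fun y hy =>
      ENNReal.ofReal_le_ofReal (mul_le_mul_of_nonneg_right (hD y hy) (Vol_w_nonneg h hy.1.1))))
    (by
      rw [hm]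
      exact ENNReal.mul_ne_top ENNReal.ofReal_ne_top
        (ENNReal.mul_ne_top ENNReal.ofReal_ne_top ENNReal.ofReal_ne_top))
    (c2.aemeasurable hR.measurableSet)
    (by
      rw [hm, Vol_avg_lint G h]
      exact mul_le_mul_right (B.Vol_le.trans
        (mul_le_mul_right (ENNReal.ofReal_le_ofReal hv) _)) _)) hR c1 c2
  obtain ⟨r, hr⟩ := Vol_wt_pos
  have hs := h.spd_pos hx
  have hz : 0 < ‖x.1‖ := norm_pos_iff.2 hx.1
  obtain ⟨l, hl⟩ : ∃ l : ℝ, l = exp r / ‖x.1‖ := ⟨_, rfl⟩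
  have hl0 : 0 < l := by rw [hl]; positivity
  have hl1 : (l : ℍ) ≠ 0 := coe_ne_zero hl0.ne'
  have hm0 : 0 < τ / spd g x := div_pos hτ.1 hs
  obtain ⟨c, hc⟩ : ∃ c : ℍ, c = (exp r : ℝ) - 1 - nu x.1 ((τ / spd g x) • x.2) := ⟨_, rfl⟩
  have hy := act_mem c hl1 hm0 hx
  have e1 : spd g (act l (τ / spd g x) c x) = τ := by
    rw [h.spd_act c hl1 hm0 hx.1, div_mul_cancel₀ _ hs.ne']
  have e2 : 1 + nu (act l (τ / spd g x) c x).1 (act l (τ / spd g x) c x).2 = (exp r : ℝ) := by
    unfold act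
    rw [nu_smul_smul, nu_add, nu_smul, nu_self hx.1, hc, mul_one, add_sub_cancel,
      Quaternion.coe_commutes, mul_assoc, mul_inv_cancel₀ hl1, mul_one, add_sub_cancel]
  have e3 : log ‖(act l (τ / spd g x) c x).1‖ = r := by
    unfold act
    rw [norm_smul, Quaternion.norm_coe, Real.norm_of_nonneg hl0.le, hl, div_mul_cancel₀ _ hz.ne',
      log_exp]
  have e4 : ∀ t, G.th (G.psi t (act l (τ / spd g x) c x)) τ = G.th (G.psi t x) τ := fun t => by
    rw [G.psi_act h t c hl1 hm0 hx]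
    exact G.th_inv h τ _ _ _ _ hl1 hm0 (G.psi_mem h t hx)
  generalize act l (τ / spd g x) c x = y at hy e1 e2 e3 e4
  have hyR : y ∈ Vol_R g := ⟨hy, e1 ▸ hτ.2, by rw [e2]; exact coe_ne_zero (exp_pos r).ne'⟩
  have hw : 0 < Vol_w g y := by
    unfold Vol_w kw
    rw [e2, e3, Quaternion.norm_coe, Real.norm_of_nonneg (exp_pos r).le, log_exp]
    exact mul_pos (mul_pos hr (div_pos hr (pow_pos (exp_pos r) 4))) (h.detG_pos hy.1)
  have h0 := Vol_th0_pos (n := n) hτ
  have h1 := key hyR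
  have h2 := hD y hyR
  have h3 := B.Vol_point hy hyR.2.1
  beta_reduce at h1
  rw [e1] at h1 h2 h3
  have h4 : 0 ≤ π * (th0 n τ / τ ^ (4 * n - 1)) :=
    mul_nonneg pi_pos.le (div_nonneg h0.le (pow_pos hτ.1 _).le)
  rw [ENNReal.ofReal_eq_ofReal_iff (mul_nonneg h4 hw.le) (mul_nonneg (h4.trans h2) hw.le)] at h1
  have h5 := mul_right_cancel₀ hw.ne' h1
  rw [← mul_div_assoc, div_eq_iff (pow_pos hτ.1 _).ne'] at h5
  simp only [e4] at h3
  refine le_antisymm (hbk x hx τ hτ) (sub_nonpos.1 (nonpos_of_mul_nonpos_right ?_ h0))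
  linarith

end Bl

end Pool.Agent.Work.MP_8c604c_gt.H
end
end
end

-- merged part: Pool.Agent.Work.MP_8c604c_gt.B.G4B
section
-- merged part: Pool.Agent.Work.MP_8c604c_gt.H.Rig
section
/-!
A Blaschke metric with multiplicity three and volume at most that of the model is standard.
-/

set_option maxSynthPendingDepth 3

open Set Filter Topology MeasureTheory
open scoped ContDiff Quaternion

noncomputable section
namespace Pool.Agent.Work.MP_8c604c_gt.H

open Real

open scoped LinearAlgebra.Projectivization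

variable {n : ℕ} {g : Met n} {G : Geo g}

theorem Bl.standard_of_vol_le (B : Bl g G) (hk : ∀ x ∈ OO n, G.kk x = 3)
    (hv : vol g ≤ vol (fsM n)) :
    ∃ Ψ : ℙ ℍ (E n) → ℙ ℍ (E n), Function.Bijective Ψ ∧ PullsBack g Ψ 1 := by
  have hM : Model G := fun x hx τ hτ u hu =>
    B.bk_eq hx hτ (by rw [hk x hx]; exact B.eq_of_vol_le hk hv hx hτ) hu
  obtain ⟨o, ho⟩ : ∃ o : E n, o ≠ 0 := exists_ne_zero
  obtain ⟨L, hL, hiso⟩ := B.exists_chart hk hM ho
  exact B.exists_isometry ho hL hiso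

end Pool.Agent.Work.MP_8c604c_gt.H
end
end

-- merged part: Pool.Agent.Work.MP_8c604c_gt.B.ND
section
/-!
The negative bundle.
-/

set_option maxSynthPendingDepth 3
set_option linter.unusedSectionVars false

open Set Filter Topology MeasureTheory
open scoped ContDiff Quaternion

noncomputable section
namespace Pool.Agent.Work.MP_8c604c_gt.H

open T B Real

variable {n : ℕ} {g : Met n}

/-- A family of fields with a negative definite `k`-dimensional subfamily at every point of `U`. -/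
def NegOn (G : Geo g) (k : ℕ) (U : Set (VV n)) : Prop :=
  ∃ (N : ℕ) (X : VV n → RN N →L[ℝ] E n), (∀ a, Fld g fun x => X x a) ∧
    ∀ x ∈ U, ∃ j : RN k →L[ℝ] RN N, ∀ b, b ≠ 0 →
      G.ix (fun y => X y (j b)) (fun y => X y (j b)) x < 0

theorem Fld.add {ξ η : VV n → E n} (hξ : Fld g ξ) (hη : Fld g η) : Fld g fun x => ξ x + η x :=
  ⟨hξ.smooth.add hη.smooth, fun l m c x hl hm hx => by
    simp only [hξ.eqv l m c x hl hm hx, hη.eqv l m c x hl hm hx, smul_add],
    fun x hx => by rw [map_add, hξ.perp x hx, hη.perp x hx, add_zero]⟩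

theorem NegOn.union {G : Geo g} {k : ℕ} {U U' : Set (VV n)} (h : NegOn G k U)
    (h' : NegOn G k U') : NegOn G k (U ∪ U') := by
  obtain ⟨N, X, X1, X2⟩ := h
  obtain ⟨N', X', X1', X2'⟩ := h'
  let e := toEuclidean (E := RN N × RN N')
  refine ⟨_, fun x => ((X x).coprod (X' x)).comp (e.symm : _ →L[ℝ] _),
    fun a => (X1 (e.symm a).1).add (X1' (e.symm a).2), ?_⟩
  rintro x (hx | hx)
  · obtain ⟨j, hj⟩ := X2 x hx
    refine ⟨(e.toContinuousLinearMap.comp (ContinuousLinearMap.inl ℝ _ _)).comp j, fun b hb => ?_⟩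
    simpa using hj b hb
  · obtain ⟨j, hj⟩ := X2' x hx
    refine ⟨(e.toContinuousLinearMap.comp (ContinuousLinearMap.inr ℝ _ _)).comp j, fun b hb => ?_⟩
    simpa using hj b hb

theorem nd_open {X V : Type} [TopologicalSpace X] [NormedAddCommGroup V] [NormedSpace ℝ V]
    [FiniteDimensional ℝ V] {A : X → V →L[ℝ] V →L[ℝ] ℝ} {x : X} (hA : ContinuousAt A x)
    (h : ∀ a, a ≠ 0 → A x a a < 0) : ∀ᶠ y in 𝓝 x, ∀ a, a ≠ 0 → A y a a < 0 := by
  have h1 : ∀ᶠ y in 𝓝 x, ∀ a ∈ Metric.sphere (0 : V) 1, A y a a < 0 := by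
    refine (isCompact_sphere 0 1).eventually_forall_of_forall_eventually fun a ha => ?_
    have c : ContinuousAt (fun p : X × V => A p.1 p.2 p.2) (x, a) :=
      ((hA.comp_of_eq continuousAt_fst rfl).clm_apply continuousAt_snd).clm_apply continuousAt_snd
    exact c.eventually_lt_const (h a (ne_zero_of_mem_unit_sphere ⟨a, ha⟩))
  filter_upwards [h1] with y hy a ha
  have n0 := norm_pos_iff.2 ha
  have := hy (‖a‖⁻¹ • a) (by simp [norm_smul, n0.ne'])
  simp only [map_smul, smul_apply, smul_eq_mul] at this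
  exact neg_of_mul_neg_right (neg_of_mul_neg_right this (inv_pos.2 n0).le) (inv_pos.2 n0).le

/-- The vector representing a linear form. -/
def ndF (N : ℕ) : (RN N →L[ℝ] ℝ) →L[ℝ] RN N :=
  ∑ i, (ContinuousLinearMap.apply ℝ ℝ (EuclideanSpace.basisFun (Fin N) ℝ i)).smulRight
    (EuclideanSpace.basisFun (Fin N) ℝ i)

theorem inner_ndF {N : ℕ} (φ : RN N →L[ℝ] ℝ) (u : RN N) : inner ℝ (ndF N φ) u = φ u := by
  conv_rhs => rw [← (EuclideanSpace.basisFun (Fin N) ℝ).sum_repr' u]
  simp only [ndF, sum_apply, ContinuousLinearMap.smulRight_apply, ContinuousLinearMap.apply_apply,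
    sum_inner, real_inner_smul_left, map_sum, map_smul, smul_eq_mul, mul_comm]

theorem Bl.negOn {G : Geo g} (B : Bl g G) {k : ℕ} (hk : ∀ x ∈ OO n, G.kk x = k) :
    NegOn G k (OO n) := by
  have h := B.met
  have h1 : NegOn G k (slice n) := by
    refine isCompact_slice.induction_on ⟨0, fun _ => 0, fun a => ⟨contDiffOn_const,
      fun _ _ _ _ _ _ _ => by simp, fun _ _ => by simp⟩, fun _ hx => hx.elim⟩
      (fun s t hst ⟨N, X, X1, X2⟩ => ⟨N, X, X1, fun x hx => X2 x (hst hx)⟩)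
      (fun s t => NegOn.union) fun x hx => ?_
    have hx := slice_subset hx
    obtain ⟨X, X1, X2⟩ := B.nf_neg hk hx
    have hX := Fld.fam X1
    have := nd_open ((G.contDiffOn_ixB h hX).continuousOn.continuousAt (isOpen_OO.mem_nhds hx))
      fun a ha => by rw [G.ixB_apply h hX hx]; exact X2 a ha
    refine ⟨_, mem_nhdsWithin_of_mem_nhds (this.and (isOpen_OO.mem_nhds hx)), k, X, X1,
      fun y hy => ⟨ContinuousLinearMap.id ℝ _, fun b hb => ?_⟩⟩
    exact (G.ixB_apply h hX hy.2 b b).symm.trans_lt (hy.1 b hb)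
  obtain ⟨N, X, X1, X2⟩ := h1
  refine ⟨N, X, X1, fun x hx => ?_⟩
  obtain ⟨y, hy, l, m, c, hl, hm, rfl⟩ := exists_slice hx
  obtain ⟨j, hj⟩ := X2 y hy
  refine ⟨j, fun b hb => ?_⟩
  rw [G.ix_inv h (X1 _) (X1 _) _ _ _ _ (coe_ne_zero hl.ne') hm (slice_subset hy)]
  exact hj b hb

theorem Bl.exists_ND {G : Geo g} (B : Bl g G) {k : ℕ} (hk : ∀ x ∈ OO n, G.kk x = k) :
    Nonempty (ND G k) := by
  have h := B.met
  obtain ⟨N, X, X1, X2⟩ := B.negOn hk
  have hX := Fld.fam X1
  obtain ⟨P, hP⟩ := exists_negP (V := RN N)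
  obtain ⟨P1, P2⟩ := hP k
  let A : VV n → RN N →L[ℝ] RN N := fun x => (ndF N).comp (G.ixB X x)
  have hA : ∀ x ∈ OO n, ∀ a b, inner ℝ (A x a) b = G.ix (fun y => X y a) (fun y => X y b) x :=
    fun x hx a b => (inner_ndF _ _).trans (G.ixB_apply h hX hx a b)
  have cA : ContinuousOn A (OO n) := continuousOn_const.clm_comp (G.contDiffOn_ixB h hX).continuousOn
  let R : VV n → RN N →L[ℝ] E n := fun x =>
    (G.KP x).comp (X x - (G.bkL x).comp (X (G.psi (π / 2) x)))
  have hR : ∀ x a, R x a = G.KP x (G.rho (fun y => X y a) x) := fun x a => rfl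
  have R0 : ∀ x ∈ OO n, ∀ a, R x a = 0 → 0 ≤ inner ℝ (A x a) a := fun x hx a ha => by
    rw [hA x hx]
    refine B.ix_nonneg (X1 a) hx fun u hu => ?_
    rw [← G.g_KP h hx hu, ← hR, ha, map_zero]
  have Rm : ∀ x ∈ OO n, ∀ a, R x a ∈ G.KS x := fun x hx a => G.KP_mem h hx _
  have hI : ∀ x ∈ OO n, Idx k (A x) := fun x hx => by
    refine ⟨fun u v => ?_, ?_, LinearMap.ker (R x : RN N →ₗ[ℝ] E n), ?_, R0 x hx⟩
    · rw [hA x hx, real_inner_comm, hA x hx, G.ix_symm h hx]
    · obtain ⟨j, hj⟩ := X2 x hx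
      have i : Function.Injective (j : RN k →ₗ[ℝ] RN N) :=
        (injective_iff_map_eq_zero _).2 fun b hb => by
          by_contra b0
          have := hj b b0
          rw [← hA x hx, show j b = 0 from hb, inner_zero_right] at this
          exact this.false
      refine ⟨LinearMap.range (j : RN k →ₗ[ℝ] RN N), by
        rw [LinearMap.finrank_range_of_inj i, finrank_euclideanSpace_fin], ?_⟩
      rintro _ ⟨b, rfl⟩ hb
      rw [hA x hx]
      exact hj b fun b0 => hb (by rw [b0, map_zero])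
    · have h1 := (R x : RN N →ₗ[ℝ] E n).finrank_range_add_finrank_ker
      have h2 : Module.finrank ℝ (LinearMap.range (R x : RN N →ₗ[ℝ] E n)) ≤ G.kk x :=
        Submodule.finrank_mono (by rintro _ ⟨a, rfl⟩; exact Rm x hx a)
      rw [hk x hx] at h2
      omega
  have eA : ∀ x ∈ OO n, ∀ y ∈ OO n, (∀ a b, G.ix (fun y => X y a) (fun y => X y b) x =
      G.ix (fun y => X y a) (fun y => X y b) y) → P (A x) = P (A y) := fun x hx y hy e => by
    congr 1
    ext1 a
    exact ext_inner_right ℝ fun b => by rw [hA x hx, hA y hy, e]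
  have iK : Inv fun x => P (A x) := fun l m c x hl hm hx =>
    eA _ (act_mem c hl hm hx) _ hx fun a b => G.ix_inv h (X1 a) (X1 b) l m c x hl hm hx
  have cK : ContinuousOn (fun x => P (A x)) (OO n) := P1.comp cA hI
  obtain ⟨δ, δ0, hδ⟩ := negP_uniform isCompact_slice (cA.mono slice_subset) (cK.mono slice_subset)
    fun x hx => (P2 _ (hI x (slice_subset hx))).neg
  have cψ : ContinuousOn (G.psi (π / 2)) (OO n) := fun x hx =>
    (G.jac_dpsi h _ hx).continuousAt.continuousWithinAt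
  refine ⟨⟨N, X, hX, X1, fun x => P (A x), cK, iK, fun t x hx =>
    eA _ (G.psi_mem h t hx) _ hx fun a b => B.ix_psi (X1 a) (X1 b) t hx,
    fun x hx => (P2 _ (hI x hx)).idem, fun x hx => (P2 _ (hI x hx)).symm,
    fun x hx => (P2 _ (hI x hx)).rank, δ, δ0, fun x hx a ha => ?_, R,
    B.contDiffOn_KP.continuousOn.clm_comp (hX.continuousOn.sub ((G.continuousOn_bkL h).clm_comp
      (hX.continuousOn.comp cψ fun x hx => G.psi_mem h _ hx))),
    fun a l m c x hl hm hx => ?_, Rm, fun x hx u hu => ?_, fun x hx a => ?_⟩⟩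
  · obtain ⟨y, hy, l, m, c, hl, hm, rfl⟩ := exists_slice hx
    have l0 := coe_ne_zero hl.ne'
    rw [G.ix_inv h (X1 _) (X1 _) _ _ _ _ l0 hm (slice_subset hy), ← hA y (slice_subset hy)]
    exact hδ y hy a ((DFunLike.congr_fun (iK _ _ _ _ l0 hm (slice_subset hy)) a).symm.trans ha)
  · simp only [hR]
    rw [G.rho_eqv h (X1 a).eqv _ _ _ _ hl hm hx, G.KP_act h hx c hl hm]
  · have Q := P2 _ (hI x hx)
    let W := LinearMap.range (P (A x) : RN N →ₗ[ℝ] RN N)
    have hW : ∀ a ∈ W, P (A x) a = a := by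
      rintro _ ⟨b, rfl⟩
      exact Q.idem b
    let φ : W →ₗ[ℝ] G.KS x := ((R x : RN N →ₗ[ℝ] E n).comp W.subtype).codRestrict _
      fun a => Rm x hx a
    have i : Function.Injective φ := (injective_iff_map_eq_zero _).2 fun a ha => by
      by_contra a0
      exact (Q.neg a (fun k => a0 (Subtype.ext k)) (hW _ a.2)).not_ge
        (R0 x hx a (congrArg Subtype.val ha))
    obtain ⟨a, ha⟩ := (LinearMap.injective_iff_surjective_of_finrank_eq_finrank
      (Q.rank.trans (hk x hx).symm)).1 i ⟨u, hu⟩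
    exact ⟨a, hW _ a.2, congrArg Subtype.val ha⟩
  · rw [← G.g_KP h hx (Rm x hx a), ← hR]
    exact h.nonneg hx.1 _

end Pool.Agent.Work.MP_8c604c_gt.H
end
end

-- merged part: Pool.Agent.Work.MP_8c604c_gt.B.G4B
section
/-!
The pushed broken geodesics are short.
-/

set_option maxSynthPendingDepth 3

open Set Filter Topology MeasureTheory
open scoped ContDiff Quaternion

noncomputable section
namespace Pool.Agent.Work.MP_8c604c_gt.H

open T B Real

variable {n : ℕ} {g : Met n}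

variable {G : Geo g} {k : ℕ}

namespace ND
variable (D : ND G k)

/-- The field along the tilted arc. -/
def gE (y : VV n) (κ : E n) (a : RN D.N) (t : ℝ) : E n := G.gm y κ t • D.X (G.psi t y) a

/-- Its derivative. -/
def gE' (y : VV n) (κ : E n) (a : RN D.N) (t : ℝ) : E n :=
  G.gm y κ t • D.dX (t, y) a + ((1 / (π / 2)) • (G.gc y κ - 1)) • D.X (G.psi t y) a

/-- The density of its second variation. -/
def gF (y : VV n) (κ : E n) (a : RN D.N) (t : ℝ) : ℝ :=
  D2 g (G.Z t (gx g y κ), vel g (G.psi t (gx g y κ))) (D.gE y κ a t, D.gE' y κ a t)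
    (D.gE y κ a t, D.gE' y κ a t)

variable (h : IsMetric g) {y : VV n} (hy : y ∈ OO n)
include h hy

theorem gE_deriv (κ : E n) (a : RN D.N) (t : ℝ) : HasDerivAt (D.gE y κ a) (D.gE' y κ a t) t :=
  (gm_deriv y κ t).smul (D.deriv_X h t hy a)

theorem gE_cont : ContinuousOn (fun p : E n × RN D.N × ℝ => D.gE y p.1 p.2.1 p.2.2)
    {p | gx g y p.1 ∈ OO n} ∧ ContinuousOn (fun p : E n × RN D.N × ℝ => D.gE' y p.1 p.2.1 p.2.2)
    {p | gx g y p.1 ∈ OO n} := by
  have c0 : ContinuousOn (fun p : E n × RN D.N × ℝ => G.gc y p.1) {p | gx g y p.1 ∈ OO n} :=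
    (gc_cont h y).comp (f := fun p : E n × RN D.N × ℝ => p.1) continuousOn_fst fun _ hp => hp
  have c3 : Continuous fun p : E n × RN D.N × ℝ => D.X (G.psi p.2.2 y) p.2.1 :=
    ((D.line_X h hy).comp (f := fun p : E n × RN D.N × ℝ => p.2.2) (by fun_prop)).clm_apply
      (by fun_prop)
  have c4 : Continuous fun p : E n × RN D.N × ℝ => D.dX (p.2.2, y) p.2.1 :=
    ((D.line_dX h hy).comp (f := fun p : E n × RN D.N × ℝ => p.2.2) (by fun_prop)).clm_apply
      (by fun_prop)
  have c1 := c0.fun_sub (continuousOn_const (c := (1 : ℍ)))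
  have c5 : Continuous fun p : E n × RN D.N × ℝ => p.2.2 / (π / 2) :=
    continuous_snd.snd.div_const _
  have c2 := (continuousOn_const (c := (1 : ℍ))).fun_add (c5.continuousOn.fun_smul c1)
  have c6 := (continuousOn_const (c := 1 / (π / 2))).fun_smul c1
  unfold gE gE' Geo.gm
  exact ⟨c2.fun_smul c3.continuousOn,
    (c2.fun_smul c4.continuousOn).fun_add (c6.fun_smul c3.continuousOn)⟩

theorem gF_cont : ContinuousOn (fun p : E n × RN D.N × ℝ => D.gF y p.1 p.2.1 p.2.2)
    {p | gx g y p.1 ∈ OO n} := by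
  obtain ⟨c1, c2⟩ := D.gE_cont h hy
  have c0 : Continuous fun p : E n × RN D.N × ℝ => (p.2.2, gx g y p.1) := by
    unfold gx; fun_prop
  have c3 := (G.contDiffOn_Z h).continuousOn.comp (s := {p : E n × RN D.N × ℝ | gx g y p.1 ∈ OO n})
    c0.continuousOn fun _ hp => hp
  have c4 := (G.jacA_vel h).continuousOn.comp (s := {p : E n × RN D.N × ℝ | gx g y p.1 ∈ OO n})
    c0.continuousOn fun _ hp => hp
  exact ((h.nc_cont_D2.comp (c3.prodMk c4) fun p hp => G.Z_ne h _ hp).clm_apply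
    (c1.prodMk c2)).clm_apply (c1.prodMk c2)

theorem gF_zero (a : RN D.N) (t : ℝ) : D.gF y 0 a t = D2 g (G.Z t y, vel g (G.psi t y))
    (D.X (G.psi t y) a, D.dX (t, y) a) (D.X (G.psi t y) a, D.dX (t, y) a) := by
  simp only [gF, gE, gE', gx_zero_Z h hy, gx_zero_vel h hy, gm_zero' h hy, gc_zero h hy, one_smul,
    sub_self, smul_zero, zero_smul, add_zero]

theorem gF_near {η : ℝ} (hη : 0 < η) : ∃ r : ℝ, 0 < r ∧ ∀ κ : E n, ‖κ‖ ≤ r → gx g y κ ∈ OO n ∧
    ∀ a : RN D.N, ‖a‖ ≤ 1 → ∀ t ∈ Icc 0 (π / 2), D.gF y κ a t ≤ D.gF y 0 a t + η := by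
  have hc : Continuous (gx g y) := by unfold gx; fun_prop
  have ho : IsOpen {p : E n × RN D.N × ℝ | gx g y p.1 ∈ OO n} :=
    isOpen_OO.preimage (hc.comp continuous_fst)
  have h1 : ∀ᶠ κ in 𝓝 (0 : E n), gx g y κ ∈ OO n :=
    (isOpen_OO.preimage hc).mem_nhds (gx_zero_mem h hy)
  have hK : IsCompact (Metric.closedBall (0 : RN D.N) 1 ×ˢ Icc (0 : ℝ) (π / 2)) :=
    (isCompact_closedBall _ _).prod isCompact_Icc
  have h2 := hK.eventually_forall_of_forall_eventually (x₀ := (0 : E n))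
    (P := fun κ q => D.gF y κ q.1 q.2 < D.gF y 0 q.1 q.2 + η) fun q _ => by
      have c1 := (D.gF_cont h hy).continuousAt (ho.mem_nhds (x := (0, q)) (gx_zero_mem h hy))
      have c2 : ContinuousAt (fun p : E n × RN D.N × ℝ => D.gF y 0 p.2.1 p.2.2 + η) (0, q) :=
        (c1.comp_of_eq (f := fun p : E n × RN D.N × ℝ => (0, p.2)) (by fun_prop) rfl).add
          continuousAt_const
      exact c1.eventually_lt c2 (lt_add_of_pos_right _ hη)
  obtain ⟨r, hr, H⟩ := Metric.eventually_nhds_iff_ball.1 (h1.and h2)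
  refine ⟨r / 2, by positivity, fun κ hκ => ?_⟩
  have := H κ (mem_ball_zero_iff.2 (by linarith))
  exact ⟨this.1, fun a ha t ht => (this.2 (a, t) ⟨mem_closedBall_zero_iff.2 ha, ht⟩).le⟩

end ND

theorem Bl.g4_core (B : Bl g G) (hk : ∀ x ∈ OO n, G.kk x = k) (D : ND G k) {y : VV n}
    (hy : y ∈ OO n) : ∃ d ε : ℝ, 0 < d ∧ 0 < ε ∧ ∀ s ∈ Icc 0 d, ∀ σ ∈ Icc 0 ε, ∀ a : RN D.N,
      ‖a‖ ≤ 1 → (∀ t ∈ Icc 0 (π / 2),
        G.Z t (gx g y (σ • D.R y a)) + s • D.gE y (σ • D.R y a) a t ≠ 0) ∧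
      (∀ t ∈ Icc (π / 2) π, G.Z t y + s • D.X (G.psi t y) a ≠ 0) ∧
      (0 < s → D.K y a = a → ‖a‖ = 1 →
        Var B.met (fun t => G.Z t (gx g y (σ • D.R y a)) + s • D.gE y (σ • D.R y a) a t) 0 (π / 2) +
        Var B.met (fun t => G.Z t y + s • D.X (G.psi t y) a) (π / 2) π < ENNReal.ofReal π) := by
  have h := B.met
  have hp := pi_pos
  have hδ := D.δ_pos
  obtain ⟨r, hr, Hr⟩ := D.gF_near h hy (η := D.δ / π) (by positivity)
  have hc : Continuous (gx g y) := by unfold gx; fun_prop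
  obtain ⟨C₁, d₁, hC₁, hd₁, H₁⟩ := G.piece h ((isCompact_closedBall 0 r).image hc)
    (by rintro _ ⟨κ, hκ, rfl⟩; exact (Hr κ (mem_closedBall_zero_iff.1 hκ)).1) π
  obtain ⟨C₂, d₂, hC₂, hd₂, H₂⟩ := D.piece h isCompact_singleton (singleton_subset_iff.2 hy)
  obtain ⟨M, hM, hb⟩ := D.bound h isCompact_singleton (singleton_subset_iff.2 hy)
  refine ⟨Min.min (d₁ / (5 * M)) (Min.min d₂ (D.δ / 2 / (4 * (C₁ * (5 * M) ^ 3 + C₂)))),
    r / (‖D.R y‖ + 1), by positivity, by positivity, fun s hs σ hσ a ha => ?_⟩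
  obtain ⟨s0, s1⟩ := hs
  rw [le_min_iff, le_min_iff] at s1
  obtain ⟨s1, s2, s3⟩ := s1
  have hκ : σ • D.R y a ∈ G.KS y := Submodule.smul_mem _ _ (D.memR y hy a)
  have hκr : ‖σ • D.R y a‖ ≤ r := by
    rw [norm_smul, Real.norm_of_nonneg hσ.1]
    have k1 := (le_div_iff₀ (by positivity)).1 hσ.2
    have k2 := mul_le_mul_of_nonneg_left ((D.R y).unit_le_opNorm a ha) hσ.1
    nlinarith [hσ.1]
  have hpos : 0 ≤ g y.1 (σ • D.R y a) (G.rho (fun z => D.X z a) y) := by
    rw [map_smul, smul_apply]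
    exact mul_nonneg hσ.1 (D.posR y hy a)
  generalize σ • D.R y a = κ at hκ hκr hpos
  obtain ⟨hx, hF⟩ := Hr κ hκr
  have cE : Continuous (D.gE' y κ a) := (D.gE_cont h hy).2.comp_continuous
    (f := fun t : ℝ => (κ, a, t)) (by fun_prop) fun _ => hx
  obtain ⟨n1, l₁, p1, v1, b1⟩ := H₁ _ ⟨κ, mem_closedBall_zero_iff.2 hκr, rfl⟩ 0 (π / 2)
    (by linarith) (by positivity) (by linarith) (fun t => s • D.gE y κ a t)
    (fun t => s • D.gE' y κ a t) (s * (5 * M)) (fun t _ => (D.gE_deriv h hy κ a t).const_smul s)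
    (cE.const_smul s).continuousOn (fun t ht => by
      obtain ⟨k1, k2⟩ := hb y rfl t ⟨ht.1, ht.2.trans (by linarith)⟩ a ha
      obtain ⟨k3, k4⟩ := B.gm_norm hk hy hκ ht
      have k5 := mul_le_mul k3 k1 (norm_nonneg _) (by norm_num)
      have k6 := mul_le_mul k3 k2 (norm_nonneg _) (by norm_num)
      have k7 := mul_le_mul k4 k1 (norm_nonneg _) (by norm_num)
      rw [← norm_smul] at k5 k6 k7
      rw [norm_smul, norm_smul, Real.norm_of_nonneg s0]
      refine ⟨mul_le_mul_of_nonneg_left (k5.trans (by linarith)) s0,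
        mul_le_mul_of_nonneg_left ((norm_add_le _ _).trans ?_) s0⟩
      linarith)
    ((le_div_iff₀ (by positivity)).1 s1)
  obtain ⟨n2, l₂, p2, v2, b2⟩ := H₂ y rfl a ha s ⟨s0, s2⟩ (π / 2) π (by positivity) (by linarith)
    le_rfl
  refine ⟨n1, n2, fun s0' hK ha' => ((add_le_add v1 v2).trans_eq
    (ENNReal.ofReal_add p1 p2).symm).trans_lt ((ENNReal.ofReal_lt_ofReal_iff hp).2 ?_)⟩
  have e1 : ∀ t, D2 g (G.Z t (gx g y κ), vel g (G.psi t (gx g y κ)))
      (s • D.gE y κ a t, s • D.gE' y κ a t) (s • D.gE y κ a t, s • D.gE' y κ a t) =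
      s ^ 2 * D.gF y κ a t := fun t => by
    simp only [ND.gF, D2, ← Prod.smul_mk, map_smul, smul_apply, smul_eq_mul]
    ring
  have f1 := B.gx_first hk hy (D.fld a) hκ hpos
  have f2 : D.gE y κ a 0 = D.X y a := by rw [ND.gE, gm_zero, one_smul, G.psi_zero h hy]
  have f3 : D.gE y κ a (π / 2) = G.gc y κ • D.X (G.psi (π / 2) y) a := by rw [ND.gE, gm_half]
  simp only [e1, intervalIntegral.integral_const_mul, map_smul, f2, f3, dist_Z_zero G h hx,
    G.psi_zero h hx, smul_eq_mul] at b1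
  have f4 := mul_le_mul_of_nonneg_left f1 s0
  have cF : ∀ κ, gx g y κ ∈ OO n → Continuous (D.gF y κ a) := fun κ hκ =>
    (D.gF_cont h hy).comp_continuous (f := fun t : ℝ => (κ, a, t)) (by fun_prop) fun _ => hκ
  have c0 := cF 0 (gx_zero_mem h hy)
  have i1 : ∫ t in (0 : ℝ)..π / 2, D.gF y κ a t ≤ ∫ t in (0 : ℝ)..π / 2, (D.gF y 0 a t + D.δ / π) :=
    intervalIntegral.integral_mono_on (by positivity) ((cF κ hx).intervalIntegrable _ _)
      ((c0.add continuous_const).intervalIntegrable _ _) (hF a ha)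
  rw [intervalIntegral.integral_add (c0.intervalIntegrable _ _) intervalIntegrable_const,
    intervalIntegral.integral_const, smul_eq_mul,
    show (π / 2 - 0) * (D.δ / π) = D.δ / 2 by field_simp; ring] at i1
  have i2 := D.neg y hy a hK
  simp only [← D.gF_zero h hy] at b2
  rw [D.ix_eq h hy, ha'] at i2
  simp only [← D.gF_zero h hy] at i2
  rw [← intervalIntegral.integral_add_adjacent_intervals (b := π / 2) (c0.intervalIntegrable _ _)
    (c0.intervalIntegrable _ _)] at i2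
  have k1 := push_small (half_pos hδ) (by positivity) s0' s3
  have k2 := mul_le_mul_of_nonneg_left (add_le_add i1 i2) (by positivity : 0 ≤ s ^ 2 / 2)
  have k3 : (gx g y κ).1 = y.1 := rfl
  rw [k3] at b1
  nlinarith

end Pool.Agent.Work.MP_8c604c_gt.H
end
end
end
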