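import Pool.Agent.Work.MP_8c604c_gt.B.G4A
import Pool.Agent.Work.MP_8c604c_gt.B.G4B
import Pool.Agent.Work.MP_8c604c_gt.B.G4

/-!
The output of block B: a Blaschke metric gives the data of the topology side.
-/

set_option maxSynthPendingDepth 3

open Set Filter Topology MeasureTheory
open scoped ContDiff Quaternion

noncomputable section
namespace Pool.Agent.Work.MP_8c604c_gt.H

open T B Real

variable {n : ℕ} {g : Met n}

variable {G : Geo g}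

namespace Bl
variable (B : Bl g G)
include B

theorem exists_TD0 : ∃ k, Nonempty (TD0 n k) ∧ ∀ x ∈ OO n, G.kk x = k := by
  obtain ⟨k, hk⟩ := B.exists_kk
  exact ⟨k, ⟨B.td0 hk⟩, hk⟩

theorem out_nonempty : (OO n).Nonempty := by
  have h := B.two
  refine ⟨(PiLp.single 2 0 1, PiLp.single 2 ⟨1, by omega⟩ 1), fun e => ?_, fun c e => ?_⟩
  · simpa using congrArg (fun z : E n => z 0) e
  · simpa using congrArg (fun z : E n => z ⟨1, by omega⟩) e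

theorem out_BW {k : ℕ} (hk : ∀ x ∈ OO n, G.kk x = k) (D : ND G k) {c : LM n} (hc : c ∈ G.SS)
    (X : AM n) : (∃ c' ∈ G.SS, Lk c c' ∧ ∃ r : ℝ, 0 ≤ r ∧ X = r • vl c') ↔
      ∃ (t : ℝ) (a : RN D.N), D.KL c a = a ∧ X = t • vl c + D.BL c a := by
  obtain ⟨x, hx, rfl⟩ := hc
  simp only [B.KL_lp D hx, B.BL_lp D hx, B.vl_lp hx, ← map_smul, ← map_add]
  constructor
  · rintro ⟨c', hc', hl, r, -, rfl⟩
    obtain ⟨w, hw, hW, hv, rfl, -⟩ := B.exists_of_lk hx hc' hl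
    obtain ⟨t, κ, hκ, e⟩ := (Geo.mem_WS_iff B.met hx).1 ((G.WS x).smul_mem r hW)
    obtain ⟨a, ha, rfl⟩ := D.surjR x hx κ hκ
    exact ⟨t, a, ha, by rw [B.vl_lp hw, hv, ← map_smul, e]⟩
  · rintro ⟨t, a, -, rfl⟩
    obtain ⟨h0, hJ⟩ := Geo.mem_WS.1 ((Geo.mem_WS_iff B.met hx).2 ⟨t, _, D.memR x hx a, rfl⟩)
    generalize t • vel g x + D.R x a = u at h0 hJ
    by_cases e : u = 0
    · exact ⟨_, ⟨x, hx, rfl⟩, ⟨rfl, rfl⟩, 0, le_rfl, by rw [e, map_zero, zero_smul]⟩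
    have hw : (x.1, u) ∈ OO n := mem_OO.2 ⟨hx.1, by rwa [hor_of_nu h0]⟩
    refine ⟨_, ⟨_, hw, rfl⟩, B.lk_of_WS hk hx hw hJ, spd g (x.1, u), (B.met.spd_pos hw).le, ?_⟩
    rw [B.vl_lp hw, ← map_smul, ← td_hor B.met hw, hor_of_nu h0]

theorem exists_TD (hk : ∀ x ∈ OO n, G.kk x = 3) : ∃ (D : TD n) (F : VV n → Fin (4 * n) → ℂ), ContDiffOn ℝ ∞ F (OO n) ∧ Inv F ∧
    (∀ t, ∀ x ∈ OO n, F (G.psi t x) = Complex.exp (2 * t * Complex.I) • F x) ∧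
    (∀ c, c ∈ D.S ↔ ∃ x ∈ OO n, c = G.lp x) ∧
    ∀ x ∈ OO n, G.lp x 1 = pr x.1 ∧ D.vel (G.lp x) = fderiv ℝ pr x.1 (vel g x) ∧
      D.Φ (G.lp x) = F x := by
  have hm := B.met
  obtain ⟨D⟩ := B.exists_ND hk
  obtain ⟨P⟩ := B.exists_PD D
  obtain ⟨F, F1, F2, F3, F4⟩ := B.exists_F
  obtain ⟨x, hx⟩ := B.out_nonempty
  obtain ⟨d, d0, hd⟩ := B.exists_QD hk D hx
  have hε := P.ε_pos
  set s0 : ℝ := Min.min (1 / 2) (d / P.ε) with hs0
  have s1 : 0 < s0 := lt_min (by norm_num) (div_pos d0 hε)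
  have s2 : s0 ≤ 1 / 2 := min_le_left _ _
  obtain ⟨Q⟩ := hd (s0 * P.ε) ⟨mul_pos s1 hε, (le_div_iff₀ hε).1 (min_le_right _ _)⟩
  have hy := G.psi_mem hm (π / 4) hx
  have hK := B.KL_lp D hx
  have hw : ∀ a, ((G.psi (π / 4) x).1, vel g (G.psi (π / 4) x) +
      Q.ε • D.R (G.psi (π / 4) x) a) ∈ OO n := fun a =>
    Geo.add_KS_mem hm hy (Submodule.smul_mem _ _ (D.memR _ hy a))
  refine ⟨{ B.td0 hk with
    N := D.N
    K := D.KL
    cK := B.continuousOn_KL D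
    idK := fun c hc => D.idK _ (Geo.sec_mem hc).1
    syK := fun c hc => D.syK _ (Geo.sec_mem hc).1
    rkK := fun c hc => D.rkK _ (Geo.sec_mem hc).1
    invK := fun θ c hc => B.KL_sh D θ hc
    B := D.BL
    cB := B.continuousOn_BL D
    BW := fun c hc => B.out_BW hk D hc
    Hh := P.Hh
    cH := P.cH
    memH := P.memH
    eqH := P.eqH
    H0 := ?_
    H1 := P.H1
    short := P.short
    c0 := G.lp x
    c0S := ⟨x, hx, rfl⟩
    s0 := s0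
    s0I := ⟨s1, by linarith⟩
    Q := Q.Q
    cQ := by rw [hK]; exact Q.cQ
    memQ := by rw [hK]; exact Q.memQ
    Q0 := ?_
    Qb := by rw [hK]; exact Q.Qb
    g := fun a => G.lp ((G.psi (π / 4) x).1, vel g (G.psi (π / 4) x) +
      Q.ε • D.R (G.psi (π / 4) x) a)
    ε := Q.ε
    εne := Q.ε_ne
    gS := ?_
    Q1 := ?_
    cut1 := fun c hc hl t ht h => B.td_cut hx hc hl ht h
    Φ := fun c => F (G.sec c)
    cΦ := B.continuousOn_sec F1.continuousOn F2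
    eqΦ := ?_
    neΦ := fun c hc => F3 _ (Geo.sec_mem hc).1 }, F, F1, F2, F4, ?_, fun y hy =>
      ⟨B.lp_one hy, B.vl_lp hy, B.inv_sec F2 hy⟩⟩
  · rintro ⟨_, a⟩ ⟨⟨y, hy, rfl⟩, h1, h2⟩
    refine loop_ext fun t _ => ?_
    rw [B.KL_lp D hy] at h1
    rw [P.push 0 ⟨le_rfl, by norm_num⟩ y hy a h1 h2, zero_mul, zero_smul, add_zero, B.lp_cs hy]
  · intro r hr a h1 h2
    rw [hK] at h1
    refine loop_ext fun t ht => ?_
    rw [Q.Q0 _ (by rw [map_smul, h1]) (by rw [norm_smul, h2, mul_one, Real.norm_of_nonneg hr.1]; exact hr.2) t ht,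
      P.push (s0 * r) ⟨mul_nonneg s1.le hr.1, by nlinarith [hr.2]⟩ x hx a h1 h2, map_smul, smul_smul,
      mul_right_comm]
  · intro a _ _
    have hW := Geo.mem_WS.1 ((Geo.mem_WS_iff hm hy).2
      ⟨1, _, Submodule.smul_mem _ Q.ε (D.memR _ hy a), rfl⟩)
    rw [one_smul] at hW
    rw [B.sh_lp hx]
    refine ⟨⟨_, hw a, rfl⟩, B.lk_of_WS hk hy (hw a) hW.2, _, inv_pos.2 (hm.spd_pos (hw a)), ?_⟩
    change vl _ = _ • (vl _ + _)
    rw [B.vl_lp (hw a), B.vl_lp hy, B.BL_lp D hy, ← map_smul (fderiv ℝ pr _), ← map_add,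
      ← map_smul (fderiv ℝ pr _)]
    exact congrArg (fun u => fderiv ℝ pr _ (_ • u)) (hor_of_nu hW.1)
  · intro a h1 h2 t ht
    rw [hK] at h1
    rw [B.lp_cs (hw a), B.lp_cs hx]
    exact Q.Q1 a h1 h2 t ht
  · rintro θ _ ⟨y, hy, rfl⟩
    obtain ⟨t, -, rfl⟩ := exists_cs θ
    rw [B.sh_lp hy, B.inv_sec F2 hy, B.inv_sec F2 (G.psi_mem hm t hy), F4 t y hy, coe_cs]
  · exact fun c => ⟨fun ⟨y, hy, e⟩ => ⟨y, hy, e.symm⟩, fun ⟨y, hy, e⟩ => ⟨y, hy, e.symm⟩⟩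

end Bl

end Pool.Agent.Work.MP_8c604c_gt.H
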